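import Pool.Agent.Lib.MP_5afa16_lc.ColourRun

/-! The branching program of the coloured straight line program. -/

namespace Pool.Agent.Lib.MP_5afa16_lc.Colour

open Pool.Agent.Lib.MP_5afa16_lc.Thrifty (Ins prog length_prog Mem Val Box2 St Code decode nsq)

open Relation

variable {k d : ℕ} (vec : Fin k → Fin d → ℤ) (col : (Fin d → ℤ) → ℤ)
  (ans : ℕ → ℕ → Fin k → Fin k → Fin k)
  (L : List Ins) {F R : Type} (dec : F → Mem d) (g : Fin k → R)

/-- Edges. -/
def Edge (q : St L F k) (c : Fin k) (u : St L F k ⊕ R) : Prop :=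
  ∃ ν, Step vec col L[q.1] q.2.2.1 q.2.2.2 c (dec q.2.1) ν ∧
    ((∃ q', u = Sum.inl q' ∧ q'.1.val = q.1.val + 1 ∧ dec q'.2.1 = ν) ∨
    (∃ c0, u = Sum.inr (g c0) ∧ q.1.val + 1 = L.length ∧ ν.1 0 = vec c0))

/-- Activated edges. -/
def Act (u u' : St L F k ⊕ R) : Prop :=
  ∃ q, u = Sum.inl q ∧ Edge vec col L dec g q (ans L[q.1].j L[q.1].i q.2.2.1 q.2.2.2) u'

theorem fwd (q0 : St L F k) (h0 : q0.1.val = 0) (u : St L F k ⊕ R)
    (h : ReflTransGen (Act vec col ans L dec g) (Sum.inl q0) u) : ∀ q, u = Sum.inl q →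
    ∃ tr, tr.map Prod.fst = L.take q.1 ∧
      Run vec col ans (fun _ => True) tr (dec q0.2.1) (dec q.2.1) := by
  induction h with
  | refl =>
    intro q hq
    obtain rfl : q0 = q := by simpa using hq
    exact ⟨[], by simp [h0], rfl⟩
  | tail _ h ih =>
    rintro q rfl
    obtain ⟨p, rfl, ν, hs, ⟨q', hq', h1, h2⟩ | ⟨c0, hq', _⟩⟩ := h
    · obtain rfl : q = q' := by simpa using hq'
      obtain ⟨tr, e1, e2⟩ := ih p rfl
      refine ⟨tr ++ [(L[p.1], p.2.2)], ?_, (run_append _ _ _ _ _ _ _ _).2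
        ⟨_, e2, trivial, ν, hs, h2⟩⟩
      rw [List.map_append, e1, h1, List.take_add_one]
      simp
    · cases hq'

theorem bwd (r : R) (u : St L F k ⊕ R)
    (h : ReflTransGen (Act vec col ans L dec g) u (Sum.inr r)) : ∀ q, u = Sum.inl q →
    ∃ tr μ c0, ((L[q.1], q.2.2) :: tr).map Prod.fst = L.drop q.1 ∧
      Run vec col ans (fun _ => True) ((L[q.1], q.2.2) :: tr) (dec q.2.1) μ ∧ μ.1 0 = vec c0 ∧
      r = g c0 := by
  induction h using ReflTransGen.head_induction_on with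
  | refl => intro q hq; cases hq
  | head h h' ih =>
    rintro q rfl
    obtain ⟨p, hp, ν, hs, ⟨q', rfl, h1, h2⟩ | ⟨c0, rfl, h1, h2⟩⟩ := h
    · obtain rfl : q = p := by simpa using hp
      obtain ⟨tr, μ, c0, e1, e2, e3⟩ := ih q' rfl
      refine ⟨_ :: tr, μ, c0, ?_, ⟨trivial, ν, hs, h2 ▸ e2⟩, e3⟩
      rw [List.map_cons, e1, h1, List.drop_eq_getElem_cons q.1.2]
      rfl
    · obtain rfl : q = p := by simpa using hp
      refine ⟨[], ν, c0, ?_, ⟨trivial, ν, hs, rfl⟩, h2, ?_⟩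
      · rw [List.drop_eq_getElem_cons q.1.2, h1, List.drop_length]
        rfl
      · rcases h'.cases_head with h3 | ⟨_, ⟨_, h3, _⟩, _⟩
        · exact (Sum.inr.inj h3).symm
        · cases h3

theorem reach (P : Mem d → Prop) (hP : ∀ μ, P μ → ∃ φ, dec φ = μ) (μ : Mem d) (c0 : Fin k)
    (hc : μ.1 0 = vec c0) (tr : List (Ins × Fin k × Fin k)) :
    ∀ (q : St L F k) (I : Ins), ((I, q.2.2) :: tr).map Prod.fst = L.drop q.1 →
      Run vec col ans P ((I, q.2.2) :: tr) (dec q.2.1) μ →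
      ReflTransGen (Act vec col ans L dec g) (Sum.inl q) (Sum.inr (g c0)) := by
  induction tr with
  | nil =>
    intro q I e hr
    rw [List.drop_eq_getElem_cons q.1.2] at e
    obtain ⟨rfl, e2⟩ := List.cons.inj e
    obtain ⟨_, ν, hs, rfl⟩ := hr
    refine ReflTransGen.single ⟨q, rfl, _, hs, Or.inr ⟨c0, rfl, ?_, hc⟩⟩
    have := List.drop_eq_nil_iff.1 e2.symm
    have := q.1.2
    omega
  | cons e' tr ih =>
    intro q I e hr
    rw [List.drop_eq_getElem_cons q.1.2] at e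
    obtain ⟨rfl, e2⟩ := List.cons.inj e
    obtain ⟨_, ν, hs, hr⟩ := hr
    obtain ⟨φ, rfl⟩ := hP ν hr.1
    have hlt : q.1.val + 1 < L.length := by
      by_contra hcon
      rw [List.drop_eq_nil_iff.2 (not_lt.1 hcon)] at e2
      cases e2
    exact ReflTransGen.head ⟨q, rfl, _, hs, Or.inl ⟨(⟨_, hlt⟩, φ, e'.2), rfl, rfl, rfl⟩⟩
      (ih (⟨_, hlt⟩, φ, e'.2) e'.1 e2 hr)

theorem exists_code (h B γ : ℕ) (μ : Mem d) (hμ : Box h B γ μ) :
    ∃ φ, decode h B γ φ = μ := by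
  obtain ⟨h1, h2⟩ := hμ
  refine ⟨(fun κ t => ⟨(μ.1 κ t + B).toNat, ?_⟩, fun sl => ⟨(μ.2 (sl.1, sl.2)).toNat, ?_⟩), ?_⟩
  · have := abs_le.1 (h1 κ t)
    omega
  · obtain ⟨a, b, _⟩ := h2 (sl.1, sl.2)
    omega
  · refine Prod.ext (funext fun κ => funext fun t => ?_) (funext fun sl => ?_)
    · have := abs_le.1 (h1 κ t)
      simp only [decode]
      omega
    · obtain ⟨a, b, c⟩ := h2 sl
      simp only [decode]
      split_ifs with hs
      · simp only [Prod.mk.eta]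
        omega
      · exact (c (not_lt.1 hs)).symm

theorem sep_inj (hvec : Sep vec col) : Function.Injective vec := by
  intro a z h
  refine hvec 0 z a ?_ ?_
  · rw [h]; simp
  · rw [h, two_smul]; simp

theorem main_graph (hvec : Sep vec col) (m γ : ℕ) (hm : ∀ c t, |vec c t| ≤ m)
    (hγ : ∀ x, 0 ≤ col x ∧ col x ≤ γ) (j : ℕ)
    (a0 : Fin k) : ∃ q0 : St (prog j 1 0 none) (Code d (j + 1) ((j + 1) * m) γ) k, ∀ (ans : ℕ → ℕ → Fin k → Fin k → Fin k) (v : ℕ → Fin k),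
      Val ans v j 1 →
      (∀ r, ReflTransGen (Act vec col ans _ (decode _ _ _) g) (Sum.inl q0) (Sum.inr r) ↔
        r = g (v 1)) ∧
      ∀ q r, ReflTransGen (Act vec col ans _ (decode _ _ _) g) (Sum.inl q0) (Sum.inl q) →
        ReflTransGen (Act vec col ans _ (decode _ _ _) g) (Sum.inl q) (Sum.inr r) →
        (prog j 1 0 none)[q.1].j ≠ 0 → q.2.2.1 = v (2 * (prog j 1 0 none)[q.1].i) ∧
          q.2.2.2 = v (2 * (prog j 1 0 none)[q.1].i + 1) := by
  have hb0 : Box2 (j + 1) (γ : ℤ) 0 :=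
    fun sl => ⟨le_rfl, by simp only [Pi.zero_apply]; positivity, fun _ => rfl⟩
  obtain ⟨φ0, hφ⟩ := exists_code (d := d) (j + 1) ((j + 1) * m) γ 0
    ⟨fun κ t => by simp only [Prod.fst_zero, Pi.zero_apply, abs_zero]; positivity, hb0⟩
  have hlen : 0 < (prog j 1 0 none).length := by
    have := length_prog j 1 0 none
    have h4 : 4 ^ 1 ≤ 4 ^ (j + 1) := Nat.pow_le_pow_right (by norm_num) (by omega)
    omega
  refine ⟨(⟨0, hlen⟩, φ0, a0, a0), fun ans v hv => ?_⟩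
  have key : ∀ q r,
      ReflTransGen (Act vec col ans _ (decode _ _ _) g) (Sum.inl (⟨0, hlen⟩, φ0, a0, a0)) (Sum.inl q) →
      ReflTransGen (Act vec col ans _ (decode _ _ _) g) (Sum.inl q) (Sum.inr r) → r = g (v 1) ∧
      ((prog j 1 0 none)[q.1].j ≠ 0 → q.2.2.1 = v (2 * (prog j 1 0 none)[q.1].i) ∧
          q.2.2.2 = v (2 * (prog j 1 0 none)[q.1].i + 1)) := by
    intro q r h1 h2
    obtain ⟨t1, e1, r1⟩ := fwd vec col ans _ _ g _ rfl _ h1 q rfl
    obtain ⟨t2, μ, c0, e2, r2, e3, rfl⟩ := bwd vec col ans _ _ g r _ h2 q rfl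
    obtain ⟨g1, g2⟩ := sound vec col ans v hvec _ j 1 0 none _ _ _ hv
      (by rw [List.map_append, e1, e2, List.take_append_drop])
      ((run_append _ _ _ _ _ _ _ _).2 ⟨_, r1, r2⟩)
    refine ⟨?_, g1 _ (List.mem_append_right _ List.mem_cons_self)⟩
    have := g2.r0
    simp only [hφ, Prod.fst_zero, Pi.zero_apply, zero_add] at this
    rw [sep_inj vec col hvec (e3.symm.trans this)]
  refine ⟨fun r => ⟨fun h => (key _ r ReflTransGen.refl h).1, ?_⟩, fun q r h1 h2 => (key q r h1 h2).2⟩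
  rintro rfl
  obtain ⟨I, tr, ν, e1, e2, _⟩ := complete vec col ans v hvec m hm (by positivity) (j + 1)
    (((j + 1) * m : ℕ) : ℤ) γ hγ a0 j 1 0 none 0 m hv (by omega) (by push_cast; linarith)
    (by simp) (by simpa using hm _) hb0 (by simp)
  obtain ⟨_, g2⟩ := sound vec col ans v hvec _ j 1 0 none _ _ _ hv e1 e2
  refine reach vec col ans _ _ g _ (exists_code (j + 1) ((j + 1) * m) γ) ν (v 1)
    (by simpa using g2.r0) tr _ I (by simpa using e1) (by simpa only [hφ] using e2)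


/-- The colouring by windows of squared lengths. -/
def wcol (d m : ℕ) (x : Fin d → ℤ) : ℤ := nsq x % (d * (2 * m ^ 2 + 2)) / d

theorem wcol_bd {d : ℕ} (hd : 1 ≤ d) (m : ℕ) (x : Fin d → ℤ) :
    0 ≤ wcol d m x ∧ wcol d m x ≤ (2 * m ^ 2 + 1 : ℕ) := by
  have hd' : (0 : ℤ) < d := by exact_mod_cast hd
  have hM : (0 : ℤ) < d * (2 * m ^ 2 + 2) := by positivity
  have h0 := Int.emod_nonneg (nsq x) hM.ne'
  have h1 := Int.emod_lt_of_pos (nsq x) hM
  refine ⟨Int.ediv_nonneg h0 hd'.le, ?_⟩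
  have : wcol d m x < 2 * m ^ 2 + 2 := by
    refine Int.ediv_lt_of_lt_mul hd' ?_
    exact h1.trans_eq (mul_comm _ _)
  push_cast
  omega

theorem wcol_sep {k d : ℕ} (hd : 1 ≤ d) (m : ℕ) (vec : Fin k → Fin d → ℤ)
    (h1 : ∀ z a t, |vec z t - vec a t| ≤ m)
    (h2 : ∀ z a, a ≠ z → (d : ℤ) ≤ ∑ t, |vec z t - vec a t|) : Sep vec (wcol d m) := by
  intro x z a e1 e2
  by_contra hne
  have hd' : (0 : ℤ) < d := by exact_mod_cast hd
  have h3 : nsq x + nsq (x + vec z - 2 • vec a + vec z) - 2 * nsq (x + vec z - vec a) =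
      2 * ∑ t, (vec z t - vec a t) ^ 2 := by
    simp only [nsq, Finset.mul_sum, ← Finset.sum_add_distrib, ← Finset.sum_sub_distrib]
    refine Finset.sum_congr rfl fun t _ => ?_
    simp only [Pi.add_apply, Pi.sub_apply, two_smul]
    ring
  have lo : (d : ℤ) ≤ ∑ t, (vec z t - vec a t) ^ 2 :=
    (h2 z a hne).trans (Finset.sum_le_sum fun t _ => by
      rw [← sq_abs]
      exact Int.le_self_sq _)
  have hi : ∑ t, (vec z t - vec a t) ^ 2 ≤ d * (m : ℤ) ^ 2 := by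
    have : ∑ t, (vec z t - vec a t) ^ 2 ≤ ∑ _t : Fin d, (m : ℤ) ^ 2 :=
      Finset.sum_le_sum fun t _ => by
        rw [← sq_abs]
        exact pow_le_pow_left₀ (abs_nonneg _) (h1 z a t) 2
    simpa using this
  simp only [wcol] at e1 e2
  set M : ℤ := d * (2 * m ^ 2 + 2) with hM
  set n0 := nsq x
  set n1 := nsq (x + vec z - vec a)
  set n2 := nsq (x + vec z - 2 • vec a + vec z)
  set U := ∑ t, (vec z t - vec a t) ^ 2
  have a0 := Int.emod_add_mul_ediv n0 M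
  have a1 := Int.emod_add_mul_ediv n1 M
  have a2 := Int.emod_add_mul_ediv n2 M
  have b0 := Int.emod_add_mul_ediv (n0 % M) d
  have b1 := Int.emod_add_mul_ediv (n1 % M) d
  have b2 := Int.emod_add_mul_ediv (n2 % M) d
  have c0 := Int.emod_nonneg (n0 % M) hd'.ne'
  have c1 := Int.emod_nonneg (n1 % M) hd'.ne'
  have c2 := Int.emod_nonneg (n2 % M) hd'.ne'
  have d0 := Int.emod_lt_of_pos (n0 % M) hd'
  have d1 := Int.emod_lt_of_pos (n1 % M) hd'
  have d2 := Int.emod_lt_of_pos (n2 % M) hd'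
  rw [← e1] at b1
  rw [← e2] at b2
  have key : M * (n0 / M + n2 / M - 2 * (n1 / M)) =
      2 * U - (n0 % M % d + n2 % M % d - 2 * (n1 % M % d)) := by linarith
  have hM0 : 0 < M := by positivity
  have hMe : M = 2 * (d * (m : ℤ) ^ 2) + 2 * d := by rw [hM]; ring
  rcases le_or_gt (n0 / M + n2 / M - 2 * (n1 / M)) 0 with hq | hq
  · have := mul_nonpos_of_nonneg_of_nonpos hM0.le hq
    linarith
  · have : M * 1 ≤ M * (n0 / M + n2 / M - 2 * (n1 / M)) := by gcongr; omega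
    linarith

theorem geom_le (c m : ℕ) : ∑ j ∈ Finset.range m, (1 / 2 : ℝ) ^ ((j : ℤ) - c).natAbs ≤
    if m ≤ c then (1 / 2 : ℝ) ^ (c - m) else 3 - 2 * (1 / 2 : ℝ) ^ (m - c) := by
  induction m with
  | zero => simp
  | succ m ih =>
    rw [Finset.sum_range_succ]
    by_cases h1 : m + 1 ≤ c
    · rw [if_pos (by omega)] at ih
      rw [if_pos h1]
      have e1 : ((m : ℤ) - c).natAbs = c - (m + 1) + 1 := by omega
      have e2 : c - m = c - (m + 1) + 1 := by omega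
      rw [e2] at ih
      rw [e1, pow_succ] at *
      linarith
    · rw [if_neg h1]
      have e1 : ((m : ℤ) - c).natAbs = m - c := by omega
      have e2 : m + 1 - c = m - c + 1 := by omega
      rw [e1, e2, pow_succ]
      by_cases h2 : m ≤ c
      · rw [if_pos h2] at ih
        have e3 : c - m = 0 := by omega
        have e4 : m - c = 0 := by omega
        rw [e3] at ih
        rw [e4]
        norm_num at ih ⊢
        linarith
      · rw [if_neg h2] at ih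
        linarith

theorem geom_le3 (c m : ℕ) : ∑ j : Fin m, (1 / 2 : ℝ) ^ (((j : ℕ) : ℤ) - c).natAbs ≤ 3 := by
  rw [Fin.sum_univ_eq_sum_range (fun j => (1 / 2 : ℝ) ^ ((j : ℤ) - c).natAbs) m]
  refine (geom_le c m).trans ?_
  split_ifs
  · exact (pow_le_one₀ (by norm_num) (by norm_num)).trans (by norm_num)
  · have : (0 : ℝ) ≤ (1 / 2 : ℝ) ^ (m - c) := by positivity
    linarith

/-- Taxicab distance. -/
def dist1 {d m : ℕ} (y c : Fin d → Fin m) : ℕ := ∑ t, (((y t : ℕ) : ℤ) - (c t : ℕ)).natAbs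

theorem ball_le {d m : ℕ} (c : Fin d → Fin m) :
    (Finset.univ.filter fun y : Fin d → Fin m => dist1 y c < d).card ≤ 6 ^ d := by
  have h1 : ((Finset.univ.filter fun y : Fin d → Fin m => dist1 y c < d).card : ℝ) ≤
      ∑ y : Fin d → Fin m, 2 ^ d * ∏ t, (1 / 2 : ℝ) ^ (((y t : ℕ) : ℤ) - (c t : ℕ)).natAbs := by
    rw [Finset.card_filter]
    push_cast
    refine Finset.sum_le_sum fun y _ => ?_
    split_ifs with hy
    · rw [Finset.prod_pow_eq_pow_sum]
      change 1 ≤ 2 ^ d * (1 / 2 : ℝ) ^ dist1 y c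
      rw [one_div, inv_pow, ← div_eq_mul_inv, le_div_iff₀ (by positivity), one_mul]
      exact pow_le_pow_right₀ (by norm_num) hy.le
    · positivity
  have h2 := Finset.prod_univ_sum (fun _ : Fin d => (Finset.univ : Finset (Fin m)))
    (fun t j => (1 / 2 : ℝ) ^ (((j : ℕ) : ℤ) - (c t : ℕ)).natAbs)
  rw [Fintype.piFinset_univ] at h2
  rw [← Finset.mul_sum, ← h2] at h1
  have h3 : ∏ t : Fin d, ∑ j : Fin m, (1 / 2 : ℝ) ^ (((j : ℕ) : ℤ) - (c t : ℕ)).natAbs ≤ 3 ^ d := by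
    have := Finset.prod_le_prod (s := (Finset.univ : Finset (Fin d)))
      (f := fun t => ∑ j : Fin m, (1 / 2 : ℝ) ^ (((j : ℕ) : ℤ) - (c t : ℕ)).natAbs)
      (g := fun _ => (3 : ℝ)) (fun t _ => by positivity) (fun t _ => geom_le3 _ _)
    simpa using this
  have h4 : ((Finset.univ.filter fun y : Fin d → Fin m => dist1 y c < d).card : ℝ) ≤ 6 ^ d := by
    refine h1.trans ?_
    rw [show (6 : ℝ) = 2 * 3 by norm_num, mul_pow]
    gcongr
  exact_mod_cast h4

theorem dist1_comm {d m : ℕ} (y c : Fin d → Fin m) : dist1 y c = dist1 c y :=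
  Finset.sum_congr rfl fun t _ => by omega

theorem exists_code1 (d q k : ℕ) (hd : 1 ≤ d) (hk : k ≤ q ^ d) :
    ∃ e : Fin k → Fin d → Fin (6 * q), ∀ z a, a ≠ z → d ≤ dist1 (e z) (e a) := by
  classical
  obtain ⟨C, hC, hmax⟩ := Finset.exists_max_image
    (Finset.univ.filter fun C : Finset (Fin d → Fin (6 * q)) =>
      ∀ y ∈ C, ∀ c ∈ C, y ≠ c → d ≤ dist1 y c) Finset.card ⟨∅, by simp⟩
  rw [Finset.mem_filter] at hC
  have cover : ∀ y, ∃ c ∈ C, dist1 y c < d := by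
    intro y
    by_contra hcon
    push Not at hcon
    have hy : y ∉ C := fun hy => by
      have := hcon y hy
      simp [dist1] at this
      omega
    have := hmax (insert y C) (Finset.mem_filter.2 ⟨Finset.mem_univ _, fun u hu w hw hne => by
      rcases Finset.mem_insert.1 hu with h1 | h1 <;> rcases Finset.mem_insert.1 hw with h2 | h2
      · exact absurd (h1.trans h2.symm) hne
      · rw [h1]; exact hcon w h2
      · rw [h2, dist1_comm]; exact hcon u h1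
      · exact hC.2 u h1 w h2 hne⟩)
    rw [Finset.card_insert_of_notMem hy] at this
    omega
  have h1 : (Finset.univ : Finset (Fin d → Fin (6 * q))) ⊆
      C.biUnion fun c => Finset.univ.filter fun y => dist1 y c < d := fun y _ => by
    obtain ⟨c, hc, h⟩ := cover y
    exact Finset.mem_biUnion.2 ⟨c, hc, Finset.mem_filter.2 ⟨Finset.mem_univ _, h⟩⟩
  have h2 := (Finset.card_le_card h1).trans (Finset.card_biUnion_le_card_mul _ _ _
    fun c _ => ball_le c)
  have h3 : q ^ d ≤ C.card := by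
    simp only [Finset.card_univ, Fintype.card_fun, Fintype.card_fin, mul_pow] at h2
    rw [mul_comm] at h2
    exact Nat.le_of_mul_le_mul_right h2 (by positivity)
  obtain ⟨e⟩ := Function.Embedding.nonempty_of_card_le (α := Fin k) (β := C)
    (by simpa using hk.trans h3)
  exact ⟨fun c => e c, fun z a hne => hC.2 _ (e z).2 _ (e a).2
    fun h => hne (e.injective (Subtype.ext h)).symm⟩

theorem exists_vec (d k : ℕ) (hd : 1 ≤ d) (hk : 1 ≤ k) : ∃ (m : ℕ) (vec : Fin k → Fin d → ℤ),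
    (m : ℝ) ≤ 12 * (k : ℝ) ^ (1 / d : ℝ) ∧ Sep vec (wcol d m) ∧ ∀ c t, |vec c t| ≤ m := by
  have hd' : (1 : ℝ) ≤ d := by exact_mod_cast hd
  have hk' : (1 : ℝ) ≤ k := by exact_mod_cast hk
  set K := (k : ℝ) ^ (1 / d : ℝ) with hK
  have hK1 : 1 ≤ K := Real.one_le_rpow hk' (by positivity)
  have hKd : K ^ d = k := by
    rw [hK, ← Real.rpow_natCast, ← Real.rpow_mul (by positivity), one_div_mul_cancel (by positivity),
      Real.rpow_one]
  have h1 : k ≤ ⌈K⌉₊ ^ d := by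
    have : (k : ℝ) ≤ (⌈K⌉₊ : ℝ) ^ d := by
      rw [← hKd]
      gcongr
      exact Nat.le_ceil K
    exact_mod_cast this
  obtain ⟨e, he⟩ := exists_code1 d _ k hd h1
  refine ⟨6 * ⌈K⌉₊, fun c t => (e c t : ℕ), ?_, wcol_sep hd _ _ (fun z a t => ?_) fun z a hne => ?_,
    fun c t => ?_⟩
  · have := Nat.ceil_lt_add_one (show 0 ≤ K by linarith)
    push_cast
    linarith
  · have := (e z t).2
    have := (e a t).2
    rw [abs_le]
    omega
  · have := he z a hne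
    simp only [dist1] at this
    have h2 : ((d : ℕ) : ℤ) ≤ ((∑ t, (((e z t : ℕ) : ℤ) - (e a t : ℕ)).natAbs : ℕ) : ℤ) := by
      exact_mod_cast this
    simpa [Nat.cast_sum, Int.natCast_natAbs] using h2
  · have := (e c t).2
    rw [abs_le]
    simp only
    omega

theorem size_bound (h d k m T : ℕ) (hh : 1 ≤ h) (hd : 1 ≤ d) (hk : 1 ≤ k)
    (hm : (m : ℝ) ≤ 12 * (k : ℝ) ^ (1 / d : ℝ)) (hT : T ≤ 4 ^ h) :
    ((T * (((2 * (h * m) + 1) ^ d) ^ 3 * (2 * m ^ 2 + 1 + 1) ^ (h * 2) * (k * k)) : ℕ) : ℝ) ≤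
      (k : ℝ) ^ 5 * ((k : ℝ) ^ (1 / d : ℝ)) ^ (4 * h) * (25 * h) ^ (3 * d) * 25 ^ (4 * h) := by
  have hh' : (1 : ℝ) ≤ h := by exact_mod_cast hh
  have hd' : (1 : ℝ) ≤ d := by exact_mod_cast hd
  have hk' : (1 : ℝ) ≤ k := by exact_mod_cast hk
  have hT' : (T : ℝ) ≤ 4 ^ h := by exact_mod_cast hT
  set K := (k : ℝ) ^ (1 / d : ℝ) with hK
  have hK1 : 1 ≤ K := Real.one_le_rpow hk' (by positivity)
  have hKd : K ^ d = k := by
    rw [hK, ← Real.rpow_natCast, ← Real.rpow_mul (by positivity), one_div_mul_cancel (by positivity),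
      Real.rpow_one]
  have hhK : 1 ≤ h * K := one_le_mul_of_one_le_of_one_le hh' hK1
  have hhm : (h * m : ℝ) ≤ 12 * (h * K) := by nlinarith
  have e1 : (2 * (h * m) + 1 : ℝ) ≤ 25 * h * K := by nlinarith
  have e2 : (2 * m ^ 2 + 1 + 1 : ℝ) ≤ 290 * K ^ 2 := by
    have a1 : (m : ℝ) ^ 2 ≤ (12 * K) ^ 2 := by gcongr
    have a2 : (1 : ℝ) ≤ K ^ 2 := one_le_pow₀ hK1
    nlinarith
  have e3 : (4 * (290 * K ^ 2) ^ 2 : ℝ) ≤ 25 ^ 4 * K ^ 4 := by
    have a2 : (0 : ℝ) ≤ K ^ 4 := by positivity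
    nlinarith
  push_cast
  calc _ ≤ (4 : ℝ) ^ h * (((25 * h * K) ^ d) ^ 3 * (290 * K ^ 2) ^ (h * 2) * (k * k)) := by
        gcongr
    _ = (4 * (290 * K ^ 2) ^ 2) ^ h * ((25 * h) ^ (3 * d) * k ^ 5) := by
        rw [mul_pow (25 * h : ℝ) K d, hKd, mul_pow 4, ← pow_mul _ 2 h, mul_comm 2 h]
        ring
    _ ≤ (25 ^ 4 * K ^ 4) ^ h * ((25 * h) ^ (3 * d) * k ^ 5) := by gcongr
    _ = _ := by
        rw [mul_pow, ← pow_mul, ← pow_mul]
        ring

theorem choose_dim (h k : ℕ) (hh : 1 ≤ h) (hk : 1 ≤ k) : ∃ d : ℕ, 1 ≤ d ∧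
    ((k : ℝ) ^ (1 / d : ℝ)) ^ (4 * h) * (25 * h) ^ (3 * d) * 25 ^ (4 * h) ≤
      Real.exp (32 * (h + √(h * Real.log k * Real.log (h + 1)))) := by
  have hh' : (1 : ℝ) ≤ h := by exact_mod_cast hh
  have hk' : (1 : ℝ) ≤ k := by exact_mod_cast hk
  set L := Real.log k with hL
  set l := Real.log (h + 1) with hl
  have hL0 : 0 ≤ L := Real.log_nonneg hk'
  have hl0 : 0 < l := Real.log_pos (by linarith)
  have hlh : l ≤ h := by
    have := Real.log_le_sub_one_of_pos (show (0 : ℝ) < h + 1 by linarith)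
    linarith
  set S := √(h * L * l) with hS
  have hS0 : 0 ≤ S := Real.sqrt_nonneg _
  have hSS : S * S = h * L * l := Real.mul_self_sqrt (by positivity)
  refine ⟨⌊S / l⌋₊ + 1, by omega, ?_⟩
  set d : ℕ := ⌊S / l⌋₊ + 1 with hd
  have hd1 : S / l < d := by rw [hd]; push_cast; exact Nat.lt_floor_add_one _
  have hd2 : (d : ℝ) ≤ S / l + 1 := by
    rw [hd]; push_cast
    have := Nat.floor_le (show 0 ≤ S / l by positivity)
    linarith
  have hd0 : (0 : ℝ) < d := by rw [hd]; positivity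
  have hd3 : S < d * l := by rwa [div_lt_iff₀ hl0] at hd1
  have hd4 : d * l ≤ S + h := by
    have : (d : ℝ) * l ≤ (S / l + 1) * l := by gcongr
    rw [add_mul, div_mul_cancel₀ _ hl0.ne'] at this
    linarith
  have hd5 : h * L / d ≤ S := by
    rw [div_le_iff₀ hd0]
    refine le_of_mul_le_mul_right ?_ hl0
    rw [← hSS, mul_assoc]
    exact mul_le_mul_of_nonneg_left hd3.le hS0
  have e1 : ((k : ℝ) ^ (1 / d : ℝ)) ^ (4 * h) ≤ Real.exp (4 * S) := by
    rw [Real.rpow_def_of_pos (by linarith), ← Real.exp_nat_mul]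
    refine Real.exp_le_exp.2 ?_
    have : ((4 * h : ℕ) : ℝ) * (L * (1 / d)) = 4 * (h * L / d) := by push_cast; ring
    rw [this]
    linarith
  have e2 : (25 * h : ℝ) ^ (3 * d) ≤ Real.exp (18 * (S + h)) := by
    have a1 : (25 * h : ℝ) ≤ Real.exp (6 * l) := by
      rw [show (6 : ℝ) * l = (6 : ℕ) * l by norm_num, Real.exp_nat_mul, hl,
        Real.exp_log (by linarith)]
      have b1 : (2 : ℝ) ^ 5 ≤ (h + 1) ^ 5 := by gcongr; linarith
      nlinarith
    calc _ ≤ Real.exp (6 * l) ^ (3 * d) := by gcongr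
      _ = Real.exp (18 * (d * l)) := by rw [← Real.exp_nat_mul]; push_cast; ring_nf
      _ ≤ _ := Real.exp_le_exp.2 (by linarith)
  have e3 : (25 : ℝ) ^ (4 * h) ≤ Real.exp (14 * h) := by
    have a1 : (25 : ℝ) ^ 4 ≤ Real.exp 14 := by
      have b1 := Real.exp_one_gt_d9
      rw [show (14 : ℝ) = (14 : ℕ) * 1 by norm_num, Real.exp_nat_mul]
      calc (25 : ℝ) ^ 4 ≤ 2.7 ^ 14 := by norm_num
        _ ≤ _ := by gcongr; linarith
    rw [pow_mul, mul_comm (14 : ℝ), Real.exp_nat_mul]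
    gcongr
  calc _ ≤ Real.exp (4 * S) * Real.exp (18 * (S + h)) * Real.exp (14 * h) := by gcongr
    _ = Real.exp (4 * S + 18 * (S + h) + 14 * h) := by rw [Real.exp_add, Real.exp_add]
    _ ≤ _ := Real.exp_le_exp.2 (by linarith)

end Pool.Agent.Lib.MP_5afa16_lc.Colour
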