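import Pool.Agent.Lib.MP_5afa16_lc.ThriftyGraph

/-! The straight line program of `ThriftyRun` with the stored radii replaced by colours. -/

namespace Pool.Agent.Lib.MP_5afa16_lc.Colour

open Pool.Agent.Lib.MP_5afa16_lc.Thrifty (Ins prog length_prog Mem Val c11 c12 c21 c22 c3 Box2)

variable {k d : ℕ} (vec : Fin k → Fin d → ℤ) (col : (Fin d → ℤ) → ℤ)

/-- Three equally coloured points of a progression force a correct guess. -/
def Sep : Prop := ∀ (x : Fin d → ℤ) (z a : Fin k), col x = col (x + vec z - vec a) →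
  col x = col (x + vec z - 2 • vec a + vec z) → a = z

/-- One instruction with guesses `a`, `b` and answer `c`. -/
def Step (I : Ins) (a b c : Fin k) (μ ν : Mem d) : Prop :=
  ν.1 I.κ = μ.1 I.κ + vec c ∧
  (I.j = 0 → ν.1 (I.κ + 1) = μ.1 (I.κ + 1) ∧ ν.1 (I.κ + 2) = μ.1 (I.κ + 2)) ∧
  (∀ sl : ℕ × Bool, ¬ (sl.1 = I.j ∧ I.act = some (sl.2, true)) → ν.2 sl = μ.2 sl) ∧
  (∀ s, I.act = some (s, true) → ν.2 (I.j, s) = col (μ.1 I.κ)) ∧
  (∀ s, I.act = some (s, false) → μ.2 (I.j, s) = col (μ.1 I.κ + vec c)) ∧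
  (∀ j, I.j = j + 1 → ν.1 (I.κ + 1) = μ.1 (I.κ + 1) - 2 • vec a ∧
    ν.1 (I.κ + 2) = μ.1 (I.κ + 2) - 2 • vec b ∧
    μ.2 (j, false) = col (μ.1 (I.κ + 1) - vec a) ∧ μ.2 (j, true) = col (μ.1 (I.κ + 2) - vec b))

variable (ans : ℕ → ℕ → Fin k → Fin k → Fin k)

/-- Runs along a list of instructions with guesses. -/
def Run (P : Mem d → Prop) : List (Ins × Fin k × Fin k) → Mem d → Mem d → Prop
  | [], μ, μ' => μ' = μ
  | e :: tr, μ, μ' => P μ ∧ ∃ ν, Step vec col e.1 e.2.1 e.2.2 (ans e.1.j e.1.i e.2.1 e.2.2) μ ν ∧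
      Run P tr ν μ'

theorem run_append (P : Mem d → Prop) (t1 t2 : List (Ins × Fin k × Fin k)) :
    ∀ μ μ', Run vec col ans P (t1 ++ t2) μ μ' ↔ ∃ ν, Run vec col ans P t1 μ ν ∧ Run vec col ans P t2 ν μ' := by
  induction t1 with
  | nil => intro μ μ'; simp [Run]
  | cons e t1 ih =>
    intro μ μ'
    simp only [List.cons_append, Run, ih]
    constructor
    · rintro ⟨h0, ν, h1, ν', h2, h3⟩
      exact ⟨ν', ⟨h0, ν, h1, h2⟩, h3⟩
    · rintro ⟨ν', ⟨h0, ν, h1, h2⟩, h3⟩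
      exact ⟨h0, ν, h1, ν', h2, h3⟩

variable (v : ℕ → Fin k)

/-- The net effect of the program of a node. -/
structure Eff (j i : ℕ) (κ : Fin 3) (act : Option (Bool × Bool)) (μ ν : Mem d) : Prop where
  r0 : ν.1 κ = μ.1 κ + vec (v i)
  r1 : ν.1 (κ + 1) = μ.1 (κ + 1)
  r2 : ν.1 (κ + 2) = μ.1 (κ + 2)
  keep : ∀ sl : ℕ × Bool, j ≤ sl.1 → ¬ (sl.1 = j ∧ act = some (sl.2, true)) → ν.2 sl = μ.2 sl
  push : ∀ s, act = some (s, true) → ν.2 (j, s) = col (μ.1 κ)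
  pop : ∀ s, act = some (s, false) → μ.2 (j, s) = col (μ.1 κ + vec (v i))

theorem sound (hvec : Sep vec col) (P : Mem d → Prop) (j : ℕ) :
    ∀ (i : ℕ) (κ : Fin 3) (act : Option (Bool × Bool)) (tr : List (Ins × Fin k × Fin k))
      (μ ν : Mem d), Val ans v j i → tr.map Prod.fst = prog j i κ act → Run vec col ans P tr μ ν →
      (∀ e ∈ tr, e.1.j ≠ 0 → e.2.1 = v (2 * e.1.i) ∧ e.2.2 = v (2 * e.1.i + 1)) ∧
      Eff vec col v j i κ act μ ν := by
  induction j with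
  | zero =>
    intro i κ act tr μ ν hv ht hr
    obtain ⟨⟨I, a, b⟩, tr', rfl, h1, h2⟩ := List.map_eq_cons_iff.1 ht
    obtain rfl : tr' = [] := List.map_eq_nil_iff.1 h2
    obtain rfl : I = ⟨0, i, κ, act⟩ := h1
    obtain ⟨_, ν', hs, rfl⟩ := hr
    simp only [hv a b] at hs
    obtain ⟨s1, s2, s3, s4, s5, _⟩ := hs
    refine ⟨by simp, s1, (s2 rfl).1, (s2 rfl).2, fun sl _ h => s3 sl h, s4, s5⟩
  | succ j ih =>
    intro i κ act tr μ ν hv ht hr
    obtain ⟨t1, tr, rfl, e1, ht⟩ := List.map_eq_append_iff.1 ht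
    obtain ⟨t2, tr, rfl, e2, ht⟩ := List.map_eq_append_iff.1 ht
    obtain ⟨⟨I, a, b⟩, tr, rfl, hI, ht⟩ := List.map_eq_cons_iff.1 ht
    obtain ⟨t3, t4, rfl, e3, e4⟩ := List.map_eq_append_iff.1 ht
    obtain rfl : I = ⟨j + 1, i, κ, act⟩ := hI
    obtain ⟨μ1, q1, hr⟩ := (run_append _ _ _ _ _ _ _ _).1 hr
    obtain ⟨μ2, q2, hr⟩ := (run_append _ _ _ _ _ _ _ _).1 hr
    obtain ⟨_, μ3, hs, hr⟩ := hr
    obtain ⟨μ4, q3, q4⟩ := (run_append _ _ _ _ _ _ _ _).1 hr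
    obtain ⟨hv0, hvL, hvR⟩ := hv
    obtain ⟨g1, f1⟩ := ih _ _ _ _ _ _ hvL e1 q1
    obtain ⟨g2, f2⟩ := ih _ _ _ _ _ _ hvR e2 q2
    obtain ⟨g3, f3⟩ := ih _ _ _ _ _ _ hvR e3 q3
    obtain ⟨g4, f4⟩ := ih _ _ _ _ _ _ hvL e4 q4
    obtain ⟨s1, _, s3, s4, s5, s0⟩ := hs
    obtain ⟨s6, s7, s8, s9⟩ := s0 j rfl
    simp only at s1 s3 s4 s5 s6 s7 s8 s9
    have a0 := f1.r0; have a1 := f1.r1; have a2 := f1.r2
    have b0 := f2.r0; have b1 := f2.r1; have b2 := f2.r2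
    have c0 := f3.r0; have c1 := f3.r1; have c2 := f3.r2
    have d0 := f4.r0; have d1 := f4.r1; have d2 := f4.r2
    rw [c11] at a1 d1
    rw [c12] at a2 d2
    rw [c21] at b1 c1
    rw [c22] at b2 c2
    have pL : μ2.2 (j, false) = col (μ.1 (κ + 1)) := by
      rw [f2.keep _ le_rfl (by simp), f1.push _ rfl]
    have pR : μ2.2 (j, true) = col (μ.1 (κ + 2)) := by rw [f2.push _ rfl, a1]
    have ha : a = v (2 * i) := by
      refine hvec (μ.1 (κ + 1)) _ _ ?_ ?_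
      · rw [← pL, s8, b2, a0]
      · rw [← pL, ← s3 _ (by simp), ← f3.keep _ le_rfl (by simp), f4.pop _ rfl, c2, s6, b2, a0]
    have hb : b = v (2 * i + 1) := by
      refine hvec (μ.1 (κ + 2)) _ _ ?_ ?_
      · rw [← pR, s9, b0, a1]
      · rw [← pR, ← s3 _ (by simp), f3.pop _ rfl, s7, b0, a1]
    subst ha hb
    rw [hv0] at s1 s5
    have up : ∀ sl : ℕ × Bool, j + 1 ≤ sl.1 → μ2.2 sl = μ.2 sl ∧ ν.2 sl = μ3.2 sl := by
      intro sl hsl
      have hne : sl.1 ≠ j := by omega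
      constructor
      · rw [f2.keep sl (by omega) (by simp [hne]), f1.keep sl (by omega) (by simp [hne])]
      · rw [f4.keep sl (by omega) (by simp [hne]), f3.keep sl (by omega) (by simp [hne])]
    refine ⟨?_, ?_, ?_, ?_, ?_, ?_, ?_⟩
    · intro e he
      simp only [List.mem_append, List.mem_cons] at he
      rcases he with he | he | rfl | he | he
      · exact g1 e he
      · exact g2 e he
      · exact fun _ => ⟨rfl, rfl⟩
      · exact g3 e he
      · exact g4 e he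
    · rw [d2, c1, s1, b1, a2]
    · rw [d0, c2, s6, b2, a0, two_smul]; abel
    · rw [d1, c0, s7, b0, a1, two_smul]; abel
    · intro sl h1 h2
      rw [(up sl h1).2, s3 sl h2, (up sl h1).1]
    · intro s hs
      rw [(up _ le_rfl).2, s4 s hs, b1, a2]
    · intro s hs
      rw [← (up _ le_rfl).1, s5 s hs, b1, a2]

/-- Bounded memories. -/
def Box (h : ℕ) (B γ : ℤ) (μ : Mem d) : Prop :=
  (∀ κ t, |μ.1 κ t| ≤ B) ∧ Box2 h γ μ.2

theorem exists_step (h : ℕ) (B γ : ℤ) (hγ : ∀ x, 0 ≤ col x ∧ col x ≤ γ) (I : Ins) (a b c : Fin k) (μ : Mem d) (hj : I.j < h)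
    (hb : Box h B γ μ) (h5 : ∀ s, I.act = some (s, false) → μ.2 (I.j, s) = col (μ.1 I.κ + vec c))
    (h6 : ∀ j, I.j = j + 1 → μ.2 (j, false) = col (μ.1 (I.κ + 1) - vec a) ∧
      μ.2 (j, true) = col (μ.1 (I.κ + 2) - vec b)) :
    ∃ ν, Step vec col I a b c μ ν ∧ Box2 h γ ν.2 := by
  classical
  have n1 : ∀ κ : Fin 3, κ + 1 ≠ κ := by decide
  have n2 : ∀ κ : Fin 3, κ + 2 ≠ κ := by decide
  have n3 : ∀ κ : Fin 3, κ + 2 ≠ κ + 1 := by decide
  refine ⟨⟨fun κ => if κ = I.κ then μ.1 κ + vec c else if I.j = 0 then μ.1 κ else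
      if κ = I.κ + 1 then μ.1 κ - 2 • vec a else μ.1 κ - 2 • vec b,
    fun sl => if sl.1 = I.j ∧ I.act = some (sl.2, true) then col (μ.1 I.κ) else μ.2 sl⟩,
    ⟨by simp, fun h0 => by simp [h0, n1, n2], fun sl hsl => if_neg hsl,
      fun s hs => if_pos ⟨rfl, hs⟩, h5, fun j hj => ?_⟩, fun sl => ?_⟩
  · have : I.j ≠ 0 := by omega
    exact ⟨by simp [this, n1], by simp [this, n2, n3], h6 j hj⟩
  · simp only
    split_ifs with hc
    · exact ⟨(hγ _).1, (hγ _).2, fun h0 => by omega⟩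
    · exact hb.2 sl

theorem complete (hvec : Sep vec col) (m : ℤ) (hm : ∀ c t, |vec c t| ≤ m) (hm0 : 0 ≤ m)
    (h : ℕ) (B γ : ℤ) (hγ : ∀ x, 0 ≤ col x ∧ col x ≤ γ) (a0 : Fin k) (j : ℕ) :
    ∀ (i : ℕ) (κ : Fin 3) (act : Option (Bool × Bool)) (μ : Mem d) (β : ℤ), Val ans v j i →
      j < h → β + j * m ≤ B → (∀ κ' t, |μ.1 κ' t| ≤ β) → (∀ t, |(μ.1 κ + vec (v i)) t| ≤ β) →
      Box2 h γ μ.2 →
      (∀ s, act = some (s, false) → μ.2 (j, s) = col (μ.1 κ + vec (v i))) →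
      ∃ I tr ν, ((I, a0, a0) :: tr).map Prod.fst = prog j i κ act ∧
        Run vec col ans (Box h B γ) ((I, a0, a0) :: tr) μ ν ∧ Box2 h γ ν.2 := by
  induction j with
  | zero =>
    intro i κ act μ β hv hj hB h1 _ h3 h4
    have hb : Box h B γ μ := ⟨fun κ t => (h1 κ t).trans (by simpa using hB), h3⟩
    obtain ⟨ν, hs, hν⟩ := exists_step vec col h B γ hγ ⟨0, i, κ, act⟩ a0 a0 (v i) μ hj hb h4 (by simp)
    exact ⟨_, [], ν, rfl, ⟨hb, ν, by simpa only [hv a0 a0] using hs, rfl⟩, hν⟩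
  | succ j ih =>
    intro i κ act μ β hv hj hB h1 h2 h3 h4
    obtain ⟨hv0, hvL, hvR⟩ := hv
    have hB' : β + m + j * m ≤ B := by push_cast at hB; linarith
    have hj' : j < h := by omega
    have hjm : (0 : ℤ) ≤ j * m := by positivity
    have w0 : ∀ κ' t, |μ.1 κ' t| ≤ β + m := fun κ' t => (h1 κ' t).trans (by linarith)
    have wp : ∀ κ' c t, |(μ.1 κ' + vec c) t| ≤ β + m := fun κ' c t =>
      (abs_add_le _ _).trans (add_le_add (h1 κ' t) (hm c t))
    have wm : ∀ κ' c t, |(μ.1 κ' + vec c - 2 • vec c) t| ≤ β + m := fun κ' c t => by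
      have : (μ.1 κ' + vec c - 2 • vec c) t = μ.1 κ' t - vec c t := by
        simp only [Pi.add_apply, Pi.sub_apply, two_smul]; ring
      rw [this]
      exact (abs_sub _ _).trans (add_le_add (h1 κ' t) (hm c t))
    have e0 : ∀ κ' c, μ.1 κ' + vec c - 2 • vec c + vec c = μ.1 κ' := fun κ' c => by
      rw [two_smul]; abel
    obtain ⟨I1, t1, μ1, e1, q1, x1⟩ := ih (2 * i) (κ + 1) (some (false, true)) μ (β + m) hvL hj' hB'
      w0 (wp _ _) h3 (by simp)
    obtain ⟨_, f1⟩ := sound vec col ans v hvec _ j _ _ _ _ _ _ hvL e1 q1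
    have a0' := f1.r0; have a1 := f1.r1; have a2 := f1.r2
    rw [c11] at a1
    rw [c12] at a2
    obtain ⟨I2, t2, μ2, e2, q2, x2⟩ := ih (2 * i + 1) (κ + 2) (some (true, true)) μ1 (β + m) hvR hj'
      hB' (fun κ' => by
        rcases c3 κ κ' with rfl | rfl | rfl
        · rw [a2]; exact w0 _
        · rw [a0']; exact wp _ _
        · rw [a1]; exact w0 _) (by rw [a1]; exact wp _ _) x1 (by simp)
    obtain ⟨_, f2⟩ := sound vec col ans v hvec _ j _ _ _ _ _ _ hvR e2 q2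
    have b0 := f2.r0; have b1 := f2.r1; have b2 := f2.r2
    rw [c21, a2] at b1
    rw [c22, a0'] at b2
    rw [a1] at b0
    have pL : μ2.2 (j, false) = col (μ.1 (κ + 1)) := by
      rw [f2.keep _ le_rfl (by simp), f1.push _ rfl]
    have pR : μ2.2 (j, true) = col (μ.1 (κ + 2)) := by rw [f2.push _ rfl, a1]
    have hb2 : Box h B γ μ2 := ⟨fun κ' t => by
      refine le_trans ?_ (show β + m ≤ B by linarith)
      rcases c3 κ κ' with rfl | rfl | rfl
      · rw [b1]; exact w0 _ _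
      · rw [b2]; exact wp _ _ _
      · rw [b0]; exact wp _ _ _, x2⟩
    obtain ⟨μ3, hs, x3⟩ := exists_step vec col h B γ hγ ⟨j + 1, i, κ, act⟩ (v (2 * i)) (v (2 * i + 1)) (v i)
      μ2 hj hb2 (fun s hs => by
        simp only
        rw [f2.keep _ (by simp) (by simp), f1.keep _ (by simp) (by simp), h4 s hs, b1])
      (fun j' hj' => by
        obtain rfl : j = j' := by simpa using hj'
        simp only
        rw [pL, pR, b2, b0, add_sub_cancel_right, add_sub_cancel_right]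
        exact ⟨rfl, rfl⟩)
    obtain ⟨s1, _, s3, _, _, s6⟩ := id hs
    obtain ⟨s6, s7, _, _⟩ := s6 j rfl
    simp only at s1 s3 s6 s7
    rw [b1] at s1
    rw [b2] at s6
    rw [b0] at s7
    obtain ⟨I3, t3, μ4, e3, q3, x4⟩ := ih (2 * i + 1) (κ + 2) (some (true, false)) μ3 (β + m) hvR
      hj' hB' (fun κ' t => by
        rcases c3 κ κ' with rfl | rfl | rfl
        · rw [s1]; exact wp _ _ _
        · rw [s6]; exact wm _ _ _
        · rw [s7]; exact wm _ _ _) (by rw [s7, e0]; exact w0 _) x3 (fun s hs => by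
        obtain rfl : true = s := by simpa using hs
        rw [s3 _ (by simp), pR, s7, e0])
    obtain ⟨_, f3⟩ := sound vec col ans v hvec _ j _ _ _ _ _ _ hvR e3 q3
    have c0 := f3.r0; have c1 := f3.r1; have c2 := f3.r2
    rw [c21, s1] at c1
    rw [c22, s6] at c2
    rw [s7, e0] at c0
    obtain ⟨I4, t4, μ5, e4, q4, x5⟩ := ih (2 * i) (κ + 1) (some (false, false)) μ4 (β + m) hvL
      hj' hB' (fun κ' t => by
        rcases c3 κ κ' with rfl | rfl | rfl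
        · rw [c1]; exact wp _ _ _
        · rw [c2]; exact wm _ _ _
        · rw [c0]; exact w0 _ _) (by rw [c2, e0]; exact w0 _) x4 (fun s hs => by
        obtain rfl : false = s := by simpa using hs
        rw [f3.keep _ le_rfl (by simp), s3 _ (by simp), pL, c2, e0])
    refine ⟨I1, t1 ++ ((I2, a0, a0) :: t2 ++ (⟨j + 1, i, κ, act⟩, v (2 * i), v (2 * i + 1)) ::
      ((I3, a0, a0) :: t3 ++ (I4, a0, a0) :: t4)), μ5, ?_, ?_, x5⟩
    · rw [← List.cons_append, List.map_append, List.map_append, e1, e2, List.map_cons,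
        List.map_append, e3, e4]
      rfl
    · rw [← List.cons_append, run_append]
      refine ⟨μ1, q1, (run_append _ _ _ _ _ _ _ _).2 ⟨μ2, q2, hb2, μ3, ?_,
        (run_append _ _ _ _ _ _ _ _).2 ⟨μ4, q3, q4⟩⟩⟩
      simpa only [hv0] using hs

end Pool.Agent.Lib.MP_5afa16_lc.Colour
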