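import Mathlib

/-! Deterministic pushdown automata and nondeterministic Turing machines with an input tape. -/

namespace Pool.Agent.Lib.MP_5afa16_lc

/-- A deterministic pushdown automaton with input alphabet `A`, states `Q`, stack alphabet `G`.
`δ q none Z` is the empty move, `δ q (some a) Z` the move reading `a`; a move replaces the top
symbol `Z` by a word. -/
structure DPDA (A Q G : Type) where
  start : Q
  bottom : G
  final : Set Q
  δ : Q → Option A → G → Option (Q × List G)
  det : ∀ q Z a, δ q none Z ≠ none → δ q (some a) Z = none

/-- One move on configurations (state, unread input, stack with its top first). -/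
def DPDA.Step {A Q G : Type} (M : DPDA A Q G) (c c' : Q × List A × List G) : Prop :=
  ∃ Z β q' γ, c.2.2 = Z :: β ∧ c'.1 = q' ∧ c'.2.2 = γ ++ β ∧
    ((M.δ c.1 none Z = some (q', γ) ∧ c'.2.1 = c.2.1) ∨
      ∃ a, M.δ c.1 (some a) Z = some (q', γ) ∧ c.2.1 = a :: c'.2.1)

/-- Acceptance by final state. -/
def DPDA.Accepts {A Q G : Type} (M : DPDA A Q G) (w : List A) : Prop :=
  ∃ q ∈ M.final, ∃ γ, Relation.ReflTransGen M.Step (M.start, w, [M.bottom]) (q, [], γ)

/-- The input tape: left end marker in cell 0, then the letters, then the right end marker. -/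
def cell {A : Type} (w : List A) : ℕ → A ⊕ Bool
  | 0 => Sum.inr false
  | i + 1 => (w[i]?).elim (Sum.inr true) Sum.inl

/-- A nondeterministic Turing machine with a two-way read-only input tape and one work tape.
A transition gives the new state, the symbol written, and the moves of the input head and of the
work head (0 left, 1 stay, 2 right). -/
structure NTM (A Q W : Type) where
  start : Q
  blank : W
  final : Set Q
  δ : Q → A ⊕ Bool → W → Set (Q × W × Fin 3 × Fin 3)

/-- State, position of the input head, work tape, position of the work head. -/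
structure Cfg (Q W : Type) where
  state : Q
  inp : ℕ
  tape : ℕ → W
  head : ℕ

/-- One move on input `w`; a head that would leave its tape stays where it is. -/
def NTM.Step {A Q W : Type} (N : NTM A Q W) (w : List A) (c c' : Cfg Q W) : Prop :=
  ∃ t ∈ N.δ c.state (cell w c.inp) (c.tape c.head),
    c' = ⟨t.1, min (c.inp + t.2.2.1 - 1) (w.length + 1), Function.update c.tape c.head t.2.1,
      c.head + t.2.2.2 - 1⟩

/-- The configurations reachable on input `w`. -/
def NTM.Reach {A Q W : Type} (N : NTM A Q W) (w : List A) (c : Cfg Q W) : Prop :=
  Relation.ReflTransGen (N.Step w) ⟨N.start, 0, fun _ => N.blank, 0⟩ c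

/-- Some computation reaches a final state. -/
def NTM.Accepts {A Q W : Type} (N : NTM A Q W) (w : List A) : Prop :=
  ∃ c, N.Reach w c ∧ c.state ∈ N.final

end Pool.Agent.Lib.MP_5afa16_lc
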