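import Pool.Agent.Lib.MP_5afa16_lc.DcDown
import Pool.Agent.Lib.MP_5afa16_lc.Machines

/-! A deterministic pushdown automaton on a fixed input as a pushdown system. -/

namespace Pool.Agent.Lib.MP_5afa16_lc.Dc

open Relation

set_option maxHeartbeats 400000

variable {A Q G : Type} (M : DPDA A Q G)

open Classical in
/-- The move: new state, number of letters read, word pushed. -/
noncomputable def tb (q : Q) (o : Option A) (Z : G) : Q × ℕ × List G :=
  if o = none ∧ q ∈ M.final then (q, 0, [Z]) else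
    (M.δ q none Z).elim ((o.bind fun a => M.δ q (some a) Z).elim (q, 0, [Z])
      fun r => (r.1, 1, r.2)) fun r => (r.1, 0, r.2)

/-- The pushdown system on input `w`. -/
noncomputable def dl (w : List A) (p : Q × ℕ) (Z : G) : (Q × ℕ) × List G :=
  (((tb M p.1 w[p.2]? Z).1, min (p.2 + (tb M p.1 w[p.2]? Z).2.1) w.length),
    (tb M p.1 w[p.2]? Z).2.2)

/-- Accepting controls. -/
def Ac (w : List A) (p : Q × ℕ) : Prop := p.1 ∈ M.final ∧ w.length ≤ p.2

theorem tb_cases (q : Q) (o : Option A) (Z : G) : tb M q o Z = (q, 0, [Z]) ∨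
    (∃ r, M.δ q none Z = some r ∧ tb M q o Z = (r.1, 0, r.2)) ∨
    ∃ a r, o = some a ∧ M.δ q (some a) Z = some r ∧ tb M q o Z = (r.1, 1, r.2) := by
  unfold tb
  split_ifs
  · exact Or.inl rfl
  · rcases h1 : M.δ q none Z with _ | r
    · rcases o with _ | a
      · exact Or.inl rfl
      · rcases h2 : M.δ q (some a) Z with _ | r
        · left; simp [h2]
        · right; right; exact ⟨a, r, rfl, h2, by simp [h2]⟩
    · exact Or.inr (Or.inl ⟨r, rfl, rfl⟩)

theorem dl_sound (w : List A) (t : ℕ) : (rn (dl M w) t ((M.start, 0), [M.bottom])).1.2 ≤ w.length ∧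
    ReflTransGen M.Step (M.start, w, [M.bottom])
      ((rn (dl M w) t ((M.start, 0), [M.bottom])).1.1,
        w.drop (rn (dl M w) t ((M.start, 0), [M.bottom])).1.2,
        (rn (dl M w) t ((M.start, 0), [M.bottom])).2) := by
  induction t with
  | zero => exact ⟨Nat.zero_le _, .refl⟩
  | succ t ih =>
    rw [rn_succ]
    generalize rn (dl M w) t _ = c at ih
    obtain ⟨⟨q, i⟩, _ | ⟨Z, β⟩⟩ := c
    · exact ih
    obtain ⟨h1, h2⟩ := ih
    dsimp only at h1 h2
    refine ⟨min_le_right _ _, ?_⟩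
    simp only [stp, dl]
    rcases tb_cases M q w[i]? Z with e | ⟨r, e1, e⟩ | ⟨a, r, e0, e1, e⟩
    · simpa [e, h1] using h2
    · refine h2.tail ⟨Z, β, r.1, r.2, rfl, by rw [e], by rw [e], Or.inl ⟨e1, ?_⟩⟩
      simp [e, h1]
    · obtain ⟨hi, rfl⟩ := List.getElem?_eq_some_iff.1 e0
      refine h2.tail ⟨Z, β, r.1, r.2, rfl, by rw [e], by rw [e], Or.inr ⟨_, e1, ?_⟩⟩
      rw [e]
      dsimp only
      rw [min_eq_left (by omega)]
      exact List.drop_eq_getElem_cons hi

theorem ac_fix {w : List A} {c : (Q × ℕ) × List G} (h : Ac M w c.1) (hi : c.1.2 ≤ w.length)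
    (t : ℕ) : rn (dl M w) t c = c := by
  refine Function.iterate_fixed ?_ t
  obtain ⟨⟨q, i⟩, _ | ⟨Z, β⟩⟩ := c
  · rfl
  have : tb M q w[i]? Z = (q, 0, [Z]) := if_pos ⟨by simpa using h.2, h.1⟩
  simp only [stp, dl, this]
  simpa using hi

theorem dl_comp {w : List A} {c e : Q × List A × List G} (h : ReflTransGen M.Step c e)
    (he : e.1 ∈ M.final) (he' : e.2.1 = []) : ∀ i ≤ w.length, c.2.1 = w.drop i →
    ∃ t, Ac M w (rn (dl M w) t ((c.1, i), c.2.2)).1 := by
  induction h using ReflTransGen.head_induction_on with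
  | refl => exact fun i _ hi => ⟨0, he, by simpa [he', rn] using hi⟩
  | @head c c' h1 _ ih =>
    intro i hi hc
    by_cases ha : Ac M w (c.1, i)
    · exact ⟨0, ha⟩
    obtain ⟨q, u, σ⟩ := c
    obtain ⟨q1, u1, σ1⟩ := c'
    obtain ⟨Z, β, q', γ, rfl, rfl, rfl, h2⟩ := h1
    have hn : ¬(w[i]? = none ∧ q ∈ M.final) := fun a => ha ⟨a.2, by simpa using a.1⟩
    dsimp only at h2 hc ih
    rcases h2 with ⟨h2, rfl⟩ | ⟨a, h2, rfl⟩
    · obtain ⟨t, ht⟩ := ih i hi hc
      refine ⟨1 + t, ?_⟩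
      have e0 : tb M q w[i]? Z = (q1, 0, γ) := by rw [tb, if_neg hn, h2]; rfl
      rw [rn_add]
      simpa [rn, stp, dl, e0, hi] using ht
    · have hi' : i < w.length := by
        by_contra b
        rw [List.drop_eq_nil_of_le (by omega)] at hc
        simp at hc
      rw [List.drop_eq_getElem_cons hi'] at hc
      obtain ⟨rfl, rfl⟩ := List.cons.inj hc
      obtain ⟨t, ht⟩ := ih (i + 1) hi' rfl
      have h3 : M.δ q none Z = none := by
        by_contra b
        rw [M.det q Z _ b] at h2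
        simp at h2
      refine ⟨1 + t, ?_⟩
      rw [rn_add]
      simpa [rn, stp, dl, tb, h2, h3, hi', Nat.succ_le_of_lt hi'] using ht

/-- The moves while the next letter is `o`. -/
noncomputable def dz (o : Option A) (q : Q) (Z : G) : Q × List G :=
  ((tb M q o Z).1, (tb M q o Z).2.2)

/-- The run of empty moves stops. -/
def Halt (o : Option A) (c : Q × List G) : Prop :=
  c.2 = [] ∨ (o = none ∧ c.1 ∈ M.final) ∨ ∃ Z β, c.2 = Z :: β ∧ (tb M c.1 o Z).2.1 ≠ 0

theorem dz_sim {w : List A} {i : ℕ} (hi : i ≤ w.length) (c : Q × List G) (β : List G) (t : ℕ)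
    (h : ∀ s < t, ¬Halt M w[i]? (rn (dz M w[i]?) s c)) :
    rn (dl M w) t ((c.1, i), c.2 ++ β) =
      (((rn (dz M w[i]?) t c).1, i), (rn (dz M w[i]?) t c).2 ++ β) := by
  induction t with
  | zero => rfl
  | succ t ih =>
    rw [rn_succ, rn_succ, ih fun s hs => h s (by omega)]
    have := h t (by omega)
    generalize rn (dz M w[i]?) t c = c' at this
    obtain ⟨q, _ | ⟨Z, γ⟩⟩ := c'
    · exact (this (Or.inl rfl)).elim
    have e : (tb M q w[i]? Z).2.1 = 0 := by
      by_contra b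
      exact this (Or.inr (Or.inr ⟨Z, γ, rfl, b⟩))
    simp [stp, dl, dz, e, hi]

theorem rn_len' {P : Type} {δ : P → G → P × List G} {L : ℕ} (hL : ∀ p Z, (δ p Z).2.length ≤ L)
    (t : ℕ) (c : P × List G) : (rn δ t c).2.length ≤ c.2.length + L * t := by
  induction t with
  | zero => simp [rn]
  | succ t ih =>
    rw [rn_succ]
    generalize rn δ t c = c' at ih
    obtain ⟨p, _ | ⟨Z, β⟩⟩ := c'
    · simp [stp]
    · have := hL p Z
      simp only [stp, List.length_append, List.length_cons, mul_add] at ih ⊢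
      omega

theorem dl_time [Finite A] [Finite Q] [Finite G] : ∃ N, ∀ w : List A, M.Accepts w →
    ∀ t, N * (w.length + 1) ≤ t → Ac M w (rn (dl M w) t ((M.start, 0), [M.bottom])).1 := by
  classical
  obtain ⟨L, hL⟩ : ∃ L, ∀ x : Q × Option A × G, (tb M x.1 x.2.1 x.2.2).2.2.length ≤ L :=
    (Finite.bddAbove_range _).imp fun _ h x => h ⟨x, rfl⟩
  obtain ⟨c, hc⟩ : ∃ c, ∀ x : Q × Option A × G,
      (if h : ∃ t, Halt M x.2.1 (rn (dz M x.2.1) t (x.1, [x.2.2])) then Nat.find h else 0) ≤ c :=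
    (Finite.bddAbove_range _).imp fun _ h x => h ⟨x, rfl⟩
  have key : ∀ (w : List A) (m q i : _) (σ : List G), i ≤ w.length →
      σ.length + (L * c + L + 1) * (w.length - i) ≤ m →
      (∃ t, Ac M w (rn (dl M w) t ((q, i), σ)).1) →
      ∀ t, (c + 1) * m ≤ t → Ac M w (rn (dl M w) t ((q, i), σ)).1 := by
    intro w m
    induction m using Nat.strong_induction_on with
    | _ m ih =>
      rintro q i (_ | ⟨Z, β⟩) hi hm ⟨t0, h0⟩ t ht
      · rwa [rn_nil] at h0 ⊢
      have hex : ∃ t, Halt M w[i]? (rn (dz M w[i]?) t (q, [Z])) := by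
        by_contra b
        push Not at b
        have := dz_sim M hi (q, [Z]) β t0 fun s _ => b s
        rw [show (([Z] : List G) ++ β) = Z :: β from rfl] at this
        rw [this] at h0
        exact b t0 (Or.inr (Or.inl ⟨by simpa using h0.2, h0.1⟩))
      have h1 : Nat.find hex ≤ c := by simpa [hex] using hc (q, w[i]?, Z)
      have h2 := Nat.find_spec hex
      have h3 := dz_sim M hi (q, [Z]) β _ fun s hs => Nat.find_min hex hs
      have h4 := rn_len' (δ := dz M w[i]?) (fun p Z => hL (p, _, Z)) (Nat.find hex) (q, [Z])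
      rw [show (([Z] : List G) ++ β) = Z :: β from rfl] at h3
      generalize Nat.find hex = s at *
      generalize rn (dz M w[i]?) s (q, [Z]) = e at *
      have h5 : L * s ≤ L * c := Nat.mul_le_mul_left _ h1
      simp only [List.length_cons, List.length_nil] at hm h4
      obtain ⟨m, rfl⟩ : ∃ m', m = m' + 1 := ⟨m - 1, by omega⟩
      have fut : ∀ s', ∃ t, Ac M w (rn (dl M w) t (rn (dl M w) s' ((q, i), Z :: β))).1 := by
        intro s'
        refine ⟨t0, ?_⟩
        rw [← rn_add, add_comm, rn_add, ac_fix M h0]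
        · exact h0
        · clear h0
          induction t0 with
          | zero => exact hi
          | succ n ihn =>
            rw [rn_succ]
            generalize rn (dl M w) n _ = x at ihn
            obtain ⟨p, _ | ⟨Z, β⟩⟩ := x
            · exact ihn
            · exact min_le_right _ _
      rw [mul_add] at ht
      rcases h2 with h2 | h2 | ⟨Z', β', h2, h6⟩
      · have f := fut s
        rw [show t = s + (t - s) by omega, rn_add]
        rw [h3, h2] at f ⊢
        exact ih m (by omega) _ _ _ hi (by simp; omega) f _ (by omega)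
      · rw [show t = s + (t - s) by omega, rn_add, h3,
          ac_fix M ⟨h2.2, by simpa using h2.1⟩ hi]
        exact ⟨h2.2, by simpa using h2.1⟩
      · have f := fut (s + 1)
        rw [show t = s + 1 + (t - s - 1) by omega, rn_add]
        rw [rn_succ, h3, h2] at f ⊢
        have h7 := hL (e.1, w[i]?, Z')
        rcases tb_cases M e.1 w[i]? Z' with e0 | ⟨r, _, e0⟩ | ⟨a, r, e0, _, e1⟩
        · simp [e0] at h6
        · simp [e0] at h6
        obtain ⟨hi', -⟩ := List.getElem?_eq_some_iff.1 e0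
        simp only [List.cons_append, stp, dl, e1, min_eq_left (Nat.succ_le_of_lt hi')] at f h7 ⊢
        refine ih m (by omega) _ _ _ hi' ?_ f _ (by omega)
        rw [show w.length - i = w.length - (i + 1) + 1 by omega, mul_add] at hm
        simp only [h2, List.length_cons, List.length_append, Nat.succ_eq_add_one] at h4 ⊢
        omega
  refine ⟨(c + 1) * (L * c + L + 1), fun w ⟨q, hq, γ, h⟩ t ht => key w _ _ 0 _ (Nat.zero_le _) le_rfl
    (dl_comp M h hq rfl 0 (Nat.zero_le _) rfl) t (le_trans ?_ ht)⟩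
  rw [mul_assoc]
  refine Nat.mul_le_mul_left _ ?_
  simp only [List.length_singleton, Nat.sub_zero, mul_add]
  omega

/-- The coded pushdown system given by a table. -/
def dc (TB : ℕ → ℕ × ℕ × List ℕ) (cc : A ⊕ Bool → ℕ) (w : List A) (p Z : ℕ) : ℕ × List ℕ :=
  (Nat.pair (TB (Nat.pair p.unpair.1 (Nat.pair (cc (cell w (p.unpair.2 + 1))) Z))).1
    (min (p.unpair.2 + (TB (Nat.pair p.unpair.1 (Nat.pair (cc (cell w (p.unpair.2 + 1))) Z))).2.1)
      w.length),
    (TB (Nat.pair p.unpair.1 (Nat.pair (cc (cell w (p.unpair.2 + 1))) Z))).2.2)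

theorem pda_code [Finite A] [Finite Q] [Finite G] : ∃ (TB : ℕ → ℕ × ℕ × List ℕ)
    (cc : A ⊕ Bool → ℕ) (fn : ℕ → ℕ) (N q0 Z0 : ℕ), q0 < N ∧ Z0 < N ∧
    (∀ x, N ≤ x → TB x = (0, 0, []) ∧ fn x = 0) ∧
    (∀ x, (TB x).1 < N ∧ (TB x).2.2.length ≤ N ∧ ∀ Z ∈ (TB x).2.2, Z < N) ∧
    ∀ (w : List A) (t : ℕ),
      (fn (rn (dc TB cc w) t (Nat.pair q0 0, [Z0])).1.unpair.1 = 1 ∧
        w.length ≤ (rn (dc TB cc w) t (Nat.pair q0 0, [Z0])).1.unpair.2 → M.Accepts w) ∧
      (M.Accepts w → N * (w.length + 1) ≤ t →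
        fn (rn (dc TB cc w) t (Nat.pair q0 0, [Z0])).1.unpair.1 = 1 ∧
        w.length ≤ (rn (dc TB cc w) t (Nat.pair q0 0, [Z0])).1.unpair.2) := by
  classical
  obtain ⟨eQ, hQ⟩ := Countable.exists_injective_nat Q
  obtain ⟨eG, hG⟩ := Countable.exists_injective_nat G
  obtain ⟨eO, hO⟩ := Countable.exists_injective_nat (Option A)
  obtain ⟨N1, h1⟩ := dl_time M
  let key : Q × Option A × G → ℕ := fun x => Nat.pair (eQ x.1) (Nat.pair (eO x.2.1) (eG x.2.2))
  have hk : Function.Injective key := by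
    rintro ⟨a, b, c⟩ ⟨a', b', c'⟩ h
    simpa [key, hQ.eq_iff, hG.eq_iff, hO.eq_iff] using h
  let TB := Function.extend key (fun x => (eQ (tb M x.1 x.2.1 x.2.2).1, (tb M x.1 x.2.1 x.2.2).2.1,
    (tb M x.1 x.2.1 x.2.2).2.2.map eG)) fun _ => (0, 0, [])
  let cc : A ⊕ Bool → ℕ := fun s => eO s.getLeft?
  let fn : ℕ → ℕ := fun x => if ∃ q ∈ M.final, eQ q = x then 1 else 0
  obtain ⟨N2, h2⟩ : ∃ N, ∀ x : Q × Option A × G,
      key x + eQ x.1 + eG x.2.2 + (tb M x.1 x.2.1 x.2.2).2.2.length ≤ N :=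
    (Finite.bddAbove_range _).imp fun _ h x => h ⟨x, rfl⟩
  have lQ : ∀ q, eQ q ≤ N2 := fun q => by have := h2 (q, none, M.bottom); dsimp only at this; omega
  have lG : ∀ Z, eG Z ≤ N2 := fun Z => by have := h2 (M.start, none, Z); dsimp only at this; omega
  let enc : (Q × ℕ) × List G → ℕ × List ℕ := fun c => (Nat.pair (eQ c.1.1) c.1.2, c.2.map eG)
  have sim : ∀ w t, rn (dc TB cc w) t (Nat.pair (eQ M.start) 0, [eG M.bottom]) =
      enc (rn (dl M w) t ((M.start, 0), [M.bottom])) := by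
    intro w t
    induction t with
    | zero => rfl
    | succ t ih =>
      rw [rn_succ, rn_succ, ih]
      generalize rn (dl M w) t _ = c
      obtain ⟨⟨q, i⟩, _ | ⟨Z, β⟩⟩ := c
      · rfl
      have e1 : cc (cell w (i + 1)) = eO w[i]? := by
        simp only [cc, cell]
        rcases w[i]? with _ | a <;> rfl
      have e2 := hk.extend_apply (fun x => (eQ (tb M x.1 x.2.1 x.2.2).1,
        (tb M x.1 x.2.1 x.2.2).2.1, (tb M x.1 x.2.1 x.2.2).2.2.map eG)) (fun _ => (0, 0, []))
        (q, w[i]?, Z)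
      simp only [key] at e2
      simp only [enc, stp, List.map_cons, dc, Nat.unpair_pair, e1, dl, List.map_append, TB, key, e2]
  have hfn : ∀ q, fn (eQ q) = 1 ↔ q ∈ M.final := fun q => by simp [fn, hQ.eq_iff]
  refine ⟨TB, cc, fn, N1 + N2 + 1, eQ M.start, eG M.bottom, by have := lQ M.start; omega,
    by have := lG M.bottom; omega, fun x hx => ⟨?_, ?_⟩, fun x => ?_, fun w t => ?_⟩
  · refine Function.extend_apply' _ _ _ ?_
    rintro ⟨y, rfl⟩
    have := h2 y
    omega
  · refine if_neg ?_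
    rintro ⟨q, _, rfl⟩
    have := lQ q
    omega
  · by_cases e : ∃ y, key y = x
    · obtain ⟨y, rfl⟩ := e
      simp only [TB, hk.extend_apply, List.length_map, List.mem_map]
      have := h2 y
      have := lQ (tb M y.1 y.2.1 y.2.2).1
      refine ⟨by omega, by omega, ?_⟩
      rintro _ ⟨Z, _, rfl⟩
      have := lG Z
      omega
    · simp [TB, Function.extend_apply' _ _ _ e]
  · rw [sim]
    simp only [enc, Nat.unpair_pair, hfn]
    refine ⟨fun h => ?_, fun h ht => h1 w h t (le_trans (Nat.mul_le_mul_right _ (by omega)) ht)⟩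
    have := (dl_sound M w t).2
    rw [List.drop_eq_nil_of_le h.2] at this
    exact ⟨_, h.1, _, this⟩

end Pool.Agent.Lib.MP_5afa16_lc.Dc
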