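import Pool.Agent.Lib.MP_5afa16_lc.SpFn

/-! Laying out the work space. -/

namespace Pool.Agent.Lib.MP_5afa16_lc.Sp

open Relation

set_option maxHeartbeats 400000

variable {A : Type} {r : ℕ} {w : List A}

/-- Increment. -/
def inc (c : ℕ) : Prog A (Fin r → Bool) := .seq (cp 3 c true) (cp c 3 false)

/-- One more cell. -/
def ext : Prog A (Fin r → Bool) := .sw (fun _ x _ x' => x' = x) false false (some fun _ => false)

theorem inc_flat (c : ℕ) : Flat (inc c : Prog A (Fin r → Bool)) := ⟨cp_flat .., cp_flat ..⟩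

theorem inc_s {c : ℕ} {σ τ : List (Fin r → Bool) × ℕ} (hc : c ≠ 3) (h : sem w (inc c) σ τ) :
    τ.2 = σ.2 ∧ val τ.1 c = val σ.1 c + 1 ∧ ∀ c' ≠ c, c' ≠ 3 → val τ.1 c' = val σ.1 c' := by
  obtain ⟨κ, a, b⟩ := h
  have a := cp_s hc a
  have b := cp_s hc.symm b
  exact ⟨b.1.trans a.1, by rw [b.2.1, a.2.1]; rfl, fun c' h h' => (b.2.2 c' h).trans (a.2.2 c' h')⟩

theorem inc_c {c : ℕ} (σ : List (Fin r → Bool) × ℕ) (hc : c < 3) (hr : 3 < r)
    (h : val σ.1 c + 1 < 2 ^ σ.1.length) : ∃ τ, sem w (inc c) σ τ := by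
  obtain ⟨κ, a⟩ := cp_c w true σ hc.ne hr h
  obtain ⟨τ, b⟩ := cp_c w false κ hc.ne' (hc.trans hr) (val_lt ..)
  exact ⟨τ, κ, a, b⟩

theorem ext_iff {σ τ : List (Fin r → Bool) × ℕ} :
    sem w ext σ τ ↔ τ = (σ.1 ++ [fun _ => false], σ.2) := by
  have a : ∀ k L k' L', Sw (fun _ (x : Fin r → Bool) _ x' => x' = x) k L k' L' → L' = L := by
    intro k L k' L' h
    induction h with
    | nil => rfl
    | cons h _ ih => rw [h, ih]
  have b : ∀ L, Sw (fun _ (x : Fin r → Bool) _ x' => x' = x) false L false L := by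
    intro L
    induction L with
    | nil => exact .nil _
    | cons x L ih => exact .cons rfl ih
  exact ⟨fun ⟨L, h, e⟩ => by rw [e, a _ _ _ _ h]; rfl, fun e => ⟨_, b _, e⟩⟩

/-- The body of the loop that adds cells. -/
def grb (u : ℕ) : Prog A (Fin r → Bool) :=
  .seq (.seq (gs 3) (.seq (ad 2 3 u true false) (inc 2))) ext

/-- Add at most as many cells as a register says. -/
def grow (u : ℕ) : Prog A (Fin r → Bool) := .seq (cp 2 r false) (.star (grb u))

theorem grb_inv {u : ℕ} (h2 : u ≠ 2) (h3 : u ≠ 3) (hr : 3 < r) {σ κ τ : List (Fin r → Bool) × ℕ}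
    (a : sem w (cp 2 r false) σ κ) (h : ReflTransGen (sem w (grb u)) κ τ) :
    τ.1.length = σ.1.length + val τ.1 2 ∧ val τ.1 2 ≤ val σ.1 u ∧
      ∀ c ≠ 2, c ≠ 3 → val τ.1 c = val σ.1 c := by
  induction h with
  | refl =>
    have b := cp_s (by omega) a
    have c := (cp_flat ..).len a
    simp only [val_top, Bool.toNat_false] at b
    exact ⟨by omega, by omega, fun c h _ => b.2.2 c h⟩
  | tail _ h ih =>
    obtain ⟨κ3, ⟨κ1, t1, κ2, t2, t3⟩, t4⟩ := h
    obtain ⟨rfl, u2⟩ := ad_iff.1 t2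
    obtain rfl := ext_iff.1 t4
    have u1 := (gs_s t1).2
    have u3 := (inc_s (by omega) t3).2
    have l1 := Flat.len (p := gs _) rfl t1
    have l3 := (inc_flat _).len t3
    have := u1 2 (by omega)
    have := u1 u h3
    have := ih.2.2 u h2 h3
    simp only [val_ext, List.length_append, List.length_singleton, Bool.toNat_true,
      Bool.toNat_false] at u2 ⊢
    exact ⟨by omega, by omega, fun c a b => by rw [u3.2 c a b, u1 c b, ih.2.2 c a b]⟩

theorem grow_all {u : ℕ} (h2 : u ≠ 2) (h3 : u ≠ 3) (hr : 3 < r) (σ : List (Fin r → Bool) × ℕ) :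
    (∀ τ, sem w (grow u) σ τ → τ.1.length ≤ σ.1.length + val σ.1 u ∧
      ∀ c ≠ 2, c ≠ 3 → val τ.1 c = val σ.1 c) ∧
    (∀ B, σ.1.length + val σ.1 u ≤ B → Safe w B (grow u) σ) ∧
    ∃ τ, sem w (grow u) σ τ ∧ τ.1.length = σ.1.length + val σ.1 u := by
  refine ⟨fun τ ⟨κ, a, b⟩ => ?_, fun B hB => ⟨(cp_flat ..).safe (by omega), fun κ a τ b => ?_⟩, ?_⟩
  · have := grb_inv h2 h3 hr a b
    exact ⟨by omega, this.2.2⟩
  · have := grb_inv h2 h3 hr a b
    refine ⟨Flat.safe (p := .seq (gs 3) (.seq (ad ..) _)) ⟨rfl, rfl, inc_flat _⟩ (by omega), fun κ1 c κ2 d => ?_⟩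
    have := grb_inv h2 h3 hr a (b.tail ⟨κ1, c, d⟩)
    omega
  · obtain ⟨κ, a⟩ := cp_c w (s := r) (a := 2) false σ (by omega) (by omega) (val_lt ..)
    have : ∀ y ≤ val σ.1 u, ∃ τ, ReflTransGen (sem w (grb u)) κ τ ∧ val τ.1 2 = y := by
      intro y hy
      induction y with
      | zero => exact ⟨κ, .refl, by simp [(cp_s (by omega) a).2.1, val_top]⟩
      | succ y ih =>
        obtain ⟨τ, b, c⟩ := ih (by omega)
        have i := (grb_inv h2 h3 hr a b).2.2 u h2 h3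
        have l := val_lt τ.1 u
        obtain ⟨κ1, t1, v1⟩ := gs_c w (y := val σ.1 u - y - 1) hr τ (by omega)
        have u1 := (gs_s t1).2
        have l1 := Flat.len (p := gs _) rfl t1
        obtain ⟨κ3, t3⟩ := inc_c (w := w) (c := 2) κ1 (by omega) hr
          (by rw [u1 2 (by omega), l1]; omega)
        refine ⟨_, b.tail ⟨κ3, ⟨κ1, t1, κ1, ad_iff.2 ⟨rfl, ?_⟩, t3⟩, ext_iff.2 rfl⟩, ?_⟩
        · simp only [v1, u1 2 (by omega), u1 u h3, Bool.toNat_true, Bool.toNat_false]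
          omega
        · rw [val_ext, (inc_s (by omega) t3).2.1, u1 2 (by omega), c]
    obtain ⟨τ, b, c⟩ := this _ le_rfl
    exact ⟨τ, ⟨κ, a, b⟩, by rw [(grb_inv h2 h3 hr a b).1, c]⟩

/-- Repeated growth. -/
def grows : ℕ → Prog A (Fin r → Bool)
  | 0 => ad r r r false false
  | m + 1 => .seq (grow 1) (grows m)

theorem grows_all (hr : 3 < r) (m : ℕ) : ∀ σ : List (Fin r → Bool) × ℕ,
    (∀ τ, sem w (grows m) σ τ → τ.1.length ≤ σ.1.length + m * val σ.1 1 ∧
      ∀ c ≠ 2, c ≠ 3 → val τ.1 c = val σ.1 c) ∧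
    (∀ B, σ.1.length + m * val σ.1 1 ≤ B → Safe w B (grows m) σ) ∧
    ∃ τ, sem w (grows m) σ τ ∧ τ.1.length = σ.1.length + m * val σ.1 1 := by
  induction m with
  | zero => exact fun σ => ⟨fun τ a => by simp [(ad_iff.1 a).1],
      fun B h => Flat.safe (p := ad ..) rfl (by omega), σ, ad_iff.2 (by simp [val_top]), by simp⟩
  | succ m ih =>
    intro σ
    obtain ⟨g1, g2, κ, g3, g4⟩ := grow_all (w := w) (u := 1) (by omega) (by omega) hr σ
    simp only [add_mul, one_mul]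
    refine ⟨fun τ ⟨κ, a, b⟩ => ?_, fun B hB => ⟨g2 B (by omega), fun κ a => ?_⟩, ?_⟩
    · have x := g1 κ a
      have y := (ih κ).1 τ b
      rw [x.2 1 (by omega) (by omega)] at y
      exact ⟨by omega, fun c u v => (y.2 c u v).trans (x.2 c u v)⟩
    · have x := g1 κ a
      exact (ih κ).2.1 B (by rw [x.2 1 (by omega) (by omega)]; omega)
    · obtain ⟨τ, a, b⟩ := (ih κ).2.2
      exact ⟨τ, ⟨κ, g3, a⟩, by rw [b, (g1 κ g3).2 1 (by omega) (by omega)]; omega⟩

/-- The body of the loop that counts the input. -/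
def cnt : Prog A (Fin r → Bool) := .alt (.seq (.io (· ≠ .inr true) 2) (inc 0))
  (.seq (ad 0 r r true true) (.seq ext (inc 1)))

theorem cell_ne (w : List A) (i : ℕ) : cell w i ≠ .inr true ↔ i ≤ w.length := by
  rcases i with _ | i
  · simp [cell]
  · rw [cell, Nat.succ_le_iff, ← not_le, ← List.getElem?_eq_none_iff]
    cases w[i]? <;> simp

theorem cnt_inv {τ : List (Fin r → Bool) × ℕ} (h : ReflTransGen (sem w cnt) ([], 0) τ) :
    τ.2 = val τ.1 0 ∧ τ.2 ≤ w.length + 1 ∧ val τ.1 1 = τ.1.length ∧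
      τ.1.length ≤ Nat.log 2 (w.length + 2) + 1 := by
  induction h with
  | refl => simp [val]
  | tail _ h ih =>
    rcases h with ⟨_, ⟨a, rfl⟩, b⟩ | ⟨_, a, _, b, c⟩
    · have u := inc_s (by omega) b
      have l := (inc_flat _).len b
      have := u.2.2 1 (by omega) (by omega)
      rw [cell_ne] at a
      simp only [Fin.coe_ofNat_eq_mod] at u l this
      omega
    · obtain ⟨rfl, a⟩ := ad_iff.1 a
      obtain rfl := ext_iff.1 b
      have u := inc_s (by omega) c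
      have l := (inc_flat _).len c
      have := u.2.2 0 (by omega) (by omega)
      simp only [val_ext, val_top, List.length_append, List.length_singleton, Bool.toNat_true]
        at u l this a
      have := Nat.le_log_of_pow_le (b := 2) (by omega)
        (show 2 ^ _ ≤ w.length + 2 by rw [← mul_one (2 ^ _), ← zero_add (_ * _), ← a]; omega)
      omega

theorem cnt_safe {B : ℕ} (hB : Nat.log 2 (w.length + 2) + 1 ≤ B) :
    Safe w B (.star (cnt (r := r))) ([], 0) := by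
  intro τ h
  have i := cnt_inv h
  refine ⟨Flat.safe (p := .seq (.io ..) _) ⟨trivial, inc_flat _⟩ (by omega),
    Flat.safe (p := ad ..) rfl (by omega), fun κ a => ?_⟩
  obtain ⟨rfl, a⟩ := ad_iff.1 a
  simp only [val_top, Bool.toNat_true] at a
  have := Nat.le_log_of_pow_le (b := 2) (by omega)
    (show 2 ^ _ ≤ w.length + 2 by rw [← mul_one (2 ^ _), ← zero_add (_ * _), ← a]; omega)
  have e : ∀ κ', sem w ext κ κ' → κ'.1.length ≤ B := fun κ' b => by
    rw [ext_iff.1 b]; simp; omega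
  exact ⟨e, fun κ' b => (inc_flat _).safe (e κ' b)⟩

theorem cnt_c (hr : 3 < r) : ∀ y ≤ w.length + 1, ∃ τ : List (Fin r → Bool) × ℕ,
    ReflTransGen (sem w cnt) ([], 0) τ ∧ val τ.1 0 = y := by
  intro y hy
  induction y with
  | zero => exact ⟨_, .refl, rfl⟩
  | succ y ih =>
    obtain ⟨τ, a, b⟩ := ih (by omega)
    obtain ⟨τ, a, b, c⟩ : ∃ τ : List (Fin r → Bool) × ℕ, ReflTransGen (sem w cnt) ([], 0) τ ∧
        val τ.1 0 = y ∧ y + 1 < 2 ^ τ.1.length := by
      by_cases e : y + 1 < 2 ^ τ.1.length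
      · exact ⟨τ, a, b, e⟩
      have l := val_lt τ.1 0
      obtain ⟨κ, t⟩ := inc_c (w := w) (c := 1) (τ.1 ++ [fun _ => false], τ.2) (by omega) hr (by
        simp only [val_ext, (cnt_inv a).2.2.1, List.length_append, List.length_singleton]
        exact Nat.lt_two_pow_self)
      refine ⟨κ, a.tail (Or.inr ⟨τ, ad_iff.2 ⟨rfl, by simp [val_top]; omega⟩, _, ext_iff.2 rfl, t⟩),
        by rw [(inc_s (by omega) t).2.2 0 (by omega) (by omega), val_ext, b], ?_⟩
      rw [(inc_flat _).len t]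
      simp only [List.length_append, List.length_singleton, pow_succ]
      omega
    have i := cnt_inv a
    obtain ⟨κ, t⟩ := inc_c (w := w) (c := 0) (τ.1, min (τ.2 + (2 : Fin 3) - 1) (w.length + 1))
      (by omega) hr (by rwa [b])
    exact ⟨κ, a.tail (Or.inl ⟨_, ⟨(cell_ne ..).2 (by omega), rfl⟩, t⟩),
      by rw [(inc_s (by omega) t).2.1, b]⟩

theorem space {φ : List A × ℕ → Prop} (hφ : NS φ) (Lang : List A → Prop) (C0 : ℕ)
    (hs : ∀ w Y, φ (w, Y) → Lang w) (hc : ∀ w, Lang w → ∀ l, w.length + 1 < 2 ^ l →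
      ∃ b Y, b ^ 2 ≤ C0 * l ^ 3 ∧ l ≤ b ∧ Y < 2 ^ b ∧ φ (w, Y)) :
    ∃ Q W : Type, Finite Q ∧ Finite W ∧ ∃ (N : NTM A Q W) (C : ℕ), ∀ w, (N.Accepts w ↔ Lang w) ∧
      ∀ c, N.Reach w c → (c.head + 1) ^ 2 ≤ C * (Nat.log 2 (w.length + 2) + 1) ^ 3 := by
  obtain ⟨c, k, hφ⟩ := hφ
  obtain ⟨C1, hC1⟩ : ∃ C1, C1 = (c + 1) ^ 2 * C0 := ⟨_, rfl⟩
  obtain ⟨c1, k1, hψ⟩ : NS fun y : (List A × ℕ) × ℕ => y.2 ^ 2 ≤ C1 * y.1.2 ^ 3 := ND.p
  obtain ⟨P, f, hP⟩ := hφ (6 + k + k1) (fun _ => 5) 6 (by simp) (by omega)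
  obtain ⟨P', f', hP'⟩ := hψ (6 + k + k1) (fun i => if i = 0 then 1 else 4) 6
    (fun i _ => by split_ifs <;> omega) (by omega)
  have hr : 3 < 6 + k + k1 := by omega
  have kP := fun w (κ : List (Fin (6 + k + k1) → Bool) × ℕ) => hP (w, val κ.1 5) κ fun i hi => by
    obtain rfl : i = 0 := by simpa [Cx.n] using hi
    rfl
  have kP' := fun w (κ : List (Fin (6 + k + k1) → Bool) × ℕ) =>
    hP' ((w, val κ.1 1), val κ.1 4) κ fun i hi => by
      have : i < 2 := hi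
      interval_cases i <;> rfl
  obtain ⟨Q, fQ, N, hN⟩ := compile (.seq (.star cnt) (.seq (grows ((c1 + 1) * (C1 + 3)))
    (.seq (gs 4) (.seq P' (.seq (grow 4) (.seq (gs 5) P))))))
  refine ⟨Q, _, fQ, inferInstance, N, 2 * ((c1 + 1) * (C1 + 3) + 3) ^ 2 + 2 * C1, fun w =>
    ⟨(hN w).1.trans ⟨?_, fun h => ?_⟩, fun x hx => ?_⟩⟩
  · rintro ⟨τ, -, -, -, -, -, -, -, -, -, -, κ, -, t⟩
    exact hs _ _ ((kP w κ).1 τ t).1
  · obtain ⟨κ1, t1, v1⟩ := cnt_c (w := w) hr _ le_rfl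
    have i1 := (cnt_inv t1).2.2.1
    have l1 := val_lt κ1.1 0
    rw [v1] at l1
    obtain ⟨b, Y, b1, b2, b3, b4⟩ := hc w h _ l1
    obtain ⟨g1, -, κ2, t2, l2⟩ := grows_all (w := w) hr ((c1 + 1) * (C1 + 3)) κ1
    rw [i1] at l2
    generalize κ1.1.length = l at *
    have l0 : 0 < l := by
      rcases l with _ | l
      · simp at l1
      · omega
    have e1 : ((c + 1) * b) ^ 2 ≤ C1 * l ^ 3 := by
      rw [mul_pow, hC1, mul_assoc]; exact Nat.mul_le_mul_left _ b1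
    have e2 : (c + 1) * b < 2 ^ ((C1 + 3) * l) := by
      refine ((Nat.le_self_pow two_ne_zero _).trans e1).trans_lt ?_
      rw [add_mul, pow_add, mul_comm 3, pow_mul _ _ 3]
      exact Nat.mul_lt_mul'' (Nat.lt_two_pow_self.trans_le (Nat.pow_le_pow_right (by omega)
        (Nat.le_mul_of_pos_right _ l0))) (Nat.pow_lt_pow_left Nat.lt_two_pow_self (by omega))
    have e3 : l ≤ (C1 + 3) * l := Nat.le_mul_of_pos_left _ (by omega)
    rw [mul_assoc, add_mul c1] at l2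
    obtain ⟨κ3, t3, v3⟩ := gs_c w (show 4 < 6 + k + k1 by omega) κ2
      (e2.trans_le (Nat.pow_le_pow_right (by omega) (by omega)))
    have l3 := Flat.len (p := gs _) rfl t3
    have v4 : val κ3.1 1 = l := by
      rw [(gs_s t3).2 1 (by omega), (g1 _ t2).2 1 (by omega) (by omega), i1]
    have sb : Sb (A := A) w l := ⟨l0, show w.length < _ by omega, fun i hi => absurd hi (by
      simp [Cx.n])⟩
    obtain ⟨κ4, t4⟩ := (kP' w κ3).2 (by rwa [v3, v4]) ((C1 + 3) * l)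
      (by rw [v3, v4]; exact ((sb.ext Nat.lt_two_pow_self).mono e3).ext e2) (by omega)
    obtain ⟨-, -, κ5, t5, l5⟩ := grow_all (w := w) (u := 4) (by omega) (by omega) hr κ4
    rw [((kP' w κ3).1 _ t4).2 4 (by omega), v3, add_mul] at l5
    obtain ⟨κ6, t6, v6⟩ := gs_c w (show 5 < 6 + k + k1 by omega) κ5
      (b3.trans_le (Nat.pow_le_pow_right (by omega) (by omega)))
    obtain ⟨τ, t⟩ := (kP w κ6).2 (by rwa [v6]) b (by rw [v6]; exact (sb.mono b2).ext b3)
      (by rw [Flat.len (p := gs _) rfl t6]; omega)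
    exact ⟨τ, κ1, t1, κ2, t2, κ3, t3, κ4, t4, κ5, t5, κ6, t6, t⟩
  · generalize hl : Nat.log 2 (w.length + 2) + 1 = l
    generalize (c1 + 1) * (C1 + 3) = m at *
    have := (hN w).2 (l + m * l + (C1 * l ^ 3).sqrt) ⟨cnt_safe (by omega), fun κ1 t1 => ?_⟩ x hx
    · have l0 : 0 < l := by omega
      have s := Nat.sqrt_le' (C1 * l ^ 3)
      have a : x.head + 1 ≤ (m + 3) * l + (C1 * l ^ 3).sqrt := by rw [add_mul]; omega
      have b : ((m + 3) * l) ^ 2 ≤ (m + 3) ^ 2 * l ^ 3 := by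
        rw [mul_pow]; exact Nat.mul_le_mul_left _ (Nat.pow_le_pow_right l0 (by omega))
      refine (Nat.pow_le_pow_left a 2).trans ?_
      generalize (m + 3) * l = u at *
      generalize (C1 * l ^ 3).sqrt = v at *
      nlinarith [sq_nonneg ((u : ℤ) - v)]
    have i1 := (cnt_inv t1).2.2
    rw [hl] at i1
    have m1 : m * val κ1.1 1 ≤ m * l := Nat.mul_le_mul_left _ (by omega)
    obtain ⟨g1, g2, -⟩ := grows_all (w := w) hr m κ1
    refine ⟨g2 _ (by omega), fun κ2 t2 => ?_⟩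
    have u2 := g1 _ t2
    refine ⟨Flat.safe (p := gs _) rfl (by omega), fun κ3 t3 => ?_⟩
    have l3 := Flat.len (p := gs _) rfl t3
    refine ⟨f'.safe (by omega), fun κ4 t4 => ?_⟩
    have l4 := f'.len t4
    have u4 := (kP' w κ3).1 _ t4
    have u5 : val κ4.1 4 ≤ (C1 * l ^ 3).sqrt := by
      rw [Nat.le_sqrt', u4.2 4 (by omega)]
      refine u4.1.trans (Nat.mul_le_mul_left _ (Nat.pow_le_pow_left ?_ 3))
      dsimp only
      rw [(gs_s t3).2 1 (by omega), u2.2 1 (by omega) (by omega)]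
      omega
    obtain ⟨g3, g4, -⟩ := grow_all (w := w) (u := 4) (by omega) (by omega) hr κ4
    exact ⟨g4 _ (by omega), fun κ5 t5 => Flat.safe (p := .seq (gs 5) P) ⟨rfl, f⟩
      (by have := (g3 _ t5).1; omega)⟩

end Pool.Agent.Lib.MP_5afa16_lc.Sp
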