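import Pool.Agent.Lib.MP_5afa16_lc.DcTru
import Pool.Agent.Lib.MP_5afa16_lc.DcPda
import Pool.Agent.Lib.MP_5afa16_lc.SpTop

/-! The walk on coded configurations is definable. -/

namespace Pool.Agent.Lib.MP_5afa16_lc.Dc

open Sp Relation

set_option maxHeartbeats 1000000
set_option synthInstance.maxSize 100000
set_option synthInstance.maxHeartbeats 1000000

/-- A digit. -/
def dig (V x i : ℕ) : ℕ := x / V ^ i % V

theorem exists_dig (V n : ℕ) : ∀ f : ℕ → ℕ, (∀ i < n, f i < V) →
    ∃ x < V ^ n, ∀ i < n, dig V x i = f i := by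
  induction n with
  | zero => exact fun _ _ => ⟨0, by simp, by simp⟩
  | succ n ih =>
    intro f h
    obtain ⟨x, a, b⟩ := ih (fun i => f (i + 1)) fun i hi => h _ (by omega)
    have h0 := h 0 (by omega)
    refine ⟨f 0 + V * x, by rw [pow_succ']; nlinarith, fun i hi => ?_⟩
    rcases i with _ | i
    · simp [dig, Nat.mod_eq_of_lt h0]
    · rw [← b i (by omega), dig, dig, pow_succ', ← Nat.div_div_eq_div_mul,
        Nat.add_mul_div_left _ _ (by omega), Nat.div_eq_of_lt h0, zero_add]

/-- The bound on the registers. -/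
def bB (g m : ℕ) : ℕ := 64 * (g * g + 1) * m

/-- The base for registers and lengths. -/
def bV (g m d : ℕ) : ℕ := d * bB g m ^ 2 + 2 * bB g m + 1

/-- A register. -/
def xd (g m d x c s : ℕ) : Fin d → ℤ := fun t =>
  if c < g ∧ s < 5 then (dig (bV g m d) x ((c * 5 + s) * d + t) : ℤ) - bB g m else 0

/-- A length. -/
def cd (g m d x j s : ℕ) : ℕ := if j < g * g + 2 ∧ s < 5 then dig (bV g m d) x (j * 5 + s) else 0

/-- A stored name. -/
def ed (g k x b : ℕ) : ℕ := if b ≤ g * g / g then dig k x b else 0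

/-- The configuration with a given code. -/
def dec (g m d k z : ℕ) : (ℕ × ℕ × ℕ) × Mem d :=
  ((pj 0 z, pj 1 z, pj 2 z),
    ⟨xd g m d (pj 3 z), fun j s => cd g m d (pj 4 z) j s, ed g k (pj 5 z)⟩)

theorem dec_zr (g m d k z : ℕ) : Zr g (g * g) (dec g m d k z).2 :=
  ⟨fun _ _ e => funext fun _ => if_neg e, fun _ _ e => by simp only [dec, cd, if_neg e]; rfl,
    fun _ e => if_neg e⟩

theorem dec_ex {g m d k K : ℕ} (hd : 0 < d) (h1 : bV g m d ^ (g * 5 * d) ≤ K)
    (h2 : bV g m d ^ ((g * g + 2) * 5) ≤ K) (h3 : k ^ (g * g / g + 1) ≤ K) {j i t : ℕ} (hj : j < K)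
    (hi : i < K) (ht : t < K) {μ : Mem d} (b : Bd k (d * (bB g m : ℤ) ^ 2) (bB g m) μ)
    (z : Zr g (g * g) μ) : ∃ y < K ^ 64, dec g m d k y = ((j, i, t), μ) := by
  have bx : ∀ c s t, |μ.X c s t| ≤ bB g m := fun c s t => by
    have := (pi_norm_le_iff_of_nonneg (by positivity)).1 (b.X c s) t
    rw [Int.norm_eq_abs] at this
    exact_mod_cast this
  obtain ⟨x, x1, x2⟩ := exists_dig (bV g m d) (g * 5 * d)
    (fun i => (μ.X (i / d / 5) (i / d % 5) ⟨i % d, Nat.mod_lt _ hd⟩ + bB g m).toNat) fun i _ => by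
      have := abs_le.1 (bx (i / d / 5) (i / d % 5) ⟨i % d, Nat.mod_lt _ hd⟩)
      unfold bV
      omega
  obtain ⟨c, c1, c2⟩ := exists_dig (bV g m d) ((g * g + 2) * 5)
    (fun i => (μ.C (i / 5) (i % 5)).toNat) fun i _ => by
      have := b.C (i / 5) (i % 5)
      have e : ((d * bB g m ^ 2 : ℕ) : ℤ) = d * (bB g m : ℤ) ^ 2 := by push_cast; rfl
      unfold bV
      omega
  obtain ⟨e, e1, e2⟩ := exists_dig k (g * g / g + 1) μ.E fun i _ => b.E i
  refine ⟨_, t6_lt hj hi ht (x1.trans_le h1) (c1.trans_le h2) (e1.trans_le h3), ?_⟩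
  obtain ⟨X, C, E⟩ := μ
  simp only [dec, pj_t6, Prod.mk.injEq, Mem.mk.injEq, true_and]
  refine ⟨?_, ?_, ?_⟩
  · funext c s t
    unfold xd
    split_ifs with a
    · have a1 : ((c * 5 + s) * d + t) / d = c * 5 + s := by
        rw [add_comm, Nat.add_mul_div_right _ _ hd, Nat.div_eq_of_lt t.2, zero_add]
      have a2 : ((c * 5 + s) * d + t) % d = t := by
        rw [add_comm, Nat.add_mul_mod_self_right, Nat.mod_eq_of_lt t.2]
      have a3 : (c * 5 + s + 1) * d ≤ g * 5 * d := Nat.mul_le_mul_right _ (by omega)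
      have := abs_le.1 (bx c s t)
      rw [x2 _ (by have := t.2; rw [add_mul _ 1] at a3; omega)]
      simp only [a1, a2, show (c * 5 + s) / 5 = c by omega, show (c * 5 + s) % 5 = s by omega,
        Fin.eta] at this ⊢
      omega
    · exact (congrFun (z.X c s a) t).symm
  · funext j s
    unfold cd
    split_ifs with a
    · have := (b.C j s).1
      rw [c2 _ (by omega)]
      simp only [show (j * 5 + s) / 5 = j by omega, show (j * 5 + s) % 5 = s by omega] at this ⊢
      omega
    · exact (z.C j s a).symm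
  · funext b
    unfold ed
    split_ifs with a
    · exact e2 b (by omega)
    · exact (z.E b a).symm

/-- The vector of a number. -/
def vz (m d a : ℕ) : Fin d → ℤ := fun t => vc m d a t

/-- Finite tables. -/
class Tab (TB : ℕ → ℕ × ℕ × List ℕ) (fn : outParam (ℕ → ℕ)) : Prop where
  ex : ∃ N, ∀ x, (N ≤ x → TB x = (0, 0, []) ∧ fn x = 0) ∧ (TB x).2.2.length ≤ N

variable {A Γ : Type} [hΓ : Cx A Γ]

section

variable {a b c d e f : Γ → ℕ}

instance nfPj (i : ℕ) [h : NF a] : NF fun x => pj i (a x) := by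
  induction i generalizing a with
  | zero => exact nfUnpair1
  | succ i ih => exact ih (a := fun x => (a x).unpair.2)

instance nfT6 [NF a] [NF b] [NF c] [NF d] [NF e] [NF f] :
    NF fun x => t6 (a x) (b x) (c x) (d x) (e x) (f x) := by
  unfold t6
  infer_instance

instance nfDig [NF a] [NF b] [NF c] : NF fun x => dig (a x) (b x) (c x) := by
  unfold dig
  infer_instance

instance nfSl [NF a] : NF fun x => sl (a x) := by
  unfold sl
  infer_instance

instance nfLo [NF a] [NF b] : NF fun x => lo (a x) (b x) := by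
  unfold lo
  infer_instance

instance nfNm [NF a] [NF b] [NF c] : NF fun x => nm (a x) (dig (b x) (c x)) := by
  unfold nm
  infer_instance

instance nfOut [NF b] [NF c] : NF fun x => out (dig (b x) (c x)) := by
  unfold out
  infer_instance

instance nfVc [NF a] [NF b] [NF c] [NF d] : NF fun x => vc (a x) (b x) (c x) (d x) := by
  unfold vc
  infer_instance

instance nfBB [NF a] [NF b] : NF fun x => bB (a x) (b x) := by
  unfold bB
  infer_instance

instance nfBV [NF a] [NF b] [NF c] : NF fun x => bV (a x) (b x) (c x) := by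
  unfold bV
  infer_instance

instance nfCd [NF a] [NF b] [NF c] [NF d] [NF e] [NF f] :
    NF fun x => cd (a x) (b x) (c x) (d x) (e x) (f x) := by
  unfold cd
  infer_instance

instance nfEd [NF a] [NF b] [NF c] [NF d] : NF fun x => ed (a x) (b x) (c x) (d x) := by
  unfold ed
  infer_instance

instance vfVz [ha : NF a] [hb : NF b] [hc : NF c] : VF b fun x => vz (a x) (b x) (c x) := by
  have := ha.wk
  have := hb.wk
  have := hc.wk
  exact ⟨fun y => vc (a y.1) (b y.1) (c y.1) y.2, inferInstance, fun _ _ => rfl⟩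

instance vfXd [ha : NF a] [hb : NF b] [hc : NF c] [hd : NF d] [he : NF e] [hf : NF f] :
    VF c fun x => xd (a x) (b x) (c x) (d x) (e x) (f x) := by
  have := ha.wk
  have := hb.wk
  have := hc.wk
  have := hd.wk
  have := he.wk
  have := hf.wk
  exact ⟨fun y => if e y.1 < a y.1 ∧ f y.1 < 5 then (dig (bV (a y.1) (b y.1) (c y.1)) (d y.1)
    ((e y.1 * 5 + f y.1) * c y.1 + y.2) : ℤ) - bB (a y.1) (b y.1) else 0, inferInstance,
    fun _ _ => rfl⟩

instance zfNsq {V : ∀ x, Fin (a x) → ℤ} [NF a] [VF a V] : ZF fun x => nsq (V x) := ZF.sq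

variable {TB : ℕ → ℕ × ℕ × List ℕ} {fn : ℕ → ℕ} [hT : Tab TB fn] {cc : A ⊕ Bool → ℕ} [Finite A]
  {π : Γ → List A} [Mor π]

include hT

theorem nf_dc [NF a] [NF b] [NF c] : (NF fun x => (dc TB cc (π x) (a x) (b x)).1) ∧
    (NF fun x => (dc TB cc (π x) (a x) (b x)).2.length) ∧
    NF fun x => (dc TB cc (π x) (a x) (b x)).2.getD (c x) 0 := by
  obtain ⟨N, h⟩ := hT.ex
  have : NF fun x => (a x).unpair.2 + 1 := inferInstance
  have := NF.cell cc π fun x => (a x).unpair.2 + 1
  have : NF fun x => Nat.pair (a x).unpair.1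
    (Nat.pair (cc (cell (π x) ((a x).unpair.2 + 1))) (b x)) := inferInstance
  unfold dc
  generalize_proofs
  generalize hk : (fun x => Nat.pair (a x).unpair.1
    (Nat.pair (cc (cell (π x) ((a x).unpair.2 + 1))) (b x))) = k at this
  simp only [show ∀ x, Nat.pair (a x).unpair.1
    (Nat.pair (cc (cell (π x) ((a x).unpair.2 + 1))) (b x)) = k x from congrFun hk]
  have := NF.table (T := fun x => (TB x).1) (fun x l => by rw [((h x).1 l).1]) k
  have := NF.table (T := fun x => (TB x).2.1) (fun x l => by rw [((h x).1 l).1]) k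
  refine ⟨inferInstance, NF.table (T := fun x => (TB x).2.2.length)
    (fun x l => by rw [((h x).1 l).1]; rfl) k, ?_⟩
  refine (NF.table (N := (N + 1) ^ 2) (T := fun y => (TB y.unpair.1).2.2.getD y.unpair.2 0)
    (fun y l => ?_) fun x => Nat.pair (k x) (c x)).congr fun x => by simp
  by_cases e : N ≤ y.unpair.1
  · simp [((h _).1 e).1]
  · refine List.getD_eq_default _ _ ((h _).2.trans ?_)
    have := Nat.pair_lt_max_add_one_sq y.unpair.1 y.unpair.2
    rw [Nat.pair_unpair] at this
    have := lt_of_pow_lt_pow_left₀ 2 (by omega) (l.trans_lt this)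
    omega

instance nfBase [NF a] : NF fun x => base (dc TB cc (π x)) (a x) := by
  have h1 := nf_dc (TB := TB) (cc := cc) (π := π) (a := fun x => pj 0 (a x))
    (b := fun x => pj 1 (a x)) (c := fun x => pj 3 (a x))
  have := h1.2.1
  have := h1.2.2
  have : NF fun x => hS (dc TB cc (π x)) (a x) := by
    unfold hS
    infer_instance
  have : NF fun x => sS (dc TB cc (π x)) (a x) := by
    unfold sS
    infer_instance
  have := (nf_dc (TB := TB) (cc := cc) (π := π) (a := fun x => pj 4 (a x))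
    (b := fun x => sS (dc TB cc (π x)) (a x)) (c := a)).1
  unfold base
  infer_instance

end

end Pool.Agent.Lib.MP_5afa16_lc.Dc
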