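import Pool.Agent.Lib.MP_5afa16_lc.DcSound

/-! Completeness of the reversible evaluation, with bounds on the memory. -/

namespace Pool.Agent.Lib.MP_5afa16_lc.Dc

/-- Bounds on the memory. -/
structure Bd {d : ℕ} (k : ℕ) (D : ℤ) (β : ℝ) (μ : Mem d) : Prop where
  X : ∀ c s, ‖μ.X c s‖ ≤ β
  C : ∀ j s, 0 ≤ μ.C j s ∧ μ.C j s ≤ D
  E : ∀ b, μ.E b < k

/-- The condition before every event of the honest run. -/
def PB {d : ℕ} (k : ℕ) (D : ℤ) (B : ℝ) (G : ℕ → ℕ) (μ : Mem d) : Prop :=
  (∀ s, G s < k) ∧ (∀ s, 4 < s → G s = 0) ∧ Bd k D B μ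

theorem norm_ite {d : ℕ} {c : Prop} [Decidable c] {a b : Fin d → ℤ} {r : ℝ} (h : c → ‖a‖ ≤ r)
    (h' : ‖b‖ ≤ r) : ‖if c then a else b‖ ≤ r := by
  split_ifs with e
  · exact h e
  · exact h'

theorem norm_sm {d : ℕ} {a : Fin d → ℤ} {M : ℝ} (h : ‖a‖ ≤ M) {n : ℕ} (hn : n ≤ 10) :
    ‖n • a‖ ≤ 10 * M := by
  have h1 : (n : ℝ) ≤ 10 := by exact_mod_cast hn
  have := norm_nonneg a
  exact (norm_nsmul_le (n := n) (a := a)).trans (by nlinarith)

namespace Sch

variable {d : ℕ} (S : Sch d)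

/-- Bounds on the true values. -/
structure Okb (F : ℕ → ℕ → ℕ) (T : ℕ → ℕ → ℕ → ℕ) (ok : ℕ → ℕ → Prop) (k : ℕ) (D : ℤ)
    (M B : ℝ) : Prop where
  ch : ∀ j a s, ok (j + 1) a → 1 ≤ s → s ≤ 4 → ok j (S.nm s (T j a))
  lt : ∀ j a, ok j a → a < k ∧ F j a < k
  n0 : ∀ G, S.nm 0 G < k
  vb : ∀ a < k, ‖S.vec a‖ ≤ M
  db : ∀ x : Fin d → ℤ, ‖x‖ ≤ B → nsq x ≤ D

/-- What the caller has prepared. -/
structure Pre (j p z o : ℕ) (μ : Mem d) : Prop where
  E : j % S.g = 0 → μ.E (j / S.g) = z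
  C : μ.C j 0 = nsq (μ.X (j % S.g) 0 - S.nv j z)
  cl : 4 ≤ p → p < 8 → μ.C (j + 1) (8 - p) =
    nsq (μ.X ((j + 1) % S.g) (8 - p) - (p + 2) • S.vec o)
  ac : p = 8 → S.acc o

variable {S} {F : ℕ → ℕ → ℕ} {T : ℕ → ℕ → ℕ → ℕ} {ok : ℕ → ℕ → Prop} {k : ℕ} {D : ℤ} {M B : ℝ}

theorem Okb.m0 (b : S.Okb F T ok k D M B) : 0 ≤ M :=
  (norm_nonneg _).trans (b.vb _ (b.n0 fun _ => 0))

theorem Okb.nv (b : S.Okb F T ok k D M B) (j : ℕ) {a : ℕ} (h : a < k) : ‖S.nv j a‖ ≤ M := by
  unfold Sch.nv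
  split_ifs
  · simpa using b.m0
  · exact b.vb a h

theorem Okb.ov (b : S.Okb F T ok k D M B) (j p c s : ℕ) {o : ℕ} (h : o < k) :
    ‖S.ov j p o c s‖ ≤ 10 * M := by
  have := b.m0
  refine norm_ite (fun e => norm_ite (fun _ => norm_sm (b.vb o h) (by omega)) ?_) (by simpa)
  rw [norm_neg]
  exact norm_sm (b.vb o h) (by omega)

theorem step_bd (b : S.Okb F T ok k D M B) {j i p : ℕ} {G : ℕ → ℕ} {μ ν : Mem d} {β : ℝ}
    (hs : S.Step j i p G μ ν) (hμ : Bd k D β μ) (hβ : β ≤ B) (hG : ∀ s, G s < k)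
    (hn : j ≠ 0 → ∀ i, S.nm (sl i) G < k) (hv : S.val j G < k) : Bd k D (β + 22 * M) ν := by
  have m0 := b.m0
  refine ⟨fun c s => ?_, fun j' s => ?_, fun e => ?_⟩
  · rw [hs.uX]
    have a1 : ‖if c = j % S.g ∧ s ≤ lo j i then S.sv j s (G s) else 0‖ ≤ M :=
      norm_ite (fun _ => norm_ite (fun _ => b.nv _ (hG s)) (b.vb _ (hG s))) (by simpa)
    have a2 : ‖if j ≠ 0 ∧ c = (j - 1) % S.g ∧ s = 0 then
        (if i < 8 then S.nv (j - 1) (S.nm (sl i) G) else 0) -
        (if i ≠ 0 then 10 • S.nv (j - 1) (S.nm (sl (i - 1)) G) else 0) else 0‖ ≤ M + 10 * M :=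
      norm_ite (fun e => (norm_sub_le _ _).trans (add_le_add
        (norm_ite (fun _ => b.nv _ (hn e.1 _)) (by simpa))
        (norm_ite (fun _ => norm_sm (b.nv _ (hn e.1 _)) le_rfl) (by simpa))))
        (by rw [norm_zero]; positivity)
    have a3 : ‖if i = 4 then S.ov j p (S.val j G) c s else 0‖ ≤ 10 * M :=
      norm_ite (fun _ => b.ov _ _ _ _ hv) (by simpa)
    refine (norm_add_le _ _).trans ((add_le_add ((norm_add_le _ _).trans (add_le_add
      ((norm_add_le _ _).trans (add_le_add (hμ.X c s) a1)) a2)) a3).trans (by linarith))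
  · rw [hs.uC]
    split_ifs
    · exact ⟨nsq_nonneg _, b.db _ ((hμ.X _ _).trans hβ)⟩
    · exact ⟨nsq_nonneg _, b.db _ ((hμ.X _ _).trans hβ)⟩
    · exact hμ.C _ _
  · rw [hs.uE]
    split_ifs with a
    · exact hn (by omega) _
    · exact hμ.E _

theorem step_ex {j i p : ℕ} {G : ℕ → ℕ} {μ : Mem d}
    (rd : ∀ s ≤ lo j i, μ.C j s = nsq (μ.X (j % S.g) s - (i + 1) • S.sv j s (G s)))
    (ex : j % S.g = 0 → G 0 = μ.E (j / S.g))
    (cl : j ≠ 0 → i ≠ 0 → μ.C (j - 1) 0 =
      nsq (μ.X ((j - 1) % S.g) 0 - 10 • S.nv (j - 1) (S.nm (sl (i - 1)) G)))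
    (oc : i = 4 → 4 ≤ p → p < 8 → μ.C (j + 1) (8 - p) =
      nsq (μ.X ((j + 1) % S.g) (8 - p) - (p + 2) • S.vec (S.val j G)))
    (ac : i = 4 → p = 8 → S.acc (S.val j G)) : ∃ ν, S.Step j i p G μ ν :=
  ⟨⟨_, _, _⟩, rd, ex, cl, oc, ac, fun _ _ => rfl, fun _ _ => rfl, fun _ => rfl⟩

theorem eff_of (h : S.Tru F T) {P : (ℕ → ℕ) → Mem d → Prop} {j p z : ℕ} {μ ν : Mem d}
    (hr : S.Run P j p μ ν) (hp : S.Pre j p z (F j z) μ)
    (hx : ν.X (j % S.g) 0 = μ.X (j % S.g) 0 + 9 • S.nv j z) : S.Eff j p z (F j z) μ ν := by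
  refine (S.sound h j p μ ν hr).2 z ⟨hp.E, fun a => ?_⟩
  have := hp.C
  rw [nv, if_neg a] at this hx
  refine ⟨this, ?_⟩
  rw [this, hx]
  congr 1
  module

theorem comp_zero (h : S.Tru F T) (b : S.Okb F T ok k D M B) {p z : ℕ} {μ : Mem d} {β : ℝ}
    (hz : ok 0 z) (hp : S.Pre 0 p z (F 0 z) μ) (hμ : Bd k D β μ) (hβ : β + 64 * M ≤ B) :
    ∃ ν, S.Run (PB k D B) 0 p μ ν ∧ S.Eff 0 p z (F 0 z) μ ν ∧ Bd k D B ν := by
  have m0 := b.m0
  have lz := b.lt 0 z hz
  let G : ℕ → ℕ := fun s => if s = 0 then z else 0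
  have hG : ∀ s, G s < k := fun s => by simp only [G]; split_ifs <;> omega
  have hv : S.val 0 G = F 0 z := by simp [val, G, h.f0]
  have hg : 1 % S.g ≠ 0 := by simpa using mod_ne h.g2 0
  obtain ⟨ν, r, q1, _, _, _, q5⟩ := chain_of (fun i μ ν => ∃ G, PB k D B G μ ∧ S.Step 0 i p G μ ν)
    (fun i m => (∀ c s, m.X c s = μ.X c s + if 4 < i then S.ov 0 p (F 0 z) c s else 0) ∧
      m.E 0 = z ∧ m.C 0 0 = μ.C 0 0 ∧ (4 ≤ p → m.C 1 (8 - p) = μ.C 1 (8 - p)) ∧ Bd k D B m) 9
    (fun i hi m ⟨a1, a2, a3, a4, a5⟩ => by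
      obtain ⟨κ, st⟩ := step_ex (S := S) (j := 0) (i := i) (p := p) (G := G) (μ := m)
        (fun s hs => by
          obtain rfl : s = 0 := by simpa [lo] using hs
          rw [a3, a1, hp.C, ov_zero]
          simp [sv, nv])
        (fun _ => by simp [G, a2]) (fun a => (a rfl).elim)
        (fun h4 l u => by rw [a4 l, a1, hp.cl l u, hv, if_neg (by omega), add_zero])
        (fun _ u => hv ▸ hp.ac u)
      have x : ∀ c s, κ.X c s = μ.X c s + if 4 < i + 1 then S.ov 0 p (F 0 z) c s else 0 := by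
        intro c s
        have : (if c = 0 % S.g ∧ s ≤ lo 0 i then S.sv 0 s (G s) else 0) = 0 := by
          split_ifs with a
          · have : s = 0 := by simpa [lo] using a.2
            simp [sv, nv, this]
          · rfl
        rw [st.uX, a1, this, hv]
        by_cases h4 : i = 4
        · simp [h4]
        · by_cases h5 : 4 < i
          · simp [h4, h5, show 4 < i + 1 by omega]
          · simp [h4, h5, show ¬4 < i + 1 by omega]
      have y := step_bd b st a5 le_rfl hG (fun a => (a rfl).elim) (hv ▸ lz.2)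
      refine ⟨κ, ⟨G, ⟨hG, fun s hs => if_neg (by omega), a5⟩, st⟩, x, ?_, ?_, fun l => ?_,
        ⟨fun c s => ?_, y.C, y.E⟩⟩
      · rw [st.uE, if_neg (by omega), a2]
      · rw [st.uC, if_neg (by omega), if_neg (by omega), a3]
      · rw [st.uC, if_neg (by omega), if_neg (by omega), a4 l]
      · rw [x]
        exact (norm_add_le _ _).trans ((add_le_add (hμ.X c s)
          (norm_ite (fun _ => b.ov _ _ _ _ lz.2) (by simpa))).trans (by linarith)))
    μ ⟨by simp, by simpa using hp.E (by simp), rfl, fun _ => rfl,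
      ⟨fun c s => (hμ.X c s).trans (by linarith), hμ.C, hμ.E⟩⟩
  refine ⟨ν, r, eff_of h r hp ?_, q5⟩
  rw [q1, ov_zero]
  simp [nv]

theorem comp (h : S.Tru F T) (b : S.Okb F T ok k D M B) (j : ℕ) : ∀ p z (μ : Mem d) (β : ℝ),
    ok j z → S.Pre j p z (F j z) μ → Bd k D β μ → β + 64 * (j + 1) * M ≤ B →
    ∃ ν, S.Run (PB k D B) j p μ ν ∧ S.Eff j p z (F j z) μ ν ∧ Bd k D B ν := by
  have m0 := b.m0
  induction j with
  | zero => exact fun p z μ β hz hp hμ hβ => comp_zero h b hz hp hμ (by simpa using hβ)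
  | succ j ih =>
    intro p z μ β hz hp hμ hβ
    push_cast at hβ
    have hj : (0 : ℝ) ≤ j * M := by positivity
    have hne := mod_ne h.g2 j
    have hne' := mod_ne h.g2 (j + 1)
    have hlo : ∀ i, lo (j + 1) i = min i (8 - i) := fun i => by simp [lo]
    have lz := b.lt _ z hz
    let G : ℕ → ℕ := fun s => if s ≤ 4 then T j z s else 0
    have g4 : ∀ s ≤ 4, G s = T j z s := fun s hs => if_pos hs
    have t4 : ∀ s ≤ 4, T j z s < k := fun s hs => by
      rcases s with _ | s
      · rw [h.t0]; exact lz.1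
      · rw [h.ts j z _ (by omega) hs]
        exact (b.lt _ _ (b.ch j z _ hz (by omega) hs)).2
    have hG : ∀ s, G s < k := fun s => by
      simp only [G]
      split_ifs with a
      · exact t4 s a
      · omega
    have s4 : ∀ i, sl i ≤ 4 := fun i => by unfold sl; split_ifs <;> omega
    have hn : ∀ i, S.nm (sl i) G = S.nm (sl i) (T j z) := fun i =>
      h.nmc _ _ _ fun s hs => g4 s (by have := s4 i; omega)
    have hk : ∀ i, S.nm (sl i) (T j z) < k := fun i => by
      rcases Nat.eq_zero_or_pos (sl i) with e | e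
      · rw [e]; exact b.n0 _
      · exact (b.lt _ _ (b.ch j z _ hz e (s4 i))).1
    have hv : S.val (j + 1) G = F (j + 1) z := by
      rw [val, if_neg (by omega), h.fs]
      exact h.outc _ _ g4
    have xb : ∀ i ≤ 9, ∀ c s, ‖S.XI j p (F (j + 1) z) (T j z) μ i c s‖ ≤ β + 40 * M := by
      intro i hi c s
      refine (norm_add_le _ _).trans ((add_le_add ((norm_add_le _ _).trans (add_le_add
        ((norm_add_le _ _).trans (add_le_add ((norm_add_le _ _).trans (add_le_add (hμ.X c s)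
          (norm_ite (fun _ => norm_sm (b.nv _ (t4 0 (by omega))) (by omega)) (by simpa))))
          (norm_ite (fun e => norm_sm (b.vb _ (t4 s (by omega))) (by omega)) (by simpa))))
          (norm_ite (fun _ => norm_sm (b.nv _ (hk _)) le_rfl) (by simpa))))
          (norm_ite (fun _ => b.ov _ _ _ _ lz.2) (by simpa))).trans (by linarith))
    obtain ⟨ν, r, q1, _, _, _, _, _, q5⟩ := chain_of
      (fun i μ ν => ∃ G κ, PB k D B G μ ∧ S.Step (j + 1) i p G μ κ ∧
        if i < 8 then S.Run (PB k D B) j i κ ν else ν = κ)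
      (fun i m => (∀ c s, m.X c s = S.XI j p (F (j + 1) z) (T j z) μ i c s) ∧
        ((j + 1) % S.g = 0 → m.E ((j + 1) / S.g) = z) ∧ m.C (j + 1) 0 = μ.C (j + 1) 0 ∧
        (i ≠ 0 → m.C j 0 = nsq (μ.X (j % S.g) 0)) ∧
        (∀ s, 1 ≤ s → s ≤ 4 → s ≤ i → m.C (j + 1) s = nsq (μ.X ((j + 1) % S.g) s)) ∧
        (4 ≤ p → m.C (j + 2) (8 - p) = μ.C (j + 2) (8 - p)) ∧ Bd k D B m) 9
      (fun i hi m ⟨a1, a2, a3, a4, a5, a6, a7⟩ => by
        have x0 : m.X (j % S.g) 0 = μ.X (j % S.g) 0 +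
            if i ≠ 0 then 10 • S.nv j (S.nm (sl (i - 1)) (T j z)) else 0 := by
          rw [a1, XI, if_neg fun e => hne e.1.symm, if_neg (by omega), ov_zero]
          simp [hi]
        have xs : ∀ s, 1 ≤ s → m.X ((j + 1) % S.g) s = μ.X ((j + 1) % S.g) s +
            if s ≤ min i (8 - i) then (i + 1) • S.vec (T j z s) else 0 := by
          intro s hs
          rw [a1, XI, if_neg (by omega), if_neg (show ¬(_ ∧ s = 0 ∧ _) by omega),
            S.ov_ne hne'.symm]
          simp [hs]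
        obtain ⟨κ, st⟩ := step_ex (S := S) (j := j + 1) (i := i) (p := p) (G := G) (μ := m)
          (fun s hs => by
            rw [hlo] at hs
            rcases s with _ | s
            · rw [a3, a1, hp.C, XI, ov_zero, if_pos ⟨rfl, rfl⟩, if_neg (by omega),
                if_neg fun e => hne e.1, g4 0 (by omega), h.t0, sv, if_pos rfl, ite_self]
              congr 1
              module
            · rw [a5 _ (by omega) (by omega) (by omega), xs _ (by omega), if_pos hs,
                g4 _ (by omega)]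
              simp [sv])
          (fun e => by rw [a2 e, g4 0 (by omega), h.t0])
          (fun _ e => by
            simp only [Nat.add_sub_cancel]
            rw [a4 e, x0, if_pos e, hn]
            simp)
          (fun h4 l u => by
            rw [a6 l, a1, hp.cl l u, hv, XI, if_neg (by omega), if_neg fun e => hne' e.1,
              if_neg (by omega), if_neg (by omega)]
            simp)
          (fun _ u => hv ▸ hp.ac u)
        have y := step_bd b st (β := β + 40 * M) ⟨fun c s => a1 c s ▸ xb i (by omega) c s,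
          a7.C, a7.E⟩ (by linarith) hG (fun _ i => hn i ▸ hk i) (hv ▸ lz.2)
        have k2 : (j + 1) % S.g = 0 → κ.E ((j + 1) / S.g) = z := fun e => by
          rw [st.uE, if_neg, a2 e]
          have := Nat.div_add_mod' (j + 1) S.g
          omega
        have k3 : ∀ s, κ.C (j + 1) s = m.C (j + 1) s := fun s => by
          rw [st.uC, if_neg (by omega), if_neg (by omega)]
        have k4 : κ.C j 0 = nsq (μ.X (j % S.g) 0) := by
          rw [st.uC]
          by_cases e : i = 0
          · rw [if_pos (by omega), x0, if_neg (by omega), add_zero]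
          · rw [if_neg (by omega), if_neg (by omega), a4 e]
        have k6 : 4 ≤ p → κ.C (j + 2) (8 - p) = μ.C (j + 2) (8 - p) := fun l => by
          rw [st.uC, if_neg (by omega), if_neg (by omega), a6 l]
        have ks : ∀ s, 1 ≤ s → κ.X ((j + 1) % S.g) s = μ.X ((j + 1) % S.g) s +
            if s ≤ min i (8 - i) then (i + 2) • S.vec (T j z s) else 0 := by
          intro s hs
          rw [st.uX, xs s hs, if_neg (show ¬(_ ∧ _ ∧ s = 0) by omega), S.ov_ne hne'.symm, hlo, sv,
            if_neg (show ¬s = 0 by omega), ite_self]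
          by_cases e : s ≤ min i (8 - i)
          · rw [if_pos e, if_pos e, if_pos ⟨rfl, e⟩, g4 s (by omega)]
            module
          · rw [if_neg e, if_neg e, if_neg fun a => e a.2]
            simp
        have hP : PB k D B G m := ⟨hG, fun s hs => if_neg (by omega), a7⟩
        have gi : ∀ s ≤ min i (8 - i), G s = T j z s := fun s hs => g4 s (by omega)
        by_cases h8 : i < 8
        · have sp := sl_pos i h8
          have key := ih i (S.nm (sl i) (T j z)) κ (β + 40 * M + 22 * M)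
            (b.ch j z _ hz sp.1 sp.2.1) ⟨fun e => ?_, ?_, fun l u => ?_, by omega⟩ y (by linarith)
          · obtain ⟨ν, r, ef, bν⟩ := key
            have fr := (S.sound h j i κ ν r).1
            refine ⟨ν, ⟨G, κ, hP, st, by rwa [if_pos h8]⟩,
              S.xi_step h hi gi a1 st (by rwa [if_pos h8]), fun e => ?_, ?_, fun _ => ?_,
              fun s l u v => ?_, fun l => ?_, bν⟩
            · rw [fr.E, k2 e]
              have := Nat.div_add_mod' (j + 1) S.g
              omega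
            · rw [fr.C _ _ (by omega) (by omega), k3, a3]
            · rw [fr.C _ _ (by omega) (by omega), k4]
            · by_cases e : s = i + 1
              · rw [e, ef.op (by omega), ks _ (by omega), if_neg (by omega), add_zero]
              · rw [fr.C _ _ (by omega) (by omega), k3, a5 s l u (by omega)]
            · rw [fr.C _ _ (by omega) (by omega), k6 l]
          · have := Nat.div_add_mod' j S.g
            rw [st.uE, if_pos (by omega), hn]
          · rw [k4, st.uX, if_neg fun e => hne e.1.symm, ov_zero, ite_self,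
              if_pos ⟨by omega, rfl, rfl⟩, if_pos h8, hn, hn, x0]
            simp only [Nat.add_sub_cancel]
            congr 1
            module
          · have q : sl i = 8 - i := if_neg (by omega)
            rw [k3, a5 _ (by omega) (by omega) (by omega), ks _ (by omega), if_pos (by omega),
              ← h.ts j z _ sp.1 sp.2.1, q]
            simp
        · exact ⟨κ, ⟨G, κ, hP, st, by rw [if_neg h8]⟩,
            S.xi_step h hi gi a1 st (by rw [if_neg h8]), k2, (k3 0).trans a3, fun _ => k4,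
            fun s l u _ => (k3 s).trans (a5 s l u (by omega)), k6,
            ⟨fun c s => (y.X c s).trans (by linarith), y.C, y.E⟩⟩)
      μ ⟨fun c s => by simp [XI]; omega, hp.E, rfl, fun e => (e rfl).elim, by omega, fun _ => rfl,
        ⟨fun c s => (hμ.X c s).trans (by linarith), hμ.C, hμ.E⟩⟩
    refine ⟨ν, r, eff_of h r hp ?_, q5⟩
    rw [q1, XI, ov_zero, if_pos ⟨rfl, rfl⟩, if_neg (by omega), if_neg (by omega), h.t0]
    simp

end Sch

end Pool.Agent.Lib.MP_5afa16_lc.Dc
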