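import Pool.Agent.Lib.MP_5afa16_lc.DcComp

/-! The evaluation as a walk in a graph of configurations. -/

namespace Pool.Agent.Lib.MP_5afa16_lc.Dc

open Relation

/-- The next control state: level, event, stack of events. -/
def nxt (j i t : ℕ) : ℕ × ℕ × ℕ :=
  if i < 8 then (if j = 0 then (0, i + 1, t) else (j - 1, 0, 16 * t + i))
  else (j + 1, t % 16 + 1, t / 16)

theorem nxt_iff (j i t : ℕ) (y : ℕ × ℕ × ℕ) : y = nxt j i t ↔
    (i < 8 ∧ j = 0 ∧ y.1 = 0 ∧ y.2.1 = i + 1 ∧ y.2.2 = t) ∨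
    (i < 8 ∧ j ≠ 0 ∧ y.1 = j - 1 ∧ y.2.1 = 0 ∧ y.2.2 = 16 * t + i) ∨
    (¬i < 8 ∧ y.1 = j + 1 ∧ y.2.1 = t % 16 + 1 ∧ y.2.2 = t / 16) := by
  unfold nxt
  split_ifs with a b <;> simp [*, Prod.ext_iff]

/-- The memory vanishes outside a finite region. -/
structure Zr {d : ℕ} (g h : ℕ) (μ : Mem d) : Prop where
  X : ∀ c s, ¬(c < g ∧ s < 5) → μ.X c s = 0
  C : ∀ j s, ¬(j < h + 2 ∧ s < 5) → μ.C j s = 0
  E : ∀ b, ¬b ≤ h / g → μ.E b = 0

theorem lift_path {α : Type} {r r' : α → α → Prop} {I : α → Prop} {dec : ℕ → α} {Y : ℕ}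
    (hI : ∀ x y, I x → r x y → I y ∧ r' x y ∧ ∃ z < Y, dec z = x) {a b : α}
    (h : ReflTransGen r a b) (ha : I a) {zb : ℕ} (hb : zb < Y) (e : dec zb = b) :
    ∃ za < Y, dec za = a ∧
      ReflTransGen (fun z z' => z < Y ∧ z' < Y ∧ r' (dec z) (dec z')) za zb := by
  induction h using ReflTransGen.head_induction_on with
  | refl => exact ⟨zb, hb, e, .refl⟩
  | head h1 _ ih =>
    obtain ⟨i1, i2, z, lz, rfl⟩ := hI _ _ ha h1
    obtain ⟨z', lz', rfl, q⟩ := ih i1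
    exact ⟨z, lz, rfl, .head ⟨lz, lz', i2⟩ q⟩

namespace Sch

variable {d : ℕ} (S : Sch d) (P : (ℕ → ℕ) → Mem d → Prop)

/-- One step of the walk. -/
def Nx (x y : (ℕ × ℕ × ℕ) × Mem d) : Prop :=
  x.1.2.1 < 9 ∧ (∃ G, P G x.2 ∧ S.Step x.1.1 x.1.2.1 (x.1.2.2 % 16) G x.2 y.2) ∧
    y.1 = nxt x.1.1 x.1.2.1 x.1.2.2

/-- An event with the call after it. -/
def Rj (j p i : ℕ) (μ ν : Mem d) : Prop :=
  ∃ κ, (∃ G, P G μ ∧ S.Step j i p G μ κ) ∧
    if j ≠ 0 ∧ i < 8 then S.Run P (j - 1) i κ ν else ν = κ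

theorem run_eq (j p : ℕ) : S.Run P j p = Chain (S.Rj P j p) 9 := by
  rcases j with _ | j
  · simp only [Run]
    congr 1
    funext i μ ν
    simp [Rj]
  · simp only [Run]
    congr 1
    funext i μ ν
    simp only [Rj, ne_eq, Nat.add_eq_zero_iff, one_ne_zero, and_false, not_false_eq_true,
      true_and, Nat.add_sub_cancel, eq_iff_iff]
    exact ⟨fun ⟨G, κ, a, b, c⟩ => ⟨κ, ⟨G, a, b⟩, c⟩, fun ⟨κ, ⟨G, a, b⟩, c⟩ => ⟨G, κ, a, b, c⟩⟩

theorem path_of_run (j : ℕ) : ∀ t μ ν, S.Run P j (t % 16) μ ν →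
    ReflTransGen (S.Nx P) ((j, 0, t), μ) ((j + 1, t % 16 + 1, t / 16), ν) := by
  induction j using Nat.strong_induction_on with
  | _ j ih =>
    intro t μ ν hr
    rw [run_eq] at hr
    have key : ∀ n ≤ 9, ∀ κ, Chain (S.Rj P j (t % 16)) n μ κ → ReflTransGen (S.Nx P) ((j, 0, t), μ)
        (if n < 9 then (j, n, t) else (j + 1, t % 16 + 1, t / 16), κ) := by
      intro n
      induction n with
      | zero => rintro _ κ rfl; exact .refl
      | succ n ihn =>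
        rintro hn κ ⟨κ1, c1, κ2, st, c2⟩
        have p1 := ihn (by omega) κ1 c1
        rw [if_pos (by omega)] at p1
        have p2 := p1.tail (c := (nxt j n t, κ2)) ⟨by simpa using hn, st, rfl⟩
        by_cases e : j ≠ 0 ∧ n < 8
        · rw [if_pos e] at c2
          rw [nxt, if_pos e.2, if_neg e.1] at p2
          have q := ih (j - 1) (by omega) (16 * t + n) κ2 κ
            (by rwa [show (16 * t + n) % 16 = n by omega])
          rw [show (16 * t + n) % 16 = n by omega, show (16 * t + n) / 16 = t by omega,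
            show j - 1 + 1 = j by omega] at q
          rw [if_pos (by omega)]
          exact p2.trans q
        · rw [if_neg e] at c2
          subst c2
          by_cases h8 : n < 8
          · obtain rfl : j = 0 := by omega
            rw [if_pos (by omega)]
            simpa [nxt, h8] using p2
          · rw [if_neg (by omega)]
            simpa [nxt, h8] using p2
    exact key 9 le_rfl ν hr

/-- What is known at a reachable configuration. -/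
def Inv (μ0 : Mem d) : ℕ → ℕ → ℕ → ℕ → Mem d → Prop
  | 0, j, i, t, κ => t = 8 ∧ Chain (S.Rj P j 8) i μ0 κ
  | n + 1, j, i, t, κ => ∃ κ' μ, Inv μ0 n (j + 1) (t % 16) (t / 16) κ' ∧ t % 16 < 8 ∧
      (∃ G, P G κ' ∧ S.Step (j + 1) (t % 16) (t / 16 % 16) G κ' μ) ∧
      Chain (S.Rj P j (t % 16)) i μ κ

theorem inv_ext {μ0 κ ν : Mem d} {n j i t : ℕ} (h : S.Inv P μ0 n j i t κ)
    (r : S.Rj P j (t % 16) i κ ν) : S.Inv P μ0 n j (i + 1) t ν := by
  rcases n with _ | n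
  · obtain ⟨rfl, c⟩ := h
    exact ⟨rfl, κ, c, r⟩
  · obtain ⟨κ', μ, a, b, c, e⟩ := h
    exact ⟨κ', μ, a, b, c, κ, e, r⟩

theorem inv_lt {μ0 : Mem d} (n : ℕ) : ∀ j i t κ, S.Inv P μ0 n j i t κ → t < 16 ^ (n + 1) := by
  induction n with
  | zero => rintro j i t κ ⟨rfl, _⟩; omega
  | succ n ih =>
    rintro j i t κ ⟨κ', μ, a, _⟩
    have := ih _ _ _ _ a
    rw [pow_succ]
    omega

/-- The invariant of the walk. -/
def Rch (h : ℕ) (μ0 : Mem d) (x : (ℕ × ℕ × ℕ) × Mem d) : Prop :=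
  (∃ n, x.1.1 + n = h ∧ S.Inv P μ0 n x.1.1 x.1.2.1 x.1.2.2 x.2) ∨
    (x.1 = (h + 1, 9, 0) ∧ S.Run P h 8 μ0 x.2)

theorem rch_step {h : ℕ} {μ0 : Mem d} {x y : (ℕ × ℕ × ℕ) × Mem d} (hx : S.Rch P h μ0 x)
    (r : S.Nx P x y) : S.Rch P h μ0 y := by
  obtain ⟨⟨j, i, t⟩, κ⟩ := x
  obtain ⟨c, ν⟩ := y
  obtain ⟨h9, st, rfl⟩ := r
  dsimp only at h9 st
  rcases hx with ⟨n, hn, hi⟩ | ⟨e, _⟩
  · dsimp only at hn hi
    by_cases e : j ≠ 0 ∧ i < 8
    · left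
      obtain ⟨j, rfl⟩ : ∃ j', j = j' + 1 := ⟨j - 1, by omega⟩
      refine ⟨n + 1, ?_⟩
      simp only [nxt, if_pos e.2, if_neg e.1, Nat.add_sub_cancel, Inv,
        show (16 * t + i) % 16 = i by omega, show (16 * t + i) / 16 = t by omega]
      exact ⟨by omega, κ, ν, hi, e.2, st, rfl⟩
    · have q := S.inv_ext P hi ⟨ν, st, by rw [if_neg e]⟩
      by_cases h8 : i < 8
      · obtain rfl : j = 0 := by omega
        left
        exact ⟨n, by simpa [nxt, h8] using ⟨by omega, q⟩⟩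
      · obtain rfl : i = 8 := by omega
        rcases n with _ | n
        · right
          obtain ⟨rfl, c⟩ := q
          subst hn
          exact ⟨by simp [nxt], by rwa [run_eq]⟩
        · left
          obtain ⟨κ', μ, a, b, c, f⟩ := q
          refine ⟨n, ?_⟩
          simp only [nxt, lt_irrefl, if_false]
          refine ⟨by omega, S.inv_ext P a ⟨μ, c, ?_⟩⟩
          rw [if_pos ⟨by omega, b⟩, Nat.add_sub_cancel, run_eq]
          exact f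
  · simp only [Prod.mk.injEq] at e
    omega

theorem run_of_path {h : ℕ} {μ ν : Mem d}
    (r : ReflTransGen (S.Nx P) ((h, 0, 8), μ) ((h + 1, 9, 0), ν)) : S.Run P h 8 μ ν := by
  have : ∀ y, ReflTransGen (S.Nx P) ((h, 0, 8), μ) y → S.Rch P h μ y := by
    intro y r
    induction r with
    | refl => exact Or.inl ⟨0, rfl, rfl, rfl⟩
    | tail _ r ih => exact S.rch_step P ih r
  rcases this _ r with ⟨n, hn, _⟩ | ⟨_, q⟩
  · dsimp only at hn
    omega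
  · exact q

theorem zr_X {h j i p : ℕ} (G : ℕ → ℕ) (hg : 0 < S.g) {c s : ℕ} (e : ¬(c < S.g ∧ s < 5)) :
    (if c = j % S.g ∧ s ≤ lo j i then S.sv j s (G s) else 0) = 0 ∧
    (if j ≠ 0 ∧ c = (j - 1) % S.g ∧ s = 0 then
      (if i < 8 then S.nv (j - 1) (S.nm (sl i) G) else 0) -
      (if i ≠ 0 then 10 • S.nv (j - 1) (S.nm (sl (i - 1)) G) else 0) else 0) = 0 ∧
    (if i = 4 then S.ov j p h c s else 0) = 0 := by
  have a1 := Nat.mod_lt j hg
  have a2 := Nat.mod_lt (j - 1) hg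
  have a3 := Nat.mod_lt (j + 1) hg
  have a4 : lo j i < 5 := by unfold lo; split_ifs <;> omega
  refine ⟨if_neg (by omega), if_neg (by omega), ?_⟩
  rw [ov, if_neg (show ¬(p < 8 ∧ _) from fun a => by have := sl_pos p a.1; omega), ite_self]

theorem zr_step {h j i p : ℕ} {G : ℕ → ℕ} {μ ν : Mem d} (hg : 0 < S.g) (hj : j ≤ h)
    (st : S.Step j i p G μ ν) (z : Zr S.g h μ) : Zr S.g h ν := by
  refine ⟨fun c s e => ?_, fun j' s e => ?_, fun b e => ?_⟩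
  · obtain ⟨a1, a2, a3⟩ := S.zr_X (h := S.val j G) (j := j) (i := i) (p := p) G hg e
    rw [st.uX, a1, a2, a3, z.X c s e]
    simp
  · rw [st.uC, if_neg (by omega), if_neg (by omega), z.C j' s e]
  · rw [st.uE, if_neg (by rw [Nat.le_div_iff_mul_le hg] at e; omega), z.E b e]

/-- An event, with bounded quantifiers. -/
def StepB (h j i p : ℕ) (G : ℕ → ℕ) (μ ν : Mem d) : Prop :=
    (∀ s ≤ lo j i, μ.C j s = nsq (μ.X (j % S.g) s - (i + 1) • S.sv j s (G s))) ∧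
    (j % S.g = 0 → G 0 = μ.E (j / S.g)) ∧
    (j ≠ 0 → i ≠ 0 → μ.C (j - 1) 0 =
      nsq (μ.X ((j - 1) % S.g) 0 - 10 • S.nv (j - 1) (S.nm (sl (i - 1)) G))) ∧
    (i = 4 → 4 ≤ p → p < 8 → μ.C (j + 1) (8 - p) =
      nsq (μ.X ((j + 1) % S.g) (8 - p) - (p + 2) • S.vec (S.val j G))) ∧
    (i = 4 → p = 8 → S.acc (S.val j G)) ∧
    (∀ c < S.g, ∀ s < 5, ν.X c s = μ.X c s +
      (if c = j % S.g ∧ s ≤ lo j i then S.sv j s (G s) else 0) +
      (if j ≠ 0 ∧ c = (j - 1) % S.g ∧ s = 0 then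
        (if i < 8 then S.nv (j - 1) (S.nm (sl i) G) else 0) -
        (if i ≠ 0 then 10 • S.nv (j - 1) (S.nm (sl (i - 1)) G) else 0) else 0) +
      (if i = 4 then S.ov j p (S.val j G) c s else 0)) ∧
    (∀ j' < h + 2, ∀ s < 5, ν.C j' s = if j = j' + 1 ∧ s = 0 ∧ i = 0 then nsq (μ.X (j' % S.g) 0)
      else if i = 4 ∧ p < 4 ∧ j' = j + 1 ∧ s = p + 1 then nsq (μ.X ((j + 1) % S.g) (p + 1))
      else μ.C j' s) ∧
    ∀ b ≤ h / S.g, ν.E b = if j = b * S.g + 1 then S.nm (sl i) G else μ.E b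

theorem step_iff {h j i p : ℕ} {G : ℕ → ℕ} {μ ν : Mem d} (hg : 0 < S.g) (hj : j ≤ h)
    (z : Zr S.g h μ) (z' : Zr S.g h ν) : S.Step j i p G μ ν ↔ S.StepB h j i p G μ ν := by
  refine ⟨fun s => ⟨s.rd, s.ex, s.cl, s.oc, s.ac, fun _ _ _ _ => s.uX _ _, fun _ _ _ _ => s.uC _ _,
    fun _ _ => s.uE _⟩, fun ⟨a1, a2, a3, a4, a5, a6, a7, a8⟩ =>
    ⟨a1, a2, a3, a4, a5, fun c s => ?_, fun j' s => ?_, fun b => ?_⟩⟩
  · by_cases e : c < S.g ∧ s < 5
    · exact a6 c e.1 s e.2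
    · obtain ⟨b1, b2, b3⟩ := S.zr_X (h := S.val j G) (j := j) (i := i) (p := p) G hg e
      rw [b1, b2, b3, z.X c s e, z'.X c s e]
      simp
  · by_cases e : j' < h + 2 ∧ s < 5
    · exact a7 j' e.1 s e.2
    · rw [if_neg (by omega), if_neg (by omega), z.C j' s e, z'.C j' s e]
  · by_cases e : b ≤ h / S.g
    · exact a8 b e
    · rw [if_neg (by rw [Nat.le_div_iff_mul_le hg] at e; omega), z.E b e, z'.E b e]

variable {S} {F : ℕ → ℕ → ℕ} {T : ℕ → ℕ → ℕ → ℕ} {ok : ℕ → ℕ → Prop} {k : ℕ} {D : ℤ} {M B : ℝ}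

theorem walk_sound (hT : S.Tru F T) {h : ℕ} (hh : h % S.g = 0) {μ ν : Mem d}
    (r : ReflTransGen (S.Nx P) ((h, 0, 8), μ) ((h + 1, 9, 0), ν)) :
    S.acc (F h (μ.E (h / S.g))) :=
  ((S.sound hT h 8 μ ν (S.run_of_path P r)).2 _ ⟨fun _ => rfl, fun a => (a hh).elim⟩).ac rfl

theorem walk_comp (hT : S.Tru F T) (b : S.Okb F T ok k D M B) {h a Y : ℕ} (hh : h % S.g = 0)
    (ha : ok h a) (hacc : S.acc (F h a)) (hB : 64 * (h + 1) * M ≤ B)
    (hP : ∀ G μ, PB k D B G μ → P G μ) (dec : ℕ → (ℕ × ℕ × ℕ) × Mem d)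
    (hdec : ∀ j i t μ, j ≤ h + 1 → i ≤ 9 → t < 16 ^ (h + 1) → Bd k D B μ → Zr S.g h μ →
      ∃ z < Y, dec z = ((j, i, t), μ)) :
    ∃ z0 < Y, ∃ z1 < Y, (dec z0).1 = (h, 0, 8) ∧ (dec z0).2.E (h / S.g) = a ∧
      (dec z1).1 = (h + 1, 9, 0) ∧ ReflTransGen (fun z z' => z < Y ∧ z' < Y ∧
        ((dec z).1.1 ≤ h ∧ S.Nx P (dec z) (dec z'))) z0 z1 := by
  have hg : 0 < S.g := by have := hT.g2; omega
  have hk := b.lt _ _ ha
  have m0 := b.m0
  have B0 : 0 ≤ B := le_trans (by positivity) hB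
  have D0 : 0 ≤ D := (nsq_nonneg (0 : Fin d → ℤ)).trans (b.db _ (by simpa))
  let μ : Mem d := ⟨0, 0, fun e => if e = h / S.g then a else 0⟩
  obtain ⟨ν, r, _, bν⟩ := comp hT b h 8 a μ 0 ha
    ⟨fun _ => if_pos rfl, by simp [μ, nv, hh, nsq], by omega, fun _ => hacc⟩
    ⟨by simp [μ], by simp [μ, D0], fun e => by simp only [μ]; split_ifs <;> omega⟩ (by simpa)
  have pa := S.path_of_run _ h 8 μ ν r
  let I : (ℕ × ℕ × ℕ) × Mem d → Prop := fun x => S.Rch (PB k D B) h μ x ∧ Zr S.g h x.2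
  have i0 : I ((h, 0, 8), μ) := ⟨Or.inl ⟨0, rfl, rfl, rfl⟩, ⟨fun _ _ _ => rfl, fun _ _ _ => rfl,
    fun e he => if_neg (by omega)⟩⟩
  have hI : ∀ x y, I x → S.Nx (PB k D B) x y →
      I y ∧ (x.1.1 ≤ h ∧ S.Nx P x y) ∧ ∃ z < Y, dec z = x := by
    rintro ⟨⟨j, i, t⟩, κ⟩ y ⟨a1, a2⟩ r
    have a3 := S.rch_step _ a1 r
    obtain ⟨h9, ⟨G, pG, st⟩, e⟩ := r
    dsimp only at h9 pG st a2
    rcases a1 with ⟨n, hn, hi⟩ | ⟨e, _⟩
    · dsimp only at hn hi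
      exact ⟨⟨a3, S.zr_step hg (by omega) st a2⟩, ⟨by dsimp only; omega, h9, ⟨G, hP _ _ pG, st⟩, e⟩,
        hdec j i t κ (by omega) h9.le ((S.inv_lt _ n _ _ _ _ hi).trans_le
          (Nat.pow_le_pow_right (by omega) (by omega))) pG.2.2 a2⟩
    · simp only [Prod.mk.injEq] at e
      omega
  have i1 : ∀ y, ReflTransGen (S.Nx (PB k D B)) ((h, 0, 8), μ) y → I y := by
    intro y r
    induction r with
    | refl => exact i0
    | tail _ r ih => exact (hI _ _ ih r).1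
  obtain ⟨z1, l1, e1⟩ := hdec (h + 1) 9 0 ν le_rfl le_rfl (by positivity) bν (i1 _ pa).2
  obtain ⟨z0, l0, e0, q⟩ := lift_path hI pa i0 l1 e1
  exact ⟨z0, l0, z1, l1, by rw [e0], by rw [e0]; exact if_pos rfl, by rw [e1], q⟩

end Sch

end Pool.Agent.Lib.MP_5afa16_lc.Dc
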