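import Pool.Agent.Lib.MP_5afa16_lc.DcCtl

/-! A doubling recursion for deterministic pushdown systems. -/

namespace Pool.Agent.Lib.MP_5afa16_lc.Dc

/-- One step of a pushdown system. -/
def stp {P G : Type} (δ : P → G → P × List G) : P × List G → P × List G
  | (p, []) => (p, [])
  | (p, Z :: β) => ((δ p Z).1, (δ p Z).2 ++ β)

/-- Many steps. -/
def rn {P G : Type} (δ : P → G → P × List G) (t : ℕ) (c : P × List G) : P × List G :=
  (stp δ)^[t] c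

section

variable {P G : Type} (δ : P → G → P × List G)

theorem rn_add (s t : ℕ) (c : P × List G) : rn δ (s + t) c = rn δ t (rn δ s c) := by
  rw [rn, add_comm, Function.iterate_add_apply]; rfl

theorem rn_nil (t : ℕ) (p : P) : rn δ t (p, []) = (p, []) := Function.iterate_fixed rfl t

theorem rn_succ (t : ℕ) (c : P × List G) : rn δ (t + 1) c = stp δ (rn δ t c) :=
  Function.iterate_succ_apply' _ _ _

end

/-- Components of a code. -/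
def pj : ℕ → ℕ → ℕ
  | 0, a => a.unpair.1
  | i + 1, a => pj i a.unpair.2

/-- The code of six numbers. -/
def t6 (a b c d e f : ℕ) : ℕ :=
  Nat.pair a (Nat.pair b (Nat.pair c (Nat.pair d (Nat.pair e (Nat.pair f 0)))))

theorem pj_t6 (a b c d e f : ℕ) : pj 0 (t6 a b c d e f) = a ∧ pj 1 (t6 a b c d e f) = b ∧
    pj 2 (t6 a b c d e f) = c ∧ pj 3 (t6 a b c d e f) = d ∧ pj 4 (t6 a b c d e f) = e ∧
    pj 5 (t6 a b c d e f) = f := by
  simp [pj, t6]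

theorem pair_lt {a b K n : ℕ} (ha : a < K) (hb : b < K ^ n) (hn : 0 < n) :
    Nat.pair a b < K ^ (2 * n) := by
  have h1 : K ≤ K ^ n := Nat.le_self_pow hn.ne' K
  refine (Nat.pair_lt_max_add_one_sq a b).trans_le ?_
  rw [mul_comm, pow_mul]
  exact Nat.pow_le_pow_left (by omega) 2

theorem t6_lt {a b c d e f K : ℕ} (ha : a < K) (hb : b < K) (hc : c < K) (hd : d < K) (he : e < K)
    (hf : f < K) : t6 a b c d e f < K ^ 64 :=
  pair_lt (n := 32) ha (pair_lt (n := 16) hb (pair_lt (n := 8) hc (pair_lt (n := 4) hd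
    (pair_lt (n := 2) he (pair_lt (n := 1) hf (by rw [pow_one]; omega) (by omega)) (by omega)) (by omega))
    (by omega)) (by omega)) (by omega)

/-- The names of the four calls. -/
def nm (s : ℕ) (G : ℕ → ℕ) : ℕ :=
  if s = 1 then
    (if pj 2 (G 0) ≤ pj 5 (G 0) then
      t6 (pj 0 (G 0)) (pj 1 (G 0)) (pj 2 (G 0)) (pj 3 (G 0)) (pj 4 (G 0)) (pj 5 (G 0) / 2)
    else t6 (pj 0 (G 0)) (pj 1 (G 0)) 0 0 (pj 0 (G 0)) (pj 2 (G 0) / 2))
  else if s = 2 then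
    (if pj 2 (G 0) ≤ pj 5 (G 0) then
      t6 (pj 4 (G 1)) (pj 5 (G 1)) (pj 5 (G 0) / 2 - pj 2 (G 1)) 0 (pj 1 (G 1))
        (pj 5 (G 0) - pj 5 (G 0) / 2)
    else t6 (pj 0 (G 0)) (pj 1 (G 0)) (pj 2 (G 0) / 2) 0 (pj 1 (G 1))
      (pj 2 (G 0) - pj 2 (G 0) / 2))
  else if s = 3 then
    (if pj 2 (G 0) ≤ pj 5 (G 0) then
      t6 (pj 0 (G 0)) (pj 1 (G 0)) (pj 2 (G 0)) (pj 3 (G 1)) (pj 1 (G 2))
        (pj 5 (G 0) - pj 5 (G 0) / 2 - pj 2 (G 2))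
    else t6 (pj 4 (G 2)) (pj 5 (G 2)) (pj 2 (G 0) - pj 2 (G 0) / 2 - pj 2 (G 2)) (pj 3 (G 0))
      (pj 4 (G 0)) (pj 5 (G 0)))
  else if s = 4 then
    (if pj 2 (G 0) ≤ pj 5 (G 0) then t6 0 0 0 0 0 0
    else t6 (pj 0 (G 0)) (pj 1 (G 0)) (pj 2 (G 0) / 2) (pj 3 (G 2) + (pj 3 (G 0) - pj 3 (G 3)))
      (pj 1 (G 3)) (pj 5 (G 0) - pj 2 (G 3)))
  else 0

/-- The output from the outputs of the calls. -/
def out (G : ℕ → ℕ) : ℕ :=
  if pj 2 (G 0) ≤ pj 5 (G 0) then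
    (if pj 0 (G 1) = 0 then G 1
    else if pj 0 (G 2) = 0 then
      t6 (pj 0 (G 3)) (pj 1 (G 3)) (pj 5 (G 0) / 2 + pj 2 (G 2) + pj 2 (G 3)) (pj 3 (G 3))
        (pj 4 (G 3)) (pj 5 (G 3))
    else t6 1 (pj 1 (G 2)) (pj 2 (G 1)) (pj 3 (G 1)) (pj 4 (G 1)) (pj 5 (G 1)))
  else
    (if pj 0 (G 2) = 0 then t6 0 (pj 4 (G 0)) 0 0 0 0
    else if pj 0 (G 3) = 0 then
      t6 (pj 0 (G 4)) (pj 1 (G 4)) (pj 2 (G 3) + pj 2 (G 4)) (pj 3 (G 3) + (pj 3 (G 4) - pj 3 (G 2)))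
        (pj 4 (G 4)) (pj 5 (G 4))
    else G 3)

theorem nm_congr (s : ℕ) (G G' : ℕ → ℕ) (h : ∀ s' < s, G s' = G' s') : nm s G = nm s G' := by
  unfold nm
  by_cases h1 : s = 1
  · rw [if_pos h1, if_pos h1, h 0 (by omega)]
  rw [if_neg h1, if_neg h1]
  by_cases h2 : s = 2
  · rw [if_pos h2, if_pos h2, h 0 (by omega), h 1 (by omega)]
  rw [if_neg h2, if_neg h2]
  by_cases h3 : s = 3
  · rw [if_pos h3, if_pos h3, h 0 (by omega), h 1 (by omega), h 2 (by omega)]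
  rw [if_neg h3, if_neg h3]
  by_cases h4 : s = 4
  · rw [if_pos h4, if_pos h4, h 0 (by omega), h 2 (by omega), h 3 (by omega)]
  rw [if_neg h4, if_neg h4]

theorem out_congr (G G' : ℕ → ℕ) (h : ∀ s' ≤ 4, G s' = G' s') : out G = out G' := by
  rw [out, out, h 0 (by omega), h 1 (by omega), h 2 (by omega), h 3 (by omega), h 4 (by omega)]

variable (δ : ℕ → ℕ → ℕ × List ℕ)

/-- The height of the stack in the base case. -/
def hS (a : ℕ) : ℕ := if pj 2 a = 0 then 1 else (δ (pj 0 a) (pj 1 a)).2.length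

/-- The top symbol in the base case. -/
def sS (a : ℕ) : ℕ := if pj 2 a = 0 then pj 1 a else (δ (pj 0 a) (pj 1 a)).2.getD (pj 3 a) 0

/-- The base case. -/
def base (a : ℕ) : ℕ :=
  if hS δ a ≤ pj 3 a then t6 0 (pj 4 a) 0 (hS δ a) 0 0
  else t6 1 (if pj 5 a = 0 then pj 4 a else (δ (pj 4 a) (sS δ a)).1) 0 (pj 3 a + 1) (pj 4 a)
    (sS δ a)

/-- Correct outputs. -/
def Good (M : ℕ) (S : List ℕ) (κ p ρ y : ℕ) : Prop :=
  ∃ f p' t H pw Zw, y = t6 f p' t H pw Zw ∧ f ≤ 1 ∧ p' ≤ M ∧ pw ≤ M ∧ Zw ≤ M ∧ t ≤ ρ ∧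
    H ≤ S.length ∧ (f = 0 → H = S.length ∧ ∀ β, rn δ t (p, S.drop κ ++ β) = (p', β)) ∧
    (f ≠ 0 → κ ≤ H ∧ (rn δ (ρ - t) (pw, [Zw])).1 = p' ∧
      ∀ β, rn δ ρ (p, S.drop κ ++ β) = (p', (rn δ (ρ - t) (pw, [Zw])).2 ++ S.drop H ++ β))

/-- Names that are small enough for level `j`, and their correct outputs. -/
def Nok (M L K j a : ℕ) (Q : List ℕ → ℕ → ℕ → ℕ → Prop) : Prop :=
  ∃ pu Zu τ κ p ρ, a = t6 pu Zu τ κ p ρ ∧ pu ≤ M ∧ Zu ≤ M ∧ p ≤ M ∧ τ ≤ 2 ^ ((j + 1) / 2) ∧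
    ρ ≤ 2 ^ ((j + 1) / 2) ∧ (τ ≤ 2 ^ (j / 2) ∨ ρ ≤ 2 ^ (j / 2)) ∧ κ + (L + 1) * 2 ^ (j + 1) ≤ K ∧
    Q (rn δ τ (pu, [Zu])).2 κ p ρ

theorem t6_inj {a b c d e f a' b' c' d' e' f' : ℕ} (h : t6 a b c d e f = t6 a' b' c' d' e' f') :
    a = a' ∧ b = b' ∧ c = c' ∧ d = d' ∧ e = e' ∧ f = f' := by
  simpa [t6] using h

variable {δ} {M L K : ℕ}

theorem Good.ctl {S : List ℕ} {κ p ρ y : ℕ} (h : Good δ M S κ p ρ y) :
    (rn δ ρ (p, S.drop κ)).1 = pj 1 y := by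
  obtain ⟨f, p', t, H, pw, Zw, rfl, _, _, _, _, ht, _, h0, h1⟩ := h
  rw [(pj_t6 ..).2.1]
  by_cases e : f = 0
  · obtain ⟨n, rfl⟩ := Nat.exists_eq_add_of_le ht
    have := (h0 e).2 []
    rw [List.append_nil] at this
    rw [rn_add, this, rn_nil]
  · have := (h1 e).2.2 []
    rw [List.append_nil] at this
    rw [this]

theorem rn_len (hL : ∀ p Z, (δ p Z).2.length ≤ L) (t : ℕ) (c : ℕ × List ℕ) :
    (rn δ t c).2.length ≤ c.2.length + L * t := by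
  induction t with
  | zero => simp [rn]
  | succ t ih =>
    rw [rn_succ]
    generalize rn δ t c = c' at ih
    obtain ⟨p, _ | ⟨Z, β⟩⟩ := c'
    · simp [stp]
    · have := hL p Z
      simp only [stp, List.length_append, List.length_cons, mul_add] at ih ⊢
      omega

theorem base_good (hδ : ∀ p Z, p ≤ M → Z ≤ M → (δ p Z).1 ≤ M ∧ ∀ Z' ∈ (δ p Z).2, Z' ≤ M)
    {pu Zu τ κ p ρ : ℕ} (h1 : pu ≤ M) (h2 : Zu ≤ M) (h3 : p ≤ M) (h4 : τ ≤ 1) (h5 : ρ ≤ 1) :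
    Good δ M (rn δ τ (pu, [Zu])).2 κ p ρ (base δ (t6 pu Zu τ κ p ρ)) := by
  obtain ⟨e0, e1, e2, e3, e4, e5⟩ := pj_t6 pu Zu τ κ p ρ
  have hS' : hS δ (t6 pu Zu τ κ p ρ) = (rn δ τ (pu, [Zu])).2.length := by
    rw [hS, e0, e1, e2]
    interval_cases τ <;> simp [rn, stp]
  have hM : ∀ Z ∈ (rn δ τ (pu, [Zu])).2, Z ≤ M := by
    interval_cases τ
    · simpa [rn] using h2
    · simpa [rn, stp] using (hδ pu Zu h1 h2).2
  have sS' : κ < (rn δ τ (pu, [Zu])).2.length →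
      sS δ (t6 pu Zu τ κ p ρ) = (rn δ τ (pu, [Zu])).2.getD κ 0 := by
    rw [sS, e0, e1, e2, e3]
    interval_cases τ
    · simp +contextual [rn]
    · simp [rn, stp]
  rw [base, hS', e3, e4, e5]
  generalize (rn δ τ (pu, [Zu])).2 = S at *
  by_cases h : S.length ≤ κ
  · rw [if_pos h]
    exact ⟨_, _, _, _, _, _, rfl, by omega, h3, by omega, by omega, by omega, le_rfl,
      fun _ => ⟨rfl, fun β => by simp [rn, List.drop_eq_nil_of_le h]⟩, fun a => (a rfl).elim⟩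
  · rw [if_neg h, sS' (by omega), List.getD_eq_getElem _ _ (by omega)]
    have hz := hM _ (List.getElem_mem (show κ < S.length by omega))
    refine ⟨_, _, _, _, _, _, rfl, le_rfl, ?_, h3, hz, by omega, by omega, by omega,
      fun _ => ⟨by omega, ?_, fun β => ?_⟩⟩
    · split_ifs
      · exact h3
      · exact (hδ _ _ h3 hz).1
    · interval_cases ρ <;> simp [rn, stp]
    · rw [List.drop_eq_getElem_cons (show κ < S.length by omega)]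
      generalize S[κ] = Z
      interval_cases ρ <;> simp [rn, stp]

theorem good_rho {S : List ℕ} {κ p ρ y1 y2 y3 : ℕ} (g1 : Good δ M S κ p (ρ / 2) y1)
    (g2 : Good δ M (rn δ (ρ / 2 - pj 2 y1) (pj 4 y1, [pj 5 y1])).2 0 (pj 1 y1) (ρ - ρ / 2) y2)
    (g3 : Good δ M S (pj 3 y1) (pj 1 y2) (ρ - ρ / 2 - pj 2 y2) y3) :
    Good δ M S κ p ρ (if pj 0 y1 = 0 then y1 else if pj 0 y2 = 0 then
      t6 (pj 0 y3) (pj 1 y3) (ρ / 2 + pj 2 y2 + pj 2 y3) (pj 3 y3) (pj 4 y3) (pj 5 y3)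
      else t6 1 (pj 1 y2) (pj 2 y1) (pj 3 y1) (pj 4 y1) (pj 5 y1)) := by
  obtain ⟨f1, p1, t1, H1, w1, Z1, rfl, a1, a2, a3, a4, a5, a6, a7, a8⟩ := g1
  obtain ⟨f2, p2, t2, H2, w2, Z2, rfl, b1, b2, b3, b4, b5, b6, b7, b8⟩ := g2
  obtain ⟨f3, p3, t3, H3, w3, Z3, rfl, c1, c2, c3, c4, c5, c6, c7, c8⟩ := g3
  simp only [pj_t6, List.drop_zero] at *
  have hρ : ρ = ρ / 2 + (ρ - ρ / 2) := by omega
  split_ifs with e1 e2
  · exact ⟨_, _, _, _, _, _, rfl, a1, a2, a3, a4, by omega, a6, a7, fun a => (a e1).elim⟩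
  · obtain ⟨k1, k2, k3⟩ := a8 e1
    have k4 : ∀ β, rn δ (ρ / 2 + t2) (p, S.drop κ ++ β) = (p2, S.drop H1 ++ β) := fun β => by
      rw [rn_add, k3, List.append_assoc, (b7 e2).2]
    refine ⟨_, _, _, _, _, _, rfl, c1, c2, c3, c4, by omega, c6, fun e => ⟨(c7 e).1, fun β => ?_⟩,
      fun e => ?_⟩
    · rw [rn_add, k4, (c7 e).2]
    · obtain ⟨l1, l2, l3⟩ := c8 e
      rw [show ρ - (ρ / 2 + t2 + t3) = ρ - ρ / 2 - t2 - t3 by omega]
      refine ⟨by omega, l2, fun β => ?_⟩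
      rw [← l3, ← k4, ← rn_add]
      congr 1
      omega
  · obtain ⟨k1, k2, k3⟩ := a8 e1
    obtain ⟨l1, l2, l3⟩ := b8 e2
    have k4 : rn δ (ρ - t1) (w1, [Z1]) = rn δ (ρ - ρ / 2) (p1, (rn δ (ρ / 2 - t1) (w1, [Z1])).2) := by
      rw [show ρ - t1 = ρ / 2 - t1 + (ρ - ρ / 2) by omega, rn_add, ← k2]
    have l4 := l3 []
    simp only [List.append_nil] at l4
    refine ⟨_, _, _, _, _, _, rfl, le_rfl, b2, a3, a4, by omega, a6, by omega,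
      fun _ => ⟨k1, by rw [k4, l4], fun β => ?_⟩⟩
    rw [k4, l4, hρ, rn_add, k3, List.append_assoc, ← hρ, l3]
    simp

theorem good_tau {S1 : List ℕ} {κ p ρ τ p1 y2 y3 y4 : ℕ} (hp : p ≤ M)
    (g2 : Good δ M S1 0 p1 τ y2)
    (g3 : Good δ M (rn δ (τ - pj 2 y2) (pj 4 y2, [pj 5 y2])).2 κ p ρ y3)
    (g4 : Good δ M S1 (pj 3 y2 + (κ - pj 3 y3)) (pj 1 y3) (ρ - pj 2 y3) y4) :
    Good δ M (rn δ τ (p1, S1)).2 κ p ρ (if pj 0 y2 = 0 then t6 0 p 0 0 0 0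
      else if pj 0 y3 = 0 then t6 (pj 0 y4) (pj 1 y4) (pj 2 y3 + pj 2 y4)
        (pj 3 y3 + (pj 3 y4 - pj 3 y2)) (pj 4 y4) (pj 5 y4) else y3) := by
  obtain ⟨f1, p1', t1, H1, w1, Z1, rfl, a1, a2, a3, a4, a5, a6, a7, a8⟩ := g2
  obtain ⟨f2, p2, t2, H2, w2, Z2, rfl, b1, b2, b3, b4, b5, b6, b7, b8⟩ := g3
  obtain ⟨f3, p3, t3, H3, w3, Z3, rfl, c1, c2, c3, c4, c5, c6, c7, c8⟩ := g4
  simp only [pj_t6, List.drop_zero] at *
  split_ifs with e1 e2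
  · have := (a7 e1).2 []
    obtain ⟨n, rfl⟩ := Nat.exists_eq_add_of_le a5
    rw [List.append_nil] at this
    rw [rn_add, this, rn_nil]
    exact ⟨_, _, _, _, _, _, rfl, by omega, hp, by omega, by omega, by omega, le_rfl,
      fun _ => ⟨rfl, fun β => by simp [rn]⟩, fun a => (a rfl).elim⟩
  all_goals
    have k := (a8 e1).2.2 []
    simp only [List.append_nil] at k
    rw [k]
    dsimp only
    generalize (rn δ (τ - t1) (w1, [Z1])).2 = W at *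
  · obtain ⟨rfl, l2⟩ := b7 e2
    have k4 : ∀ β, rn δ t2 (p, (W ++ S1.drop H1).drop κ ++ β) =
        (p2, S1.drop (H1 + (κ - W.length)) ++ β) := fun β => by
      rw [List.drop_append, List.append_assoc, l2, List.drop_drop]
    refine ⟨_, _, _, _, _, _, rfl, c1, c2, c3, c4, by omega, by simp; omega,
      fun e => ⟨by simp [(c7 e).1], fun β => ?_⟩, fun e => ?_⟩
    · rw [rn_add, k4, (c7 e).2]
    · obtain ⟨l1, l2, l3⟩ := c8 e
      rw [show ρ - (t2 + t3) = ρ - t2 - t3 by omega]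
      refine ⟨by omega, l2, fun β => ?_⟩
      rw [List.drop_length_add_append, List.drop_drop, show H1 + (H3 - H1) = H3 by omega, ← l3,
        ← k4, ← rn_add]
      congr 1
      omega
  · obtain ⟨l1, l2, l3⟩ := b8 e2
    refine ⟨_, _, _, _, _, _, rfl, b1, b2, b3, b4, b5, by simp; omega, fun e => (e2 e).elim,
      fun _ => ⟨l1, l2, fun β => ?_⟩⟩
    rw [List.drop_append_of_le_length (by omega), List.drop_append_of_le_length b6,
      List.append_assoc, l3]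
    simp

theorem good_le {S : List ℕ} {κ p ρ y : ℕ} (h : Good δ M S κ p ρ y) :
    pj 1 y ≤ M ∧ pj 4 y ≤ M ∧ pj 5 y ≤ M ∧ pj 2 y ≤ ρ ∧ pj 3 y ≤ S.length := by
  obtain ⟨f, p', t, H, pw, Zw, rfl, _, a, b, c, d, e, _⟩ := h
  simp only [pj_t6]
  exact ⟨a, b, c, d, e⟩

theorem down_step (hL : ∀ p Z, (δ p Z).2.length ≤ L) {j : ℕ} {G : ℕ → ℕ}
    (h0 : Nok δ M L K (j + 1) (G 0) fun _ _ _ _ => True)
    (H : ∀ s, 1 ≤ s → s ≤ 4 → Nok δ M L K j (nm s G) (fun _ _ _ _ => True) →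
      Nok δ M L K j (nm s G) fun S κ p ρ => Good δ M S κ p ρ (G s)) :
    (∀ s, 1 ≤ s → s ≤ 4 → Nok δ M L K j (nm s G) fun _ _ _ _ => True) ∧
      Nok δ M L K (j + 1) (G 0) fun S κ p ρ => Good δ M S κ p ρ (out G) := by
  obtain ⟨pu, Zu, τ, κ, p, ρ, e, a1, a2, a3, a4, a5, a6, a7, -⟩ := h0
  have x1 : 2 ^ ((j + 1 + 1) / 2) = 2 * 2 ^ (j / 2) := by
    rw [show (j + 1 + 1) / 2 = j / 2 + 1 by omega, pow_succ, mul_comm]
  have x2 : 2 ^ (j / 2) ≤ 2 ^ ((j + 1) / 2) := Nat.pow_le_pow_right (by omega) (by omega)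
  have x3 : 2 * 2 ^ (j / 2) ≤ 2 ^ (j + 1) := by
    rw [← x1]; exact Nat.pow_le_pow_right (by omega) (by omega)
  have x4 : (L + 1) * 2 ^ (j + 1 + 1) = 2 * ((L + 1) * 2 ^ (j + 1)) := by ring
  have x5 : ∀ t ≤ τ, (rn δ t (pu, [Zu])).2.length ≤ (L + 1) * 2 ^ (j + 1) := fun t ht => by
    have := rn_len hL t (pu, [Zu])
    have h2 : L * t ≤ L * 2 ^ (j + 1) := Nat.mul_le_mul_left _ (by omega)
    have h3 : 0 < 2 ^ (j + 1) := by positivity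
    simp only [List.length_singleton, add_mul] at this ⊢
    omega
  have key : ∀ s, 1 ≤ s → s ≤ 4 → ∀ pu Zu τ κ p ρ, nm s G = t6 pu Zu τ κ p ρ → pu ≤ M → Zu ≤ M →
      p ≤ M → τ ≤ 2 ^ ((j + 1) / 2) → ρ ≤ 2 ^ ((j + 1) / 2) →
      (τ ≤ 2 ^ (j / 2) ∨ ρ ≤ 2 ^ (j / 2)) → κ + (L + 1) * 2 ^ (j + 1) ≤ K →
      Nok δ M L K j (nm s G) (fun _ _ _ _ => True) ∧
        Good δ M (rn δ τ (pu, [Zu])).2 κ p ρ (G s) := by
    intro s l u pu Zu τ κ p ρ e b1 b2 b3 b4 b5 b6 b7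
    have n : Nok δ M L K j (nm s G) fun _ _ _ _ => True :=
      ⟨_, _, _, _, _, _, e, b1, b2, b3, b4, b5, b6, b7, trivial⟩
    obtain ⟨_, _, _, _, _, _, e', _, _, _, _, _, _, _, g⟩ := H s l u n
    obtain ⟨rfl, rfl, rfl, rfl, rfl, rfl⟩ := t6_inj (e.symm.trans e')
    exact ⟨n, g⟩
  have fin : ∀ {Q : ℕ → Prop}, Q 1 → Q 2 → Q 3 → Q 4 → ∀ s, 1 ≤ s → s ≤ 4 → Q s := by
    intro Q q1 q2 q3 q4 s l u
    interval_cases s <;> assumption
  by_cases c : τ ≤ ρ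
  · obtain ⟨n1, g1⟩ := key 1 le_rfl (by omega) pu Zu τ κ p (ρ / 2) (by simp [nm, e, pj_t6, c])
      a1 a2 a3 (by omega) (by omega) (by omega) (by omega)
    have l1 := good_le g1
    have := x5 τ le_rfl
    obtain ⟨n2, g2⟩ := key 2 (by omega) (by omega) (pj 4 (G 1)) (pj 5 (G 1)) (ρ / 2 - pj 2 (G 1)) 0
      (pj 1 (G 1)) (ρ - ρ / 2) (by simp [nm, e, pj_t6, c]) l1.2.1 l1.2.2.1 l1.1 (by omega)
      (by omega) (by omega) (by omega)
    have l2 := good_le g2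
    obtain ⟨n3, g3⟩ := key 3 (by omega) (by omega) pu Zu τ (pj 3 (G 1)) (pj 1 (G 2))
      (ρ - ρ / 2 - pj 2 (G 2)) (by simp [nm, e, pj_t6, c]) a1 a2 l2.1 (by omega)
      (by omega) (by omega) (by omega)
    obtain ⟨n4, -⟩ := key 4 (by omega) (by omega) 0 0 0 0 0 0 (by simp [nm, e, pj_t6, c])
      (by omega) (by omega) (by omega) (by omega) (by omega) (by omega) (by omega)
    refine ⟨fin (Q := fun s => Nok δ M L K j (nm s G) fun _ _ _ _ => True) n1 n2 n3 n4,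
      _, _, _, _, _, _, e, a1, a2, a3, a4, a5, a6, a7, ?_⟩
    simpa only [out, e, pj_t6, if_pos c] using good_rho g1 g2 g3
  · obtain ⟨n1, g1⟩ := key 1 le_rfl (by omega) pu Zu 0 0 pu (τ / 2) (by simp [nm, e, pj_t6, c])
      a1 a2 a1 (by omega) (by omega) (by omega) (by omega)
    have l1 := good_le g1
    have := x5 (τ / 2) (by omega)
    obtain ⟨n2, g2⟩ := key 2 (by omega) (by omega) pu Zu (τ / 2) 0
      (pj 1 (G 1)) (τ - τ / 2) (by simp [nm, e, pj_t6, c]) a1 a2 l1.1 (by omega)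
      (by omega) (by omega) (by omega)
    have l2 := good_le g2
    obtain ⟨n3, g3⟩ := key 3 (by omega) (by omega) (pj 4 (G 2)) (pj 5 (G 2))
      (τ - τ / 2 - pj 2 (G 2)) κ p ρ (by simp [nm, e, pj_t6, c]) l2.2.1 l2.2.2.1 a3 (by omega)
      (by omega) (by omega) (by omega)
    have l3 := good_le g3
    obtain ⟨n4, g4⟩ := key 4 (by omega) (by omega) pu Zu (τ / 2) (pj 3 (G 2) + (κ - pj 3 (G 3)))
      (pj 1 (G 3)) (ρ - pj 2 (G 3)) (by simp [nm, e, pj_t6, c]) a1 a2 l3.1 (by omega)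
      (by omega) (by omega) (by omega)
    refine ⟨fin (Q := fun s => Nok δ M L K j (nm s G) fun _ _ _ _ => True) n1 n2 n3 n4,
      _, _, _, _, _, _, e, a1, a2, a3, a4, a5, a6, a7, ?_⟩
    have q : rn δ τ (pu, [Zu]) = rn δ (τ - τ / 2) (pj 1 (G 1), (rn δ (τ / 2) (pu, [Zu])).2) := by
      rw [← g1.ctl]
      conv_lhs => rw [show τ = τ / 2 + (τ - τ / 2) by omega, rn_add]
      rfl
    rw [q]
    simpa only [out, e, pj_t6, if_neg c] using good_tau a3 g2 g3 g4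

end Pool.Agent.Lib.MP_5afa16_lc.Dc
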