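import Pool.Agent.Lib.MP_5afa16_lc.DcMain

/-! Soundness and completeness of the relation accepted by the machine. -/

namespace Pool.Agent.Lib.MP_5afa16_lc.Dc

open Sp Relation

set_option maxHeartbeats 200000

attribute [local irreducible] t6 nm out base pj

variable {A : Type} {TB : ℕ → ℕ × ℕ × List ℕ} {cc : A ⊕ Bool → ℕ} {fn : ℕ → ℕ} {N q0 Z0 : ℕ}

theorem dc_bd (h : ∀ x, (TB x).1 < N ∧ (TB x).2.2.length ≤ N ∧ ∀ Z ∈ (TB x).2.2, Z < N)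
    (w : List A) : (∀ p Z, (dc TB cc w p Z).2.length ≤ N) ∧
    (∀ p Z, p ≤ (N + w.length + 1) ^ 2 → Z ≤ (N + w.length + 1) ^ 2 →
      (dc TB cc w p Z).1 ≤ (N + w.length + 1) ^ 2 ∧
        ∀ Z' ∈ (dc TB cc w p Z).2, Z' ≤ (N + w.length + 1) ^ 2) ∧
    ∀ q < N, Nat.pair q 0 ≤ (N + w.length + 1) ^ 2 ∧ q ≤ (N + w.length + 1) ^ 2 := by
  have a : ∀ q < N, ∀ i ≤ w.length, Nat.pair q i ≤ (N + w.length + 1) ^ 2 := fun q a i b =>
    (Nat.pair_lt_max_add_one_sq q i).le.trans (Nat.pow_le_pow_left (by omega) 2)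
  have b : ∀ q < N, q ≤ (N + w.length + 1) ^ 2 := fun q a =>
    le_trans (by omega) (Nat.le_self_pow two_ne_zero _)
  exact ⟨fun _ _ => (h _).2.1, fun _ _ _ _ => ⟨a _ (h _).1 _ (min_le_right _ _),
    fun Z hZ => b _ ((h _).2.2 Z hZ)⟩, fun q hq => ⟨a q hq 0 (Nat.zero_le _), b q hq⟩⟩

theorem phi_sound (h : ∀ x, (TB x).1 < N ∧ (TB x).2.2.length ≤ N ∧ ∀ Z ∈ (TB x).2.2, Z < N)
    (hq : q0 < N) (hZ : Z0 < N) {w : List A} {Y : ℕ} (p : Phi TB cc fn q0 Z0 (w, Y)) :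
    ∃ t, fn (rn (dc TB cc w) t (Nat.pair q0 0, [Z0])).1.unpair.1 = 1 ∧
      w.length ≤ (rn (dc TB cc w) t (Nat.pair q0 0, [Z0])).1.unpair.2 := by
  obtain ⟨a, ⟨-, a1, a2, a3⟩, z0, ⟨-, b1, b2, b3, b4⟩, z1, ⟨-, c1, c2, c3⟩, r⟩ := p
  obtain ⟨d1, d2, d3⟩ := dc_bd (cc := cc) h w
  have r' := ReflTransGen.lift (dec (pj 0 a) (pj 1 a) (pj 2 a) (pj 4 a))
    (fun _ _ x => x.2.2.2.2) _ _ r
  simp only [Function.onFun, dec, b1, b2, b3, c1, c2, c3] at r'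
  have := Sch.walk_sound _ (sch_tru a1 a2) (Nat.mul_mod_left _ _) r'
  refine ⟨pj 3 a, ?_⟩
  rw [← root_val (ac := fun p => fn p.unpair.1 = 1 ∧ w.length ≤ p.unpair.2) (m := pj 1 a) a1 a2 d1
    d2 (d3 _ hq).1 (d3 _ hZ).2 (Nat.lt_of_div_eq_zero (by positivity) a3).le, ← b4]
  exact this

theorem params (N l : ℕ) (hl : 0 < l) : ∃ r, 2 ≤ r ∧ N + l ≤ r * r / 2 ∧
    r * r ≤ (4 * N + 12) * l := by
  have h1 := Nat.lt_succ_sqrt (2 * (N + l))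
  have h2 := Nat.sqrt_le (2 * (N + l))
  generalize (2 * (N + l)).sqrt = s at *
  refine ⟨s + 2, by omega, ?_, ?_⟩
  · rw [Nat.le_div_iff_mul_le (by omega)]
    nlinarith
  · nlinarith [sq_nonneg ((s : ℤ) - 2), Nat.le_mul_of_pos_right N hl]

theorem pw {a b : ℕ} (h : a ≤ b) : 2 ^ a ≤ 2 ^ b := Nat.pow_le_pow_right (by omega) h

theorem pw_le {V a n b : ℕ} (h : V ≤ 2 ^ a) (l : a * n ≤ b) : V ^ n ≤ 2 ^ b :=
  (Nat.pow_le_pow_left h n).trans (by rw [← pow_mul]; exact pw l)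

theorem num1 {N n l r : ℕ} (hl : n + 1 < 2 ^ l) (r2 : 2 ≤ r) (r3 : N + l ≤ r * r / 2) :
    N * (n + 1) < 2 ^ (r * r / 2) ∧
      (N + n + 1) ^ 2 + (N + 1) * 2 ^ (r * r + 1) + 1 ≤ 2 ^ (3 * (r * r)) := by
  have hN : N < 2 ^ N := Nat.lt_two_pow_self
  have q1 : 2 * r ≤ r * r := by nlinarith
  have m1 : (N + n + 1) ^ 2 ≤ 2 ^ (2 * (r * r)) :=
    pw_le (a := N + l) (by rw [pow_add]; nlinarith) (by omega)
  have m2 : (N + 1) * 2 ^ (r * r + 1) ≤ 2 ^ (2 * (r * r)) :=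
    (Nat.mul_le_mul_right _ hN).trans (by rw [← pow_add]; exact pw (by omega))
  have a2 := pw (show 2 * (r * r) + 2 ≤ 3 * (r * r) by omega)
  have a3 : 0 < 2 ^ (2 * (r * r)) := by positivity
  rw [pow_add] at a2
  exact ⟨(Nat.mul_lt_mul'' hN hl).trans_le (by rw [← pow_add]; exact pw r3), by omega⟩

theorem num2 {r : ℕ} (r2 : 2 ≤ r) : bV r (2 ^ r) (192 * r) ≤ 2 ^ (19 * r) := by
  have hr : r < 2 ^ r := Nat.lt_two_pow_self
  have v1 : bB r (2 ^ r) ≤ 2 ^ (6 * r) := by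
    have a1 : r * r + 1 ≤ 2 ^ (2 * r) := by rw [two_mul, pow_add]; nlinarith
    have a2 : 64 ≤ 2 ^ (3 * r) := pw (show 6 ≤ 3 * r by omega)
    rw [bB, show 6 * r = 3 * r + 2 * r + r by omega, pow_add, pow_add]
    exact Nat.mul_le_mul_right _ (Nat.mul_le_mul a2 a1)
  have v2 : 192 * r ≤ 2 ^ (5 * r) := by
    have a2 : 256 ≤ 2 ^ (4 * r) := pw (show 8 ≤ 4 * r by omega)
    rw [show 5 * r = 4 * r + r by omega, pow_add]
    nlinarith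
  have a1 : 192 * r * bB r (2 ^ r) ^ 2 ≤ 2 ^ (17 * r) := by
    rw [show 17 * r = 5 * r + 12 * r by omega, pow_add]
    exact Nat.mul_le_mul v2 (pw_le v1 (by omega))
  have a2 := pw (show 6 * r ≤ 17 * r by omega)
  have a3 := pw (show 17 * r + 2 ≤ 19 * r by omega)
  have a4 : 0 < 2 ^ (17 * r) := by positivity
  rw [pow_add] at a3
  unfold bV
  omega

theorem phi_abs (h : ∀ x, (TB x).1 < N ∧ (TB x).2.2.length ≤ N ∧ ∀ Z ∈ (TB x).2.2, Z < N)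
    (hq : q0 < N) (hZ : Z0 < N) {w : List A} {g m d T K : ℕ}
    (p : fn (rn (dc TB cc w) T (Nat.pair q0 0, [Z0])).1.unpair.1 = 1 ∧
      w.length ≤ (rn (dc TB cc w) T (Nat.pair q0 0, [Z0])).1.unpair.2)
    (hg : 2 ≤ g) (hm : 0 < m) (hd : 0 < d) (hT : T < 2 ^ (g * g / 2))
    (h0 : ((N + w.length + 1) ^ 2 + (N + 1) * 2 ^ (g * g + 1) + 1) ^ 64 ≤ m ^ d)
    (h1 : bV g m d ^ (g * 5 * d) ≤ K) (h2 : bV g m d ^ ((g * g + 2) * 5) ≤ K)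
    (h3 : (m ^ d) ^ (g * g / g + 1) ≤ K) (h4 : (m ^ d) ^ 5 ≤ K) (h5 : 16 ^ (g * g + 1) ≤ K)
    (h6 : g < K) (h7 : m < K) (h8 : d < K) (h9 : T < K) (h10 : m ^ d < K) (h11 : g * g + 9 < K) :
    Phi TB cc fn q0 Z0 (w, K ^ 64) := by
  obtain ⟨d1, d2, d3⟩ := dc_bd (cc := cc) h w
  have k4 : K ≤ K ^ 64 := Nat.le_self_pow (by omega) _
  obtain ⟨z0, a1, z1, a2, a3, a4, a5, a6⟩ := Sch.walk_comp
    (fun G _ => ∃ c < K ^ 64, G = dig (m ^ d) c) (Y := K ^ 64) (h := g * g)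
    (sch_tru (ac := fun p => fn p.unpair.1 = 1 ∧ w.length ≤ p.unpair.2) hg hd)
    (sch_okb hg hd hm d1 d2 (Nat.le_add_right _ _) h0 (bB g m))
    (Nat.mul_mod_left _ _) (root_ok (d3 _ hq).1 (d3 _ hZ).2 hT.le (Nat.le_add_left _ _))
    (by
      rwa [← root_val (ac := fun p => fn p.unpair.1 = 1 ∧ w.length ≤ p.unpair.2) (m := m)
        hg hd d1 d2 (d3 _ hq).1 (d3 _ hZ).2 hT.le] at p)
    (by simp [bB])
    (fun G μ ⟨g1, g2, _⟩ => by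
      obtain ⟨c, c1, c2⟩ := exists_dig _ 5 G fun i _ => g1 i
      refine ⟨c, c1.trans_le (h4.trans k4), funext fun s => ?_⟩
      by_cases e : s < 5
      · exact (c2 s e).symm
      · rw [g2 s (by omega), dig, Nat.div_eq_of_lt (c1.trans_le
          (Nat.pow_le_pow_right (by positivity) (by omega))), Nat.zero_mod])
    (dec g m d (m ^ d))
    (fun j i t μ u1 u2 u3 u4 u5 => dec_ex hd h1 h2 h3 (by omega) (by omega) (u3.trans_le h5) u4 u5)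
  refine ⟨t6 g m d T (m ^ d) 0, ?_⟩
  simp only [dec, Prod.mk.injEq] at a3 a4 a5
  simp only [pj_t6]
  refine ⟨⟨t6_lt h6 h7 h8 h9 h10 (by omega), hg, hd, Nat.div_eq_of_lt hT⟩,
    z0, ⟨a1, a3.1, a3.2.1, a3.2.2, a4⟩, z1, ⟨a2, a5⟩, rtg_mono a6 fun u v x => ?_⟩
  unfold Rel
  rw [(pj_t6 ..).1, (pj_t6 ..).2.1, (pj_t6 ..).2.2.1, (pj_t6 ..).2.2.2.2.1]
  exact ⟨hg, x⟩

theorem phi_comp (h : ∀ x, (TB x).1 < N ∧ (TB x).2.2.length ≤ N ∧ ∀ Z ∈ (TB x).2.2, Z < N)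
    (hq : q0 < N) (hZ : Z0 < N) {w : List A}
    (p : fn (rn (dc TB cc w) (N * (w.length + 1)) (Nat.pair q0 0, [Z0])).1.unpair.1 = 1 ∧
      w.length ≤ (rn (dc TB cc w) (N * (w.length + 1)) (Nat.pair q0 0, [Z0])).1.unpair.2)
    (l : ℕ) (hl : w.length + 1 < 2 ^ l) {c : ℕ} (hc : 20000 ≤ c) : ∃ b Y,
      b ^ 2 ≤ (c * 64) ^ 2 * (4 * N + 12) ^ 3 * l ^ 3 ∧
      l ≤ b ∧ Y < 2 ^ (b + 1) ∧ Phi TB cc fn q0 Z0 (w, Y) := by
  have l0 : 0 < l := by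
    rcases l with _ | l
    · simp at hl
    · omega
  obtain ⟨r, r2, r3, r4⟩ := params N l l0
  obtain ⟨t1, m3⟩ := num1 hl r2 r3
  have v3 := num2 r2
  have q1 : 2 * r ≤ r * r := by nlinarith
  have q2 : 2 * (r * r) ≤ r * r * r := by nlinarith
  have q3 : 20000 * (r * r * r) ≤ c * (r * r * r) := Nat.mul_le_mul_right _ hc
  have e0 : r * r / r = r := Nat.mul_div_cancel _ (by omega)
  have e1 : (2 ^ r) ^ (192 * r) = 2 ^ (192 * (r * r)) := by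
    rw [← pow_mul]; congr 1; ring
  refine ⟨c * (r * r * r) * 64, (2 ^ (c * (r * r * r))) ^ 64, ?_, by omega, ?_, ?_⟩
  · rw [mul_right_comm, mul_pow, mul_assoc _ (_ ^ 3), ← mul_pow _ l,
      show (r * r * r) ^ 2 = (r * r) ^ 3 by ring]
    exact Nat.mul_le_mul_left _ (Nat.pow_le_pow_left r4 3)
  · rw [← pow_mul]
    exact Nat.pow_lt_pow_right (by omega) (by omega)
  generalize c * (r * r * r) = e at q3
  have k2 : ∀ {a}, a < e → 2 ^ a < 2 ^ e := Nat.pow_lt_pow_right (by omega)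
  have k3 : ∀ {a}, a < e → a < 2 ^ e := fun a => Nat.lt_two_pow_self.trans (k2 a)
  refine phi_abs h hq hZ p r2 (by positivity) (by omega) t1 ?_
    (pw_le v3 (by nlinarith)) (pw_le v3 (by nlinarith)) (pw_le e1.le (by rw [e0]; nlinarith))
    (pw_le e1.le (by omega)) (pw_le (a := 4) le_rfl (by omega)) (k3 (by omega)) (k2 (by omega))
    (k3 (by omega)) (t1.trans (k2 (by omega))) (e1.trans_lt (k2 (by omega))) (k3 (by omega))
  rw [e1]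
  generalize (N + w.length + 1) ^ 2 + (N + 1) * 2 ^ (r * r + 1) + 1 = u at m3
  exact pw_le m3 (by omega)

theorem dcfl_space {Q G : Type} [Finite A] [Finite Q] [Finite G] (M : DPDA A Q G) :
    ∃ Q' W : Type, Finite Q' ∧ Finite W ∧ ∃ (N : NTM A Q' W) (C : ℕ), ∀ w,
      (N.Accepts w ↔ M.Accepts w) ∧
      ∀ c, N.Reach w c → (c.head + 1) ^ 2 ≤ C * (Nat.log 2 (w.length + 2) + 1) ^ 3 := by
  obtain ⟨TB, cc, fn, N, q0, Z0, hq, hZ, h1, h2, h3⟩ := pda_code M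
  have : Tab TB fn := ⟨N, fun x => ⟨h1 x, (h2 x).2.1⟩⟩
  refine space (ns_phi TB cc fn q0 Z0) _ (4 * ((20000 * 64) ^ 2 * (4 * N + 12) ^ 3))
    (fun w Y p => (phi_sound h2 hq hZ p).elim fun t => (h3 w t).1) fun w p l hl => ?_
  obtain ⟨b, Y, a1, a2, a3, a4⟩ := phi_comp h2 hq hZ ((h3 w _).2 p le_rfl) l hl le_rfl
  have l0 : 0 < l := by
    rcases l with _ | l
    · simp at hl
    · omega
  refine ⟨b + 1, Y, ?_, by omega, a3, a4⟩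
  rw [mul_assoc]
  generalize (20000 * 64) ^ 2 * (4 * N + 12) ^ 3 * l ^ 3 = u at a1
  nlinarith

end Pool.Agent.Lib.MP_5afa16_lc.Dc
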