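import Pool.Agent.Lib.MP_5afa16_lc.DcCode

/-! The relation accepted by the machine. -/

namespace Pool.Agent.Lib.MP_5afa16_lc.Dc

open Sp Relation

set_option maxHeartbeats 1000000
set_option synthInstance.maxSize 100000
set_option synthInstance.maxHeartbeats 1000000

variable {A : Type}

theorem ns_tc1 {Γ : Type} [Cx A Γ] {R : Γ → ℕ → ℕ → Prop}
    (h : ND fun y : (Γ × ℕ) × ℕ => R y.1.1 y.1.2 y.2) (s e t : Γ → ℕ) [NF s] [NF e] [ht : NF t]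
    (hb : ∀ x u v, R x u v → v ≤ t x) : NS fun x => ReflTransGen (R x) (s x) (e x) := by
  have h1 := h.mor fun y : X4 ((Γ × ℕ) × ℕ) => ((y.1.1.1.1.1.1, y.1.1.1.2), y.1.2)
  have k := NS.tc (Γ := (Γ × ℕ) × ℕ) (R := fun y u v => R y.1.1 u.1 v.1 ∧ v.2 = v.1)
    (h1.p.and (NS.eq (Γ := X4 ((Γ × ℕ) × ℕ)) (·.2) (·.1.2)))
    (·.1.2) (·.1.2) (·.2) (·.2) (by
      obtain ⟨c, hc⟩ := ht.wk2.b
      refine ⟨c, fun x b sb r => rtg_mono r fun u v a => ⟨a, ?_⟩⟩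
      have := (hb _ _ _ a.1).trans_lt (hc x b sb)
      exact ⟨this, a.2 ▸ this⟩)
  exact (k.mor fun x => ((x, s x), e x)).congr fun x =>
    ⟨fun r => ReflTransGen.lift (fun u => (u, u)) (fun _ _ a => ⟨a, rfl⟩) _ _ r,
      fun r => ReflTransGen.lift Prod.fst (fun _ _ a => a.1) _ _ r⟩

theorem ns_ex {Γ : Type} [Cx A Γ] {φ ψ : Γ → ℕ → Prop} {t : Γ → ℕ} [ht : NF t]
    [ND fun y : Γ × ℕ => φ y.1 y.2] (h : NS fun y : Γ × ℕ => ψ y.1 y.2) :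
    NS fun x => ∃ y, (y < t x ∧ φ x y) ∧ ψ x y := by
  have := ht.wk
  exact NS.ex (ψ := fun y => (y.2 < t y.1 ∧ φ y.1 y.2) ∧ ψ y.1 y.2) (NS.and ND.p h) ht.b
    fun _ _ a => a.1.1.le

variable (TB : ℕ → ℕ × ℕ × List ℕ) (cc : A ⊕ Bool → ℕ) (fn : ℕ → ℕ)

/-- The scheme on input `w`. -/
def sc (w : List A) (g m d : ℕ) : Sch d :=
  sch (dc TB cc w) (fun p => fn p.unpair.1 = 1 ∧ w.length ≤ p.unpair.2) g m d

/-- One step on codes. -/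
def Rel (w : List A) (Y a z z' : ℕ) : Prop :=
  2 ≤ pj 0 a ∧ z < Y ∧ z' < Y ∧
    ((dec (pj 0 a) (pj 1 a) (pj 2 a) (pj 4 a) z).1.1 ≤ pj 0 a * pj 0 a ∧
    (sc TB cc fn w (pj 0 a) (pj 1 a) (pj 2 a)).Nx (fun G _ => ∃ c < Y, G = dig (pj 4 a) c)
      (dec (pj 0 a) (pj 1 a) (pj 2 a) (pj 4 a) z) (dec (pj 0 a) (pj 1 a) (pj 2 a) (pj 4 a) z'))

theorem rel_iff (w : List A) (Y a z z' : ℕ) : Rel TB cc fn w Y a z z' ↔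
    2 ≤ pj 0 a ∧ z < Y ∧ z' < Y ∧ pj 0 z ≤ pj 0 a * pj 0 a ∧ pj 1 z < 9 ∧
    (∃ c < Y, (sc TB cc fn w (pj 0 a) (pj 1 a) (pj 2 a)).StepB (pj 0 a * pj 0 a) (pj 0 z) (pj 1 z)
      (pj 2 z % 16) (dig (pj 4 a) c) (dec (pj 0 a) (pj 1 a) (pj 2 a) (pj 4 a) z).2
      (dec (pj 0 a) (pj 1 a) (pj 2 a) (pj 4 a) z').2) ∧
    (pj 0 z', pj 1 z', pj 2 z') = nxt (pj 0 z) (pj 1 z) (pj 2 z) := by
  refine and_congr_right fun hg => and_congr_right fun _ => and_congr_right fun _ =>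
    and_congr_right fun hj => and_congr_right fun _ => and_congr_left fun _ => ?_
  have := fun G => (sc TB cc fn w (pj 0 a) (pj 1 a) (pj 2 a)).step_iff (j := pj 0 z) (i := pj 1 z)
    (p := pj 2 z % 16) (G := G) (show 0 < pj 0 a by omega) hj
    (dec_zr _ (pj 1 a) _ (pj 4 a) z) (dec_zr _ (pj 1 a) _ (pj 4 a) z')
  exact ⟨fun ⟨G, ⟨c, l, e⟩, s⟩ => ⟨c, l, e ▸ (this G).1 s⟩,
    fun ⟨c, l, s⟩ => ⟨_, ⟨c, l, rfl⟩, (this _).2 s⟩⟩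

theorem sc_eq (w : List A) (g m d : ℕ) : (sc TB cc fn w g m d).g = g ∧
    (sc TB cc fn w g m d).vec = vz m d ∧ (sc TB cc fn w g m d).nm = nm ∧
    (sc TB cc fn w g m d).out = out ∧ (sc TB cc fn w g m d).base = base (dc TB cc w) ∧
    ∀ y, (sc TB cc fn w g m d).acc y =
      (fn (pj 1 y).unpair.1 = 1 ∧ w.length ≤ (pj 1 y).unpair.2) :=
  ⟨rfl, rfl, rfl, rfl, rfl, fun _ => rfl⟩

theorem nd_rel [hT : Tab TB fn] [Finite A] :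
    ND fun y : X4 (List A) => Rel TB cc fn y.1.1.1.1 y.1.1.1.2 y.1.1.2 y.1.2 y.2 := by
  have hf : ∀ (Γ : Type) [Cx A Γ] (f : Γ → ℕ) [NF f], NF fun x => fn (f x) := fun Γ _ f _ =>
    hT.ex.elim fun _ h => NF.table (fun x l => ((h x).1 l).2) f
  simp only [rel_iff, nxt_iff, Sch.StepB, Sch.sv, Sch.nv, Sch.ov, Sch.val, sc_eq, dec]
  infer_instance

/-- The relation accepted by the machine. -/
def Phi (q0 Z0 : ℕ) (y : List A × ℕ) : Prop :=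
  ∃ a, (a < y.2 ∧ 2 ≤ pj 0 a ∧ 0 < pj 2 a ∧ pj 3 a / 2 ^ (pj 0 a * pj 0 a / 2) = 0) ∧
    ∃ z0, (z0 < y.2 ∧ pj 0 z0 = pj 0 a * pj 0 a ∧ pj 1 z0 = 0 ∧ pj 2 z0 = 8 ∧
      ed (pj 0 a) (pj 4 a) (pj 5 z0) (pj 0 a * pj 0 a / pj 0 a) =
        t6 (Nat.pair q0 0) Z0 0 0 (Nat.pair q0 0) (pj 3 a)) ∧
    ∃ z1, (z1 < y.2 ∧ pj 0 z1 = pj 0 a * pj 0 a + 1 ∧ pj 1 z1 = 9 ∧ pj 2 z1 = 0) ∧
      ReflTransGen (Rel TB cc fn y.1 y.2 a) z0 z1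

theorem ns_phi [hT : Tab TB fn] [Finite A] (q0 Z0 : ℕ) : NS (Phi TB cc fn q0 Z0) := by
  have h := ns_tc1 (Γ := X4 (List A)) (R := fun y => Rel TB cc fn y.1.1.1.1 y.1.1.1.2 y.1.1.2)
    ((nd_rel TB cc fn).mor fun y : (X4 (List A) × ℕ) × ℕ => ((y.1.1.1.1, y.1.2), y.2))
    (·.1.2) (·.2) (·.1.1.1.2) fun _ _ _ a => a.2.2.1.le
  unfold Phi
  exact ns_ex (ns_ex (ns_ex h))

end Pool.Agent.Lib.MP_5afa16_lc.Dc
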