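import Mathlib

/-! A reversible nondeterministic evaluation of a recursion with four calls per level.  Names are
kept in shared registers and checked by convexity; every `g`-th level stores its name. -/

namespace Pool.Agent.Lib.MP_5afa16_lc.Dc

/-- Squared length. -/
def nsq {d : ℕ} (x : Fin d → ℤ) : ℤ := ∑ t, x t ^ 2

theorem nsq_nonneg {d : ℕ} (x : Fin d → ℤ) : 0 ≤ nsq x :=
  Finset.sum_nonneg fun _ _ => sq_nonneg _

theorem nsq_eq_zero {d : ℕ} {x : Fin d → ℤ} (h : nsq x = 0) : x = 0 := by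
  rw [nsq, Finset.sum_eq_zero_iff_of_nonneg fun t _ => sq_nonneg _] at h
  funext t
  exact pow_eq_zero_iff two_ne_zero |>.1 (h t (Finset.mem_univ t))

theorem nsq_conv {d : ℕ} (D δ : Fin d → ℤ) (m : ℕ) :
    m * nsq (D + δ) + nsq (D - m • δ) = (m + 1) * nsq D + (m + m ^ 2) * nsq δ := by
  simp only [nsq, Finset.mul_sum, ← Finset.sum_add_distrib]
  refine Finset.sum_congr rfl fun t _ => ?_
  rw [Pi.add_apply, Pi.sub_apply, Pi.smul_apply, nsmul_eq_mul]
  ring

theorem convex_chain {d : ℕ} (x x' a : ℕ → Fin d → ℤ) (z : Fin d → ℤ) (ρ : ℤ) (s e : ℕ)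
    (hse : s ≤ e) (h1 : ∀ i, s ≤ i → i ≤ e → x' i = x i + a i)
    (h2 : ∀ i, s ≤ i → i < e → x (i + 1) = x' i)
    (h3 : ∀ i, s ≤ i → i ≤ e → ρ = nsq (x i - (i + 1) • a i))
    (h4 : ρ = nsq (x s - (s + 1) • z)) (h5 : ρ = nsq (x' e - (e + 2) • z)) :
    ∀ i, s ≤ i → i ≤ e → a i = z := by
  have step : ∀ i, s ≤ i → i ≤ e → ρ ≤ nsq (x i - (i + 1) • z) →
      ρ ≤ nsq (x' i - (i + 2) • z) ∧
      (nsq (x' i - (i + 2) • z) ≤ ρ → nsq (x i - (i + 1) • z) ≤ ρ ∧ a i = z) := by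
    intro i l u hρ
    have k := nsq_conv (x i - (i + 1) • z) (a i - z) (i + 1)
    have e1 : x i - (i + 1) • z + (a i - z) = x' i - (i + 2) • z := by
      rw [h1 i l u]; module
    have e2 : x i - (i + 1) • z - (i + 1) • (a i - z) = x i - (i + 1) • a i := by module
    rw [e1, e2, ← h3 i l u] at k
    have n0 := nsq_nonneg (a i - z)
    have hi : (0 : ℤ) ≤ i := by positivity
    push_cast at k
    refine ⟨by nlinarith, fun h => ?_⟩
    have h6 : nsq (a i - z) = 0 := by nlinarith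
    exact ⟨by nlinarith, sub_eq_zero.1 (nsq_eq_zero h6)⟩
  have main : ∀ n, s + n ≤ e → ρ ≤ nsq (x (s + n) - (s + n + 1) • z) ∧
      (nsq (x (s + n) - (s + n + 1) • z) ≤ ρ → ∀ i, s ≤ i → i < s + n → a i = z) := by
    intro n
    induction n with
    | zero => exact fun _ => ⟨h4.le, fun _ i l u => by omega⟩
    | succ n ih =>
      intro hn
      obtain ⟨i1, i2⟩ := ih (by omega)
      obtain ⟨j1, j2⟩ := step (s + n) (by omega) (by omega) i1
      rw [← add_assoc, h2 (s + n) (by omega) (by omega)]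
      refine ⟨j1, fun h i l u => ?_⟩
      rcases Nat.lt_succ_iff_lt_or_eq.1 u with u | rfl
      · exact i2 (j2 h).1 i l u
      · exact (j2 h).2
  obtain ⟨n, rfl⟩ := Nat.exists_eq_add_of_le hse
  obtain ⟨i1, i2⟩ := main n le_rfl
  obtain ⟨k1, k2⟩ := (step _ hse le_rfl i1).2 h5.ge
  intro i l u
  rcases u.lt_or_eq with u | rfl
  · exact i2 k1 i l u
  · exact k2

/-- Chains of `n` indexed steps. -/
def Chain {α : Type} (R : ℕ → α → α → Prop) : ℕ → α → α → Prop
  | 0, μ, ν => ν = μ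
  | n + 1, μ, ν => ∃ κ, Chain R n μ κ ∧ R n κ ν

theorem chain_seq {α : Type} (R : ℕ → α → α → Prop) (n : ℕ) : ∀ μ ν, Chain R n μ ν →
    ∃ m : ℕ → α, m 0 = μ ∧ m n = ν ∧ ∀ i < n, R i (m i) (m (i + 1)) := by
  induction n with
  | zero => rintro μ ν rfl; exact ⟨fun _ => ν, rfl, rfl, by simp⟩
  | succ n ih =>
    rintro μ ν ⟨κ, h1, h2⟩
    obtain ⟨m, a, b, c⟩ := ih μ κ h1
    refine ⟨fun i => if i ≤ n then m i else ν, by simp [a], by simp, fun i hi => ?_⟩
    rcases Nat.lt_succ_iff_lt_or_eq.1 hi with h | rfl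
    · simpa [h.le, Nat.succ_le_of_lt h] using c i h
    · simpa [b] using h2

theorem chain_of {α : Type} (R : ℕ → α → α → Prop) (T : ℕ → α → Prop) (n : ℕ)
    (h : ∀ i < n, ∀ μ, T i μ → ∃ ν, R i μ ν ∧ T (i + 1) ν) (μ : α) (h0 : T 0 μ) :
    ∃ ν, Chain R n μ ν ∧ T n ν := by
  induction n with
  | zero => exact ⟨μ, rfl, h0⟩
  | succ n ih =>
    obtain ⟨κ, a, b⟩ := ih fun i hi => h i (by omega)
    obtain ⟨ν, c, e⟩ := h n (by omega) κ b
    exact ⟨ν, ⟨κ, a, c⟩, e⟩

/-- Memory: registers, stored lengths, stored names. -/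
structure Mem (d : ℕ) where
  X : ℕ → ℕ → Fin d → ℤ
  C : ℕ → ℕ → ℤ
  E : ℕ → ℕ

/-- The data of a recursion. -/
structure Sch (d : ℕ) where
  g : ℕ
  vec : ℕ → Fin d → ℤ
  nm : ℕ → (ℕ → ℕ) → ℕ
  out : (ℕ → ℕ) → ℕ
  base : ℕ → ℕ
  acc : ℕ → Prop

/-- The slot of the call made after an event. -/
def sl (p : ℕ) : ℕ := if p < 4 then p + 1 else 8 - p

/-- The last slot that is read. -/
def lo (j i : ℕ) : ℕ := if j = 0 then 0 else min i (8 - i)

namespace Sch

variable {d : ℕ} (S : Sch d)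

/-- The vector of a name. -/
def nv (j a : ℕ) : Fin d → ℤ := if j % S.g = 0 then 0 else S.vec a

/-- The vector in a slot. -/
def sv (j s a : ℕ) : Fin d → ℤ := if s = 0 then S.nv j a else S.vec a

/-- The change made by an output. -/
def ov (j p o c s : ℕ) : Fin d → ℤ :=
  if p < 8 ∧ c = (j + 1) % S.g ∧ s = sl p then
    (if p < 4 then (p + 2) • S.vec o else -((p + 2) • S.vec o)) else 0

/-- The output of a node. -/
def val (j : ℕ) (G : ℕ → ℕ) : ℕ := if j = 0 then S.base (G 0) else S.out G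

/-- One event. -/
structure Step (j i p : ℕ) (G : ℕ → ℕ) (μ ν : Mem d) : Prop where
  rd : ∀ s ≤ lo j i, μ.C j s = nsq (μ.X (j % S.g) s - (i + 1) • S.sv j s (G s))
  ex : j % S.g = 0 → G 0 = μ.E (j / S.g)
  cl : j ≠ 0 → i ≠ 0 → μ.C (j - 1) 0 =
    nsq (μ.X ((j - 1) % S.g) 0 - 10 • S.nv (j - 1) (S.nm (sl (i - 1)) G))
  oc : i = 4 → 4 ≤ p → p < 8 → μ.C (j + 1) (8 - p) =
    nsq (μ.X ((j + 1) % S.g) (8 - p) - (p + 2) • S.vec (S.val j G))
  ac : i = 4 → p = 8 → S.acc (S.val j G)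
  uX : ∀ c s, ν.X c s = μ.X c s + (if c = j % S.g ∧ s ≤ lo j i then S.sv j s (G s) else 0) +
    (if j ≠ 0 ∧ c = (j - 1) % S.g ∧ s = 0 then
      (if i < 8 then S.nv (j - 1) (S.nm (sl i) G) else 0) -
      (if i ≠ 0 then 10 • S.nv (j - 1) (S.nm (sl (i - 1)) G) else 0) else 0) +
    (if i = 4 then S.ov j p (S.val j G) c s else 0)
  uC : ∀ j' s, ν.C j' s = if j = j' + 1 ∧ s = 0 ∧ i = 0 then nsq (μ.X (j' % S.g) 0) else
    if i = 4 ∧ p < 4 ∧ j' = j + 1 ∧ s = p + 1 then nsq (μ.X ((j + 1) % S.g) (p + 1)) else μ.C j' s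
  uE : ∀ b, ν.E b = if j = b * S.g + 1 then S.nm (sl i) G else μ.E b

/-- The run of a node; `P` holds before every event. -/
def Run (P : (ℕ → ℕ) → Mem d → Prop) : ℕ → ℕ → Mem d → Mem d → Prop
  | 0, p => Chain (fun i μ ν => ∃ G, P G μ ∧ S.Step 0 i p G μ ν) 9
  | j + 1, p => Chain (fun i μ ν => ∃ G κ, P G μ ∧ S.Step (j + 1) i p G μ κ ∧
      if i < 8 then Run P j i κ ν else ν = κ) 9

/-- What every run leaves unchanged. -/
structure Frame (j p : ℕ) (μ ν : Mem d) : Prop where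
  C : ∀ j' s, (j < j' ∨ j' = j ∧ s = 0) → ¬(p < 4 ∧ j' = j + 1 ∧ s = p + 1) → ν.C j' s = μ.C j' s
  E : ∀ b, j ≤ b * S.g → ν.E b = μ.E b
  X : ∀ c s, ¬(1 ≤ c ∧ c ≤ j % S.g) → ¬(p < 8 ∧ c = (j + 1) % S.g ∧ s = sl p) →
    ν.X c s = μ.X c s

/-- The name is opened and closed with the same value. -/
def Hyp (j z : ℕ) (μ ν : Mem d) : Prop :=
  (j % S.g = 0 → μ.E (j / S.g) = z) ∧
  (j % S.g ≠ 0 → μ.C j 0 = nsq (μ.X (j % S.g) 0 - S.vec z) ∧
    μ.C j 0 = nsq (ν.X (j % S.g) 0 - 10 • S.vec z))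

/-- The effect of a correct run with name `z` and output `o`. -/
structure Eff (j p z o : ℕ) (μ ν : Mem d) : Prop where
  X : ∀ c s, ν.X c s = μ.X c s + (if c = j % S.g ∧ s = 0 then 9 • S.nv j z else 0) + S.ov j p o c s
  op : p < 4 → ν.C (j + 1) (p + 1) = nsq (μ.X ((j + 1) % S.g) (p + 1))
  cl : 4 ≤ p → p < 8 → μ.C (j + 1) (8 - p) =
    nsq (μ.X ((j + 1) % S.g) (8 - p) - (p + 2) • S.vec o)
  ac : p = 8 → S.acc o

/-- The true values. -/
structure Tru (F : ℕ → ℕ → ℕ) (T : ℕ → ℕ → ℕ → ℕ) : Prop where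
  g2 : 2 ≤ S.g
  inj : Function.Injective S.vec
  nmc : ∀ s G G', (∀ s' < s, G s' = G' s') → S.nm s G = S.nm s G'
  outc : ∀ G G', (∀ s' ≤ 4, G s' = G' s') → S.out G = S.out G'
  f0 : ∀ a, F 0 a = S.base a
  fs : ∀ j a, F (j + 1) a = S.out (T j a)
  t0 : ∀ j a, T j a 0 = a
  ts : ∀ j a s, 1 ≤ s → s ≤ 4 → T j a s = F j (S.nm s (T j a))

/-- Register contents before event `i` of a correct run. -/
def XI (j p o : ℕ) (t : ℕ → ℕ) (μ : Mem d) (i c s : ℕ) : Fin d → ℤ :=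
  μ.X c s + (if c = (j + 1) % S.g ∧ s = 0 then i • S.nv (j + 1) (t 0) else 0) +
    (if c = (j + 1) % S.g ∧ 1 ≤ s ∧ s ≤ min i (8 - i) then (i + 1) • S.vec (t s) else 0) +
    (if c = j % S.g ∧ s = 0 ∧ i ≠ 0 ∧ i < 9 then 10 • S.nv j (S.nm (sl (i - 1)) t) else 0) +
    (if 4 < i then S.ov (j + 1) p o c s else 0)

theorem mod_ne {g : ℕ} (hg : 2 ≤ g) (j : ℕ) : (j + 1) % g ≠ j % g := by
  intro h
  have h1 := (Nat.modEq_iff_dvd' (Nat.le_succ j)).1 (show j ≡ j + 1 [MOD g] from h.symm)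
  have := Nat.le_of_dvd (by simp) h1
  omega

theorem mod_succ {g : ℕ} (j : ℕ) (h : (j + 1) % g ≠ 0) : (j + 1) % g = j % g + 1 := by
  rcases Nat.eq_zero_or_pos g with rfl | hg
  · simp
  have h1 := Nat.mod_lt j hg
  rw [Nat.add_mod] at h ⊢
  rcases Nat.lt_or_ge 1 g with h2 | h2
  · rw [Nat.mod_eq_of_lt h2] at h ⊢
    rcases (Nat.succ_le_of_lt h1).lt_or_eq with h3 | h3
    · exact Nat.mod_eq_of_lt h3
    · rw [show j % g + 1 = g from h3] at h
      simp at h
  · obtain rfl : g = 1 := by omega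
    simp [Nat.mod_one] at h

theorem sl_pos (p : ℕ) (hp : p < 8) : 1 ≤ sl p ∧ sl p ≤ 4 ∧ sl p ≤ min p (8 - p) + 1 ∧
    sl p ≤ min (p + 1) (8 - (p + 1)) + 1 := by
  unfold sl
  split_ifs <;> omega

theorem xi_step {F : ℕ → ℕ → ℕ} {T : ℕ → ℕ → ℕ → ℕ} (h : S.Tru F T) {j i p z : ℕ} {G : ℕ → ℕ}
    {μ m κ m' : Mem d} (hi : i < 9) (hG : ∀ s ≤ min i (8 - i), G s = T j z s)
    (hm : ∀ c s, m.X c s = S.XI j p (F (j + 1) z) (T j z) μ i c s)
    (hs : S.Step (j + 1) i p G m κ)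
    (he : if i < 8 then S.Eff j i (S.nm (sl i) (T j z)) (F j (S.nm (sl i) (T j z))) κ m'
      else m' = κ) (c s : ℕ) :
    m'.X c s = S.XI j p (F (j + 1) z) (T j z) μ (i + 1) c s := by
  have hne := mod_ne h.g2 j
  have e1 : i < 8 → S.nm (sl i) G = S.nm (sl i) (T j z) := fun h8 =>
    h.nmc _ _ _ fun s' hs' => hG s' (by have := sl_pos i h8; omega)
  have e2 : i ≠ 0 → S.nm (sl (i - 1)) G = S.nm (sl (i - 1)) (T j z) := fun h0 =>
    h.nmc _ _ _ fun s' hs' => hG s' (by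
      have := sl_pos (i - 1) (by omega)
      rw [show i - 1 + 1 = i by omega] at this
      omega)
  have e3 : i = 4 → S.val (j + 1) G = F (j + 1) z := fun h4 => by
    rw [val, if_neg (by omega), h.fs]
    exact h.outc _ _ fun s' hs' => hG s' (by omega)
  have e4 : m'.X c s = κ.X c s + (if i < 8 ∧ c = j % S.g ∧ s = 0 then
      9 • S.nv j (S.nm (sl i) (T j z)) else 0) + (if i < 8 ∧ c = (j + 1) % S.g ∧ s = sl i then
      (if i < 4 then (i + 2) • S.vec (T j z s) else -((i + 2) • S.vec (T j z s))) else 0) := by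
    by_cases h8 : i < 8
    · rw [if_pos h8] at he
      rw [he.X, ov]
      simp only [h8, true_and]
      congr 1
      split_ifs with a b
      · rw [a.2, h.ts j z _ (sl_pos i h8).1 (sl_pos i h8).2.1]
      · rw [a.2, h.ts j z _ (sl_pos i h8).1 (sl_pos i h8).2.1]
      · rfl
    · rw [if_neg h8] at he
      simp [he, h8]
  have e5 : (if i = 4 then S.ov (j + 1) p (S.val (j + 1) G) c s else 0) +
      (if 4 < i then S.ov (j + 1) p (F (j + 1) z) c s else 0) =
      (if 4 < i + 1 then S.ov (j + 1) p (F (j + 1) z) c s else 0) := by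
    by_cases h4 : i = 4
    · rw [e3 h4]; simp [h4]
    · by_cases h5 : 4 < i
      · rw [if_neg h4, if_pos h5, if_pos (by omega), zero_add]
      · rw [if_neg h4, if_neg h5, if_neg (by omega), zero_add]
  rw [e4, hs.uX, hm, XI, XI, ← e5]
  generalize (if i = 4 then S.ov (j + 1) p (S.val (j + 1) G) c s else 0) = A
  generalize (if 4 < i then S.ov (j + 1) p (F (j + 1) z) c s else 0) = B
  have hlo : lo (j + 1) i = min i (8 - i) := by simp [lo]
  simp only [hlo, Nat.add_sub_cancel]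
  by_cases c1 : c = (j + 1) % S.g
  · have c2 : c ≠ j % S.g := by rw [c1]; exact hne
    by_cases s0 : s = 0
    · subst s0
      have : ¬(i < 8 ∧ 0 = sl i) := fun a => by have := sl_pos i a.1; omega
      have a1 : ¬(1 ≤ 0) := by omega
      simp only [c1, hne, sv, hG 0 (by omega), this, a1, true_and, false_and, and_false, if_false,
        if_true, and_self, Nat.zero_le]
      module
    · have s1 : 1 ≤ s := by omega
      by_cases s2 : s ≤ min i (8 - i)
      · simp only [c1, hne, sv, s0, s1, s2, hG s s2, sl]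
        simp only [true_and, false_and, and_false, if_false, if_true, and_self]
        split_ifs <;> first | omega | module
      · simp only [c1, hne, sv, s0, s1, s2, sl]
        simp only [true_and, false_and, and_false, if_false]
        split_ifs <;> first | omega | module
  · by_cases c2 : c = j % S.g ∧ s = 0
    · obtain ⟨rfl, rfl⟩ := c2
      simp only [c1, false_and, and_false, if_false, true_and, and_true, ne_eq,
        Nat.add_eq_zero_iff, one_ne_zero, not_false_eq_true, if_true, hi]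
      by_cases h8 : i < 8 <;> by_cases h0 : i = 0
      · subst h0
        simp only [e1 h8, h8, if_true, not_true_eq_false, if_false, show 0 + 1 < 9 by omega]
        module
      · simp only [h8, h0, e1 h8, e2 h0, show i + 1 < 9 by omega, if_true, not_false_eq_true]
        module
      · omega
      · simp only [h8, h0, e2 h0, show ¬(i + 1 < 9) by omega, if_true, if_false, not_false_eq_true]
        module
    · have c3 : ∀ q : Prop, ¬(c = j % S.g ∧ s = 0 ∧ q) := fun q a => c2 ⟨a.1, a.2.1⟩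
      simp only [c1, c2, c3, false_and, and_false, if_false]
      module

end Sch

end Pool.Agent.Lib.MP_5afa16_lc.Dc
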