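import Pool.Agent.Lib.MP_5afa16_lc.DcRun

/-! Soundness of the reversible evaluation. -/

namespace Pool.Agent.Lib.MP_5afa16_lc.Dc

namespace Sch

variable {d : ℕ} (S : Sch d)

theorem ov_zero (j p o c : ℕ) : S.ov j p o c 0 = 0 :=
  if_neg fun a => by have := sl_pos p a.1; omega

theorem ov_ne {j p o c s : ℕ} (h : c ≠ (j + 1) % S.g) : S.ov j p o c s = 0 :=
  if_neg fun a => h a.2.1

theorem mod_cases (j : ℕ) : (j + 1) % S.g = 0 ∨ (j + 1) % S.g = j % S.g + 1 := by
  by_cases h : (j + 1) % S.g = 0
  · exact Or.inl h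
  · exact Or.inr (mod_succ j h)

theorem frame_of_eff {j p z o : ℕ} {μ ν : Mem d} (hj : j % S.g = 0) (h : S.Eff j p z o μ ν)
    (c s : ℕ) (hc : ¬(p < 8 ∧ c = (j + 1) % S.g ∧ s = sl p)) : ν.X c s = μ.X c s := by
  rw [h.X, ov, if_neg hc, nv, if_pos hj]
  simp

theorem sound_zero {F : ℕ → ℕ → ℕ} {T : ℕ → ℕ → ℕ → ℕ} (h : S.Tru F T)
    {P : (ℕ → ℕ) → Mem d → Prop} {p : ℕ} {μ ν : Mem d} (hr : S.Run P 0 p μ ν) :
    S.Frame 0 p μ ν ∧ ∀ z, S.Hyp 0 z μ ν → S.Eff 0 p z (F 0 z) μ ν := by
  obtain ⟨m, rfl, rfl, hm⟩ := chain_seq _ _ _ _ hr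
  choose! G _ st using hm
  have hE : ∀ i ≤ 9, ∀ b, (m i).E b = (m 0).E b := by
    intro i hi b
    induction i with
    | zero => rfl
    | succ i ih => rw [(st i (by omega)).uE, if_neg (by omega), ih (by omega)]
  have hv : S.val 0 (G 4) = F 0 ((m 0).E 0) := by
    rw [val, if_pos rfl, (st 4 (by omega)).ex (by simp), h.f0, hE 4 (by omega)]
    simp
  have hX : ∀ i ≤ 9, ∀ c s, (m i).X c s = (m 0).X c s +
      if 4 < i then S.ov 0 p (F 0 ((m 0).E 0)) c s else 0 := by
    intro i hi c s
    induction i with
    | zero => simp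
    | succ i ih =>
      rw [(st i (by omega)).uX, ih (by omega)]
      have : (if c = 0 % S.g ∧ s ≤ lo 0 i then S.sv 0 s (G i s) else 0) = 0 := by
        split_ifs with a
        · have : s = 0 := by simpa [lo] using a.2
          simp [sv, nv, this]
        · rfl
      rw [this]
      by_cases h4 : i = 4
      · subst h4
        simp [hv]
      · by_cases h5 : 4 < i
        · simp [h4, h5, show 4 < i + 1 by omega]
        · simp [h4, h5, show ¬4 < i + 1 by omega]
  have hC : ∀ i ≤ 9, ∀ j' s, (m i).C j' s = if 4 < i ∧ p < 4 ∧ j' = 1 ∧ s = p + 1 then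
      nsq ((m 0).X (1 % S.g) (p + 1)) else (m 0).C j' s := by
    intro i hi j' s
    induction i with
    | zero => simp
    | succ i ih =>
      rw [(st i (by omega)).uC, if_neg (by omega), ih (by omega)]
      by_cases h4 : i = 4
      · subst h4
        rw [hX 4 (by omega)]
        simp only [show ¬4 < 4 by omega, show 4 < 4 + 1 by omega, true_and, false_and, if_false,
          add_zero, zero_add]
      · rw [if_neg fun a => h4 a.1]
        congr 1
        simp only [eq_iff_iff]
        omega
  have ef : S.Eff 0 p ((m 0).E 0) (F 0 ((m 0).E 0)) (m 0) (m 9) := by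
    refine ⟨fun c s => ?_, fun hp => ?_, fun h4 h8 => ?_, fun h8 => ?_⟩
    · rw [hX 9 le_rfl]
      simp [nv]
    · rw [hC 9 le_rfl, if_pos (by omega)]
    · have := (st 4 (by omega)).oc rfl h4 h8
      rw [hC 4 (by omega), if_neg (by omega), hX 4 (by omega), hv] at this
      simpa using this
    · exact hv ▸ (st 4 (by omega)).ac rfl h8
  refine ⟨⟨fun j' s _ hc => ?_, fun b _ => hE 9 le_rfl b, fun c s _ hc => ?_⟩, fun z hz => ?_⟩
  · rw [hC 9 le_rfl, if_neg (by omega)]
  · exact S.frame_of_eff (by simp) ef c s hc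
  · have := hz.1 (by simp)
    rw [Nat.zero_div] at this
    exact this ▸ ef

theorem sound_succ {F : ℕ → ℕ → ℕ} {T : ℕ → ℕ → ℕ → ℕ} (h : S.Tru F T) {j p : ℕ}
    {m κ : ℕ → Mem d} {G : ℕ → ℕ → ℕ}
    (st : ∀ i < 9, S.Step (j + 1) i p (G i) (m i) (κ i))
    (fr : ∀ i < 8, S.Frame j i (κ i) (m (i + 1)))
    (ef : ∀ i < 8, ∀ z, S.Hyp j z (κ i) (m (i + 1)) → S.Eff j i z (F j z) (κ i) (m (i + 1)))
    (h9 : m 9 = κ 8) :
    S.Frame (j + 1) p (m 0) (m 9) ∧
      ∀ z, S.Hyp (j + 1) z (m 0) (m 9) → S.Eff (j + 1) p z (F (j + 1) z) (m 0) (m 9) := by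
  have hne := mod_ne h.g2 j
  have hne' := mod_ne h.g2 (j + 1)
  have hlo : ∀ i, lo (j + 1) i = min i (8 - i) := fun i => by simp [lo]
  have cC : ∀ i < 9, ∀ j' s, (j < j' ∨ j' = j ∧ s = 0) → ¬(i < 4 ∧ j' = j + 1 ∧ s = i + 1) →
      (m (i + 1)).C j' s = (κ i).C j' s := by
    intro i hi j' s a b
    by_cases h8 : i < 8
    · exact (fr i h8).C j' s a b
    · obtain rfl : i = 8 := by omega
      rw [h9]
  have cX : ∀ i < 9, ∀ c s, ¬(1 ≤ c ∧ c ≤ j % S.g) → ¬(i < 8 ∧ c = (j + 1) % S.g ∧ s = sl i) →
      (m (i + 1)).X c s = (κ i).X c s := by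
    intro i hi c s a b
    by_cases h8 : i < 8
    · exact (fr i h8).X c s a b
    · obtain rfl : i = 8 := by omega
      rw [h9]
  have hE : ∀ i ≤ 9, ∀ b, j + 1 ≤ b * S.g → (m i).E b = (m 0).E b := by
    intro i hi b hb
    induction i with
    | zero => rfl
    | succ i ih =>
      rw [← ih (by omega), ← show (κ i).E b = (m i).E b by
        rw [(st i (by omega)).uE, if_neg (by omega)]]
      by_cases h8 : i < 8
      · exact (fr i h8).E b (by omega)
      · obtain rfl : i = 8 := by omega
        rw [h9]
  have hC : ∀ i ≤ 9, ∀ j' s, (j + 1 < j' ∨ j' = j + 1 ∧ s = 0) →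
      (m i).C j' s = if 4 < i ∧ p < 4 ∧ j' = j + 2 ∧ s = p + 1 then
        nsq ((m 4).X ((j + 2) % S.g) (p + 1)) else (m 0).C j' s := by
    intro i hi j' s a
    induction i with
    | zero => simp
    | succ i ih =>
      rw [cC i (by omega) j' s (by omega) (by omega), (st i (by omega)).uC, if_neg (by omega),
        ih (by omega)]
      by_cases h4 : i = 4
      · subst h4
        simp only [show ¬4 < 4 by omega, show 4 < 4 + 1 by omega, true_and, false_and, if_false]
      · rw [if_neg fun a => h4 a.1]
        congr 1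
        simp only [eq_iff_iff]
        omega
  have hρ : ∀ i < 9, (κ i).C j 0 = nsq ((m 0).X (j % S.g) 0) := by
    intro i hi
    induction i with
    | zero => rw [(st 0 hi).uC, if_pos (by omega)]
    | succ i ih =>
      rw [(st _ hi).uC, if_neg (by omega), if_neg (by omega), cC i (by omega) j 0 (by omega)
        (by omega), ih (by omega)]
  have hyp : ∀ i < 8, S.nm (sl i) (G (i + 1)) = S.nm (sl i) (G i) →
      S.Hyp j (S.nm (sl i) (G i)) (κ i) (m (i + 1)) := by
    intro i hi e
    refine ⟨fun a => ?_, fun a => ⟨?_, ?_⟩⟩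
    · rw [(st i (by omega)).uE, if_pos]
      have := Nat.div_add_mod' j S.g
      omega
    · rw [(st i (by omega)).uX, if_neg fun b => hne b.1.symm, ov_zero, ite_self,
        if_pos ⟨by omega, rfl, rfl⟩, if_pos hi]
      simp only [Nat.add_sub_cancel]
      rcases i with _ | i
      · rw [hρ 0 (by omega), nv, if_neg a]
        simp
      · have k := (st (i + 1) (by omega)).cl (by omega) (by omega)
        simp only [Nat.add_sub_cancel] at k
        rw [hρ _ (by omega), ← hρ i (by omega), ← cC i (by omega) j 0 (by omega) (by omega), k,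
          if_pos (by omega), Nat.add_sub_cancel]
        simp only [nv, if_neg a]
        congr 1
        module
    · have k := (st (i + 1) (by omega)).cl (by omega) (by omega)
      simp only [Nat.add_sub_cancel] at k
      rw [← cC i (by omega) j 0 (by omega) (by omega), k, e, nv, if_neg a]
  have main : ∀ z, S.Hyp (j + 1) z (m 0) (m 9) →
      S.Eff (j + 1) p z (F (j + 1) z) (m 0) (m 9) := by
    intro z hz
    have s0 : ∀ i ≤ 8, G i 0 = z := by
      by_cases a : (j + 1) % S.g = 0
      · intro i hi
        rw [(st i (by omega)).ex a, hE i (by omega), hz.1 a]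
        have := Nat.div_add_mod' (j + 1) S.g
        omega
      · have hm := mod_succ j a
        obtain ⟨z1, z2⟩ := hz.2 a
        have k := convex_chain (fun i => (m i).X ((j + 1) % S.g) 0)
          (fun i => (m (i + 1)).X ((j + 1) % S.g) 0) (fun i => S.vec (G i 0)) (S.vec z)
          ((m 0).C (j + 1) 0) 0 8 (by omega) (fun i _ u => ?_) (fun _ _ _ => rfl)
          (fun i _ u => ?_) (by simpa using z1) z2
        · exact fun i hi => h.inj (k i (by omega) hi)
        · rw [cX i (by omega) _ _ (by omega) fun b => by have := sl_pos i b.1; omega,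
            (st i (by omega)).uX, if_pos ⟨rfl, by omega⟩, if_neg fun b => hne b.2.1, ov_zero]
          simp [sv, nv, a]
        · have := (st i (by omega)).rd 0 (by omega)
          rw [hC i (by omega) _ _ (by omega), if_neg (by omega)] at this
          simpa [sv, nv, a] using this
    have sG : ∀ s ≤ 4, ∀ i, s ≤ i → i ≤ 8 - s → G i s = T j z s := by
      intro s
      induction s using Nat.strong_induction_on with
      | _ s ih =>
        intro hs
        rcases s with _ | s
        · intro i _ u
          rw [s0 i u, h.t0]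
        have nmi : ∀ i, s ≤ i → i ≤ 8 - s → S.nm (s + 1) (G i) = S.nm (s + 1) (T j z) :=
          fun i l u => h.nmc _ _ _ fun s' hs' => ih s' hs' (by omega) i (by omega) (by omega)
        have q1 : sl s = s + 1 := if_pos (by omega)
        have q2 : sl (7 - s) = s + 1 := by rw [sl, if_neg (by omega)]; omega
        have ht := h.ts j z (s + 1) (by omega) hs
        have e1 := ef s (by omega) _ (hyp s (by omega) (by
          rw [q1, nmi s le_rfl (by omega), nmi (s + 1) (by omega) (by omega)]))
        have e2 := ef (7 - s) (by omega) _ (hyp (7 - s) (by omega) (by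
          rw [q2, nmi (7 - s) (by omega) (by omega), nmi (7 - s + 1) (by omega) (by omega)]))
        rw [q1, nmi s le_rfl (by omega), ← ht] at e1
        rw [q2, nmi (7 - s) (by omega) (by omega), ← ht] at e2
        have kC : ∀ i < 9, (κ i).C (j + 1) (s + 1) = (m i).C (j + 1) (s + 1) := fun i hi => by
          rw [(st i hi).uC, if_neg (by omega), if_neg (by omega)]
        have mC : ∀ n, s + 1 + n ≤ 7 - s →
            (m (s + 1 + n)).C (j + 1) (s + 1) = (m (s + 1)).C (j + 1) (s + 1) := by
          intro n
          induction n with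
          | zero => exact fun _ => rfl
          | succ n ihn =>
            intro hn
            rw [← add_assoc, cC _ (by omega) _ _ (by omega) (by omega), kC _ (by omega),
              ihn (by omega)]
        have mC' : ∀ i, s + 1 ≤ i → i ≤ 7 - s →
            (m i).C (j + 1) (s + 1) = (m (s + 1)).C (j + 1) (s + 1) := fun i l u => by
          obtain ⟨n, rfl⟩ := Nat.exists_eq_add_of_le l
          exact mC n u
        have k := convex_chain (fun i => (m i).X ((j + 1) % S.g) (s + 1))
          (fun i => (κ i).X ((j + 1) % S.g) (s + 1)) (fun i => S.vec (G i (s + 1)))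
          (S.vec (T j z (s + 1))) ((m (s + 1)).C (j + 1) (s + 1)) (s + 1) (7 - s) (by omega)
          (fun i l u => ?_) (fun i l u => ?_) (fun i l u => ?_) ?_ ?_
        · exact fun i l u => h.inj (k i l (by omega))
        · rw [(st i (by omega)).uX, if_pos ⟨rfl, by rw [hlo]; omega⟩, if_neg fun b => hne b.2.1,
            S.ov_ne hne'.symm]
          simp [sv]
        · refine cX i (by omega) _ _ (by have := S.mod_cases j; omega) fun b => ?_
          have := b.2.2
          unfold sl at this
          split_ifs at this <;> omega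
        · have := (st i (by omega)).rd (s + 1) (by rw [hlo]; omega)
          rw [mC' i l u] at this
          simpa [sv] using this
        · rw [e1.op (by omega), e1.X, if_neg (by omega), ov, if_pos ⟨by omega, rfl, q1.symm⟩,
            if_pos (by omega)]
          congr 1
          module
        · have := e2.cl (by omega) (by omega)
          rw [show 8 - (7 - s) = s + 1 by omega, kC _ (by omega), mC' _ (by omega) le_rfl] at this
          exact this
    have gi : ∀ i < 9, ∀ s ≤ min i (8 - i), G i s = T j z s :=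
      fun i hi s hs => sG s (by omega) i (by omega) (by omega)
    have xi : ∀ i ≤ 9, ∀ c s, (m i).X c s = S.XI j p (F (j + 1) z) (T j z) (m 0) i c s := by
      intro i hi
      induction i with
      | zero =>
        intro c s
        have : ¬(c = (j + 1) % S.g ∧ 1 ≤ s ∧ s ≤ min 0 (8 - 0)) := by omega
        simp [XI]
        omega
      | succ i ih =>
        refine S.xi_step h (by omega) (gi i (by omega)) (ih (by omega)) (st i (by omega)) ?_
        split_ifs with h8
        · have a1 : S.nm (sl i) (G i) = S.nm (sl i) (T j z) :=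
            h.nmc _ _ _ fun s' hs' => gi i (by omega) s' (by have := sl_pos i h8; omega)
          have a2 : S.nm (sl i) (G (i + 1)) = S.nm (sl i) (T j z) :=
            h.nmc _ _ _ fun s' hs' => gi (i + 1) (by omega) s' (by have := sl_pos i h8; omega)
          exact a1 ▸ ef i h8 _ (hyp i h8 (a2.trans a1.symm))
        · obtain rfl : i = 8 := by omega
          exact h9
    have hv : S.val (j + 1) (G 4) = F (j + 1) z := by
      rw [val, if_neg (by omega), h.fs]
      exact h.outc _ _ fun s' hs' => gi 4 (by omega) s' (by omega)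
    have x4 : ∀ s, 1 ≤ s → (m 4).X ((j + 2) % S.g) s = (m 0).X ((j + 2) % S.g) s := by
      intro s hs
      rw [xi 4 (by omega), XI, if_neg (by omega), if_neg fun b => hne' b.1, if_neg (by omega),
        if_neg (by omega)]
      simp
    refine ⟨fun c s => ?_, fun hp => ?_, fun h4 h8 => ?_, fun h8 => ?_⟩
    · rw [xi 9 le_rfl, XI, h.t0, if_neg (show ¬(c = (j + 1) % S.g ∧ 1 ≤ s ∧ s ≤ min 9 (8 - 9)) by
        omega), if_neg (show ¬(c = j % S.g ∧ s = 0 ∧ 9 ≠ 0 ∧ 9 < 9) by omega),
        if_pos (show 4 < 9 by omega)]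
      simp
    · rw [hC 9 le_rfl _ _ (by omega), if_pos (by omega), x4 _ (by omega)]
    · have := (st 4 (by omega)).oc rfl h4 h8
      rwa [hC 4 (by omega) _ _ (by omega), if_neg (by omega), x4 _ (by omega), hv] at this
    · exact hv ▸ (st 4 (by omega)).ac rfl h8
  refine ⟨⟨fun j' s a b => ?_, hE 9 le_rfl, fun c s a b => ?_⟩, main⟩
  · rw [hC 9 le_rfl _ _ a, if_neg (by omega)]
  · by_cases e : (j + 1) % S.g = 0
    · exact S.frame_of_eff e (main _ ⟨fun _ => rfl, fun a => (a e).elim⟩) c s b
    · have hm := mod_succ j e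
      have : ∀ i ≤ 9, (m i).X c s = (m 0).X c s := by
        intro i hi
        induction i with
        | zero => rfl
        | succ i ih =>
          rw [cX i (by omega) _ _ (by omega) (by omega), (st i (by omega)).uX, ih (by omega),
            if_neg (by omega), ov, if_neg b, ite_self]
          split_ifs with a1 a2 a3 a3
          all_goals first
            | (have : j % S.g = 0 := by
                 have := a1.2.1
                 simp only [Nat.add_sub_cancel] at this
                 omega
               simp [nv, this])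
            | simp
      exact this 9 le_rfl

theorem sound {F : ℕ → ℕ → ℕ} {T : ℕ → ℕ → ℕ → ℕ} (h : S.Tru F T)
    {P : (ℕ → ℕ) → Mem d → Prop} (j : ℕ) : ∀ p μ ν, S.Run P j p μ ν →
    S.Frame j p μ ν ∧ ∀ z, S.Hyp j z μ ν → S.Eff j p z (F j z) μ ν := by
  induction j with
  | zero => exact fun p μ ν => S.sound_zero h
  | succ j ih =>
    intro p μ ν hr
    obtain ⟨m, rfl, rfl, hm⟩ := chain_seq _ _ _ _ hr
    have : Nonempty (Mem d) := ⟨m 0⟩
    choose! G κ _ st ch using hm
    have c8 : ∀ i < 8, S.Run P j i (κ i) (m (i + 1)) := fun i hi => by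
      have := ch i (by omega)
      rwa [if_pos hi] at this
    refine S.sound_succ h st (fun i hi => (ih _ _ _ (c8 i hi)).1)
      (fun i hi => (ih _ _ _ (c8 i hi)).2) ?_
    simpa using ch 8 (by omega)

end Sch

end Pool.Agent.Lib.MP_5afa16_lc.Dc
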