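import Pool.Agent.Lib.MP_5afa16_lc.DcDown

/-! The recursion scheme of a pushdown system. -/

namespace Pool.Agent.Lib.MP_5afa16_lc.Dc

set_option maxHeartbeats 400000

attribute [local irreducible] t6 nm out base

/-- The first values of a node. -/
def itG (n : ℕ → (ℕ → ℕ) → ℕ) (f : ℕ → ℕ) (a : ℕ) : ℕ → ℕ → ℕ
  | 0 => fun _ => a
  | s + 1 => Function.update (itG n f a s) (s + 1) (f (n (s + 1) (itG n f a s)))

theorem itG_stab (n : ℕ → (ℕ → ℕ) → ℕ) (f : ℕ → ℕ) (a : ℕ) {s s' : ℕ} (h : s' ≤ s) (e : ℕ) :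
    itG n f a (s + e) s' = itG n f a s s' := by
  induction e with
  | zero => rfl
  | succ e ih => rw [← add_assoc, itG, Function.update_of_ne (by omega), ih]

/-- The values of the recursion. -/
def trF {d : ℕ} (S : Sch d) : ℕ → ℕ → ℕ
  | 0 => S.base
  | j + 1 => fun a => S.out (itG S.nm (trF S j) a 4)

theorem tru_of {d : ℕ} (S : Sch d) (g2 : 2 ≤ S.g) (inj : Function.Injective S.vec)
    (nmc : ∀ s G G', (∀ s' < s, G s' = G' s') → S.nm s G = S.nm s G')
    (outc : ∀ G G', (∀ s' ≤ 4, G s' = G' s') → S.out G = S.out G') :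
    S.Tru (trF S) fun j a => itG S.nm (trF S j) a 4 := by
  refine ⟨g2, inj, nmc, outc, fun _ => rfl, fun _ _ => rfl,
    fun j a => itG_stab _ _ _ (le_refl 0) 4, fun j a s l u => ?_⟩
  obtain ⟨s, rfl⟩ : ∃ s', s = s' + 1 := ⟨s - 1, by omega⟩
  obtain ⟨e, he⟩ := Nat.exists_eq_add_of_le u
  rw [he, itG_stab _ _ _ le_rfl, itG, Function.update_self]
  congr 1
  refine nmc _ _ _ fun s' hs' => ?_
  rw [add_assoc, itG_stab _ _ _ (by omega)]

/-- Digits, the last one being unbounded. -/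
def vc (m d a t : ℕ) : ℕ := if t + 1 = d then a / m ^ t else a / m ^ t % m

theorem vc_inj {m d a b : ℕ} (hd : 0 < d) (h : ∀ t < d, vc m d a t = vc m d b t) : a = b := by
  have : ∀ e t, t + e + 1 = d → a / m ^ t = b / m ^ t := by
    intro e
    induction e with
    | zero => intro t ht; simpa [vc, show t + 1 = d by omega] using h t (by omega)
    | succ e ih =>
      intro t ht
      have h1 := ih (t + 1) (by omega)
      have h2 := h t (by omega)
      simp only [vc, show ¬t + 1 = d by omega, if_false] at h2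
      rw [pow_succ, ← Nat.div_div_eq_div_mul, ← Nat.div_div_eq_div_mul] at h1
      rw [← Nat.div_add_mod (a / m ^ t) m, ← Nat.div_add_mod (b / m ^ t) m, h1, h2]
  simpa using this (d - 1) 0 (by omega)

theorem vc_lt {m d a : ℕ} (hm : 0 < m) (h : a < m ^ d) (t : ℕ) : vc m d a t < m := by
  unfold vc
  split_ifs with e
  · rw [Nat.div_lt_iff_lt_mul (by positivity), mul_comm, ← pow_succ, e]
    exact h
  · exact Nat.mod_lt _ hm

/-- The scheme of a pushdown system. -/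
def sch (δ : ℕ → ℕ → ℕ × List ℕ) (ac : ℕ → Prop) (g m d : ℕ) : Sch d where
  g := g
  vec a t := vc m d a t
  nm := nm
  out := out
  base := base δ
  acc y := ac (pj 1 y)

variable {δ : ℕ → ℕ → ℕ × List ℕ} {ac : ℕ → Prop} {g m d M L K : ℕ}

theorem sch_tru (hg : 2 ≤ g) (hd : 0 < d) : (sch δ ac g m d).Tru (trF (sch δ ac g m d))
    fun j a => itG nm (trF (sch δ ac g m d) j) a 4 :=
  tru_of _ hg (fun _ _ h => vc_inj (m := m) hd fun t ht => by
    simpa [sch] using congrFun h ⟨t, ht⟩) nm_congr out_congr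

theorem sch_good (hg : 2 ≤ g) (hd : 0 < d) (hL : ∀ p Z, (δ p Z).2.length ≤ L)
    (hδ : ∀ p Z, p ≤ M → Z ≤ M → (δ p Z).1 ≤ M ∧ ∀ Z' ∈ (δ p Z).2, Z' ≤ M) (j : ℕ) :
    ∀ a, Nok δ M L K j a (fun _ _ _ _ => True) →
      Nok δ M L K j a fun S κ p ρ => Good δ M S κ p ρ (trF (sch δ ac g m d) j a) := by
  have h := sch_tru (δ := δ) (ac := ac) (m := m) hg hd
  induction j with
  | zero =>
    rintro _ ⟨pu, Zu, τ, κ, p, ρ, rfl, a1, a2, a3, a4, a5, a6, a7, -⟩
    exact ⟨_, _, _, _, _, _, rfl, a1, a2, a3, a4, a5, a6, a7,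
      base_good hδ a1 a2 a3 (by simpa using a4) (by simpa using a5)⟩
  | succ j ih =>
    intro a ha
    have e := h.t0 j a
    have := (down_step hL (G := itG nm (trF (sch δ ac g m d) j) a 4) (by rwa [e])
      fun s l u n => by rw [h.ts j a s l u]; exact ih _ n).2
    rwa [e] at this

theorem sch_okb (hg : 2 ≤ g) (hd : 0 < d) (hm : 0 < m) (hL : ∀ p Z, (δ p Z).2.length ≤ L)
    (hδ : ∀ p Z, p ≤ M → Z ≤ M → (δ p Z).1 ≤ M ∧ ∀ Z' ∈ (δ p Z).2, Z' ≤ M) (hK : M ≤ K)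
    (hk : (K + 1) ^ 64 ≤ m ^ d) (B : ℕ) :
    (sch δ ac g m d).Okb (trF (sch δ ac g m d)) (fun j a => itG nm (trF (sch δ ac g m d) j) a 4)
      (fun j a => Nok δ M L K j a fun _ _ _ _ => True) (m ^ d) (d * B ^ 2) m B := by
  have h := sch_tru (δ := δ) (ac := ac) (m := m) hg hd
  refine ⟨fun j a s ha l u => ?_, fun j a ha => ?_, fun G => ?_, fun a ha => ?_, fun x hx => ?_⟩
  · refine (down_step hL (G := itG nm (trF (sch δ ac g m d) j) a 4) (by rwa [h.t0 j a])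
      fun s l u n => ?_).1 s l u
    rw [h.ts j a s l u]
    exact sch_good hg hd hL hδ j _ n
  · obtain ⟨pu, Zu, τ, κ, p, ρ, e, a1, a2, a3, a4, a5, a6, a7, f, p', t, H, pw, Zw, e', b1, b2, b3,
      b4, b5, b6, -⟩ := sch_good (ac := ac) (m := m) hg hd hL hδ j a ha
    have x1 : 2 ^ ((j + 1) / 2) ≤ 2 ^ (j + 1) := Nat.pow_le_pow_right (by omega) (by omega)
    have x2 := rn_len hL τ (pu, [Zu])
    have x3 : L * τ ≤ L * 2 ^ (j + 1) := Nat.mul_le_mul_left _ (by omega)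
    have x4 : 0 < 2 ^ (j + 1) := by positivity
    simp only [List.length_singleton, add_mul] at x2 a7
    rw [e', e]
    exact ⟨(t6_lt (by omega) (by omega) (by omega) (by omega) (by omega) (by omega)).trans_le hk,
      (t6_lt (by omega) (by omega) (by omega) (by omega) (by omega) (by omega)).trans_le hk⟩
  · simp only [sch]
    unfold nm
    simp [hm]
  · rw [pi_norm_le_iff_of_nonneg (by positivity)]
    intro t
    have := vc_lt hm ha t
    simp only [sch, Int.norm_natCast]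
    exact_mod_cast this.le
  · rw [pi_norm_le_iff_of_nonneg (by positivity)] at hx
    refine (Finset.sum_le_card_nsmul _ _ ((B : ℤ) ^ 2) fun t _ => ?_).trans (by simp)
    have := hx t
    rw [Int.norm_eq_abs] at this
    exact sq_le_sq' (by have := (abs_le.1 this).1; exact_mod_cast this)
      (by have := (abs_le.1 this).2; exact_mod_cast this)

theorem root_ok {h p0 Z0 T : ℕ} (hp : p0 ≤ M) (hZ : Z0 ≤ M) (hT : T ≤ 2 ^ (h / 2))
    (hK : (L + 1) * 2 ^ (h + 1) ≤ K) : Nok δ M L K h (t6 p0 Z0 0 0 p0 T) fun _ _ _ _ => True :=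
  ⟨_, _, _, _, _, _, rfl, hp, hZ, hp, Nat.zero_le _,
    hT.trans (Nat.pow_le_pow_right (by omega) (by omega)), Or.inl (Nat.zero_le _), by omega,
    trivial⟩

theorem root_val (hg : 2 ≤ g) (hd : 0 < d) (hL : ∀ p Z, (δ p Z).2.length ≤ L)
    (hδ : ∀ p Z, p ≤ M → Z ≤ M → (δ p Z).1 ≤ M ∧ ∀ Z' ∈ (δ p Z).2, Z' ≤ M) {h p0 Z0 T : ℕ}
    (hp : p0 ≤ M) (hZ : Z0 ≤ M) (hT : T ≤ 2 ^ (h / 2)) :
    pj 1 (trF (sch δ ac g m d) h (t6 p0 Z0 0 0 p0 T)) = (rn δ T (p0, [Z0])).1 := by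
  obtain ⟨_, _, _, _, _, _, e, _, _, _, _, _, _, _, q⟩ :=
    sch_good (ac := ac) (m := m) hg hd hL hδ h _ (root_ok hp hZ hT le_rfl)
  obtain ⟨rfl, rfl, rfl, rfl, rfl, rfl⟩ := t6_inj e
  exact q.ctl.symm

end Pool.Agent.Lib.MP_5afa16_lc.Dc
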