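import Pool.Agent.Lib.MP_5afa16_lc.Gap2Id

/-! The identity test realised by monomial operators with a potential; counting of states. -/

namespace Pool.Agent.Lib.MP_5afa16_lc.Gap2

open Gap

section fock

variable {M : Type} [Fintype M] [DecidableEq M] (lt : M → M → Bool) (wt : M → ℤ) (q : ℕ)

/-- The potential of a register: a bit of the stack costs `q`. -/
def pot2 (y : (M → Bool) × List Bool) : ℤ := (∑ a, if y.1 a then wt a else 0) + q * y.2.length

/-- The parity operator. -/
def gam : Module.End ℤ ((M → Bool) × List Bool → ℤ) :=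
  mono (fun y => ∏ c, if y.1 c then -1 else 1) id

theorem sm_fo2 (σ : Bool) (a : M) : SM (pot2 wt q) (fo lt σ a) (if σ then wt a else -wt a) 1 := by
  refine SM.of fun y => ⟨?_, fun h => ?_⟩
  · dsimp only
    split_ifs
    exacts [by simp, sg_abs ..]
  · have h' : y.1 a ≠ σ := fun e => h (by simp [e])
    clear h
    have e : ∑ c ∈ Finset.univ.erase a, (if Function.update y.1 a σ c then wt c else 0) =
        ∑ c ∈ Finset.univ.erase a, (if y.1 c then wt c else 0) :=
      Finset.sum_congr rfl fun c hc => by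
        simp only [Function.update_of_ne (Finset.ne_of_mem_erase hc)]
    simp only [pot2]
    rw [← Finset.add_sum_erase _ _ (Finset.mem_univ a), e,
      ← Finset.add_sum_erase Finset.univ _ (Finset.mem_univ a)]
    generalize ∑ c ∈ Finset.univ.erase a, (if y.1 c then wt c else 0) = z
    generalize (q : ℤ) * y.2.length = x
    cases σ <;> simp_all <;> omega

omit [DecidableEq M] in
theorem sm_push2 (l : List Bool) : SM (pot2 wt q) (push l) (q * l.length) 1 :=
  SM.of fun y => ⟨by simp, fun _ => by simp [pot2, mul_add]; omega⟩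

omit [DecidableEq M] in
theorem sm_pop2 (l : List Bool) : SM (pot2 wt q) (pop l) (-(q * l.length)) 1 := by
  refine SM.of fun y => ⟨by dsimp only; split_ifs <;> simp, fun h => ?_⟩
  have h' : y.2.take l.length = l := by by_contra e; exact h (by simp [e])
  have := congrArg List.length h'
  simp only [List.length_take] at this
  simp only [pot2, List.length_drop]
  rw [Nat.cast_sub (by omega), mul_sub]
  omega

omit [DecidableEq M] in
theorem par_sq (p : M → Bool) :
    (∏ c, if p c then -1 else 1 : ℤ) * (∏ c, if p c then -1 else 1 : ℤ) = 1 := by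
  rw [← Finset.prod_mul_distrib]
  exact Finset.prod_eq_one fun c _ => by split_ifs <;> simp

omit [DecidableEq M] in
theorem sm_gam : SM (pot2 wt q) gam 0 1 :=
  SM.of fun y => ⟨by
    rcases Int.eq_one_or_neg_one_of_mul_eq_one (par_sq y.1) with h | h <;> simp [h],
    fun _ => by simp⟩

omit [DecidableEq M] in
theorem gam_sq : (gam * gam : Module.End ℤ ((M → Bool) × List Bool → ℤ)) = 1 := by
  ext f y
  simp [gam, ← mul_assoc, par_sq]

theorem gam_fo (σ : Bool) (a : M) : gam * fo lt σ a = -(fo lt σ a * gam) := by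
  ext f ⟨p, l⟩
  by_cases x : p a = σ
  · simp [gam, fo, x]
  · have := sg_update (fun _ _ => true) a a p x
    simp only [sg, Bool.true_and, if_true] at this
    simp only [gam, fo, Module.End.mul_apply, mono_apply, x, if_false, id, LinearMap.neg_apply,
      Pi.neg_apply, this]
    ring

end fock

theorem SM.prd {X : Type} {φ : X → ℤ} (d : Bool) : ∀ (n : ℕ) (e : Fin n → Module.End ℤ (X → ℤ))
    (t : Fin n → ℤ), (∀ j, SM φ (e j) (t j) 1) → SM φ (prd d n e) (∑ j, t j) 1
  | 0, _, _, _ => by simpa [Gap2.prd] using SM.one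
  | n + 1, e, t, h => by
    have a := SM.prd d n (fun i => e i.succ) (fun i => t i.succ) fun i => h _
    rw [Fin.sum_univ_succ]
    cases d
    · rw [add_comm (t 0)]; exact a.mul (h 0)
    · exact (h 0).mul a

theorem coding {α : Type} (T : Finset α) {κ : ℕ} (h : T.card ≤ 2 ^ κ) :
    ∃ f : α → List Bool, (∀ a, (f a).length = κ) ∧ ∀ a ∈ T, ∀ a' ∈ T, f a = f a' → a = a' := by
  classical
  obtain ⟨e⟩ : Nonempty (T ↪ (Fin κ → Bool)) :=
    Function.Embedding.nonempty_of_card_le (by simpa using h)
  refine ⟨fun a => if h : a ∈ T then List.ofFn (e ⟨a, h⟩) else List.replicate κ false,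
    fun a => by dsimp only; split_ifs <;> simp, fun a ha a' ha' x => ?_⟩
  simpa [ha, ha', List.ofFn_inj] using x

variable {k c : ℕ}

theorem bc_le (ρ : Fin k → Bool) : bc ρ ≤ k := by
  have : bc ρ ≤ ∑ _i : Fin k, 1 := Finset.sum_le_sum fun i _ => Bool.toNat_le _
  simpa using this

theorem words {b : ℕ} (hb : k ≤ 2 ^ b) : ∃ W : (Fin k → Bool) → List Bool,
    (∀ ρ, (W ρ).length = b * bc ρ) ∧ ∀ ρ ρ', bc ρ = bc ρ' → W ρ = W ρ' → ρ = ρ' := by
  have : ∀ r, (Finset.univ.filter fun ρ : Fin k → Bool => bc ρ = r).card ≤ 2 ^ (b * r) := by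
    intro r
    refine (Finset.card_le_card_of_injOn (t := Finset.powersetCard r Finset.univ)
      (fun ρ => Finset.univ.filter fun i => ρ i = true) (fun ρ h => ?_) fun ρ _ ρ' _ h => ?_).trans ?_
    · simp only [Finset.coe_filter, Finset.mem_univ, true_and, Set.mem_ofPred_eq] at h
      simp only [Finset.mem_coe, Finset.mem_powersetCard, Finset.subset_univ, true_and, ← h, bc,
        Finset.card_filter]
      exact Finset.sum_congr rfl fun i _ => by cases ρ i <;> rfl
    · funext i
      simpa using Finset.ext_iff.1 h i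
    · rw [Finset.card_powersetCard, Finset.card_univ, Fintype.card_fin, pow_mul]
      exact (Nat.choose_le_pow _ _).trans (Nat.pow_le_pow_left hb _)
  choose f h1 h2 using fun r => coding _ (this r)
  exact ⟨fun ρ => f (bc ρ) ρ, fun ρ => h1 _ _, fun ρ ρ' h x =>
    h2 (bc ρ) ρ (by simp) ρ' (by simp [h]) (by simpa only [← h] using x)⟩

theorem codes {b : ℕ} (hb : k + 1 ≤ 2 ^ b) : ∃ f : ℕ × (Fin c → ℤ) → List Bool,
    (∀ a, (f a).length = b * (c + 1)) ∧ ∀ l l' : Fin k → Oc c,
      f (bc (lab l).1, (lab l).2) = f (bc (lab l').1, (lab l').2) →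
        bc (lab l).1 = bc (lab l').1 ∧ (lab l).2 = (lab l').2 := by
  obtain ⟨f, h1, h2⟩ := coding (Finset.range (k + 1) ×ˢ Fintype.piFinset fun _ : Fin c =>
    Finset.Icc (0 : ℤ) k) (κ := b * (c + 1)) (by
      simp only [Finset.card_product, Finset.card_range, Fintype.card_piFinset, Int.card_Icc,
        Finset.prod_const, Finset.card_univ, Fintype.card_fin]
      rw [show ((k : ℤ) + 1 - 0).toNat = k + 1 by omega, ← pow_succ', pow_mul]
      exact Nat.pow_le_pow_left hb _)
  have m : ∀ l : Fin k → Oc c, (bc (lab l).1, (lab l).2) ∈ Finset.range (k + 1) ×ˢ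
      Fintype.piFinset fun _ : Fin c => Finset.Icc (0 : ℤ) k := by
    intro l
    have x : ∀ (o : Oc c) s, 0 ≤ xe o s ∧ xe o s ≤ 1 := by
      rintro (_ | _ | r) s <;> simp only [xe, Pi.single_apply, Pi.zero_apply]
      exacts [by simp, by simp, by split_ifs <;> simp]
    simp only [Finset.mem_product, Finset.mem_range, Fintype.mem_piFinset, Finset.mem_Icc, lab,
      Finset.sum_apply]
    refine ⟨Nat.lt_succ_of_le (bc_le _), fun s => ⟨Finset.sum_nonneg fun i _ => (x _ _).1, ?_⟩⟩
    simpa using Finset.sum_le_sum (s := Finset.univ) fun i _ => (x (l i) s).2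
  exact ⟨f, h1, fun l l' h => Prod.ext_iff.1 (h2 _ (m l) _ (m l') h)⟩

/-- The order used for the signs. -/
noncomputable def lt2 (x y : Fin k × Fin c) : Bool :=
  decide (Fintype.equivFin _ x < Fintype.equivFin _ y)

/-- The cost of an occupied mode. -/
def wt2 (x : Fin k × Fin c) : ℤ := 2 * (x.2 : ℕ) + 1 - c

/-- The cost of a choice in the register. -/
def wo : Oc c → ℤ
  | some (some s) => 2 * (s : ℕ) + 1 - c
  | _ => 0

/-- The cost of a label. -/
def cost (s : Bool) (x : (Fin k → Bool) × (Fin c → ℤ)) : ℤ :=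
  (if s then 1 else -1) * (∑ j : Fin c, (2 * (j : ℕ) + 1 - c) * x.2 j) + (c + 1) * bc x.1

theorem cost_eq (s : Bool) (l : Fin k → Oc c) :
    cost s (lab l) = (if s then 1 else -1) * (∑ i, wo (l i)) + (c + 1) * bc (lab l).1 := by
  simp only [cost, lab, Finset.sum_apply]
  congr 2
  simp only [Finset.mul_sum]
  rw [Finset.sum_comm]
  refine Finset.sum_congr rfl fun i _ => ?_
  rcases l i with _ | _ | r <;> simp [xe, wo, Pi.single_apply]

theorem kap_cost (s : Bool) (l : Fin k → Oc c) (h : kap s (chi s) l ≠ 0) : cost s (lab l) ≤ k := by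
  obtain ⟨β, -, h⟩ := Finset.exists_ne_zero_of_sum_ne_zero h
  have h1 : decide (∑ i, ex s (l i) (β i) ≤ 0) = s := by
    by_contra e
    simp [chi, e] at h
  have h2 : ∑ i, ((if s then 1 else -1) * wo (l i) + (c + 1) * ((ps (l i)).toNat : ℤ)) ≤
      ∑ i, ((if s then 1 else -1) * ex s (l i) (β i) + 1) := Finset.sum_le_sum fun i _ => by
    rcases l i with _ | _ | r <;> cases s <;> cases β i <;> simp [wo, ps, ex] <;> omega
  simp only [Finset.sum_add_distrib, ← Finset.mul_sum, Finset.sum_const, Finset.card_univ,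
    Fintype.card_fin, nsmul_eq_mul, mul_one] at h2
  rw [cost_eq]
  simp only [lab, bc, Nat.cast_sum]
  cases s
  · have := of_decide_eq_false h1
    simp only [Bool.false_eq_true, if_false] at h2 ⊢
    omega
  · have := of_decide_eq_true h1
    simp only [if_true] at h2 ⊢
    omega

theorem sm_kap {X : Type} {φ : X → ℤ} {A : Module.End ℤ (X → ℤ)} {d : ℤ} (h : SM φ A d 1)
    (s : Bool) (l : Fin k → Oc c) : SM φ (kap s (chi s) l • A) d (2 ^ k) := by
  rw [kap, Finset.sum_smul]
  refine (SM.sum (m := 1) _ fun β _ => h.smul ?_).le le_rfl (by simp)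
  rw [abs_mul, Finset.abs_prod]
  refine mul_le_one₀ (Finset.prod_le_one (fun _ _ => abs_nonneg _) fun i _ => ?_) (abs_nonneg _) ?_
  · rcases l i with _ | _ | r <;> cases s <;> cases β i <;> simp [sgn]
  · unfold chi
    split_ifs <;> simp

theorem sm_blk (q : ℕ) (d σ : Bool) (l : Fin k → Oc c) (x : Fin k → Bool) :
    SM (pot2 wt2 q) (prd d k fun i => op gam (fun s => fo lt2 σ (i, s)) (x i) (l i))
      ((if σ then 1 else -1) * ∑ i, wo (l i)) 1 := by
  rw [Finset.mul_sum]
  refine SM.prd d k _ _ fun i => ?_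
  rcases l i with _ | _ | r <;> cases x i <;>
    simp only [op, wo, mul_zero, if_true, Bool.false_eq_true, if_false]
  exacts [SM.one, SM.zero, SM.zero, sm_gam _ _, SM.zero,
    (sm_fo2 _ _ _ _ _).le (by cases σ <;> simp [wt2]) le_rfl]

theorem line2 {b q : ℕ} (hq : 0 < q) (hc : c + 1 = q * b) (hb : k + 1 ≤ 2 ^ b) :
    ∃ E F : Bool → (Fin k → Bool) → Module.End ℤ ((Fin k × Fin c → Bool) × List Bool → ℤ),
      (∀ s x, SM (pot2 wt2 q) (E s x) (k + q + q * (b * (c + 1)) : ℕ) ((c + 2) ^ k * 2 ^ k)) ∧
      (∀ s x, SM (pot2 wt2 q) (F s x) 0 ((c + 2) ^ k * 2 ^ k)) ∧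
      ∀ u v, Even (bc u) → E true u * F true v + E false v * F false u =
        if u = v then 1 else 0 := by
  classical
  obtain ⟨W, w1, w2⟩ := words (k := k) (b := b) (by omega)
  obtain ⟨f, f1, f2⟩ := codes (c := c) hb
  let a : Fin k → Fin c → _ := fun i s => fo lt2 true (i, s)
  let a' : Fin k → Fin c → _ := fun i s => fo lt2 false (i, s)
  let O := fun (s : Bool) (l : Fin k → Oc c) x => kap s (chi s) l • Op gam a l x
  let E0 := fun (s : Bool) (l : Fin k → Oc c) x =>
    if cost s (lab l) ≤ k then (if s then O true l x else Cl gam a' l x) else 0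
  let F0 := fun (s : Bool) (l : Fin k → Oc c) x => if s then Cl gam a' l x else O false l x
  let bd := fun s (x : (Fin k → Bool) × (Fin c → ℤ)) =>
    W x.1 ++ List.replicate ((-cost s x).toNat / q + 1) false
  let cd := fun x : (Fin k → Bool) × (Fin c → ℤ) => f (bc x.1, x.2)
  have h1 : 1 ≤ 2 ^ k := Nat.one_le_two_pow
  have hO : ∀ s l x, SM (pot2 wt2 q) (O s l x) (∑ i, wo (l i)) (2 ^ k) := fun s l x =>
    sm_kap (by simpa [Op, a] using sm_blk q true true l x) s l
  have hC : ∀ l x, SM (pot2 wt2 q) (Cl gam a' l x) (-∑ i, wo (l i)) (2 ^ k) := fun l x =>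
    SM.le (by simpa [Cl, a'] using sm_blk q false false l x) le_rfl h1
  have hc' : (c + 1 : ℤ) = q * b := by exact_mod_cast hc
  have hl : ∀ s x, (q : ℤ) * (bd s x).length =
      (c + 1) * bc x.1 + (q * ((-cost s x).toNat / q : ℕ) + q) := fun s x => by
    simp only [bd, List.length_append, w1, List.length_replicate, hc']
    push_cast
    ring
  have hd : ∀ n : ℕ, (q : ℤ) * (n / q : ℕ) ≤ n ∧ (n : ℤ) ≤ q * (n / q : ℕ) + q := fun n => by
    have := Nat.div_add_mod n q
    have := Nat.mod_lt n hq
    constructor <;> norm_cast <;> omega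
  have hn : (Finset.univ : Finset (Fin k → Oc c)).card = (c + 2) ^ k := by simp
  refine ⟨fun s x => ∑ l, E0 s l x * push (bd s (lab l)) * push (cd (lab l)),
    fun s x => ∑ l, pop (cd (lab l)) * pop (bd s (lab l)) * F0 s l x, fun s x => ?_,
    fun s x => ?_, fun u v hu => ?_⟩
  · rw [← hn]
    refine SM.sum _ fun l _ => ?_
    by_cases h : cost s (lab l) ≤ k
    · have a : SM (pot2 wt2 q) (E0 s l x) ((if s then 1 else -1) * ∑ i, wo (l i)) (2 ^ k) := by
        simp only [E0, if_pos h]
        cases s
        exacts [by simpa using hC l x, by simpa using hO true l x]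
      refine ((a.mul (sm_push2 _ _ _)).mul (sm_push2 _ _ _)).le ?_ (by simp)
      have := hd (-cost s (lab l)).toNat
      have := cost_eq s l
      rw [hl]
      simp only [cd, f1, Nat.cast_add, Nat.cast_mul q]
      omega
    · simpa [E0, h] using SM.zero
  · rw [← hn]
    refine SM.sum _ fun l _ => ?_
    have a : SM (pot2 wt2 q) (F0 s l x) (-((if s then 1 else -1) * ∑ i, wo (l i))) (2 ^ k) := by
      cases s
      exacts [by simpa [F0] using hO false l x, by simpa [F0] using hC l x]
    refine (((sm_pop2 _ _ _).mul (sm_pop2 _ _ _)).mul a).le ?_ (by simp)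
    have := hd (-cost s (lab l)).toNat
    have := cost_eq s l
    have : (0 : ℤ) ≤ q * (cd (lab l)).length := by positivity
    rw [hl]
    omega
  · have key : ∀ s x y, (∑ l, E0 s l x * push (bd s (lab l)) * push (cd (lab l))) *
        ∑ l, pop (cd (lab l)) * pop (bd s (lab l)) * F0 s l y =
        ∑ l, ∑ l', if lab l = lab l' then E0 s l x * F0 s l' y else 0 := by
      intro s x y
      rw [Finset.sum_mul_sum]
      refine Finset.sum_congr rfl fun l _ => Finset.sum_congr rfl fun l' _ => ?_
      have e : E0 s l x * push (bd s (lab l)) * push (cd (lab l)) *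
          (pop (cd (lab l')) * pop (bd s (lab l')) * F0 s l' y) = E0 s l x * (push (bd s (lab l)) *
          (push (cd (lab l)) * pop (cd (lab l'))) * pop (bd s (lab l'))) * F0 s l' y := by
        simp only [mul_assoc]
      rw [e, push_pop (by simp [cd, f1])]
      by_cases h : lab l = lab l'
      · simp [h, push_pop]
      rw [if_neg h]
      split_ifs with h'
      · obtain ⟨x1, x2⟩ := f2 l l' h'
        have x3 : cost s (lab l) = cost s (lab l') := by simp only [cost, x1, x2]
        rw [mul_one, push_pop (by simp [bd, w1, x1, x3]), if_neg, mul_zero, zero_mul]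
        intro x4
        exact h (Prod.ext (w2 _ _ x1 (List.append_inj_left x4 (by simp [w1, x1]))) x2)
      · simp
    rw [key, key, ← ident (a := a) (b := a') gam_sq (fun _ _ => gam_fo _ _ _)
      (fun _ _ => gam_fo _ _ _) (fun i s j r => ?_) hu v]
    · congr 1
      · refine Finset.sum_congr rfl fun l _ => Finset.sum_congr rfl fun l' _ => ?_
        by_cases h : cost true (lab l) ≤ k
        · simp [E0, F0, O, h, mul_assoc]
        · have : kap true (chi true) l = 0 := by_contra fun x => h (kap_cost _ _ x)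
          simp [E0, h, this]
      · rw [Finset.sum_comm]
        refine Finset.sum_congr rfl fun l _ => Finset.sum_congr rfl fun l' _ => ?_
        by_cases e : lab l = lab l'
        · by_cases h : cost false (lab l') ≤ k
          · simp [E0, F0, O, h, e, -zsmul_eq_mul]
          · have : kap false (chi false) l = 0 := by_contra fun x => h (e ▸ kap_cost _ _ x)
            simp [E0, h, this]
        · simp [e, Ne.symm e]
    · split_ifs with e
      · obtain ⟨rfl, rfl⟩ := e
        exact car_same _ (by simp [lt2])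
      · have ne : (i, s) ≠ (j, r) := by simpa using e
        simp only [a, a']
        rw [fo_swap _ ne]
        rcases lt_or_gt_of_ne ((Fintype.equivFin (Fin k × Fin c)).injective.ne ne) with x | x <;>
          simp [lt2, x, x.asymm]

theorem states2 {b q : ℕ} (hq : 0 < q) (hc : c + 1 = q * b) (D : ℕ) :
    ∃ P : Finset (Fin 3 → (Fin k × Fin c → Bool) × List Bool),
    (∀ p : Fin 3 → (Fin k × Fin c → Bool) × List Bool, ∑ κ, pot2 wt2 q (p κ) ≤ (q * D : ℕ) → p ∈ P) ∧
    P.card ≤ 2 ^ (3 * (k * c * (1 + 6 * b) + 2 * D)) := by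
  classical
  set n := k * c with hn
  have hM : Fintype.card (Fin k × Fin c) = n := by simp [hn]
  let L := D + 3 * (n * b)
  let S : Finset (List Bool) := (Finset.range (L + 1)).biUnion fun k =>
    Finset.univ.image (List.ofFn : (Fin k → Bool) → List Bool)
  have hS : S.card ≤ 2 ^ (2 * L) := by
    refine (Finset.card_biUnion_le_card_mul _ _ (2 ^ L) fun k hk => ?_).trans ?_
    · refine Finset.card_image_le.trans ?_
      simpa using Nat.pow_le_pow_right (by omega) (Nat.le_of_lt_succ (Finset.mem_range.1 hk))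
    · rw [Finset.card_range, two_mul, pow_add 2 L L]
      exact Nat.mul_le_mul_right _ Nat.lt_two_pow_self
  refine ⟨Fintype.piFinset fun _ => Finset.univ ×ˢ S, fun p hp => ?_, ?_⟩
  · have hc' : (c + 1 : ℤ) = q * b := by exact_mod_cast hc
    have lo : ∀ κ, (q : ℤ) * ((p κ).2.length - n * b) ≤ pot2 wt2 q (p κ) := by
      intro κ
      have : ∑ _a : Fin k × Fin c, (-(q * b) : ℤ) ≤ ∑ a, if (p κ).1 a then wt2 a else 0 :=
        Finset.sum_le_sum fun a _ => by unfold wt2; split_ifs <;> omega
      rw [Finset.sum_const, Finset.card_univ, hM] at this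
      simp only [nsmul_eq_mul] at this
      simp only [pot2]
      linarith
    simp only [Fintype.mem_piFinset, Finset.mem_product, Finset.mem_univ, true_and, S,
      Finset.mem_biUnion, Finset.mem_range, Finset.mem_image]
    intro κ
    refine ⟨(p κ).2.length, ?_, (p κ).2.get, List.ofFn_get _⟩
    have h0 := lo 0
    have h1 := lo 1
    have h2 := lo 2
    rw [Fin.sum_univ_three] at hp
    have h3 : ((p 0).2.length - n * b + ((p 1).2.length - n * b) + ((p 2).2.length - n * b) : ℤ)
        ≤ D := le_of_mul_le_mul_left (a := (q : ℤ)) (by push_cast at hp; linarith) (by omega)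
    have : (L : ℤ) = D + 3 * (n * b) := by simp [L]
    fin_cases κ <;> simp only [Fin.zero_eta, Fin.mk_one, Fin.reduceFinMk] <;> omega
  · rw [Fintype.card_piFinset, Finset.prod_const, Finset.card_product, Finset.card_univ,
      Fintype.card_fun, hM, Fintype.card_bool, Finset.card_univ, Fintype.card_fin]
    calc (2 ^ n * S.card) ^ 3 ≤ (2 ^ n * 2 ^ (2 * L)) ^ 3 := by gcongr
      _ = _ := by rw [← pow_add, ← pow_mul]; congr 1; simp only [L]; ring

end Pool.Agent.Lib.MP_5afa16_lc.Gap2
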