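import Pool.Agent.Lib.MP_5afa16_lc.GapFinal
import Pool.Agent.Lib.MP_5afa16_lc.Gap2Line
import Pool.Agent.Lib.MP_5afa16_lc.Gap2Tree

/-! Assembly and choice of the parameters for the bound `log^(3/2) n * log log n`. -/

namespace Pool.Agent.Lib.MP_5afa16_lc.Gap2

open Gap

variable {T : Type}

theorem assemble2 {L : Language T} {F : Finset (Language T)} (hL : L ∈ F) (hF : Bin F)
    {n t b q c g r : ℕ} (hn : 0 < n) (hq : 0 < q) (hN : (F.card + 1) ^ 2 * (n + 1) ^ 4 ≤ 2 ^ t)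
    (hc : c + 1 = q * b) (hb : t + t + 1 ≤ 2 ^ b) (hβ : c + 2 ≤ 2 ^ b) (hg : t + t ≤ q * g)
    (hr : n ≤ 2 ^ r) :
    ∃ s ≤ 2 ^ (3 * ((t + t) * c * (1 + 6 * b) + 2 * (12 * r * (g + 1 + b * (c + 1)))) +
      (12 * r + 3 * t + 3 * ((b + 1) * (t + t)) + 7)), Dec L n s := by
  classical
  have : NeZero n := ⟨hn.ne'⟩
  have hI : Fintype.card (It F n) ≤ 2 ^ t := by
    rw [Fintype.card_coe]; exact it_card.trans hN
  obtain ⟨e⟩ : Nonempty (It F n ↪ (Fin t → Bool)) :=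
    Function.Embedding.nonempty_of_card_le (by simpa using hI)
  obtain ⟨E, G, hE, hG, hid⟩ := line2 (k := t + t) hq hc hb
  obtain ⟨P, hP, cP⟩ := states2 (k := t + t) hq hc (12 * r * (g + 1 + b * (c + 1)))
  have h0 : (L, 1, 0, 0, 0, n) ∈ It F n :=
    mem_it (.inr hL) (.inl rfl) (by omega) (by omega) (by omega) le_rfl
  have hm : (c + 2) ^ (t + t) * 2 ^ (t + t) ≤ 2 ^ ((b + 1) * (t + t)) := by
    rw [← mul_pow, pow_mul, pow_succ]
    gcongr
  have ev : ∀ w : Fin t → Bool, Even (bc (Fin.append w w)) := fun w => by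
    simp only [bc, Fin.sum_univ_add, Fin.append_left, Fin.append_right]
    exact ⟨_, rfl⟩
  have inj : ∀ w w' : Fin t → Bool, Fin.append w w = Fin.append w' w' ↔ w = w' := fun w w' =>
    ⟨fun h => funext fun i => by simpa using congrFun h (Fin.castAdd t i), fun h => by rw [h]⟩
  have g := gadget0 (lf := Lf F n) lf_lit rl_abs (K := t + t + q + q * (b * (c + 1)))
    (m := 2 ^ ((b + 1) * (t + t))) (by positivity)
    (E := fun s x => E s (Fin.append (e x) (e x))) (F := fun s x => G s (Fin.append (e x) (e x)))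
    (fun s x => (hE s _).le le_rfl hm) (fun s x => (hG s _).le le_rfl hm)
    (fun y y' => by simp [hid _ _ (ev _), inj]) P hP (4 * r) 0
    (fun x => if x = ⟨_, h0⟩ then 1 else 0) 0 0
    (by positivity) (fun x => by
      split_ifs
      exacts [SM.one.le le_rfl Nat.one_le_two_pow, SM.zero]) (by
      rw [zero_add]
      norm_cast
      nlinarith [Nat.mul_le_mul_left r hg])
  have e1 : ∀ w : Fin n → T, ∑ x, cnt (Lf F n) (Rl F n) (4 * r) x w •
      lift (Y := (Fin (t + t) × Fin c → Bool) × List Bool) 0 (if x = ⟨_, h0⟩ then 1 else 0) =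
      cnt (Lf F n) (Rl F n) (4 * r) ⟨_, h0⟩ w • 1 := fun w => by
    rw [Finset.sum_eq_single ⟨_, h0⟩ (fun b _ h => by simp [h]) (by simp)]
    simp
  simp only [e1] at g
  obtain ⟨s, hs, k, ψ, a, b'⟩ := g.det (fun _ => (fun _ => false, [])) (by simp [tot, pot2])
  refine ⟨s, hs.trans ?_, k, ψ, a, fun w => ?_⟩
  · generalize (b + 1) * (t + t) = μ
    set c' := 4 * (Fintype.card (It F n) + 1) ^ 3 * (2 ^ μ) ^ 3 with hc'
    have c1 : c' ≤ 2 ^ (3 * t + 3 * μ + 5) := by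
      have : Fintype.card (It F n) + 1 ≤ 2 * 2 ^ t := by
        have := Nat.one_le_two_pow (n := t); omega
      calc c' ≤ 4 * (2 * 2 ^ t) ^ 3 * (2 ^ μ) ^ 3 := by rw [hc']; gcongr
        _ = _ := by ring
    have c2 : sz c' (4 * r) + 1 ≤ 2 ^ (12 * r + 3 * t + 3 * μ + 7) := by
      have := Nat.one_le_two_pow (n := 3 * t + 3 * μ + 5)
      calc sz c' (4 * r) + 1 ≤ 8 ^ (4 * r) * (2 * c' + 1) := by have := sz_le c' (4 * r); omega
        _ ≤ (2 ^ 3) ^ (4 * r) * (4 * 2 ^ (3 * t + 3 * μ + 5)) := by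
          gcongr <;> omega
        _ = _ := by rw [← pow_mul]; ring
    rw [pow_add, mul_comm (2 ^ _)]
    refine le_trans ?_ (Nat.mul_le_mul_right _ c2)
    rw [add_mul, one_mul]
    exact Nat.add_le_add (Nat.mul_le_mul_left _ cP) Nat.one_le_two_pow
  · rw [b']
    exact ⟨cnt_nonneg w _ _, cnt_iff hF hL hr h0⟩

theorem expo2 {l s b c : ℕ} (hl : 1 ≤ l) (hs : 1 ≤ s) (hb : 1 ≤ b) (hc : c + 1 ≤ 8 * s) :
    3 * ((5 * l + 5 * l) * c * (1 + 6 * b) + 2 * (12 * (l + 1) * (10 * (s + 1) * b + 1 + b * (c + 1)))) +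
      (12 * (l + 1) + 3 * (5 * l) + 3 * ((b + 1) * (5 * l + 5 * l)) + 7) ≤ 6000 * (l * s * b) := by
  have t0 : 1 ≤ s * b := Nat.mul_pos hs hb
  have t1 : (5 * l + 5 * l) * c * (1 + 6 * b) ≤ 560 * (l * s * b) := by
    calc _ ≤ (10 * l) * (8 * s) * (7 * b) := by gcongr <;> omega
      _ = _ := by ring
  have t2 : 10 * (s + 1) * b + 1 + b * (c + 1) ≤ 29 * (s * b) := by
    calc _ ≤ 10 * (2 * s) * b + s * b + b * (8 * s) := by gcongr; omega
      _ = _ := by ring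
  have t3 : 12 * (l + 1) * (10 * (s + 1) * b + 1 + b * (c + 1)) ≤ 696 * (l * s * b) := by
    calc _ ≤ 12 * (2 * l) * (29 * (s * b)) := by gcongr; omega
      _ = _ := by ring
  have t4 : l ≤ l * s * b := by rw [mul_assoc]; exact Nat.le_mul_of_pos_right _ t0
  have t5 : (b + 1) * (5 * l + 5 * l) ≤ 20 * (l * s * b) := by
    calc _ ≤ (2 * b) * (10 * (l * s)) := by
          have := Nat.le_mul_of_pos_right l hs
          gcongr <;> omega
      _ = _ := by ring
  omega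

theorem nat_bound2 {L : Language T} (h : L.IsContextFree) : ∃ n0, ∀ n ≥ n0,
    2 ≤ Nat.log 2 (Nat.log 2 n) ∧ ∃ s e, s ≤ 2 ^ e ∧
      e ≤ 24000 * (Nat.log 2 n * Nat.sqrt (Nat.log 2 n) * Nat.log 2 (Nat.log 2 n)) ∧ Dec L n s := by
  obtain ⟨F, hL, hF⟩ := family h
  refine ⟨2 ^ (2 * F.card + 4), fun n hn => ?_⟩
  have h1 : 2 * F.card + 4 ≤ Nat.log 2 n := Nat.le_log_of_pow_le (by omega) hn
  have h2 : n < 2 ^ (Nat.log 2 n + 1) := Nat.lt_pow_succ_log_self (by omega) n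
  have hn0 : 0 < n := lt_of_lt_of_le (by positivity) hn
  generalize Nat.log 2 n = l at h1 h2
  have h3 : 2 ≤ Nat.log 2 l := Nat.le_log_of_pow_le (by omega) (by omega)
  have h4 : 2 ^ Nat.log 2 l ≤ l := Nat.pow_log_le_self 2 (by omega)
  have h5 : l < 2 ^ (Nat.log 2 l + 1) := Nat.lt_pow_succ_log_self (by omega) l
  generalize Nat.log 2 l = a at h3 h4 h5
  have h6 := Nat.lt_succ_sqrt l
  have h7 := Nat.sqrt_le_self l
  have h8 : 1 ≤ Nat.sqrt l := Nat.sqrt_pos.2 (by omega)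
  generalize Nat.sqrt l = s at h6 h7 h8
  have h9 : a ≤ 2 * s := by
    have : s + 1 ≤ 2 ^ s := Nat.lt_two_pow_self
    have : 2 ^ a < 2 ^ (2 * s) := by
      rw [two_mul, pow_add 2 s s]
      exact (h4.trans_lt h6).trans_le (Nat.mul_le_mul this this)
    exact ((Nat.pow_lt_pow_iff_right (by omega)).1 this).le
  have k1 := Nat.div_add_mod s (a + 5)
  have k2 := Nat.mod_lt s (show 0 < a + 5 by omega)
  have k3 : (s / (a + 5) + 1) * (a + 5) = (a + 5) * (s / (a + 5)) + (a + 5) := by ring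
  have k4 : a < 2 ^ a := Nat.lt_two_pow_self
  have k5 : 2 ^ (a + 5) = 32 * 2 ^ a := by ring
  rw [pow_succ] at h5
  obtain ⟨z, hz, hd⟩ := assemble2 hL hF (t := 5 * l) (b := a + 5) (q := s / (a + 5) + 1)
    (c := (s / (a + 5) + 1) * (a + 5) - 1) (g := 10 * (s + 1) * (a + 5)) (r := l + 1) hn0
    (Nat.succ_pos _) (by
      calc (F.card + 1) ^ 2 * (n + 1) ^ 4 ≤ (2 ^ F.card) ^ 2 * (2 ^ (l + 1)) ^ 4 := by
            gcongr
            exacts [Nat.lt_two_pow_self, h2]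
        _ ≤ _ := by
            rw [← pow_mul, ← pow_mul, ← pow_add]
            exact Nat.pow_le_pow_right (by omega) (by omega))
    (by omega) (by omega) (by omega) (by
      calc 5 * l + 5 * l ≤ 10 * ((s + 1) * (s + 1)) := by simp only [Nat.succ_eq_add_one] at h6; omega
        _ ≤ 10 * ((s + 1) * ((s / (a + 5) + 1) * (a + 5))) := by gcongr; omega
        _ = _ := by ring) h2.le
  refine ⟨h3, z, _, hz, (expo2 (by omega) h8 (by omega) (by omega)).trans ?_, hd⟩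
  calc 6000 * (l * s * (a + 5)) ≤ 6000 * (l * s * (4 * a)) := by gcongr; omega
    _ = _ := by ring

theorem real_bound2 {L : Language T} (h : L.IsContextFree) : ∃ n0 : ℕ, ∀ n ≥ n0, ∃ s : ℕ,
    Real.log s ≤ 384000 * Real.log n ^ (3 / 2 : ℝ) * Real.log (Real.log n) ∧ Dec L n s := by
  obtain ⟨n0, h⟩ := nat_bound2 h
  have t1 := Real.tendsto_log_atTop.comp (tendsto_natCast_atTop_atTop (R := ℝ))
  have t2 := Real.tendsto_log_atTop.comp t1
  obtain ⟨n1, h'⟩ := Filter.eventually_atTop.1 ((t2.eventually_ge_atTop 1).and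
    (t1.eventually_gt_atTop 0))
  refine ⟨max n0 n1, fun n hn => ?_⟩
  obtain ⟨ha, s, e, hs, he, hd⟩ := h n (le_of_max_le_left hn)
  obtain ⟨y1, x1⟩ := h' n (le_of_max_le_right hn)
  simp only [Function.comp] at x1 y1
  refine ⟨s, ?_, hd⟩
  have l2 := Real.log_two_gt_d9
  have l2' := Real.log_two_lt_d9
  have lo : ∀ (k : ℕ) (x : ℝ), 2 ^ k ≤ x → k * Real.log 2 ≤ Real.log x := fun k x hx => by
    rw [← Real.log_pow]; exact Real.log_le_log (by positivity) hx
  have hi : ∀ (k : ℕ) (x : ℝ), 0 < x → x ≤ 2 ^ k → Real.log x ≤ k := fun k x h0 hx => by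
    have := Real.log_le_log h0 hx
    rw [Real.log_pow] at this
    nlinarith [Nat.cast_nonneg (α := ℝ) k]
  have hn0 : n ≠ 0 := by rintro rfl; simp at x1
  have a1 := lo (Nat.log 2 n) n (by exact_mod_cast Nat.pow_log_le_self 2 hn0)
  generalize Real.log n = x at *
  generalize Nat.log 2 n = l at *
  have hl0 : l ≠ 0 := by rintro rfl; simp at ha
  have a3 : (l : ℝ) ≤ 2 * x := by nlinarith [Nat.cast_nonneg (α := ℝ) l]
  have b1 := lo (Nat.log 2 l) (2 * x) (le_trans (by exact_mod_cast Nat.pow_log_le_self 2 hl0) a3)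
  rw [Real.log_mul (by norm_num) x1.ne'] at b1
  generalize Real.log x = y at *
  generalize Nat.log 2 l = a at *
  have ha' : (2 : ℝ) ≤ a := by exact_mod_cast ha
  have b3 : (a : ℝ) ≤ 4 * y := by nlinarith
  have c1 : (Nat.sqrt l : ℝ) ≤ 2 * √x := by
    have c2 : ((Nat.sqrt l : ℝ)) * Nat.sqrt l ≤ l := by exact_mod_cast Nat.sqrt_le l
    have c3 := Real.mul_self_sqrt x1.le
    exact abs_le_of_sq_le_sq' (by nlinarith) (by positivity) |>.2
  have d1 : Real.log s ≤ e := by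
    rcases Nat.eq_zero_or_pos s with rfl | h0
    · simp
    · exact hi e s (by exact_mod_cast h0) (by exact_mod_cast hs)
  have d2 : (e : ℝ) ≤ 24000 * (l * Nat.sqrt l * a) := by exact_mod_cast he
  have d3 : x ^ (3 / 2 : ℝ) = x * √x := by
    rw [Real.sqrt_eq_rpow, show (3 / 2 : ℝ) = 1 + 1 / 2 by norm_num, Real.rpow_add x1,
      Real.rpow_one]
  rw [d3]
  calc Real.log s ≤ 24000 * (l * Nat.sqrt l * a) := d1.trans d2
    _ ≤ 24000 * (2 * x * (2 * √x) * (4 * y)) := by gcongr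
    _ = _ := by ring

end Pool.Agent.Lib.MP_5afa16_lc.Gap2
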