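import Pool.Agent.Lib.MP_5afa16_lc.Gap2Wick

/-! The identity test on subsets as a sum of two orientations, with labels that only record the
set of kept positions and the number of particles of every species. -/

namespace Pool.Agent.Lib.MP_5afa16_lc.Gap2

open AddMonoidAlgebra

variable {R : Type} [Ring R]

theorem prd_single {G : Type} [AddCommMonoid G] (d : Bool) : ∀ (k : ℕ) (g : Fin k → G)
    (r : Fin k → R), prd d k (fun i => single (g i) (r i)) = single (∑ i, g i) (prd d k r)
  | 0, _, _ => by simp [prd, one_def]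
  | k + 1, g, r => by
    have ih := prd_single d k (fun i => g i.succ) fun i => r i.succ
    cases d <;> simp [prd, ih, single_mul_single, Fin.sum_univ_succ, add_comm]

theorem prd_smul (d : Bool) : ∀ (k : ℕ) (n : Fin k → ℤ) (r : Fin k → R),
    prd d k (fun i => n i • r i) = (∏ i, n i) • prd d k r
  | 0, _, _ => by simp [prd]
  | k + 1, n, r => by
    have ih := prd_smul d k (fun i => n i.succ) fun i => r i.succ
    cases d <;> simp only [prd, ih, Fin.prod_univ_succ, smul_mul_assoc, mul_smul_comm, smul_smul,
      Bool.false_eq_true, if_false, if_true, mul_comm]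

theorem prd_zero (d : Bool) {k : ℕ} {r : Fin k → R} {i : Fin k} (h : r i = 0) : prd d k r = 0 := by
  have : r = fun j => (if j = i then 0 else 1 : ℤ) • r j := by
    funext j
    split_ifs with e <;> simp [e, h]
  rw [this, prd_smul, Finset.prod_eq_zero (Finset.mem_univ i) (by simp), zero_smul]

theorem prd_inv {Γ : R} (hΓ : Γ * Γ = 1) : ∀ (k : ℕ) (u : Fin k → Bool),
    prd true k (fun i => if u i then Γ else 1) * prd false k (fun i => if u i then Γ else 1) = 1
  | 0, _ => by simp [prd]
  | k + 1, u => by
    have ih := prd_inv hΓ k fun i => u i.succ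
    simp only [prd, if_true, Bool.false_eq_true, if_false]
    rw [mul_assoc, ← mul_assoc (prd _ _ _), ih]
    split_ifs <;> simp [hΓ]

/-- What happens at a position: nothing, the particle is kept, or it goes to a species. -/
abbrev Oc (c : ℕ) := Option (Option (Fin c))

variable {c k : ℕ}

/-- The operator of a position. -/
def op (Γ : R) (a : Fin c → R) (u : Bool) : Oc c → R
  | none => if u then 0 else 1
  | some none => if u then Γ else 0
  | some (some s) => if u then a s else 0

/-- Kept positions. -/
def ps : Oc c → Bool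
  | some none => true
  | _ => false

/-- The species, as a vector. -/
def xe : Oc c → Fin c → ℤ
  | some (some s) => Pi.single s 1
  | _ => 0

/-- The sign of an end of a choice. -/
def sgn (s : Bool) : Oc c → Bool → ℤ
  | none, β => if β then 0 else 1
  | some none, β => if β then 0 else if s then 1 else -1
  | some (some _), β => if β then -1 else 1

/-- The level of an end of a choice. -/
def ex (s : Bool) : Oc c → Bool → ℤ
  | none, _ => 0
  | some none, _ => if s then c else -c
  | some (some j), β => 2 * (j : ℕ) - c + if β then 2 else 0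

/-- The coefficient of a choice function. -/
def kap (s : Bool) (χ : ℤ → ℤ) (l : Fin k → Oc c) : ℤ :=
  ∑ β : Fin k → Bool, (∏ i, sgn s (l i) (β i)) * χ (∑ i, ex s (l i) (β i))

/-- The label of a choice function. -/
def lab (l : Fin k → Oc c) : (Fin k → Bool) × (Fin c → ℤ) := (fun i => ps (l i), ∑ i, xe (l i))

/-- Creation block. -/
def Op (Γ : R) (a : Fin k → Fin c → R) (l : Fin k → Oc c) (u : Fin k → Bool) : R :=
  prd true k fun i => op Γ (a i) (u i) (l i)

/-- Annihilation block. -/
def Cl (Γ : R) (a : Fin k → Fin c → R) (l : Fin k → Oc c) (u : Fin k → Bool) : R :=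
  prd false k fun i => op Γ (a i) (u i) (l i)

/-- Formal creation operator. -/
noncomputable def fA (a : Fin c → R) : AddMonoidAlgebra R (ℤ × (Fin c → ℤ)) :=
  ∑ j : Fin c, (single ((2 * (j : ℕ) - c : ℤ), xe (some (some j))) (a j) -
    single ((2 * (j : ℕ) - c + 2 : ℤ), xe (some (some j))) (a j))

/-- Formal annihilation operator. -/
noncomputable def fB (a : Fin c → R) : AddMonoidAlgebra R (ℤ × (Fin c → ℤ)) :=
  ∑ j : Fin c, single (0, -xe (some (some j))) (a j)

theorem facA (s : Bool) (Γ : R) (a : Fin c → R) (u ρ : Bool) :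
    fac (fA a) (single (if s then c else -c, 0) (if s then Γ else -Γ)) u ρ =
      ∑ o : Oc c × Bool, single (ex s o.1 o.2, xe o.1)
        ((if ps o.1 = ρ then sgn s o.1 o.2 else 0) • op Γ a u o.1) := by
  cases u <;> cases ρ <;> cases s <;>
    simp [fac, fA, Fintype.sum_prod_type, Fintype.sum_option, ps, sgn, ex, xe, op, one_def,
      single_neg, sub_eq_add_neg, add_comm] <;> rfl

theorem facB (Γ : R) (a : Fin c → R) (u ρ : Bool) :
    fac (fB a) (single 0 Γ) u ρ =
      ∑ o : Oc c, single (0, -xe o) ((if ps o = ρ then 1 else 0 : ℤ) • op Γ a u o) := by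
  cases u <;> cases ρ <;>
    simp [fac, fB, Fintype.sum_option, ps, xe, op, one_def] <;> rfl

theorem prdA (s : Bool) (Γ : R) (a : Fin k → Fin c → R) (u ρ : Fin k → Bool) :
    prd true k (fun i => fac (fA (a i)) (single (if s then c else -c, 0) (if s then Γ else -Γ))
      (u i) (ρ i)) = ∑ l : Fin k → Oc c, ∑ β : Fin k → Bool,
        single (∑ i, ex s (l i) (β i), (lab l).2)
          ((if (lab l).1 = ρ then ∏ i, sgn s (l i) (β i) else 0) • Op Γ a l u) := by
  simp only [facA, ← prd_expand, prd_single, prd_smul]
  rw [← (Equiv.arrowProdEquivProdArrow _ _ _).symm.sum_comp, Fintype.sum_prod_type]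
  refine Finset.sum_congr rfl fun l _ => Finset.sum_congr rfl fun β _ => ?_
  congr 1
  · ext <;> simp [Prod.fst_sum, Prod.snd_sum, lab]
  · simp [Fintype.prod_ite_zero, lab, funext_iff, Op]

theorem prdB (Γ : R) (a : Fin k → Fin c → R) (u ρ : Fin k → Bool) :
    prd false k (fun i => fac (fB (a i)) (single 0 Γ) (u i) (ρ i)) = ∑ l : Fin k → Oc c,
      single (0, -(lab l).2) ((if (lab l).1 = ρ then 1 else 0 : ℤ) • Cl Γ a l u) := by
  simp only [facB, ← prd_expand, prd_single, prd_smul]
  refine Finset.sum_congr rfl fun l _ => ?_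
  congr 1
  · ext <;> simp [Prod.fst_sum, Prod.snd_sum, lab]
  · simp [Fintype.prod_ite_zero, lab, funext_iff, Cl]

theorem tele {M : Type} [AddCommGroup M] (g : ℤ → M) (c : ℕ) :
    ∑ j : Fin c, (g (2 * (j : ℕ) - c) - g (2 * (j : ℕ) - c + 2)) = g (-c) - g c := by
  have := Finset.sum_range_sub' (fun j : ℕ => g (2 * (j : ℤ) - c)) c
  rw [Finset.sum_range] at this
  convert this using 3 <;> push_cast <;> ring_nf

theorem swap {Γ : R} {a b : Fin k → Fin c → R} (hΓ : Γ * Γ = 1)
    (ha : ∀ i s, Γ * a i s = -(a i s * Γ)) (hb : ∀ i s, Γ * b i s = -(b i s * Γ))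
    (hab : ∀ i s j r, a i s * b j r + b j r * a i s = if i = j ∧ s = r then 1 else 0)
    (χ : ℤ → ℤ) {u : Fin k → Bool} (hu : Even (bc u)) (v : Fin k → Bool) :
    ∑ l, ∑ l', (if lab l = lab l' then kap true χ l • (Op Γ a l u * Cl Γ b l' v) else 0) =
      ∑ l, ∑ l', (if lab l = lab l' then kap false χ l • (Cl Γ b l' v * Op Γ a l u) else 0) := by
  classical
  have cen : ∀ (g : ℤ × (Fin c → ℤ)) (y : AddMonoidAlgebra R (ℤ × (Fin c → ℤ))),
      single g 1 * y = y * single g 1 := fun g y =>
    (single_commute (fun _ => AddCommute.all _ _) (fun _ => Commute.one_left _) y).eq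
  have w := wick (Γ := (single 0 Γ : AddMonoidAlgebra R (ℤ × (Fin c → ℤ))))
    (p := single ((c : ℤ), 0) 1) (ζ := single ((-c : ℤ), 0) 1 - single ((c : ℤ), 0) 1) (cen _)
    (fun y => by rw [sub_mul, mul_sub, cen, cen]) (by simp [single_mul_single, hΓ, one_def]) k
    (fun i => fA (a i)) (fun i => fB (b i))
    (fun i => by
      simp [fA, Finset.mul_sum, Finset.sum_mul, mul_sub, sub_mul, single_mul_single, ha, single_neg,
        ← Finset.sum_neg_distrib, sub_eq_add_neg, add_mul, mul_add, add_comm])
    (fun i => by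
      simp [fB, Finset.mul_sum, Finset.sum_mul, single_mul_single, hb, single_neg])
    (fun i j => by
      rw [← tele (fun e => (single (e, 0) 1 : AddMonoidAlgebra R (ℤ × (Fin c → ℤ))))]
      simp only [fA, fB, Finset.sum_mul_sum]
      rw [Finset.sum_comm (f := fun s r => single (0, -xe (some (some s))) (b j s) * _),
        ← Finset.sum_add_distrib]
      have : ∀ (s r : Fin c) (e : ℤ), (single (e, xe (some (some s))) (a i s) *
          single (0, -xe (some (some r))) (b j r) +
          single (0, -xe (some (some r))) (b j r) * single (e, xe (some (some s))) (a i s) :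
            AddMonoidAlgebra R (ℤ × (Fin c → ℤ))) =
          if i = j ∧ s = r then single (e, 0) 1 else 0 := by
        intro s r e
        rw [single_mul_single, single_mul_single, add_comm (0, _), ← single_add, hab]
        split_ifs with h
        · simp [h.2]
        · simp
      have e : ∀ x y z : AddMonoidAlgebra R (ℤ × (Fin c → ℤ)),
          (x - y) * z + z * (x - y) = (x * z + z * x) - (y * z + z * y) := fun x y z => by
        noncomm_ring
      simp only [← Finset.sum_add_distrib, e, this]
      split_ifs with h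
      · simp [h]
      · simp [h]) u v
  have e1 := prdA true Γ a u
  have e2 := prdA false Γ a u
  simp only [if_true, Bool.false_eq_true, if_false] at e1 e2
  simp only [single_mul_single, add_zero, one_mul, add_sub_cancel, ← single_neg, e1, e2, prdB,
    (hu.mul_right _).neg_one_pow, one_smul, Finset.sum_mul_sum] at w
  have w' := congrArg (liftNC (AddMonoidHom.id R) fun g : Multiplicative (ℤ × (Fin c → ℤ)) =>
    ((if g.toAdd.2 = 0 then χ g.toAdd.1 else 0 : ℤ) : R)) w
  simp only [Finset.sum_mul, Finset.mul_sum, map_sum, single_mul_single, liftNC_single,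
    AddMonoidHom.id_apply, toAdd_ofAdd, Prod.mk_add_mk, add_zero, zero_add] at w'
  have key : ∀ (s : Bool) (l l' : Fin k → Oc c) (X : R) (e : Fin c → ℤ), (e = 0 ↔ (lab l).2 = (lab l').2) →
      ∑ ρ : Fin k → Bool, ∑ β : Fin k → Bool,
        ((if (lab l).1 = ρ then ∏ i, sgn s (l i) (β i) else 0) *
          (if (lab l').1 = ρ then 1 else 0 : ℤ)) • X *
          ((if e = 0 then χ (∑ i, ex s (l i) (β i)) else 0 : ℤ) : R) =
      if lab l = lab l' then kap s χ l • X else 0 := by
    intro s l l' X e he
    rw [Finset.sum_eq_single (lab l).1 (fun ρ _ h => by simp [h.symm]) (by simp)]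
    simp only [he, Prod.ext_iff (x := lab l), kap, Finset.sum_smul, if_true]
    by_cases h1 : (lab l).1 = (lab l').1
    · by_cases h2 : (lab l).2 = (lab l').2
      · simp only [h1, h2, if_true, and_self, mul_one]
        refine Finset.sum_congr rfl fun β _ => ?_
        rw [← (Int.cast_commute _ _).eq, ← zsmul_eq_mul, smul_smul, mul_comm]
      · simp [h2]
    · simp [h1, Ne.symm h1]
  have k1 := fun l l' => key true l l' (Op Γ a l u * Cl Γ b l' v) ((lab l).2 + -(lab l').2)
    (by rw [← sub_eq_add_neg, sub_eq_zero])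
  have k2 := fun l l' => key false l l' (Cl Γ b l' v * Op Γ a l u) (-(lab l').2 + (lab l).2)
    (by rw [neg_add_eq_sub, sub_eq_zero])
  simp only [← k1, ← k2]
  simp only [smul_mul_smul_comm] at w'
  convert w' using 1
  · symm
    rw [Finset.sum_comm]
    exact Finset.sum_congr rfl fun l _ => Finset.sum_comm
  · rw [Finset.sum_comm]
    symm
    rw [Finset.sum_comm]
    refine Finset.sum_congr rfl fun l _ => Finset.sum_comm.trans ?_
    simp only [mul_comm (ite _ (1 : ℤ) 0)]

theorem lab_zero {l : Fin k → Oc c} (h : (lab l).2 = 0) (i : Fin k) (s : Fin c) :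
    l i ≠ some (some s) := by
  intro e
  have h1 := congrFun h s
  simp only [lab, Finset.sum_apply, Pi.zero_apply] at h1
  have h2 := (Finset.sum_eq_zero_iff_of_nonneg fun j _ => by
    rcases l j with _ | _ | r
    exacts [le_rfl, le_rfl, by simp only [xe, Pi.single_apply]; split_ifs <;> simp]).1 h1 i
    (Finset.mem_univ i)
  simp [e, xe] at h2

theorem total {Γ : R} (a b : Fin k → Fin c → R) (hΓ : Γ * Γ = 1) (u v : Fin k → Bool) :
    ∑ l, ∑ l', (if lab l = lab l' then kap true (fun _ => 1) l • (Op Γ a l u * Cl Γ b l' v) else 0) =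
      if u = v then 1 else 0 := by
  let e : (Fin k → Bool) → Fin k → Oc c := fun u i => if u i then some none else none
  have e1 : ∀ u, lab (e u) = (u, 0) := fun u => by
    simp only [lab, e, Prod.mk.injEq]
    refine ⟨funext fun i => ?_, Finset.sum_eq_zero fun i _ => ?_⟩ <;> cases u i <;> rfl
  have e2 : ∀ l : Fin k → Oc c, kap true (fun _ => 1) l = ∏ i, ∑ β, sgn true (l i) β := fun l => by
    simp only [kap, mul_one, Finset.prod_univ_sum, Fintype.piFinset_univ]
  have e3 : ∀ (d : Bool) (a : Fin k → Fin c → R) (u : Fin k → Bool) (l : Fin k → Oc c), l ≠ e u →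
      (∀ i s, l i ≠ some (some s)) → prd d k (fun i => op Γ (a i) (u i) (l i)) = 0 := by
    intro d a u l h h'
    obtain ⟨i, hi⟩ := Function.ne_iff.1 h
    refine prd_zero d (i := i) ?_
    have := h' i
    simp only [e] at hi
    revert hi this
    rcases l i with _ | _ | r <;> cases u i <;> simp [op]
  have e4 : ∀ (a : Fin k → Fin c → R) (u : Fin k → Bool),
      (fun i => op Γ (a i) (u i) (e u i)) = fun i => if u i then Γ else 1 := fun a u => by
    funext i
    simp only [e]
    cases u i <;> rfl
  rw [Finset.sum_eq_single (e u) (fun l _ h => Finset.sum_eq_zero fun l' _ => ?_) (by simp),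
    Finset.sum_eq_single (e v) (fun l _ h => ?_) (by simp), e1, e1]
  · by_cases h : u = v
    · subst h
      have : kap true (fun _ => 1) (e u) = 1 := by
        rw [e2]
        refine Finset.prod_eq_one fun i _ => ?_
        simp only [e]
        cases u i <;> simp [sgn]
      simp [Op, Cl, e4, prd_inv hΓ, this]
    · simp [h]
  · split_ifs with x
    · rw [Cl, e3 _ _ _ _ h (lab_zero (by rw [← x, e1]))]
      simp
    · rfl
  · split_ifs
    · by_cases x : ∀ i s, l i ≠ some (some s)
      · rw [Op, e3 _ _ _ _ h x]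
        simp
      · simp only [not_forall, not_not] at x
        obtain ⟨i, s, x⟩ := x
        rw [e2, Finset.prod_eq_zero (Finset.mem_univ i) (by simp [x, sgn]), zero_smul]
    · rfl

/-- The indicator of the orientation. -/
def chi (s : Bool) (e : ℤ) : ℤ := if decide (e ≤ 0) = s then 1 else 0

theorem ident {Γ : R} {a b : Fin k → Fin c → R} (hΓ : Γ * Γ = 1)
    (ha : ∀ i s, Γ * a i s = -(a i s * Γ)) (hb : ∀ i s, Γ * b i s = -(b i s * Γ))
    (hab : ∀ i s j r, a i s * b j r + b j r * a i s = if i = j ∧ s = r then 1 else 0)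
    {u : Fin k → Bool} (hu : Even (bc u)) (v : Fin k → Bool) :
    ∑ l, ∑ l', (if lab l = lab l' then kap true (chi true) l • (Op Γ a l u * Cl Γ b l' v) else 0) +
      ∑ l, ∑ l', (if lab l = lab l' then kap false (chi false) l • (Cl Γ b l' v * Op Γ a l u)
        else 0) = if u = v then 1 else 0 := by
  rw [← swap hΓ ha hb hab _ hu, ← total a b hΓ, ← Finset.sum_add_distrib]
  refine Finset.sum_congr rfl fun l _ => ?_
  rw [← Finset.sum_add_distrib]
  refine Finset.sum_congr rfl fun l' _ => ?_
  split_ifs
  · rw [← add_smul]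
    congr 1
    simp only [kap, ← Finset.sum_add_distrib, ← mul_add]
    refine Finset.sum_congr rfl fun β _ => ?_
    congr 1
    unfold chi
    cases decide (∑ i, ex true (l i) (β i) ≤ 0) <;> simp
  · simp

end Pool.Agent.Lib.MP_5afa16_lc.Gap2
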