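import Pool.Agent.Lib.MP_5afa16_lc.GapFock

/-! Reordering of creation and annihilation blocks (a form of Wick's theorem). -/

namespace Pool.Agent.Lib.MP_5afa16_lc.Gap2

/-- Ordered product, increasing (`d = true`) or decreasing. -/
def prd {M : Type} [Monoid M] (d : Bool) : (k : ℕ) → (Fin k → M) → M
  | 0, _ => 1
  | k + 1, f => if d then f 0 * prd d k (fun i => f i.succ) else prd d k (fun i => f i.succ) * f 0

variable {R : Type} [Ring R]

theorem prd_expand {ι : Type} [Fintype ι] (d : Bool) : ∀ (k : ℕ) (t : Fin k → ι → R),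
    ∑ l : Fin k → ι, prd d k (fun j => t j (l j)) = prd d k fun j => ∑ x, t j x
  | 0, _ => by simp [prd]
  | k + 1, t => by
    rw [← (Fin.consEquiv fun _ => ι).sum_comp, Fintype.sum_prod_type]
    simp only [prd, Fin.consEquiv_apply, Fin.cons_zero, Fin.cons_succ]
    rw [← prd_expand d k fun j => t j.succ]
    cases d
    · simp only [Bool.false_eq_true, if_false]
      rw [Finset.sum_mul_sum, Finset.sum_comm]
    · simp only [if_true]
      rw [Finset.sum_mul_sum]

theorem prd_anti (d : Bool) (x : R) : ∀ (k : ℕ) (f : Fin k → R) (e : Fin k → ℕ),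
    (∀ i, x * f i = (-1 : ℤ) ^ e i • (f i * x)) →
    x * prd d k f = (-1 : ℤ) ^ (∑ i, e i) • (prd d k f * x)
  | 0, _, _, _ => by simp [prd]
  | k + 1, f, e, h => by
    have ih := prd_anti d x k (fun i => f i.succ) (fun i => e i.succ) fun i => h _
    rw [Fin.sum_univ_succ, pow_add]
    cases d
    · simp only [prd, Bool.false_eq_true, if_false]
      rw [← mul_assoc, ih, smul_mul_assoc, mul_assoc, h 0, mul_smul_comm, smul_smul, mul_comm,
        mul_assoc]
    · simp only [prd, if_true]
      rw [← mul_assoc, h 0, smul_mul_assoc, mul_assoc, ih, mul_smul_comm, smul_smul, mul_assoc]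

/-- The factor of one position: `u` says whether it belongs to the name, `ρ` whether it is kept. -/
def fac (A π : R) (u ρ : Bool) : R := if ρ then (if u then π else 0) else if u then A else 1

/-- The number of ones. -/
def bc {k : ℕ} (u : Fin k → Bool) : ℕ := ∑ i, (u i).toNat

theorem fac_anti {x A π : R} (h : x * A = -(A * x)) (h' : x * π = -(π * x)) (u ρ : Bool) :
    x * fac A π u ρ = (-1 : ℤ) ^ u.toNat • (fac A π u ρ * x) := by
  cases u <;> cases ρ <;> simp [fac, h, h']

theorem fac_par {x A π : R} (h : x * A = -(A * x)) (h' : x * π = π * x) (u ρ : Bool) :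
    x * fac A π u ρ = (-1 : ℤ) ^ (u.toNat + ρ.toNat) • (fac A π u ρ * x) := by
  cases u <;> cases ρ <;> simp [fac, h, h']

theorem flip {x y : R} {n : ℕ} (h : x = (-1 : ℤ) ^ n • y) : y = (-1 : ℤ) ^ n • x := by
  rw [h, smul_smul, ← mul_pow]; simp

theorem wick {Γ p ζ : R} (hp : ∀ y, p * y = y * p) (hζ : ∀ y, ζ * y = y * ζ) (hΓ : Γ * Γ = 1) :
    ∀ (k : ℕ) (A B : Fin k → R), (∀ i, Γ * A i = -(A i * Γ)) → (∀ i, Γ * B i = -(B i * Γ)) →
    (∀ i j, A i * B j + B j * A i = if i = j then ζ else 0) → ∀ u v : Fin k → Bool,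
    ∑ ρ : Fin k → Bool, prd true k (fun i => fac (A i) (p * Γ) (u i) (ρ i)) *
        prd false k (fun i => fac (B i) Γ (v i) (ρ i)) =
      (-1 : ℤ) ^ (bc u * bc v) • ∑ ρ : Fin k → Bool,
        prd false k (fun i => fac (B i) Γ (v i) (ρ i)) *
          prd true k (fun i => fac (A i) (-((p + ζ) * Γ)) (u i) (ρ i))
  | 0, _, _, _, _, _, _, _ => by simp [prd, bc]
  | k + 1, A, B, hA, hB, hAB, u, v => by
    have ih := wick hp hζ hΓ k (fun i => A i.succ) (fun i => B i.succ) (fun i => hA _)
      (fun i => hB _) (fun i j => by simpa using hAB i.succ j.succ) (fun i => u i.succ)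
      fun i => v i.succ
    have hq : ∀ y, (p + ζ) * y = y * (p + ζ) := fun y => by rw [add_mul, mul_add, hp, hζ]
    rw [← (Fin.consEquiv fun _ => Bool).sum_comp, ← (Fin.consEquiv fun _ => Bool).sum_comp,
      Fintype.sum_prod_type, Fintype.sum_prod_type_right]
    simp only [prd, Fin.consEquiv_apply, Fin.cons_zero, Fin.cons_succ, if_true,
      Bool.false_eq_true, if_false]
    have e1 : ∀ (c d : R) (C D : (Fin k → Bool) → R),
        ∑ ρ, c * C ρ * (D ρ * d) = c * (∑ ρ, C ρ * D ρ) * d := fun c d C D => by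
      simp only [Finset.mul_sum, Finset.sum_mul, mul_assoc]
    simp only [e1, ih, Finset.smul_sum, Finset.mul_sum, Finset.sum_mul]
    rw [Finset.sum_comm]
    refine Finset.sum_congr rfl fun ρ _ => ?_
    have a1 := prd_anti false (A 0) k (fun i => fac (B i.succ) Γ (v i.succ) (ρ i))
      (fun i => (v i.succ).toNat) fun i => fac_anti
        (by have := hAB 0 i.succ
            rw [if_neg (Fin.succ_ne_zero i).symm] at this
            exact eq_neg_of_add_eq_zero_left this)
        (by rw [hA, neg_neg]) _ _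
    have a2 := flip (prd_anti true (B 0) k (fun i => fac (A i.succ) (-((p + ζ) * Γ)) (u i.succ) (ρ i))
      (fun i => (u i.succ).toNat) fun i => fac_anti
        (by have := hAB i.succ 0
            rw [if_neg (Fin.succ_ne_zero i)] at this
            exact eq_neg_of_add_eq_zero_right this)
        (by rw [neg_mul, neg_neg, mul_assoc, hB, mul_neg, mul_neg, ← mul_assoc, ← hq, mul_assoc]) _ _)
    have a3 := prd_anti false Γ k (fun i => fac (B i.succ) Γ (v i.succ) (ρ i))
      (fun i => (v i.succ).toNat + (ρ i).toNat) fun i => fac_par (hB _) rfl _ _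
    have a4 := flip (prd_anti true Γ k (fun i => fac (A i.succ) (-((p + ζ) * Γ)) (u i.succ) (ρ i))
      (fun i => (u i.succ).toNat + (ρ i).toNat) fun i => fac_par (hA _)
        (by rw [neg_mul, mul_neg, ← mul_assoc, ← hq, mul_assoc]) _ _)
    have a5 : A 0 * B 0 = ζ - B 0 * A 0 := by
      have := hAB 0 0
      rw [if_pos rfl] at this
      exact eq_sub_of_add_eq this
    simp only [Finset.sum_add_distrib] at a3 a4
    simp only [bc, Fin.sum_univ_succ]
    generalize prd false k (fun i => fac (B i.succ) Γ (v i.succ) (ρ i)) = D at *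
    generalize prd true k (fun i => fac (A i.succ) (-((p + ζ) * Γ)) (u i.succ) (ρ i)) = C at *
    generalize ∑ i : Fin k, (u i.succ).toNat = a at *
    generalize ∑ i : Fin k, (v i.succ).toNat = b at *
    generalize ∑ i : Fin k, (ρ i).toNat = r at *
    have b1 : A 0 * (D * C) = (-1 : ℤ) ^ b • (D * (A 0 * C)) := by
      rw [← mul_assoc, a1, smul_mul_assoc, mul_assoc]
    have b2 : A 0 * (D * C) * B 0 = ((-1 : ℤ) ^ b * (-1) ^ a) • (D * (A 0 * B 0 * C)) := by
      rw [b1, smul_mul_assoc, mul_assoc, mul_assoc, a2, mul_smul_comm, mul_smul_comm, smul_smul,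
        mul_assoc]
    have b3 : p * Γ * (D * C) * Γ = ((-1 : ℤ) ^ b * (-1) ^ a) • (D * (p * C)) := by
      have : ((-1 : ℤ) ^ (b + r) * (-1) ^ (a + r)) = (-1) ^ b * (-1) ^ a := by
        rw [← pow_add, ← pow_add, show b + r + (a + r) = b + a + 2 * r by ring, pow_add, pow_mul]
        simp
      rw [mul_assoc, mul_assoc, mul_assoc D, a4, mul_smul_comm, mul_smul_comm, ← mul_assoc Γ D, a3,
        smul_mul_assoc, smul_smul, mul_comm ((-1 : ℤ) ^ _), this, mul_assoc D, ← mul_assoc Γ Γ, hΓ,
        one_mul, mul_smul_comm, ← mul_assoc, hp D, mul_assoc]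
    have b4 : Γ * (-((p + ζ) * Γ)) = -(p + ζ) := by
      rw [mul_neg, ← mul_assoc, ← hq, mul_assoc, hΓ, mul_one]
    cases hu : u 0 <;> cases hv : v 0
    · simp [fac]
    · simp only [fac, Fintype.sum_bool, if_true, Bool.false_eq_true, if_false, mul_smul_comm,
        smul_mul_assoc, smul_smul, Bool.toNat_true, Bool.toNat_false, zero_mul, mul_zero, one_mul,
        zero_add, smul_zero, mul_assoc, a2, show a * (1 + b) = a * b + a by ring, pow_add]
    · simp only [fac, Fintype.sum_bool, if_true, Bool.false_eq_true, if_false, mul_smul_comm,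
        smul_mul_assoc, smul_smul, Bool.toNat_true, Bool.toNat_false, zero_mul, mul_zero, one_mul,
        mul_one, zero_add, smul_zero, b1, show (1 + a) * b = a * b + b by ring, pow_add]
    · simp only [fac, Fintype.sum_bool, if_true, Bool.false_eq_true, if_false, mul_smul_comm,
        smul_mul_assoc, b2, b3, smul_smul, Bool.toNat_true]
      have s : ((-1 : ℤ) ^ ((1 + a) * (1 + b))) = -((-1) ^ (a * b) * ((-1) ^ b * (-1) ^ a)) := by
        rw [show (1 + a) * (1 + b) = a * b + (b + a) + 1 by ring]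
        simp only [pow_add]
        ring
      rw [s, mul_assoc D Γ, ← mul_assoc Γ, b4, mul_assoc D (B 0), ← mul_assoc (B 0), a5, ← smul_add,
        ← smul_add, neg_smul, ← smul_neg]
      congr 1
      noncomm_ring

end Pool.Agent.Lib.MP_5afa16_lc.Gap2
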