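import Mathlib

/-! Signed monomial operators and their representation by unimodular linear systems whose
entries depend on one letter of the input. -/

namespace Pool.Agent.Lib.MP_5afa16_lc.Gap

open Matrix

variable {X : Type}

/-- The operator `f ↦ (p ↦ s p * f (g p))`. -/
def mono (s : X → ℤ) (g : X → X) : Module.End ℤ (X → ℤ) where
  toFun f p := s p * f (g p)
  map_add' f f' := by ext p; simp [mul_add]
  map_smul' c f := by ext p; simp [mul_left_comm]

@[simp] theorem mono_apply (s : X → ℤ) (g : X → X) (f : X → ℤ) (p : X) :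
    mono s g f p = s p * f (g p) := rfl

theorem mono_mul (s s' : X → ℤ) (g g' : X → X) :
    mono s g * mono s' g' = mono (fun p => s p * s' (g p)) (fun p => g' (g p)) := by
  ext f p; simp [mul_assoc]

/-- Signs in `{-1, 0, 1}`, and the potential grows by at most `d`. -/
def Good (φ : X → ℤ) (d : ℤ) (e : (X → ℤ) × (X → X)) : Prop :=
  ∀ p, |e.1 p| ≤ 1 ∧ (e.1 p ≠ 0 → φ (e.2 p) ≤ φ p + d)

/-- A sum of at most `m` good monomial operators. -/
def SM (φ : X → ℤ) (A : Module.End ℤ (X → ℤ)) (d : ℤ) (m : ℕ) : Prop :=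
  ∃ l : List ((X → ℤ) × (X → X)), l.length ≤ m ∧ (∀ e ∈ l, Good φ d e) ∧
    A = (l.map fun e => mono e.1 e.2).sum

variable {φ : X → ℤ} {A B : Module.End ℤ (X → ℤ)} {d d' : ℤ} {m m' : ℕ}

theorem SM.zero : SM φ 0 d m := ⟨[], by simp, by simp, by simp⟩

theorem SM.of {s : X → ℤ} {g : X → X} (h : Good φ d (s, g)) : SM φ (mono s g) d 1 :=
  ⟨[(s, g)], by simp, by simpa using h, by simp⟩

theorem SM.one : SM φ 1 0 1 := by
  have : (1 : Module.End ℤ (X → ℤ)) = mono (fun _ => 1) id := by ext f p; simp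
  rw [this]; exact SM.of fun p => by simp

theorem SM.le (h : SM φ A d m) (hd : d ≤ d') (hm : m ≤ m') : SM φ A d' m' := by
  obtain ⟨l, a, b, c⟩ := h
  exact ⟨l, a.trans hm, fun e he p => ⟨(b e he p).1, fun x => ((b e he p).2 x).trans (by omega)⟩, c⟩

theorem SM.add (h : SM φ A d m) (h' : SM φ B d m') : SM φ (A + B) d (m + m') := by
  obtain ⟨l, a, b, rfl⟩ := h
  obtain ⟨l', a', b', rfl⟩ := h'
  refine ⟨l ++ l', by simp; omega, fun e he => ?_, by simp⟩
  rcases List.mem_append.1 he with x | x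
  exacts [b e x, b' e x]

theorem SM.ind {P : Module.End ℤ (X → ℤ) → ℕ → Prop} (h : SM φ A d m) (h0 : ∀ k, P 0 k)
    (h1 : ∀ s g B k, Good φ d (s, g) → P B k → P (mono s g + B) (k + 1)) : P A m := by
  obtain ⟨l, a, b, rfl⟩ := h
  induction l generalizing m with
  | nil => simpa using h0 m
  | cons e l ih =>
    obtain ⟨k, rfl⟩ : ∃ k, m = k + 1 := ⟨m - 1, by simp at a; omega⟩
    simp only [List.map_cons, List.sum_cons]
    exact h1 _ _ _ _ (b e (by simp)) (ih (by simpa using a) fun e he => b e (by simp [he]))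

theorem SM.mul (h : SM φ A d m) (h' : SM φ B d' m') : SM φ (A * B) (d + d') (m * m') := by
  refine h.ind (P := fun A m => SM φ (A * B) (d + d') (m * m')) (fun k => by simpa using SM.zero)
    fun s g C k hg ih => ?_
  rw [add_mul, add_mul, one_mul, add_comm (k * m')]
  refine SM.add ?_ ih
  refine h'.ind (P := fun B m' => SM φ (mono s g * B) (d + d') m') (fun k => by simpa using SM.zero)
    fun s' g' C k hg' ih => ?_
  rw [mul_add, add_comm k, mono_mul]
  refine SM.add (SM.of fun p => ⟨?_, fun x => ?_⟩) ih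
  · rw [abs_mul]
    exact mul_le_one₀ (hg p).1 (abs_nonneg _) (hg' _).1
  · have a := (hg p).2 (left_ne_zero_of_mul x)
    have b := (hg' _).2 (right_ne_zero_of_mul x)
    dsimp only at a b ⊢
    omega

theorem SM.smul (h : SM φ A d m) {c : ℤ} (hc : |c| ≤ 1) : SM φ (c • A) d m := by
  have e : c • A = mono (fun _ => c) id * A := by ext f p; simp
  have g : SM φ (mono (fun _ => c) id) 0 1 := SM.of fun p => ⟨hc, fun _ => by simp⟩
  simpa [e] using g.mul h

theorem SM.sum {ι : Type} (t : Finset ι) {F : ι → Module.End ℤ (X → ℤ)}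
    (h : ∀ i ∈ t, SM φ (F i) d m) : SM φ (∑ i ∈ t, F i) d (t.card * m) := by
  classical
  induction t using Finset.induction_on with
  | empty => simpa using SM.zero
  | insert a t ha ih =>
    rw [Finset.sum_insert ha, Finset.card_insert_of_notMem ha, add_mul, one_mul, add_comm (_ * _)]
    exact (h a (by simp)).add (ih fun i hi => h i (by simp [hi]))

/-- The value at `p` only depends on the states of potential at most `φ p + d`. -/
def Dep (φ : X → ℤ) (A : Module.End ℤ (X → ℤ)) (d : ℤ) : Prop :=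
  ∀ p f f', (∀ q, φ q ≤ φ p + d → f q = f' q) → A f p = A f' p

theorem SM.dep (h : SM φ A d m) : Dep φ A d := by
  refine h.ind (P := fun A _ => Dep φ A d) (fun _ p f f' _ => rfl) fun s g C k hg ih p f f' e => ?_
  simp only [LinearMap.add_apply, Pi.add_apply, mono_apply, ih p f f' e]
  by_cases x : s p = 0
  · simp [x]
  · rw [e _ ((hg p).2 x)]

theorem Dep.sum {ι : Type} [Fintype ι] {F : ι → Module.End ℤ (X → ℤ)} (c : ι → ℤ)
    (h : ∀ i, Dep φ (F i) d) : Dep φ (∑ i, c i • F i) d := by
  intro p f f' e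
  simp only [LinearMap.sum_apply, Finset.sum_apply, LinearMap.smul_apply, Pi.smul_apply]
  exact Finset.sum_congr rfl fun i _ => by rw [h i p f f' e]

theorem Dep.mul (h : Dep φ A d) (h' : Dep φ B d') : Dep φ (A * B) (d + d') :=
  fun p f f' e => h p _ _ fun q hq => h' q f f' fun r hr => e r (by omega)

variable {n : ℕ} {T : Type}

/-- A function of one letter of the input, with values in `{-1, 0, 1}`. -/
def Lit (F : (Fin n → T) → ℤ) : Prop :=
  ∃ (k : Fin n) (ψ : T → ℤ), (∀ a, |ψ a| ≤ 1) ∧ ∀ w, F w = ψ (w k)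

theorem Lit.const [NeZero n] {c : ℤ} (hc : |c| ≤ 1) : Lit fun _ : Fin n → T => c :=
  ⟨0, fun _ => c, fun _ => hc, fun _ => rfl⟩

theorem Lit.mul {F : (Fin n → T) → ℤ} (h : Lit F) {c : ℤ} (hc : |c| ≤ 1) :
    Lit fun w => F w * c := by
  obtain ⟨k, ψ, a, b⟩ := h
  refine ⟨k, fun x => ψ x * c, fun x => ?_, fun w => by simp only [b]⟩
  rw [abs_mul]
  exact mul_le_one₀ (a x) (abs_nonneg _) hc

/-- The rows of potential at most `D` of `F` are computed by a unimodular system of size `s`. -/
def Comp (φ : X → ℤ) (F : (Fin n → T) → Module.End ℤ (X → ℤ)) (D : ℤ) (s : ℕ) : Prop :=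
  ∃ (S : Type) (_ : Fintype S) (_ : DecidableEq S) (M : (Fin n → T) → Matrix S S ℤ)
    (o : S → Option X) (ι : X → Option S), Fintype.card S ≤ s ∧
    (∀ a b, Lit fun w => M w a b) ∧ (∀ w, (M w).det = 1) ∧
    ∀ w f, ∃ g : S → ℤ, M w *ᵥ g = (fun a => (o a).elim 0 f) ∧
      ∀ p, φ p ≤ D → F w f p = (ι p).elim 0 g

variable {F G : (Fin n → T) → Module.End ℤ (X → ℤ)} {D D' : ℤ} {s s' : ℕ}

theorem Comp.le (h : Comp φ F D s) (hD : D' ≤ D) (hs : s ≤ s') : Comp φ F D' s' := by
  obtain ⟨S, i1, i2, M, o, ι, a, b, c, e⟩ := h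
  refine ⟨S, i1, i2, M, o, ι, a.trans hs, b, c, fun w f => ?_⟩
  obtain ⟨g, x, y⟩ := e w f
  exact ⟨g, x, fun p hp => y p (hp.trans hD)⟩

theorem Comp.zero : Comp φ (fun _ : Fin n → T => 0) D s :=
  ⟨Empty, inferInstance, inferInstance, fun _ => 0, fun _ => none, fun _ => none, by simp,
    fun a => a.elim, fun _ => by simp, fun _ _ => ⟨0, funext fun a => a.elim, fun _ _ => rfl⟩⟩

/-- The matrix of a partially defined map, with a minus sign. -/
def lk {S S' : Type} [DecidableEq S'] (j : S → Option S') : Matrix S S' ℤ :=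
  of fun a b => if j a = some b then -1 else 0

theorem lk_mul {S S' : Type} [DecidableEq S'] [Fintype S'] (j : S → Option S') (g : S' → ℤ) (a : S) :
    (lk j *ᵥ g) a = -(j a).elim 0 g := by
  cases h : j a <;> simp [lk, mulVec, dotProduct, h]

theorem lk_abs {S S' : Type} [DecidableEq S'] (j : S → Option S') (a : S) (b : S') :
    |lk j a b| ≤ 1 := by
  simp only [lk, of_apply]; split_ifs <;> simp

theorem one_abs {S : Type} [DecidableEq S] (a b : S) : |(1 : Matrix S S ℤ) a b| ≤ 1 := by
  rw [one_apply]; split_ifs <;> simp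

variable [NeZero n]

theorem Comp.mul (h : Comp φ F D s) (h' : Comp φ G D' s') (hd : ∀ w, Dep φ (F w) d)
    (hD : D + d ≤ D') : Comp φ (fun w => F w * G w) D (s + s') := by
  obtain ⟨S, i1, i2, M, o, ι, a, b, c, e⟩ := h
  obtain ⟨S', i1', i2', M', o', ι', a', b', c', e'⟩ := h'
  refine ⟨S ⊕ S', inferInstance, inferInstance,
    fun w => fromBlocks (M w) (lk fun x => (o x).bind ι') 0 (M' w), Sum.elim (fun _ => none) o',
    fun p => (ι p).map Sum.inl, by simp; omega, ?_, fun w => by simp [det_fromBlocks_zero₂₁, c, c'],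
    fun w f => ?_⟩
  · rintro (x | x) (y | y)
    exacts [b x y, Lit.const (lk_abs ..), Lit.const (by simp), b' x y]
  · obtain ⟨g', x', y'⟩ := e' w f
    obtain ⟨g, x, y⟩ := e w fun q => (ι' q).elim 0 g'
    refine ⟨Sum.elim g g', ?_, fun p hp => ?_⟩
    · rw [fromBlocks_mulVec]
      ext (z | z)
      · simp only [Sum.elim_comp_inl, Sum.elim_comp_inr, Sum.elim_inl, Pi.add_apply, x, lk_mul]
        cases o z <;> simp
      · simp [x']
    · rw [Module.End.mul_apply, hd w p (G w f) (fun q => (ι' q).elim 0 g') fun q hq =>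
        y' q (by omega), y p hp]
      dsimp only
      cases ι p <;> simp

theorem Comp.add (P : Finset X) (hP : ∀ p, φ p ≤ D → p ∈ P) (h : Comp φ F D s)
    (h' : Comp φ G D s') : Comp φ (fun w => F w + G w) D (P.card + (s + s')) := by
  classical
  obtain ⟨S, i1, i2, M, o, ι, a, b, c, e⟩ := h
  obtain ⟨S', i1', i2', M', o', ι', a', b', c', e'⟩ := h'
  refine ⟨P ⊕ (S ⊕ S'), inferInstance, inferInstance,
    fun w => fromBlocks 1 (fromCols (lk fun x : P => ι x) (lk fun x : P => ι' x)) 0
      (fromBlocks (M w) 0 0 (M' w)), Sum.elim (fun _ => none) (Sum.elim o o'),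
    fun p => if h : p ∈ P then some (Sum.inl ⟨p, h⟩) else none, by simp; omega, ?_,
    fun w => by simp [det_fromBlocks_zero₂₁, c, c'], fun w f => ?_⟩
  · rintro (x | x | x) (y | y | y)
    exacts [Lit.const (one_abs ..), Lit.const (lk_abs ..), Lit.const (lk_abs ..),
      Lit.const (by simp), b x y, Lit.const (by simp), Lit.const (by simp), Lit.const (by simp),
      b' x y]
  · obtain ⟨g', x', y'⟩ := e' w f
    obtain ⟨g, x, y⟩ := e w f
    refine ⟨Sum.elim (fun p => (ι p).elim 0 g + (ι' p).elim 0 g') (Sum.elim g g'), ?_,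
      fun p hp => ?_⟩
    · rw [fromBlocks_mulVec]
      ext (z | z | z)
      · simp only [Sum.elim_comp_inl, Sum.elim_comp_inr, Sum.elim_inl, Pi.add_apply,
          fromCols_mulVec_sumElim, lk_mul, one_mulVec]
        simp only [Option.elim_none]
        ring
      · simp [fromBlocks_mulVec, x]
      · simp [fromBlocks_mulVec, x']
    · simp [hP p hp, y p hp, y' p hp]

theorem Comp.mono (P : Finset X) (hP : ∀ p, φ p ≤ D → p ∈ P) {c : (Fin n → T) → ℤ} (hc : Lit c)
    {u : X → ℤ} (hu : ∀ p, |u p| ≤ 1) (g : X → X) :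
    Comp φ (fun w => c w • mono u g) D (2 * P.card) := by
  classical
  refine ⟨P ⊕ P, inferInstance, inferInstance,
    fun w => fromBlocks 1 (diagonal fun p : P => c w * -u p) 0 1,
    Sum.elim (fun _ => none) fun p => some (g p),
    fun p => if h : p ∈ P then some (Sum.inl ⟨p, h⟩) else none, by simp; omega, ?_,
    fun w => by simp, fun w f => ?_⟩
  · rintro (x | x) (y | y)
    · exact Lit.const (one_abs ..)
    · by_cases e : x = y
      · simpa [e] using hc.mul (c := -u y) (by simpa using hu y)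
      · simpa [e] using Lit.const (n := n) (T := T) (c := 0) (by simp)
    · exact Lit.const (by simp)
    · exact Lit.const (one_abs ..)
  · refine ⟨Sum.elim (fun p => c w * (u p * f (g p))) fun p => f (g p), ?_, fun p hp => ?_⟩
    · rw [fromBlocks_mulVec]
      ext (z | z)
      · simp [mulVec_diagonal, mul_assoc]
      · simp
    · simp [hP p hp]

theorem Comp.sm (P : Finset X) (hP : ∀ p, φ p ≤ D → p ∈ P) {c : (Fin n → T) → ℤ} (hc : Lit c)
    (h : SM φ A d m) : Comp φ (fun w => c w • A) D (m * (3 * P.card)) := by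
  refine h.ind (P := fun A m => Comp φ (fun w => c w • A) D (m * (3 * P.card)))
    (fun k => by simpa using Comp.zero) fun u g C k hg ih => ?_
  simp only [smul_add]
  exact (Comp.add P hP (Comp.mono P hP hc (fun p => (hg p).1) g) ih).le le_rfl (by ring_nf; omega)

theorem Comp.sum (P : Finset X) (hP : ∀ p, φ p ≤ D → p ∈ P) {ι : Type} (t : Finset ι)
    {H : ι → (Fin n → T) → Module.End ℤ (X → ℤ)} (h : ∀ i ∈ t, Comp φ (H i) D s) :
    Comp φ (fun w => ∑ i ∈ t, H i w) D (t.card * (P.card + s)) := by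
  classical
  induction t using Finset.induction_on with
  | empty => simpa using Comp.zero
  | insert a t ha ih =>
    simp only [Finset.sum_insert ha, Finset.card_insert_of_notMem ha]
    exact (Comp.add P hP (h a (by simp)) (ih fun i hi => h i (by simp [hi]))).le le_rfl
      (by ring_nf; omega)

/-- From a computed scalar to a determinant. -/
theorem Comp.det {v : (Fin n → T) → ℤ} (p : X) (hp : φ p ≤ D)
    (h : Comp φ (fun w => v w • (1 : Module.End ℤ (X → ℤ))) D s) :
    ∃ r ≤ s + 1, ∃ (k : Fin r → Fin r → Fin n) (ψ : Fin r → Fin r → T → ℤ),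
      (∀ i j a, |ψ i j a| ≤ 1) ∧ ∀ w, (of fun i j => ψ i j (w (k i j))).det = v w := by
  obtain ⟨S, i1, i2, M, o, ι, a, b, c, e⟩ := h
  let N : (Fin n → T) → Matrix (S ⊕ Unit) (S ⊕ Unit) ℤ := fun w =>
    fromBlocks (M w) (of fun x _ => (o x).elim 0 fun _ => 1) (lk fun _ => ι p) 0
  have hN : ∀ x y, Lit fun w => N w x y := by
    rintro (x | x) (y | y)
    · exact b x y
    · refine Lit.const (c := (o x).elim 0 fun _ => 1) ?_
      cases o x <;> simp
    · exact Lit.const (lk_abs ..)
    · exact Lit.const (by simp)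
  choose k ψ h1 h2 using hN
  let q := (Fintype.equivFin (S ⊕ Unit)).symm
  refine ⟨Fintype.card (S ⊕ Unit), by simp; omega, fun i j => k (q i) (q j),
    fun i j => ψ (q i) (q j), fun i j => h1 _ _, fun w => ?_⟩
  have e1 : (of fun i j => ψ (q i) (q j) (w (k (q i) (q j)))) = (N w).submatrix q q := by
    ext i j; simp [h2]
  obtain ⟨g, x, y⟩ := e w fun _ => 1
  have e2 : N w * fromBlocks 1 (of fun x _ => -g x) 0 1 =
      fromBlocks (M w) 0 (lk fun _ => ι p) (of fun _ _ => v w) := by
    simp only [N, fromBlocks_multiply, Matrix.mul_one, Matrix.mul_zero, add_zero]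
    congr 1
    · ext z _
      have := congrFun x z
      simp only [mulVec, dotProduct] at this
      simp [mul_apply, this]
    · ext z _
      have h3 := lk_mul (fun _ : Unit => ι p) g z
      have h4 := y p hp
      simp only [mulVec, dotProduct] at h3
      simp only [LinearMap.smul_apply, Module.End.one_apply, Pi.smul_apply, smul_eq_mul,
        mul_one] at h4
      simp [mul_apply, h3, h4]
  have e3 := congrArg Matrix.det e2
  rw [det_mul, det_fromBlocks_zero₂₁, det_fromBlocks_zero₁₂, c] at e3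
  rw [e1, det_submatrix_equiv_self]
  simpa using e3

end Pool.Agent.Lib.MP_5afa16_lc.Gap
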