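import Pool.Agent.Lib.MP_5afa16_lc.GapAbp

/-! Three registers, and the evaluation of a tree recursion with compressed pending names. -/

namespace Pool.Agent.Lib.MP_5afa16_lc.Gap

variable {Y : Type}

/-- An operator acting on register `κ`. -/
def lift (κ : Fin 3) : Module.End ℤ (Y → ℤ) →+* Module.End ℤ ((Fin 3 → Y) → ℤ) where
  toFun A :=
    { toFun := fun f p => A (fun y => f (Function.update p κ y)) (p κ)
      map_add' := fun f f' => by
        ext p
        exact congrFun (A.map_add (fun y => f (Function.update p κ y))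
          (fun y => f' (Function.update p κ y))) (p κ)
      map_smul' := fun c f => by
        ext p
        exact congrFun (A.map_smul c (fun y => f (Function.update p κ y))) (p κ) }
  map_one' := by ext f p; simp
  map_mul' A B := by ext f p; simp
  map_zero' := by ext f p; simp
  map_add' A B := by ext f p; simp

theorem lift_mono (κ : Fin 3) (s : Y → ℤ) (g : Y → Y) :
    lift κ (mono s g) = mono (fun p => s (p κ)) fun p => Function.update p κ (g (p κ)) := rfl

/-- The total potential. -/
def tot (φ : Y → ℤ) (p : Fin 3 → Y) : ℤ := ∑ κ, φ (p κ)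

theorem tot_update (φ : Y → ℤ) (p : Fin 3 → Y) (κ : Fin 3) (y : Y) :
    tot φ (Function.update p κ y) = tot φ p - φ (p κ) + φ y := by
  fin_cases κ <;> simp [tot, Fin.sum_univ_three] <;> ring

variable {φ : Y → ℤ} {A B : Module.End ℤ (Y → ℤ)} {d d' : ℤ} {m m' : ℕ}

theorem SM.lift (h : SM φ A d m) (κ : Fin 3) : SM (tot φ) (lift κ A) d m := by
  refine h.ind (P := fun A m => SM (tot φ) (Gap.lift κ A) d m) (fun k => by simpa using SM.zero)
    fun s g C k hg ih => ?_
  rw [map_add, add_comm k, lift_mono]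
  refine SM.add (SM.of fun p => ⟨(hg _).1, fun x => ?_⟩) ih
  have := (hg _).2 x
  dsimp only at this ⊢
  rw [tot_update]
  omega

theorem SM.comm (h : SM φ A d m) (h' : SM φ B d' m') {κ κ' : Fin 3} (hk : κ ≠ κ') :
    Commute (Gap.lift κ A) (Gap.lift κ' B) := by
  refine h.ind (P := fun A _ => Commute (Gap.lift κ A) (Gap.lift κ' B)) (fun k => by simp)
    fun s g C k _ ih => ?_
  rw [map_add]
  refine Commute.add_left ?_ ih
  refine h'.ind (P := fun B _ => Commute (Gap.lift κ (mono s g)) (Gap.lift κ' B)) (fun k => by simp)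
    fun s' g' C k _ ih => ?_
  rw [map_add]
  refine Commute.add_right ?_ ih
  simp only [Commute, SemiconjBy, lift_mono, mono_mul, Function.update_of_ne hk,
    Function.update_of_ne hk.symm, mul_comm (s _), Function.update_comm hk]

theorem four {R : Type} [Ring R] {a f e b a' f' e' b' o : R} (h1 : Commute f a') (h2 : Commute o b')
    (h3 : Commute e a') (h4 : Commute b a') (h5 : Commute b f') (h6 : Commute b o)
    (h7 : Commute b e') :
    a * (a' * (f * f' * o)) + (a * (f * e' * o * b') + (a' * (e * f' * o * b) +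
      e * e' * o * (b * b'))) = (a * f + e * b) * (a' * f' + e' * b') * o := by
  simp only [add_mul, mul_add, mul_assoc]
  rw [h1.left_comm, ← h2.eq, h4.left_comm, h3.left_comm, h5.left_comm, h6.eq, h7.left_comm,
    h6.left_comm]
  abel

variable {n : ℕ} {T I : Type} [Fintype I]

/-- The number of proof trees of height `l` of the item `x`. -/
def cnt (lf : I → (Fin n → T) → ℤ) (R : I → I → I → ℤ) : ℕ → I → (Fin n → T) → ℤ
  | 0, x, w => lf x w
  | l + 1, x, w => ∑ y, ∑ z, R x y z * cnt lf R l y w * cnt lf R l z w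

/-- Size recursion. -/
def sz (c : ℕ) : ℕ → ℕ
  | 0 => c
  | l + 1 => 8 * sz c l + 4 * c + 3

theorem sz_le (c l : ℕ) : sz c l + c + 1 ≤ 8 ^ l * (2 * c + 1) := by
  induction l with
  | zero => simp [sz]; omega
  | succ l ih => simp only [sz, pow_succ]; nlinarith

theorem gadget [NeZero n] [DecidableEq I] {lf : I → (Fin n → T) → ℤ} (hlf : ∀ x, Lit (lf x))
    {R : I → I → I → ℤ} (hR : ∀ x y z, |R x y z| ≤ 1) {K : ℕ} {m : ℕ} (hm : 0 < m)
    {E F : Bool → I → Module.End ℤ (Y → ℤ)} (hE : ∀ s x, SM φ (E s x) K m)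
    (hF : ∀ s x, SM φ (F s x) (-K) m)
    (hid : ∀ y y', E true y * F true y' + E false y' * F false y = if y = y' then 1 else 0)
    (P : Finset (Fin 3 → Y)) {Dm : ℤ} (hP : ∀ p, tot φ p ≤ Dm → p ∈ P) (l : ℕ) :
    ∀ (κ : Fin 3) (O : I → Module.End ℤ (Y → ℤ)) (d D : ℤ), d ≤ K → (∀ x, SM φ (O x) d m) →
      D + 3 * K * l ≤ Dm → Comp (tot φ) (fun w => ∑ x, cnt lf R l x w • lift κ (O x)) D
        (sz (4 * (Fintype.card I + 1) ^ 3 * m ^ 3) l * P.card) := by
  induction l with
  | zero =>
    intro κ O d D _ hO hD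
    have hP' : ∀ p, tot φ p ≤ D → p ∈ P := fun p h => hP p (by simp at hD; omega)
    refine (Comp.sum P hP' Finset.univ fun x _ =>
      Comp.sm P hP' (hlf x) ((hO x).lift κ)).le le_rfl ?_
    simp only [sz, Finset.card_univ]
    generalize Fintype.card I = c
    have h1 : m ≤ m ^ 3 := Nat.le_self_pow (by omega) m
    have h2 : c ≤ (c + 1) ^ 3 := (Nat.le_succ c).trans (Nat.le_self_pow (by omega) _)
    calc c * (P.card + m * (3 * P.card)) ≤ (c + 1) ^ 3 * (m ^ 3 * P.card + m ^ 3 * (3 * P.card)) := by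
          gcongr
          exact Nat.le_mul_of_pos_left _ (by omega)
      _ = _ := by ring
  | succ l ih =>
    intro κ O d D hd hO hD
    push_cast at hD
    have hK : (0 : ℤ) ≤ K := by positivity
    have hKl : (0 : ℤ) ≤ K * l := by positivity
    have k1 : κ + 1 ≠ κ + 2 := by revert κ; decide
    have k2 : κ + 1 ≠ κ := by revert κ; decide
    have k3 : κ + 2 ≠ κ := by revert κ; decide
    set c := 4 * (Fintype.card I + 1) ^ 3 * m ^ 3 with hc
    let G : Fin 3 → (I → Module.End ℤ (Y → ℤ)) → (Fin n → T) → Module.End ℤ ((Fin 3 → Y) → ℤ) :=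
      fun κ O w => ∑ x, cnt lf R l x w • lift κ (O x)
    let N : (I → Module.End ℤ (Y → ℤ)) → (I → Module.End ℤ (Y → ℤ)) →
        Module.End ℤ ((Fin 3 → Y) → ℤ) := fun U V =>
      ∑ x, ∑ y, ∑ z, R x y z • (lift (κ + 1) (U y) * lift (κ + 2) (V z) * lift κ (O x))
    have hN : ∀ U V (a b : ℤ), (∀ x, SM φ (U x) a m) → (∀ x, SM φ (V x) b m) →
        SM (tot φ) (N U V) (a + b + d)
          (Fintype.card I * (Fintype.card I * (Fintype.card I * (m * m * m)))) :=
      fun U V a b hU hV => SM.sum _ fun x _ => SM.sum _ fun y _ => SM.sum _ fun z _ =>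
        ((((hU y).lift _).mul ((hV z).lift _)).mul ((hO x).lift _)).smul (hR x y z)
    have cN : ∀ U V (a b D' : ℤ), (∀ x, SM φ (U x) a m) → (∀ x, SM φ (V x) b m) → D' ≤ Dm →
        Comp (tot φ) (fun _ : Fin n → T => N U V) D' (c * P.card) := by
      intro U V a b D' hU hV hD'
      have := Comp.sm (n := n) (T := T) P (fun p h => hP p (h.trans hD'))
        (Lit.const (c := 1) (by simp)) (hN U V a b hU hV)
      simp only [one_smul] at this
      refine this.le le_rfl ?_
      rw [hc]
      generalize Fintype.card I = c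
      calc c * (c * (c * (m * m * m))) * (3 * P.card) = 3 * c ^ 3 * m ^ 3 * P.card := by ring
        _ ≤ _ := by gcongr <;> omega
    have dG : ∀ κ U (a : ℤ) w, (∀ x, SM φ (U x) a m) → Dep (tot φ) (G κ U w) a :=
      fun κ U a w hU => Dep.sum _ fun x => ((hU x).lift κ).dep
    have cE : ∀ κ (D' : ℤ), D' ≤ D + 3 * K → Comp (tot φ) (G κ (E true)) D' (sz c l * P.card) :=
      fun κ D' h => ih κ _ K D' le_rfl (hE _) (by linarith)
    have cF : ∀ κ (D' : ℤ), D' ≤ D + 3 * K → Comp (tot φ) (G κ (F false)) D' (sz c l * P.card) :=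
      fun κ D' h => ih κ _ (-K) D' (by omega) (hF _) (by linarith)
    have hP' : ∀ p, tot φ p ≤ D → p ∈ P := fun p h => hP p (by linarith)
    have t1 := (cE (κ + 1) D (by omega)).mul ((cE (κ + 2) (D + K) (by omega)).mul
      (cN _ _ _ _ (D + 2 * K) (hF true) (hF true) (by linarith)) (fun w => dG _ _ _ w (hE _))
      (by omega)) (fun w => dG _ _ _ w (hE _)) le_rfl
    have t2 := (cE (κ + 1) D (by omega)).mul ((cN _ _ _ _ (D + K) (hF true) (hE false)
      (by linarith)).mul (cF (κ + 2) (D + 3 * K) le_rfl)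
      (fun _ => (hN _ _ _ _ (hF true) (hE false)).dep) (by omega))
      (fun w => dG _ _ _ w (hE _)) le_rfl
    have t3 := (cE (κ + 2) D (by omega)).mul ((cN _ _ _ _ (D + K) (hE false) (hF true)
      (by linarith)).mul (cF (κ + 1) (D + 3 * K) le_rfl)
      (fun _ => (hN _ _ _ _ (hE false) (hF true)).dep) (by omega))
      (fun w => dG _ _ _ w (hE _)) le_rfl
    have t4 := (cN _ _ _ _ D (hE false) (hE false) (by linarith)).mul
      ((cF (κ + 1) (D + 3 * K) le_rfl).mul (cF (κ + 2) (D + 3 * K) le_rfl)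
      (fun w => dG _ _ _ w (hF _)) (by omega)) (fun _ => (hN _ _ _ _ (hE false) (hE false)).dep)
      (by omega)
    have t := Comp.add P hP' t1 (Comp.add P hP' t2 (Comp.add P hP' t3 t4))
    have key : ∀ κ y w, G κ (E true) w * lift κ (F true y) + lift κ (E false y) * G κ (F false) w =
        cnt lf R l y w • 1 := by
      intro κ y w
      simp only [G, Finset.sum_mul, Finset.mul_sum, smul_mul_assoc, mul_smul_comm,
        ← Finset.sum_add_distrib, ← smul_add, ← map_mul, ← map_add, hid]
      rw [Finset.sum_eq_single y (fun b _ h => by simp [h]) (by simp)]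
      simp
    have cG : ∀ {κ κ' : Fin 3} {U V} {a b : ℤ} w, (∀ x, SM φ (U x) a m) → SM φ V b m → κ ≠ κ' →
        Commute (G κ U w) (lift κ' V) := fun w hU hV hk =>
      Commute.sum_left _ _ _ fun x _ => ((hU x).comm hV hk).smul_left _
    have cGG : ∀ w, Commute (G (κ + 1) (F false) w) (G (κ + 2) (E true) w) := fun w =>
      Commute.sum_right _ _ _ fun x _ => (cG w (hF _) (hE _ x) k1).smul_right _
    refine (congrArg (fun F => Comp (tot φ) F D _) (funext fun w => ?_)).mp (t.le le_rfl ?_)
    · simp only [N, Finset.mul_sum, Finset.sum_mul, mul_smul_comm, smul_mul_assoc,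
        ← Finset.sum_add_distrib, ← smul_add, cnt, Finset.sum_smul]
      refine Finset.sum_congr rfl fun x _ => Finset.sum_congr rfl fun y _ =>
        Finset.sum_congr rfl fun z _ => ?_
      rw [four (cG w (hE _) (hF _ y) k1.symm).symm (cG w (hF _) (hO x) k3).symm
        (cG w (hE _) (hE _ y) k1.symm).symm (cGG w) (cG w (hF _) (hF _ z) k1)
        (cG w (hF _) (hO x) k2) (cG w (hF _) (hE _ z) k1), key, key]
      simp [mul_smul, mul_assoc]
    · simp only [sz]
      ring_nf
      omega

end Pool.Agent.Lib.MP_5afa16_lc.Gap
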