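import Pool.Agent.Lib.MP_5afa16_lc.GapCfl
import Pool.Agent.Lib.MP_5afa16_lc.GapTree

/-! Balanced proof trees of logarithmic height. -/

namespace Pool.Agent.Lib.MP_5afa16_lc.Gap

open Relation

variable {T : Type}

/-- The factor of `u` between two positions. -/
def seg (u : List T) (i j : ℕ) : List T := (u.take j).drop i

theorem seg_self (u : List T) (i : ℕ) : seg u i i = [] := by simp [seg]

theorem seg_app (u : List T) {i j k : ℕ} (h : i ≤ j) (h' : j ≤ k) :
    seg u i j ++ seg u j k = seg u i k := by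
  obtain ⟨a, rfl⟩ := Nat.exists_eq_add_of_le h
  have e : u.take (i + a) = (u.take k).take (i + a) := by rw [List.take_take, min_eq_left h']
  unfold seg
  rw [e, ← List.take_drop, ← List.drop_drop, List.take_append_drop]

theorem seg_len (u : List T) {i j : ℕ} (h : j ≤ u.length) : (seg u i j).length = j - i := by
  simp [seg, h]

/-- Items: outer language, inner language, and four positions. -/
abbrev Tup (T : Type) := Language T × Language T × ℕ × ℕ × ℕ × ℕ

/-- The meaning of an item. -/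
def Tr (u : List T) (x : Tup T) : Prop :=
  ∀ z ∈ x.2.1, seg u x.2.2.1 x.2.2.2.1 ++ z ++ seg u x.2.2.2.2.1 x.2.2.2.2.2 ∈ x.1

theorem tr_I {u : List T} {K : Language T} {i j : ℕ} : Tr u (K, 1, i, i, i, j) ↔ seg u i j ∈ K := by
  simp [Tr, seg_self, Language.mem_one]

open Classical in
/-- The finite set of items. -/
noncomputable def It (F : Finset (Language T)) (n : ℕ) : Finset (Tup T) :=
  insert 1 F ×ˢ insert 1 F ×ˢ Finset.range (n + 1) ×ˢ Finset.range (n + 1) ×ˢ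
    Finset.range (n + 1) ×ˢ Finset.range (n + 1)

variable {F : Finset (Language T)} {n : ℕ}

theorem it_card : (It F n).card ≤ (F.card + 1) ^ 2 * (n + 1) ^ 4 := by
  classical
  have := Finset.card_insert_le 1 F
  simp only [It, Finset.card_product, Finset.card_range]
  calc _ ≤ (F.card + 1) * ((F.card + 1) * ((n + 1) * ((n + 1) * ((n + 1) * (n + 1))))) := by
        gcongr
    _ = _ := by ring

theorem mem_it {K K' : Language T} {i k l j : ℕ} (h : K = 1 ∨ K ∈ F) (h' : K' = 1 ∨ K' ∈ F)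
    (hi : i ≤ n) (hk : k ≤ n) (hl : l ≤ n) (hj : j ≤ n) : (K, K', i, k, l, j) ∈ It F n := by
  simp only [It, Finset.mem_product, Finset.mem_insert, Finset.mem_range]
  exact ⟨h, h', by omega, by omega, by omega, by omega⟩

open Classical in
/-- The rules: all valid implications. -/
noncomputable def Rl (F : Finset (Language T)) (n : ℕ) (x y z : It F n) : ℤ :=
  if ∀ w : Fin n → T, Tr (List.ofFn w) y → Tr (List.ofFn w) z → Tr (List.ofFn w) x then 1 else 0

variable [NeZero n]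

open Classical in
/-- The leaves: items that follow from one letter. -/
noncomputable def Lf (F : Finset (Language T)) (n : ℕ) [NeZero n] (x : It F n) (w : Fin n → T) : ℤ :=
  if ∀ w' : Fin n → T, w' (Fin.ofNat n x.1.2.2.1) = w (Fin.ofNat n x.1.2.2.1) →
    Tr (List.ofFn w') x then 1 else 0

open Classical in
theorem lf_lit (x : It F n) : Lit (Lf F n x) :=
  ⟨Fin.ofNat n x.1.2.2.1, fun a => if ∀ w' : Fin n → T, w' (Fin.ofNat n x.1.2.2.1) = a →
    Tr (List.ofFn w') x then 1 else 0, fun a => by dsimp only; split_ifs <;> simp, fun _ => rfl⟩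

omit [NeZero n] in
theorem rl_abs (x y z : It F n) : |Rl F n x y z| ≤ 1 := by unfold Rl; split_ifs <;> simp

variable (w : Fin n → T)

theorem cnt_nonneg : ∀ l x, 0 ≤ cnt (Lf F n) (Rl F n) l x w
  | 0, x => by simp only [cnt, Lf]; split_ifs <;> simp
  | l + 1, x => Finset.sum_nonneg fun y _ => Finset.sum_nonneg fun z _ =>
    mul_nonneg (mul_nonneg (by unfold Rl; split_ifs <;> simp) (cnt_nonneg l y)) (cnt_nonneg l z)

theorem cnt_sound : ∀ l x, cnt (Lf F n) (Rl F n) l x w ≠ 0 → Tr (List.ofFn w) x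
  | 0, x, h => by
    simp only [cnt, Lf] at h
    split_ifs at h with e
    exacts [e w rfl, (h rfl).elim]
  | l + 1, x, h => by
    obtain ⟨y, -, h⟩ := Finset.exists_ne_zero_of_sum_ne_zero h
    obtain ⟨z, -, h⟩ := Finset.exists_ne_zero_of_sum_ne_zero h
    have a := left_ne_zero_of_mul (left_ne_zero_of_mul h)
    unfold Rl at a
    split_ifs at a with e
    exacts [e w (cnt_sound l y (right_ne_zero_of_mul (left_ne_zero_of_mul h)))
      (cnt_sound l z (right_ne_zero_of_mul h)), (a rfl).elim]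

variable (F)

/-- The item has a proof tree of height `l`. -/
def Pv (l : ℕ) (x : Tup T) : Prop := ∃ h : x ∈ It F n, 0 < cnt (Lf F n) (Rl F n) l ⟨x, h⟩ w

variable {F w}

theorem Pv.rule {l : ℕ} {x y z : Tup T} (hy : Pv F w l y) (hz : Pv F w l z) (hx : x ∈ It F n)
    (h : ∀ u, Tr u y → Tr u z → Tr u x) : Pv F w (l + 1) x := by
  obtain ⟨a, b⟩ := hy
  obtain ⟨c, d⟩ := hz
  have nn : ∀ y z, 0 ≤ Rl F n ⟨x, hx⟩ y z * cnt (Lf F n) (Rl F n) l y w *
      cnt (Lf F n) (Rl F n) l z w := fun y z =>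
    mul_nonneg (mul_nonneg (by unfold Rl; split_ifs <;> simp) (cnt_nonneg w l y)) (cnt_nonneg w l z)
  refine ⟨hx, Finset.sum_pos' (fun y _ => Finset.sum_nonneg fun z _ => nn y z) ⟨⟨y, a⟩,
    Finset.mem_univ _, Finset.sum_pos' (fun z _ => nn _ z) ⟨⟨z, c⟩, Finset.mem_univ _, ?_⟩⟩⟩
  rw [Rl, if_pos fun w => h _, one_mul]
  exact mul_pos b d

theorem Pv.triv {x : Tup T} (hx : x ∈ It F n) (h : ∀ u, Tr u x) : ∀ l, Pv F w l x
  | 0 => ⟨hx, by simp [cnt, Lf, h]⟩
  | l + 1 => (Pv.triv hx h l).rule (Pv.triv hx h l) hx fun _ a _ => a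

theorem Pv.rule1 {l : ℕ} {x y : Tup T} (hy : Pv F w l y) (hx : x ∈ It F n)
    (h : ∀ u, Tr u y → Tr u x) : Pv F w (l + 1) x :=
  hy.rule hy hx fun u a _ => h u a

theorem Pv.mono {l l' : ℕ} {x : Tup T} (h : Pv F w l x) (hl : l ≤ l') : Pv F w l' x := by
  induction hl with
  | refl => exact h
  | step _ ih => exact ih.rule1 h.1 fun _ a => a

theorem Pv.leaf {K : Language T} (hK : K ∈ F) {i : ℕ} (hi : i < n)
    (h : seg (List.ofFn w) i (i + 1) ∈ K) : Pv F w 0 (K, 1, i, i, i, i + 1) := by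
  have e : ∀ w : Fin n → T, seg (List.ofFn w) i (i + 1) = [w (Fin.ofNat n i)] := by
    intro w
    have : Fin.ofNat n i = ⟨i, hi⟩ := Fin.ext (Nat.mod_eq_of_lt hi)
    rw [seg, ← List.take_drop, List.drop_eq_getElem_cons (by simpa using hi), this]
    simp
  refine ⟨mem_it (.inr hK) (.inl rfl) hi.le hi.le hi.le hi, ?_⟩
  simp only [cnt, Lf]
  rw [if_pos fun w' hw => by rw [tr_I, e, hw, ← e]; exact h]
  exact one_pos

/-- One step down in a binary parse tree. -/
def St (F : Finset (Language T)) (u : List T) (a b : Language T × ℕ × ℕ) : Prop :=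
  b.1 ∈ F ∧ ∃ K ∈ F,
    (b.2.1 = a.2.1 ∧ a.2.1 < b.2.2 ∧ b.2.2 < a.2.2 ∧ seg u b.2.2 a.2.2 ∈ K ∧ b.1 * K ≤ a.1) ∨
    (b.2.2 = a.2.2 ∧ a.2.1 < b.2.1 ∧ b.2.1 < a.2.2 ∧ seg u a.2.1 b.2.1 ∈ K ∧ K * b.1 ≤ a.1)

variable {u : List T} {a b : Language T × ℕ × ℕ}

theorem St.in (h : St F u a b) : b.1 ∈ F ∧ a.2.1 ≤ b.2.1 ∧ b.2.1 < b.2.2 ∧ b.2.2 ≤ a.2.2 ∧
    a.2.1 + b.2.2 < b.2.1 + a.2.2 := by
  obtain ⟨x, _, _, y | y⟩ := h <;> exact ⟨x, by omega⟩

theorem sub_in (h : ReflTransGen (St F u) a b) (ha : a.1 ∈ F) (hl : a.2.1 < a.2.2) :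
    b.1 ∈ F ∧ a.2.1 ≤ b.2.1 ∧ b.2.1 < b.2.2 ∧ b.2.2 ≤ a.2.2 := by
  induction h with
  | refl => exact ⟨ha, le_rfl, hl, le_rfl⟩
  | tail _ s ih => exact ⟨s.in.1, by have := s.in; omega⟩

theorem cross (h : ReflTransGen (St F u) a b) {t : ℕ} (ht : 0 < t) :
    b.2.1 + a.2.2 < a.2.1 + b.2.2 + t ∨ ∃ c d, ReflTransGen (St F u) a c ∧ St F u c d ∧
      ReflTransGen (St F u) d b ∧ c.2.1 + a.2.2 < a.2.1 + c.2.2 + t ∧
      a.2.1 + d.2.2 + t ≤ d.2.1 + a.2.2 := by
  induction h with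
  | refl => left; omega
  | @tail b c r s ih =>
    rcases ih with ih | ⟨x, y, h1, h2, h3, h4⟩
    · by_cases e : c.2.1 + a.2.2 < a.2.1 + c.2.2 + t
      exacts [.inl e, .inr ⟨b, c, r, s, .refl, ih, by omega⟩]
    · exact .inr ⟨x, y, h1, h2, h3.tail s, h4⟩

theorem descend (hF : Bin F) {t : ℕ} (ht : 0 < t) : ∀ (d : ℕ) (a : Language T × ℕ × ℕ), a.1 ∈ F →
    a.2.2 ≤ u.length → seg u a.2.1 a.2.2 ∈ a.1 → a.2.1 + t < a.2.2 → a.2.2 ≤ a.2.1 + d →
    ∃ b, ReflTransGen (St F u) a b ∧ b.2.1 + t < b.2.2 ∧ ∃ m, ∃ K1 ∈ F, ∃ K2 ∈ F, b.2.1 < m ∧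
      m < b.2.2 ∧ m ≤ b.2.1 + t ∧ b.2.2 ≤ m + t ∧ seg u b.2.1 m ∈ K1 ∧ seg u m b.2.2 ∈ K2 ∧
      K1 * K2 ≤ b.1
  | 0, _, _, _, _, _, _ => by omega
  | d + 1, (K, i, j), h1, h2, h3, h4, h5 => by
    dsimp only at h1 h2 h3 h4 h5
    have l0 := seg_len u (i := i) h2
    obtain ⟨K1, k1, K2, k2, x, hx, y, hy, x0, y0, e, hm⟩ := hF K h1 _ h3 (by omega)
    have l1 := List.length_pos_iff.2 x0
    have l2 := List.length_pos_iff.2 y0
    have l3 := congrArg List.length e
    rw [List.length_append] at l3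
    have l4 := seg_len u (i := i) (j := i + x.length) (by omega)
    rw [← seg_app u (j := i + x.length) (by omega) (by omega)] at e
    obtain ⟨e1, e2⟩ := List.append_inj e (by omega)
    rw [← e1] at hx
    rw [← e2] at hy
    generalize hm' : i + x.length = m at hx hy
    by_cases c1 : i + t < m
    · obtain ⟨b, r, z⟩ := descend hF ht d (K1, i, m) k1 (by dsimp only; omega) hx c1
        (by dsimp only; omega)
      exact ⟨b, .head (b := (K1, i, m))
        ⟨k1, K2, k2, .inl ⟨rfl, by dsimp only; omega, by dsimp only; omega, hy, hm⟩⟩ r, z⟩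
    by_cases c2 : m + t < j
    · obtain ⟨b, r, z⟩ := descend hF ht d (K2, m, j) k2 h2 hy c2 (by dsimp only; omega)
      exact ⟨b, .head (b := (K2, m, j))
        ⟨k2, K1, k1, .inr ⟨rfl, by dsimp only; omega, by dsimp only; omega, hx, hm⟩⟩ r, z⟩
    exact ⟨_, .refl, h4, m, K1, k1, K2, k2, by dsimp only; omega, by dsimp only; omega,
      by dsimp only; omega, by dsimp only; omega, hx, hy, hm⟩

theorem balanced (hF : Bin F) (r : ℕ) :
    (∀ K ∈ F, ∀ i j, i < j → j ≤ n → j ≤ i + 2 ^ r → seg (List.ofFn w) i j ∈ K →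
      Pv F w (4 * r) (K, 1, i, i, i, j)) ∧
    ∀ a b, a.1 ∈ F → a.2.1 < a.2.2 → a.2.2 ≤ n → ReflTransGen (St F (List.ofFn w)) a b →
      b.2.1 + a.2.2 < a.2.1 + b.2.2 + 2 ^ r →
      Pv F w (4 * r + 3) (a.1, b.1, a.2.1, b.2.1, b.2.2, a.2.2) := by
  induction r with
  | zero =>
    refine ⟨fun K hK i j h1 h2 h3 h4 => ?_, fun a b h1 h2 h3 h4 h5 => ?_⟩
    · obtain rfl : j = i + 1 := by omega
      exact Pv.leaf hK h2 h4
    · rcases h4.cases_head with rfl | ⟨c, s, r⟩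
      · exact Pv.triv (mem_it (.inr h1) (.inr h1) (by omega) (by omega) h3 h3)
          (fun u z hz => by simpa [seg_self] using hz) _
      · have := s.in
        have := sub_in r this.1 this.2.2.1
        omega
  | succ r ih =>
    obtain ⟨A, B⟩ := ih
    have hp : 0 < 2 ^ r := by positivity
    have A' : ∀ K ∈ F, ∀ i j, i < j → j ≤ n → j ≤ i + 2 ^ (r + 1) → seg (List.ofFn w) i j ∈ K →
        Pv F w (4 * (r + 1)) (K, 1, i, i, i, j) := by
      intro K hK i j h1 h2 h3 h4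
      by_cases c : j ≤ i + 2 ^ r
      · exact (A K hK i j h1 h2 c h4).mono (by omega)
      obtain ⟨⟨K', k, l⟩, s, b1, m, K1, k1, K2, k2, b2, b3, b4, b5, b6, b7, b8⟩ :=
        descend hF hp j (K, i, j) hK (by simpa using h2) h4 (by dsimp only; omega)
          (by dsimp only; omega)
      have q := sub_in s hK h1
      dsimp only at q b1 b2 b3 b4 b5 b6 b7 b8
      have p1 : Pv F w (4 * r + 1) (K', 1, k, k, k, l) :=
        (A K1 k1 k m b2 (by omega) b4 b6).rule (A K2 k2 m l b3 (by omega) b5 b7)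
          (mem_it (.inr q.1) (.inl rfl) (by omega) (by omega) (by omega) (by omega)) fun u x y => by
            rw [tr_I] at x y ⊢
            rw [← seg_app u b2.le b3.le]
            exact b8 (Language.append_mem_mul x y)
      refine (B _ _ hK h1 h2 s (by dsimp only; omega)).rule (p1.mono (by omega))
        (mem_it (.inr hK) (.inl rfl) (by omega) (by omega) (by omega) h2) fun u x y => ?_
      rw [tr_I] at y ⊢
      have := x _ y
      dsimp only at this
      rwa [seg_app u q.2.1 q.2.2.1.le, seg_app u (by omega) q.2.2.2] at this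
    refine ⟨A', fun a b h1 h2 h3 h4 h5 => ?_⟩
    rcases cross h4 hp with e | ⟨c, d, s1, s2, s3, e1, e2⟩
    · exact (B a b h1 h2 h3 h4 e).mono (by omega)
    have q1 := sub_in s1 h1 h2
    have q2 := s2.in
    have q3 := sub_in s3 q2.1 q2.2.2.1
    have p1 : Pv F w (4 * (r + 1) + 1) (c.1, d.1, c.2.1, d.2.1, d.2.2, c.2.2) := by
      have hm := mem_it (n := n) (i := c.2.1) (k := d.2.1) (l := d.2.2) (j := c.2.2) (.inr q1.1)
        (.inr q2.1) (by omega) (by omega) (by omega) (by omega)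
      obtain ⟨-, K, hK, ⟨x1, x2, x3, x4, x5⟩ | ⟨x1, x2, x3, x4, x5⟩⟩ := s2
      · refine (A' K hK _ _ x3 (by omega) (by omega) x4).rule1 hm fun u x z hz => ?_
        dsimp only
        rw [x1, seg_self, List.nil_append]
        exact x5 (Language.append_mem_mul hz (tr_I.1 x))
      · refine (A' K hK _ _ x2 (by omega) (by omega) x4).rule1 hm fun u x z hz => ?_
        dsimp only
        rw [x1, seg_self, List.append_nil]
        exact x5 (Language.append_mem_mul (tr_I.1 x) hz)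
    have comp : ∀ {l} {a b c : Language T × ℕ × ℕ}, Pv F w l (a.1, b.1, a.2.1, b.2.1, b.2.2, a.2.2) →
        Pv F w l (b.1, c.1, b.2.1, c.2.1, c.2.2, b.2.2) → a.1 ∈ F → c.1 ∈ F → a.2.1 ≤ b.2.1 →
        b.2.1 ≤ c.2.1 → c.2.1 ≤ c.2.2 → c.2.2 ≤ b.2.2 → b.2.2 ≤ a.2.2 → a.2.2 ≤ n →
        Pv F w (l + 1) (a.1, c.1, a.2.1, c.2.1, c.2.2, a.2.2) := by
      intro l a b c x y a1 c1 i1 i2 i3 i4 i5 i6
      refine x.rule y (mem_it (.inr a1) (.inr c1) (by omega) (by omega) (by omega) i6)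
        fun u x y z hz => ?_
      have := x _ (y z hz)
      dsimp only at this ⊢
      rw [← seg_app u i1 i2, ← seg_app u i4 i5]
      simpa only [List.append_assoc] using this
    exact comp (comp ((B a c h1 h2 h3 s1 e1).mono (by omega)) p1 h1 q2.1 (by omega) (by omega)
      (by omega) (by omega) (by omega) h3) ((B d b q2.1 q2.2.2.1 (by omega) s3 (by omega)).mono
      (by omega)) h1 q3.1 (by omega) (by omega) (by omega) (by omega) (by omega) h3

theorem cnt_iff (hF : Bin F) {L : Language T} (hL : L ∈ F) {r : ℕ} (hr : n ≤ 2 ^ r)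
    (h : (L, 1, 0, 0, 0, n) ∈ It F n) :
    cnt (Lf F n) (Rl F n) (4 * r) ⟨_, h⟩ w ≠ 0 ↔ List.ofFn w ∈ L := by
  have e : seg (List.ofFn w) 0 n = List.ofFn w := by simp [seg]
  refine ⟨fun x => e ▸ tr_I.1 (cnt_sound w _ _ x), fun x => ?_⟩
  exact ((balanced hF r).1 L hL 0 n (NeZero.pos n) le_rfl (by omega) (e.symm ▸ x)).2.ne'

end Pool.Agent.Lib.MP_5afa16_lc.Gap
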