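import Mathlib

/-! A context-free language lies in a finite family of languages closed under binary splitting. -/

namespace Pool.Agent.Lib.MP_5afa16_lc.Gap

variable {T : Type} {g : ContextFreeGrammar T}

/-- Derivations of a word in at most `n` steps. -/
def Dn (g : ContextFreeGrammar T) : ℕ → List (Symbol T g.NT) → List T → Prop
  | 0, α, w => α = w.map Symbol.terminal
  | n + 1, α, w => Dn g n α w ∨ ∃ β, g.Produces α β ∧ Dn g n β w

theorem Dn.der : ∀ {n : ℕ} {α : List (Symbol T g.NT)} {w : List T}, Dn g n α w →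
    g.Derives α (w.map Symbol.terminal)
  | 0, _, _, h => h ▸ .refl _
  | _ + 1, _, _, .inl h => h.der
  | _ + 1, _, _, .inr ⟨_, a, b⟩ => a.trans_derives b.der

theorem dn_of {α : List (Symbol T g.NT)} {w : List T} (h : g.Derives α (w.map Symbol.terminal)) :
    ∃ n, Dn g n α w := by
  induction h using Relation.ReflTransGen.head_induction_on with
  | refl => exact ⟨0, rfl⟩
  | head a _ ih => exact ih.elim fun n b => ⟨n + 1, .inr ⟨_, a, b⟩⟩

theorem rw_split {N : Type} {r : ContextFreeRule T N} {γ : List (Symbol T N)} :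
    ∀ {β δ : List (Symbol T N)}, r.Rewrites (β ++ γ) δ →
      (∃ β', r.Rewrites β β' ∧ δ = β' ++ γ) ∨ ∃ γ', r.Rewrites γ γ' ∧ δ = β ++ γ'
  | [], δ, h => .inr ⟨δ, h, rfl⟩
  | x :: β, δ, h => by
    rw [List.cons_append] at h
    generalize e : x :: (β ++ γ) = z at h
    cases h with
    | head s =>
      obtain ⟨rfl, rfl⟩ := List.cons.inj e
      exact .inl ⟨_, .head β, by simp⟩
    | cons y h =>
      obtain ⟨rfl, rfl⟩ := List.cons.inj e
      rcases rw_split h with ⟨β', a, rfl⟩ | ⟨γ', a, rfl⟩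
      exacts [.inl ⟨_, .cons x a, rfl⟩, .inr ⟨_, a, rfl⟩]

theorem Dn.split : ∀ {n : ℕ} {β γ : List (Symbol T g.NT)} {w : List T}, Dn g n (β ++ γ) w →
    ∃ u v, w = u ++ v ∧ Dn g n β u ∧ Dn g n γ v
  | 0, _, _, _, h => by
    obtain ⟨u, v, a, b, c⟩ := List.append_eq_map_iff.1 h
    exact ⟨u, v, a, b.symm, c.symm⟩
  | _ + 1, _, _, _, .inl h => by
    obtain ⟨u, v, a, b, c⟩ := h.split
    exact ⟨u, v, a, .inl b, .inl c⟩
  | _ + 1, _, _, _, .inr ⟨δ, ⟨r, hr, a⟩, h⟩ => by
    rcases rw_split a with ⟨β', a', rfl⟩ | ⟨γ', a', rfl⟩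
    · obtain ⟨u, v, e, b, c⟩ := h.split
      exact ⟨u, v, e, .inr ⟨_, ⟨r, hr, a'⟩, b⟩, .inl c⟩
    · obtain ⟨u, v, e, b, c⟩ := h.split
      exact ⟨u, v, e, .inl b, .inr ⟨_, ⟨r, hr, a'⟩, c⟩⟩

theorem Dn.nil : ∀ {n : ℕ} {w : List T}, Dn g n [] w → w = []
  | 0, _, h => List.map_eq_nil_iff.1 h.symm
  | _ + 1, _, .inl h => h.nil
  | _ + 1, _, .inr ⟨_, ⟨_, _, a⟩, _⟩ => by simpa using a.nonterminal_input_mem

/-- The words derived from a sentential form. -/
def lang (g : ContextFreeGrammar T) (α : List (Symbol T g.NT)) : Language T :=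
  {w | g.Derives α (w.map Symbol.terminal)}

/-- The relevant sentential forms. -/
def Sg (g : ContextFreeGrammar T) (α : List (Symbol T g.NT)) : Prop :=
  α = [Symbol.nonterminal g.initial] ∨ ∃ r ∈ g.rules, α.Sublist r.output

theorem lang_mul (β γ : List (Symbol T g.NT)) : lang g β * lang g γ ≤ lang g (β ++ γ) := by
  intro w hw
  obtain ⟨u, a, v, b, rfl⟩ := Language.mem_mul.1 hw
  show g.Derives _ _
  rw [List.map_append]
  exact (ContextFreeGrammar.Derives.append_right a γ).trans (.append_left b _)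

/-- A binary splitting of `w` inside the language `K`. -/
def Sp (g : ContextFreeGrammar T) (K : Language T) (w : List T) : Prop :=
  ∃ β γ, Sg g β ∧ Sg g γ ∧ ∃ u ∈ lang g β, ∃ v ∈ lang g γ, u ≠ [] ∧ v ≠ [] ∧ w = u ++ v ∧
    lang g β * lang g γ ≤ K

theorem Sp.mono {K K' : Language T} {w : List T} (h : Sp g K w) (l : K ≤ K') : Sp g K' w := by
  obtain ⟨β, γ, a, b, u, c, v, d, e, f, x, y⟩ := h
  exact ⟨β, γ, a, b, u, c, v, d, e, f, x, y.trans l⟩

theorem sp_step {n : ℕ}
    (hs : ∀ X w, Sg g [X] → Dn g n [X] w → 2 ≤ w.length → Sp g (lang g [X]) w) :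
    ∀ α w, Sg g α → Dn g n α w → 2 ≤ w.length → Sp g (lang g α) w
  | [], w, _, h, l => by simp [h.nil] at l
  | [X], w, a, h, l => hs X w a h l
  | X :: Y :: α, w, a, h, l => by
    obtain ⟨r, hr, a⟩ := a.resolve_left (by simp)
    have a1 : Sg g [X] := .inr ⟨r, hr, .trans (by simp) a⟩
    have a2 : Sg g (Y :: α) := .inr ⟨r, hr, .trans (by simp) a⟩
    obtain ⟨u, v, rfl, b, c⟩ := Dn.split (β := [X]) h
    have m := lang_mul [X] (Y :: α)
    by_cases hu : u = []
    · subst hu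
      refine (sp_step hs (Y :: α) _ a2 c l).mono fun x hx => m ?_
      exact Language.append_mem_mul (a := []) b.der hx
    by_cases hv : v = []
    · subst hv
      rw [List.append_nil] at l ⊢
      refine (hs X _ a1 b l).mono fun x hx => m ?_
      have := Language.append_mem_mul (m := lang g (Y :: α)) (b := []) hx c.der
      rwa [List.append_nil] at this
    exact ⟨_, _, a1, a2, u, b.der, v, c.der, hu, hv, rfl, m⟩

theorem sp_all : ∀ (n : ℕ) α w, Sg g α → Dn g n α w → 2 ≤ w.length → Sp g (lang g α) w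
  | 0 => sp_step fun X w _ h l => by
    have := congrArg List.length h
    simp at this; omega
  | n + 1 => sp_step fun X w a h l => by
    rcases h with h | ⟨β, ⟨r, hr, b⟩, h⟩
    · exact sp_all n _ w a h l
    · have e : β = r.output := by
        generalize e : [X] = z at b
        cases b with
        | head s => obtain ⟨_, rfl⟩ := List.cons.inj e; simp
        | cons y h => obtain ⟨_, rfl⟩ := List.cons.inj e; cases h
      exact (sp_all n _ w (.inr ⟨r, hr, e ▸ .refl _⟩) h l).mono fun x hx =>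
        ContextFreeGrammar.Produces.trans_derives ⟨r, hr, b⟩ hx

/-- A finite family of languages closed under binary splitting. -/
def Bin (F : Finset (Language T)) : Prop :=
  ∀ K ∈ F, ∀ w ∈ K, 2 ≤ w.length → ∃ K1 ∈ F, ∃ K2 ∈ F, ∃ u ∈ K1, ∃ v ∈ K2, u ≠ [] ∧ v ≠ [] ∧
    w = u ++ v ∧ K1 * K2 ≤ K

theorem family {L : Language T} (h : L.IsContextFree) : ∃ F, L ∈ F ∧ Bin F := by
  obtain ⟨g, rfl⟩ := h
  have fin : {α | Sg g α}.Finite := by
    refine ((Set.finite_singleton [Symbol.nonterminal g.initial]).union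
      (g.rules.finite_toSet.biUnion fun r _ => r.output.sublists.finite_toSet)).subset ?_
    rintro α (h | ⟨r, hr, h⟩)
    · exact .inl h
    · exact .inr (Set.mem_biUnion hr (List.mem_sublists.2 h))
  have mem : ∀ K, K ∈ (fin.image (lang g)).toFinset ↔ ∃ α, Sg g α ∧ lang g α = K := by simp
  refine ⟨(fin.image (lang g)).toFinset, (mem _).2 ⟨_, .inl rfl, rfl⟩, fun K hK w hw l => ?_⟩
  obtain ⟨α, a, rfl⟩ := (mem _).1 hK
  obtain ⟨n, hn⟩ := dn_of hw
  obtain ⟨β, γ, b, c, x⟩ := sp_all n α w a hn l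
  exact ⟨_, (mem _).2 ⟨_, b, rfl⟩, _, (mem _).2 ⟨_, c, rfl⟩, x⟩

end Pool.Agent.Lib.MP_5afa16_lc.Gap
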