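import Pool.Agent.Lib.MP_5afa16_lc.GapFock

/-! The identity test on names, as a sum of two cheap orientations; counting of states. -/

namespace Pool.Agent.Lib.MP_5afa16_lc.Gap

variable {N τ : ℕ}

/-- Labels: a cell and an end of the cell for every coordinate. -/
abbrev Lb (N τ : ℕ) := (Fin N → Fin (2 * τ)) × (Fin N → Bool)

/-- The species at an end of a cell. -/
def idx (m : Fin (2 * τ)) (b : Bool) : Fin (2 * τ + 1) := if b then m.succ else m.castSucc

/-- The cheaper orientation. -/
def ori (m : Fin N → Fin (2 * τ)) : Bool :=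
  decide (∑ j, ((m j : ℕ) + 1 - τ : ℤ) ≤ ∑ j, (τ - (m j : ℕ) : ℤ))

/-- The cost of a label. -/
def cost (s : Bool) (l : Lb N τ) : ℤ := ∑ j, dg s (idx (l.1 j) (l.2 j))

theorem cost_le (l : Lb N τ) : cost (ori l.1) l ≤ N := by
  have e : ∑ j, ((l.1 j : ℕ) + 1 - τ : ℤ) + ∑ j, (τ - (l.1 j : ℕ) : ℤ) = N := by
    rw [← Finset.sum_add_distrib]
    simp
  have a : cost true l ≤ ∑ j, ((l.1 j : ℕ) + 1 - τ : ℤ) :=
    Finset.sum_le_sum fun j _ => by cases l.2 j <;> simp [dg, idx]
  have b : cost false l ≤ ∑ j, (τ - (l.1 j : ℕ) : ℤ) :=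
    Finset.sum_le_sum fun j _ => by cases l.2 j <;> simp [dg, idx, sub_le_sub_iff_left, -tsub_le_iff_right]
  cases h : ori l.1
  · have := of_decide_eq_false h
    omega
  · have := of_decide_eq_true h
    omega

/-- Opening operator of a label. -/
noncomputable def E0 (s : Bool) (l : Lb N τ) (x : Fin N → Fin τ → Bool) :
    Module.End ℤ ((Md N τ → Bool) × List Bool → ℤ) :=
  if ori l.1 = s then (List.ofFn fun j =>
    (if l.2 j = s then 1 else -1 : ℤ) • op false s j (idx (l.1 j) (l.2 j)) (x j)).prod else 0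

/-- Closing operator of a label. -/
noncomputable def F0 (s : Bool) (l : Lb N τ) (x : Fin N → Fin τ → Bool) :
    Module.End ℤ ((Md N τ → Bool) × List Bool → ℤ) :=
  (List.ofFn fun j => op true s j (idx (l.1 j) (l.2 j)) (x j)).reverse.prod

theorem sum_EF (s : Bool) (m : Fin N → Fin (2 * τ)) (x y : Fin N → Fin τ → Bool) :
    ∑ b, E0 s (m, b) x * F0 s (m, b) y = if ori m = s then (List.ofFn fun j => ∑ b : Bool,
      (if b = s then 1 else -1 : ℤ) •
        (op false s j (idx (m j) b) (x j) * op true s j (idx (m j) b) (y j))).prod else 0 := by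
  by_cases h : ori m = s
  · rw [if_pos h, ← expand]
    refine Finset.sum_congr rfl fun b _ => ?_
    simp only [E0, F0, if_pos h]
    rw [nest]
    · simp only [smul_mul_assoc]
    · intro i j hij
      rw [smul_mul_assoc]
      exact (op_comm s hij ..).smul_left _
  · simp [E0, h]

theorem EF_id (hτ : 0 < τ) (u v : Fin N → Fin τ → Bool) :
    ∑ l : Lb N τ, E0 true l u * F0 true l v + ∑ l : Lb N τ, E0 false l v * F0 false l u =
      if u = v then 1 else 0 := by
  let ε := fun j i => op (N := N) false true j i (u j) * op true true j i (v j)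
  have h1 : ∀ m : Fin N → Fin (2 * τ), ∑ b, E0 true (m, b) u * F0 true (m, b) v +
      ∑ b, E0 false (m, b) v * F0 false (m, b) u =
      (List.ofFn fun j => ε j (m j).succ - ε j (m j).castSucc).prod := by
    intro m
    rw [sum_EF, sum_EF]
    cases ori m
    · simp only [Bool.false_eq_true, if_false, if_true, zero_add]
      congr 2
      funext j
      have a := op_car hτ j (m j).succ (u j) (v j)
      have b := op_car hτ j (m j).castSucc (u j) (v j)
      simp only [Fintype.sum_bool, idx, ε, Bool.true_eq_false, Bool.false_eq_true, if_false,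
        if_true, neg_smul, one_smul, eq_sub_of_add_eq' a, eq_sub_of_add_eq' b]
      abel
    · simp [idx, ε, sub_eq_add_neg]
  have h2 : ∀ j, ∑ m : Fin (2 * τ), (ε j m.succ - ε j m.castSucc) =
      if u j = v j then 1 else 0 := by
    intro j
    have a := Fin.sum_univ_succ (ε j)
    have b := Fin.sum_univ_castSucc (ε j)
    have c := op_car hτ j (Fin.last _) (u j) (v j)
    have c0 : ε j 0 = 0 := by simp [ε, op]
    have c1 : op (N := N) true false j (Fin.last _) (u j) = 0 := by simp [op]
    rw [c1, mul_zero, add_zero] at c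
    rw [c0, zero_add] at a
    rw [Finset.sum_sub_distrib, ← a, b, add_sub_cancel_left]
    exact c
  simp only [Fintype.sum_prod_type, ← Finset.sum_add_distrib]
  simp only [Finset.sum_add_distrib (s := (Finset.univ : Finset (Fin N → Bool))), h1]
  rw [expand N fun j (m : Fin (2 * τ)) => ε j m.succ - ε j m.castSucc]
  simp only [h2]
  exact prod_delta N u v

theorem line (hτ : 0 < τ) {κ : ℕ} (hκ : Fintype.card (Lb N τ) ≤ 2 ^ κ) :
    ∃ E F : Bool → (Fin N → Fin τ → Bool) → Module.End ℤ ((Md N τ → Bool) × List Bool → ℤ),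
      (∀ s x, SM (pot (wtM N τ)) (E s x) (N + κ : ℕ) (2 ^ κ)) ∧
      (∀ s x, SM (pot (wtM N τ)) (F s x) (-(N + κ : ℕ)) (2 ^ κ)) ∧
      ∀ u v, E true u * F true v + E false v * F false u = if u = v then 1 else 0 := by
  obtain ⟨c⟩ : Nonempty (Lb N τ ↪ (Fin κ → Bool)) :=
    Function.Embedding.nonempty_of_card_le (by simpa using hκ)
  let pad := fun s (l : Lb N τ) => List.replicate (N - cost s l).toNat false
  refine ⟨fun s x => ∑ l, E0 s l x * push (pad s l) * push (List.ofFn (c l)),
    fun s x => ∑ l, pop (List.ofFn (c l)) * pop (pad s l) * F0 s l x, fun s x => ?_, fun s x => ?_,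
    fun u v => ?_⟩
  · refine (SM.sum (m := 1) _ fun l _ => ?_).le le_rfl (by simpa using hκ)
    by_cases h : ori l.1 = s
    · have a : SM (pot (wtM N τ)) (E0 s l x) (cost s l) 1 := by
        simp only [E0, if_pos h]
        exact (SM.prod N _ _ fun j => (sm_op false s j _ _).smul (by split_ifs <;> simp)).1
      refine ((a.mul (sm_push _ _)).mul (sm_push _ _)).le ?_ le_rfl
      have := cost_le l
      rw [h] at this
      simp only [pad, List.length_replicate, List.length_ofFn]
      omega
    · simpa [E0, h] using SM.zero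
  · refine (SM.sum (m := 1) _ fun l _ => ?_).le le_rfl (by simpa using hκ)
    have a : SM (pot (wtM N τ)) (F0 s l x) (-cost s l) 1 := by
      have := (SM.prod N _ _ fun j => sm_op true s j (idx (l.1 j) (l.2 j)) (x j)).2
      simpa [cost, F0] using this
    refine (((sm_pop _ _).mul (sm_pop _ _)).mul a).le ?_ le_rfl
    simp only [pad, List.length_replicate, List.length_ofFn]
    omega
  · have k : ∀ s x y, (∑ l, E0 s l x * push (pad s l) * push (List.ofFn (c l))) *
        ∑ l, pop (List.ofFn (c l)) * pop (pad s l) * F0 s l y = ∑ l, E0 s l x * F0 s l y := by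
      intro s x y
      rw [Finset.sum_mul_sum]
      refine Finset.sum_congr rfl fun l _ => ?_
      have e : ∀ l', E0 s l x * push (pad s l) * push (List.ofFn (c l)) *
          (pop (List.ofFn (c l')) * pop (pad s l') * F0 s l' y) = E0 s l x * (push (pad s l) *
          (push (List.ofFn (c l)) * pop (List.ofFn (c l'))) * pop (pad s l')) * F0 s l' y :=
        fun l' => by simp only [mul_assoc]
      rw [Finset.sum_eq_single l (fun l' _ h => by
        rw [e, push_pop (by simp), if_neg (by simpa [List.ofFn_inj] using h.symm)]; simp) (by simp),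
        e, push_pop rfl, if_pos rfl, mul_one, push_pop rfl, if_pos rfl, mul_one]
    rw [k, k, EF_id hτ]

theorem states (N τ : ℕ) (D : ℕ) : ∃ P : Finset (Fin 3 → (Md N τ → Bool) × List Bool),
    (∀ p : Fin 3 → (Md N τ → Bool) × List Bool, ∑ κ, pot (wtM N τ) (p κ) ≤ D → p ∈ P) ∧
    P.card ≤ 2 ^ (3 * (N * ((2 * τ + 1) * 2 ^ τ) * (1 + 6 * τ) + 2 * D)) := by
  classical
  set c := N * ((2 * τ + 1) * 2 ^ τ) with hc
  have hM : Fintype.card (Md N τ) = c := by simp [hc]
  let L := D + 3 * (c * τ)
  let S : Finset (List Bool) := (Finset.range (L + 1)).biUnion fun k =>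
    Finset.univ.image (List.ofFn : (Fin k → Bool) → List Bool)
  have hS : S.card ≤ 2 ^ (2 * L) := by
    refine (Finset.card_biUnion_le_card_mul _ _ (2 ^ L) fun k hk => ?_).trans ?_
    · refine Finset.card_image_le.trans ?_
      simpa using Nat.pow_le_pow_right (by omega) (Nat.le_of_lt_succ (Finset.mem_range.1 hk))
    · rw [Finset.card_range, two_mul, pow_add 2 L L]
      exact Nat.mul_le_mul_right _ Nat.lt_two_pow_self
  refine ⟨Fintype.piFinset fun _ => Finset.univ ×ˢ S, fun p hp => ?_, ?_⟩
  · have lo : ∀ κ, ((p κ).2.length : ℤ) - c * τ ≤ pot (wtM N τ) (p κ) := by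
      intro κ
      have : ∑ _a : Md N τ, (-τ : ℤ) ≤ ∑ a, if (p κ).1 a then wtM N τ a else 0 :=
        Finset.sum_le_sum fun a _ => by split_ifs <;> simp [wtM]
      rw [Finset.sum_const, Finset.card_univ, hM] at this
      simp only [nsmul_eq_mul, mul_neg] at this
      simp only [pot]
      omega
    simp only [Fintype.mem_piFinset, Finset.mem_product, Finset.mem_univ, true_and, S,
      Finset.mem_biUnion, Finset.mem_range, Finset.mem_image]
    intro κ
    refine ⟨(p κ).2.length, ?_, (p κ).2.get, List.ofFn_get _⟩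
    have h0 := lo 0
    have h1 := lo 1
    have h2 := lo 2
    rw [Fin.sum_univ_three] at hp
    have : (L : ℤ) = D + 3 * (c * τ) := by simp [L]
    fin_cases κ <;> simp only [Fin.zero_eta, Fin.mk_one, Fin.reduceFinMk] <;> omega
  · rw [Fintype.card_piFinset, Finset.prod_const, Finset.card_product, Finset.card_univ,
      Fintype.card_fun, hM, Fintype.card_bool, Finset.card_univ, Fintype.card_fin]
    calc (2 ^ c * S.card) ^ 3 ≤ (2 ^ c * 2 ^ (2 * L)) ^ 3 := by gcongr
      _ = _ := by rw [← pow_add, ← pow_mul]; congr 1; simp only [L]; ring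

end Pool.Agent.Lib.MP_5afa16_lc.Gap
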