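import Pool.Agent.Lib.MP_5afa16_lc.GapBal
import Pool.Agent.Lib.MP_5afa16_lc.GapLine

/-! Assembly and choice of the parameters. -/

namespace Pool.Agent.Lib.MP_5afa16_lc.Gap

variable {T : Type}

/-- A determinant of size `s` decides `L` on words of length `n`. -/
def Dec (L : Language T) (n s : ℕ) : Prop :=
  ∃ (k : Fin s → Fin s → Fin n) (ψ : Fin s → Fin s → T → ℤ), (∀ i j a, |ψ i j a| ≤ 1) ∧
    ∀ w : Fin n → T, 0 ≤ (Matrix.of fun i j => ψ i j (w (k i j))).det ∧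
      ((Matrix.of fun i j => ψ i j (w (k i j))).det ≠ 0 ↔ List.ofFn w ∈ L)

theorem assemble {L : Language T} {F : Finset (Language T)} (hL : L ∈ F) (hF : Bin F)
    {n τ N μ r : ℕ} (hn : 0 < n) (hτ : 0 < τ) (hN : (F.card + 1) ^ 2 * (n + 1) ^ 4 ≤ 2 ^ (τ * N))
    (hμ : 4 * τ ≤ 2 ^ μ) (hr : n ≤ 2 ^ r) :
    ∃ s ≤ 2 ^ (3 * (N * ((2 * τ + 1) * 2 ^ τ) * (1 + 6 * τ) + 2 * (3 * (N + μ * N) * (4 * r))) +
      (12 * r + 3 * (τ * N) + 3 * (μ * N) + 7)), Dec L n s := by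
  classical
  have : NeZero n := ⟨hn.ne'⟩
  have hI : Fintype.card (It F n) ≤ 2 ^ (τ * N) := by
    rw [Fintype.card_coe]; exact it_card.trans hN
  obtain ⟨e⟩ : Nonempty (It F n ↪ (Fin N → Fin τ → Bool)) :=
    Function.Embedding.nonempty_of_card_le (by simpa [← pow_mul] using hI)
  obtain ⟨E, G, hE, hG, hid⟩ := line (N := N) hτ (κ := μ * N) (by
    simp only [Fintype.card_prod, Fintype.card_fun, Fintype.card_fin, Fintype.card_bool]
    rw [← mul_pow, pow_mul]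
    exact Nat.pow_le_pow_left (by omega) _)
  obtain ⟨P, hP, cP⟩ := states N τ (3 * (N + μ * N) * (4 * r))
  have h0 : (L, 1, 0, 0, 0, n) ∈ It F n :=
    mem_it (.inr hL) (.inl rfl) (by omega) (by omega) (by omega) le_rfl
  have g := gadget (lf := Lf F n) lf_lit rl_abs (K := N + μ * N) (m := 2 ^ (μ * N)) (by positivity)
    (E := fun s x => E s (e x)) (F := fun s x => G s (e x)) (fun s x => hE s _) (fun s x => hG s _)
    (fun y y' => by simp [hid]) P hP (4 * r) 0 (fun x => if x = ⟨_, h0⟩ then 1 else 0) 0 0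
    (by positivity) (fun x => by
      split_ifs
      exacts [SM.one.le le_rfl Nat.one_le_two_pow, SM.zero]) (by simp)
  have e1 : ∀ w : Fin n → T, ∑ x, cnt (Lf F n) (Rl F n) (4 * r) x w •
      lift (Y := (Md N τ → Bool) × List Bool) 0 (if x = ⟨_, h0⟩ then 1 else 0) =
      cnt (Lf F n) (Rl F n) (4 * r) ⟨_, h0⟩ w • 1 := fun w => by
    rw [Finset.sum_eq_single ⟨_, h0⟩ (fun b _ h => by simp [h]) (by simp)]
    simp
  simp only [e1] at g
  obtain ⟨s, hs, k, ψ, a, b⟩ := g.det (fun _ => (fun _ => false, [])) (by simp [tot, pot])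
  refine ⟨s, hs.trans ?_, k, ψ, a, fun w => ?_⟩
  · set c := 4 * (Fintype.card (It F n) + 1) ^ 3 * (2 ^ (μ * N)) ^ 3 with hc
    have c1 : c ≤ 2 ^ (3 * (τ * N) + 3 * (μ * N) + 5) := by
      have : Fintype.card (It F n) + 1 ≤ 2 * 2 ^ (τ * N) := by
        have := Nat.one_le_two_pow (n := τ * N); omega
      calc c ≤ 4 * (2 * 2 ^ (τ * N)) ^ 3 * (2 ^ (μ * N)) ^ 3 := by rw [hc]; gcongr
        _ = _ := by ring
    have c2 : sz c (4 * r) + 1 ≤ 2 ^ (12 * r + 3 * (τ * N) + 3 * (μ * N) + 7) := by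
      have := Nat.one_le_two_pow (n := 3 * (τ * N) + 3 * (μ * N) + 5)
      calc sz c (4 * r) + 1 ≤ 8 ^ (4 * r) * (2 * c + 1) := by have := sz_le c (4 * r); omega
        _ ≤ (2 ^ 3) ^ (4 * r) * (4 * 2 ^ (3 * (τ * N) + 3 * (μ * N) + 5)) := by
          gcongr <;> omega
        _ = _ := by rw [← pow_mul]; ring
    rw [pow_add, mul_comm (2 ^ _)]
    refine le_trans ?_ (Nat.mul_le_mul_right _ c2)
    rw [add_mul, one_mul]
    exact Nat.add_le_add (Nat.mul_le_mul_left _ cP) Nat.one_le_two_pow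
  · rw [b]
    exact ⟨cnt_nonneg w _ _, cnt_iff hF hL hr h0⟩

theorem sq_le (t : ℕ) : t * t ≤ 2 * 2 ^ t := by
  induction t with
  | zero => simp
  | succ t ih =>
    have := Nat.lt_two_pow_self (n := t)
    rw [pow_succ]
    nlinarith

theorem expo_le {l a b τ N : ℕ} (hb : 1 ≤ b) (ha : a ≤ 2 * τ + 1) (hτ : 1 ≤ τ) (h2 : 2 * τ ≤ a)
    (hl : 2 ^ a ≤ l) (hN : τ * N ≤ 6 * l) :
    (3 * (N * ((2 * τ + 1) * 2 ^ τ) * (1 + 6 * τ) + 2 * (3 * (N + (b + 2) * N) * (4 * (l + 1)))) +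
      (12 * (l + 1) + 3 * (τ * N) + 3 * ((b + 2) * N) + 7)) * a ≤ 20000 * l ^ 2 * b := by
  have hal : a < l := Nat.lt_two_pow_self.trans_le hl
  have h3 : N * (2 * τ + 1) ≤ 18 * l := by nlinarith
  have h4 : N * a ≤ 18 * l := (Nat.mul_le_mul_left _ ha).trans h3
  have h5 : 2 ^ τ * 2 ^ τ ≤ l := by
    rw [← pow_add]
    exact (Nat.pow_le_pow_right (by omega) (by omega)).trans hl
  have h6 : (1 + 6 * τ) * a ≤ 42 * 2 ^ τ := by nlinarith [sq_le τ]
  have t1 : N * ((2 * τ + 1) * 2 ^ τ) * (1 + 6 * τ) * a ≤ 756 * l ^ 2 := by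
    calc _ = N * (2 * τ + 1) * (2 ^ τ * ((1 + 6 * τ) * a)) := by ring
      _ ≤ 18 * l * (2 ^ τ * (42 * 2 ^ τ)) := by gcongr
      _ = 756 * l * (2 ^ τ * 2 ^ τ) := by ring
      _ ≤ 756 * l * l := by gcongr
      _ = _ := by ring
  have t2 : (b + 3) * (N * a) * (l + 1) ≤ 144 * l ^ 2 * b := by
    calc _ ≤ 4 * b * (18 * l) * (2 * l) := by gcongr <;> omega
      _ = _ := by ring
  have t3 : (b + 2) * (N * a) ≤ 54 * l ^ 2 * b := by
    calc _ ≤ 3 * b * (18 * (l * l)) :=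
          Nat.mul_le_mul (by omega) (h4.trans (Nat.mul_le_mul_left _ (Nat.le_mul_self l)))
      _ = _ := by ring
  have t4 : (12 * (l + 1) + 3 * (τ * N) + 7) * a ≤ 49 * l ^ 2 := by
    calc _ ≤ 49 * l * l := by gcongr; omega
      _ = _ := by ring
  have t5 : l ^ 2 ≤ l ^ 2 * b := Nat.le_mul_of_pos_right _ hb
  nlinarith

theorem nat_bound {L : Language T} (h : L.IsContextFree) : ∃ n0, ∀ n ≥ n0, 2 ≤ Nat.log 2 (Nat.log 2 n) ∧
    ∃ s e, s ≤ 2 ^ e ∧ e * Nat.log 2 (Nat.log 2 n) ≤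
      20000 * Nat.log 2 n ^ 2 * Nat.log 2 (Nat.log 2 (Nat.log 2 n)) ∧ Dec L n s := by
  obtain ⟨F, hL, hF⟩ := family h
  refine ⟨2 ^ (2 * F.card + 4), fun n hn => ?_⟩
  have h1 : 2 * F.card + 4 ≤ Nat.log 2 n := Nat.le_log_of_pow_le (by omega) hn
  have h2 : n < 2 ^ (Nat.log 2 n + 1) := Nat.lt_pow_succ_log_self (by omega) n
  have hn0 : 0 < n := lt_of_lt_of_le (by positivity) hn
  generalize Nat.log 2 n = l at h1 h2
  have h3 : 2 ≤ Nat.log 2 l := Nat.le_log_of_pow_le (by omega) (by omega)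
  have h4 : 2 ^ Nat.log 2 l ≤ l := Nat.pow_log_le_self 2 (by omega)
  generalize Nat.log 2 l = a at h3 h4
  have h5 : 1 ≤ Nat.log 2 a := Nat.le_log_of_pow_le (by omega) (by omega)
  have h6 : a < 2 ^ (Nat.log 2 a + 1) := Nat.lt_pow_succ_log_self (by omega) a
  generalize Nat.log 2 a = b at h5 h6
  have h7 : a < l := Nat.lt_two_pow_self.trans_le h4
  have hτ : 0 < a / 2 := by omega
  have h8 := Nat.div_add_mod (5 * l) (a / 2)
  have h9 := Nat.mod_lt (5 * l) hτ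
  obtain ⟨s, hs, hd⟩ := assemble hL hF (τ := a / 2) (N := 5 * l / (a / 2) + 1) (μ := b + 2)
    (r := l + 1) hn0 hτ (by
      calc (F.card + 1) ^ 2 * (n + 1) ^ 4 ≤ (2 ^ F.card) ^ 2 * (2 ^ (l + 1)) ^ 4 := by
            gcongr
            exacts [Nat.lt_two_pow_self, h2]
        _ ≤ _ := by
            rw [← pow_mul, ← pow_mul, ← pow_add]
            exact Nat.pow_le_pow_right (by omega) (by rw [mul_add (a / 2)]; omega))
    (by rw [pow_succ 2 (b + 1)]; omega) h2.le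
  exact ⟨h3, s, _, hs, expo_le h5 (by omega) hτ (by omega) h4 (by rw [mul_add]; omega), hd⟩

theorem real_bound {L : Language T} (h : L.IsContextFree) : ∃ n0 : ℕ, ∀ n ≥ n0, ∃ s : ℕ,
    Real.log s ≤ 960000 * Real.log n ^ 2 * Real.log (Real.log (Real.log n)) / Real.log (Real.log n) ∧
      Dec L n s := by
  obtain ⟨n0, h⟩ := nat_bound h
  have t1 := Real.tendsto_log_atTop.comp (tendsto_natCast_atTop_atTop (R := ℝ))
  have t2 := Real.tendsto_log_atTop.comp t1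
  have t3 := Real.tendsto_log_atTop.comp t2
  obtain ⟨n1, h'⟩ := Filter.eventually_atTop.1 ((t2.eventually_ge_atTop 1).and
    ((t3.eventually_ge_atTop 1).and (t1.eventually_gt_atTop 0)))
  refine ⟨max n0 n1, fun n hn => ?_⟩
  obtain ⟨ha, s, e, hs, he, hd⟩ := h n (le_of_max_le_left hn)
  obtain ⟨y1, z1, x1⟩ := h' n (le_of_max_le_right hn)
  simp only [Function.comp] at x1 y1 z1
  refine ⟨s, ?_, hd⟩
  have l2 := Real.log_two_gt_d9
  have l2' := Real.log_two_lt_d9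
  have lo : ∀ (k : ℕ) (x : ℝ), 2 ^ k ≤ x → k * Real.log 2 ≤ Real.log x := fun k x hx => by
    rw [← Real.log_pow]; exact Real.log_le_log (by positivity) hx
  have hi : ∀ (k : ℕ) (x : ℝ), 0 < x → x ≤ 2 ^ k → Real.log x ≤ k := fun k x h0 hx => by
    have := Real.log_le_log h0 hx
    rw [Real.log_pow] at this
    nlinarith [Nat.cast_nonneg (α := ℝ) k]
  have hn0 : n ≠ 0 := by rintro rfl; simp at x1
  have a1 := lo (Nat.log 2 n) n (by exact_mod_cast Nat.pow_log_le_self 2 hn0)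
  have a2 := hi (Nat.log 2 n + 1) n (by positivity)
    (by exact_mod_cast (Nat.lt_pow_succ_log_self (by omega) n).le)
  generalize Real.log n = x at *
  generalize Nat.log 2 n = l at *
  have hl0 : l ≠ 0 := by rintro rfl; simp at ha
  have a3 : (l : ℝ) ≤ 2 * x := by nlinarith [Nat.cast_nonneg (α := ℝ) l]
  have b1 := lo (Nat.log 2 l) (2 * x) (le_trans (by exact_mod_cast Nat.pow_log_le_self 2 hl0) a3)
  have b2 := hi (Nat.log 2 l + 1) x x1
    (a2.trans (by exact_mod_cast Nat.lt_pow_succ_log_self (by omega) l))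
  rw [Real.log_mul (by norm_num) x1.ne'] at b1
  generalize Real.log x = y at *
  generalize Nat.log 2 l = a at *
  have ha' : (2 : ℝ) ≤ a := by exact_mod_cast ha
  have b3 : (a : ℝ) ≤ 4 * y := by nlinarith
  have c1 := lo (Nat.log 2 a) (2 ^ 2 * y)
    (le_trans (b := (a : ℝ)) (by exact_mod_cast Nat.pow_log_le_self 2 (show a ≠ 0 by omega))
      (by linarith))
  rw [Real.log_mul (by norm_num) (by linarith), Real.log_pow] at c1
  generalize Real.log y = z at *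
  generalize Nat.log 2 a = b at *
  have c2 : (b : ℝ) ≤ 6 * z := by push_cast at c1; nlinarith [Nat.cast_nonneg (α := ℝ) b]
  have d1 : Real.log s ≤ e := by
    rcases Nat.eq_zero_or_pos s with rfl | h0
    · simp
    · exact hi e s (by exact_mod_cast h0) (by exact_mod_cast hs)
  have d2 : (e : ℝ) * a ≤ 20000 * l ^ 2 * b := by exact_mod_cast he
  rw [le_div_iff₀ (by linarith)]
  push_cast at b2
  calc Real.log s * y ≤ e * (2 * a) := by gcongr; linarith
    _ ≤ 2 * (20000 * l ^ 2 * b) := by linarith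
    _ ≤ 2 * (20000 * (2 * x) ^ 2 * (6 * z)) := by gcongr
    _ = _ := by ring

end Pool.Agent.Lib.MP_5afa16_lc.Gap
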