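import Pool.Agent.Lib.MP_5afa16_lc.GapAbp

/-! Fermion operators with several species, and the two-orientation decomposition of the
identity test. -/

namespace Pool.Agent.Lib.MP_5afa16_lc.Gap

section ring

variable {R : Type} [Ring R]

theorem nest : ∀ (n : ℕ) (e f : Fin n → R), (∀ i j, i ≠ j → Commute (e i * f i) (f j)) →
    (List.ofFn e).prod * (List.ofFn f).reverse.prod = (List.ofFn fun i => e i * f i).prod
  | 0, _, _, _ => by simp
  | n + 1, e, f, h => by
    have ih := nest n (fun i => e i.succ) (fun i => f i.succ) fun i j x =>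
      h _ _ fun y => x (Fin.succ_injective _ y)
    have c : Commute (List.ofFn fun i : Fin n => e i.succ * f i.succ).prod (f 0) :=
      Commute.list_prod_left _ _ fun x hx => by
        obtain ⟨i, rfl⟩ := List.mem_ofFn.1 hx
        exact h _ _ (Fin.succ_ne_zero i)
    simp only [List.ofFn_succ, List.prod_cons, List.reverse_cons, List.prod_append, List.prod_nil,
      mul_one]
    rw [mul_assoc, ← mul_assoc (List.prod _), ih, c.eq, mul_assoc]

theorem expand {ι : Type} [Fintype ι] : ∀ (n : ℕ) (t : Fin n → ι → R),
    ∑ l : Fin n → ι, (List.ofFn fun j => t j (l j)).prod = (List.ofFn fun j => ∑ x, t j x).prod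
  | 0, _ => by simp
  | n + 1, t => by
    rw [← (Fin.consEquiv fun _ => ι).sum_comp, Fintype.sum_prod_type]
    simp only [List.ofFn_succ, List.prod_cons, Fin.consEquiv_apply, Fin.cons_zero, Fin.cons_succ]
    rw [← expand n fun j => t j.succ, Finset.sum_mul_sum]

theorem prod_delta {U : Type} [DecidableEq U] : ∀ (n : ℕ) (u v : Fin n → U),
    (List.ofFn fun j => if u j = v j then (1 : R) else 0).prod = if u = v then 1 else 0
  | 0, u, v => by simp [Subsingleton.elim u v]
  | n + 1, u, v => by
    simp only [List.ofFn_succ, List.prod_cons]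
    rw [prod_delta n (fun j => u j.succ) fun j => v j.succ]
    simp only [funext_iff, Fin.forall_fin_succ]
    by_cases h : u 0 = v 0 <;> simp [h]

end ring

theorem SM.prod {X : Type} {φ : X → ℤ} : ∀ (n : ℕ) (e : Fin n → Module.End ℤ (X → ℤ))
    (d : Fin n → ℤ), (∀ j, SM φ (e j) (d j) 1) →
    SM φ (List.ofFn e).prod (∑ j, d j) 1 ∧ SM φ (List.ofFn e).reverse.prod (∑ j, d j) 1
  | 0, _, _, _ => by simpa using SM.one
  | n + 1, e, d, h => by
    obtain ⟨a, b⟩ := SM.prod n (fun i => e i.succ) (fun i => d i.succ) fun i => h _
    simp only [List.ofFn_succ, List.prod_cons, List.reverse_cons, List.prod_append, List.prod_nil,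
      mul_one, Fin.sum_univ_succ]
    exact ⟨(h 0).mul a, by rw [add_comm (d 0)]; exact b.mul (h 0)⟩

section fock

variable {M : Type} [Fintype M] [DecidableEq M] (lt : M → M → Bool) (wt : M → ℤ)

/-- The Jordan-Wigner sign. -/
def sg (a : M) (p : M → Bool) : ℤ := ∏ c, if lt c a && p c then -1 else 1

theorem sg_update (a b : M) (p : M → Bool) {σ : Bool} (h : p b ≠ σ) :
    sg lt a (Function.update p b σ) = (if lt b a then -1 else 1) * sg lt a p := by
  unfold sg
  rw [← Finset.mul_prod_erase _ _ (Finset.mem_univ b),
    ← Finset.mul_prod_erase Finset.univ _ (Finset.mem_univ b), ← mul_assoc]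
  congr 1
  · cases σ <;> cases lt b a <;> simp_all
  · exact Finset.prod_congr rfl fun c hc => by
      rw [Function.update_of_ne (Finset.ne_of_mem_erase hc)]

omit [DecidableEq M] in
theorem sg_sq (a : M) (p : M → Bool) : sg lt a p * sg lt a p = 1 := by
  unfold sg
  rw [← Finset.prod_mul_distrib]
  exact Finset.prod_eq_one fun c _ => by split_ifs <;> simp

omit [DecidableEq M] in
theorem sg_abs (a : M) (p : M → Bool) : |sg lt a p| ≤ 1 := by
  rcases Int.eq_one_or_neg_one_of_mul_eq_one (sg_sq lt a p) with h | h <;> simp [h]

/-- Creation (`σ = true`) and annihilation (`σ = false`). -/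
def fo (σ : Bool) (a : M) : Module.End ℤ ((M → Bool) × List Bool → ℤ) :=
  mono (fun y => if y.1 a = σ then 0 else sg lt a y.1) fun y => (Function.update y.1 a σ, y.2)

/-- Push a word on the stack. -/
def push (l : List Bool) : Module.End ℤ ((M → Bool) × List Bool → ℤ) :=
  mono (fun _ => 1) fun y => (y.1, l ++ y.2)

/-- Pop a given word from the stack. -/
def pop (l : List Bool) : Module.End ℤ ((M → Bool) × List Bool → ℤ) :=
  mono (fun y => if y.2.take l.length = l then 1 else 0) fun y => (y.1, y.2.drop l.length)

/-- The potential of a register. -/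
def pot (y : (M → Bool) × List Bool) : ℤ := (∑ a, if y.1 a then wt a else 0) + y.2.length

theorem sm_fo (σ : Bool) (a : M) : SM (pot wt) (fo lt σ a) (if σ then wt a else -wt a) 1 := by
  refine SM.of fun y => ⟨?_, fun h => ?_⟩
  · dsimp only
    split_ifs
    exacts [by simp, sg_abs ..]
  · have h' : y.1 a ≠ σ := fun e => h (by simp [e])
    clear h
    have e : ∑ c ∈ Finset.univ.erase a, (if Function.update y.1 a σ c then wt c else 0) =
        ∑ c ∈ Finset.univ.erase a, (if y.1 c then wt c else 0) :=
      Finset.sum_congr rfl fun c hc => by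
        simp only [Function.update_of_ne (Finset.ne_of_mem_erase hc)]
    simp only [pot]
    rw [← Finset.add_sum_erase _ _ (Finset.mem_univ a), e,
      ← Finset.add_sum_erase Finset.univ _ (Finset.mem_univ a)]
    generalize ∑ c ∈ Finset.univ.erase a, (if y.1 c then wt c else 0) = z
    cases σ <;> simp_all <;> omega

omit [DecidableEq M] in
theorem sm_push (l : List Bool) : SM (pot wt) (push l) l.length 1 :=
  SM.of fun y => ⟨by simp, fun _ => by simp [pot]; omega⟩

omit [DecidableEq M] in
theorem sm_pop (l : List Bool) : SM (pot wt) (pop l) (-l.length) 1 := by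
  refine SM.of fun y => ⟨by dsimp only; split_ifs <;> simp, fun h => ?_⟩
  have h' : y.2.take l.length = l := by by_contra e; exact h (by simp [e])
  have := congrArg List.length h'
  simp only [List.length_take] at this
  simp only [pot, List.length_drop]
  omega

omit [Fintype M] [DecidableEq M] in
theorem push_pop {l l' : List Bool} (h : l.length = l'.length) :
    (push l * pop l' : Module.End ℤ ((M → Bool) × List Bool → ℤ)) = if l = l' then 1 else 0 := by
  ext f y
  split_ifs with e <;> simp [push, pop, ← h, e]

theorem fo_pop (σ : Bool) (a : M) (l : List Bool) : Commute (fo lt σ a) (pop l) := by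
  ext f y
  simp [fo, pop]
  split_ifs <;> simp

theorem car_same {a : M} (h : lt a a = false) :
    fo lt true a * fo lt false a + fo lt false a * fo lt true a = 1 := by
  ext f ⟨p, l⟩
  have := sg_sq lt a p
  cases e : p a
  · have e' : Function.update p a false = p := by rw [← e, Function.update_eq_self]
    simp [fo, e, sg_update lt a a p (σ := true) (by simp [e]), h, ← mul_assoc, this, e']
  · have e' : Function.update p a true = p := by rw [← e, Function.update_eq_self]
    simp [fo, e, sg_update lt a a p (σ := false) (by simp [e]), h, ← mul_assoc, this, e']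

theorem fo_swap {a b : M} (h : a ≠ b) (σ σ' : Bool) : fo lt σ a * fo lt σ' b =
    ((if lt a b then -1 else 1) * if lt b a then -1 else 1 : ℤ) • (fo lt σ' b * fo lt σ a) := by
  ext f ⟨p, l⟩
  simp only [fo, Module.End.mul_apply, mono_apply, Function.update_of_ne h,
    Function.update_of_ne h.symm, Function.update_comm h, LinearMap.smul_apply, Pi.smul_apply,
    smul_eq_mul]
  by_cases x : p a = σ
  · simp [x]
  by_cases y : p b = σ'
  · simp [y]
  simp only [x, y, if_false, sg_update lt b a p x, sg_update lt a b p y]
  split_ifs <;> ring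

end fock

section line

variable (N τ : ℕ)

/-- Modes: coordinate, species, letter. -/
abbrev Md := Fin N × Fin (2 * τ + 1) × (Fin τ → Bool)

/-- The order used for the signs; it only compares modes of the same coordinate. -/
noncomputable def ltM (c a : Md N τ) : Bool :=
  decide (c.1 = a.1 ∧ Fintype.equivFin _ c < Fintype.equivFin _ a)

/-- The cost of an occupied mode. -/
def wtM (a : Md N τ) : ℤ := (a.2.1 : ℕ) - τ

variable {N τ}

/-- Opening (`c = false`) and closing (`c = true`) operators in orientation `s`. -/
noncomputable def op (c s : Bool) (j : Fin N) (i : Fin (2 * τ + 1)) (x : Fin τ → Bool) :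
    Module.End ℤ ((Md N τ → Bool) × List Bool → ℤ) :=
  if i = (if s then 0 else Fin.last _) then 0
  else if i = (if s then Fin.last _ else 0) then (if c then pop (List.ofFn x) else push (List.ofFn x))
  else fo (ltM N τ) (s != c) (j, i, x)

/-- The cost of opening. -/
def dg (s : Bool) (i : Fin (2 * τ + 1)) : ℤ := if s then (i : ℕ) - τ else τ - (i : ℕ)

theorem sm_op (c s : Bool) (j : Fin N) (i : Fin (2 * τ + 1)) (x : Fin τ → Bool) :
    SM (pot (wtM N τ)) (op c s j i x) (if c then -dg s i else dg s i) 1 := by
  unfold op
  by_cases h1 : i = (if s then 0 else Fin.last _)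
  · rw [if_pos h1]; exact SM.zero
  rw [if_neg h1]
  by_cases h2 : i = (if s then Fin.last _ else 0)
  · rw [if_pos h2]
    cases c
    · refine (sm_push _ _).le ?_ le_rfl
      cases s <;> simp [h2, dg]; omega
    · refine (sm_pop _ _).le ?_ le_rfl
      cases s <;> simp [h2, dg]; omega
  · rw [if_neg h2]
    refine (sm_fo _ _ _ _).le ?_ le_rfl
    cases s <;> cases c <;> simp [dg, wtM]

theorem pp (u v : Fin τ → Bool) : (push (List.ofFn u) * pop (List.ofFn v) :
    Module.End ℤ ((Md N τ → Bool) × List Bool → ℤ)) = if u = v then 1 else 0 := by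
  rw [push_pop (by simp)]
  simp [List.ofFn_inj]

theorem op_car (hτ : 0 < τ) (j : Fin N) (i : Fin (2 * τ + 1)) (u v : Fin τ → Bool) :
    op false true j i u * op true true j i v + op false false j i v * op true false j i u =
      if u = v then 1 else 0 := by
  have h0 : (0 : Fin (2 * τ + 1)) ≠ Fin.last _ := fun h => by
    have := congrArg Fin.val h
    simp at this; omega
  by_cases h1 : i = 0
  · simp [op, h1, h0, pp, eq_comm]
  by_cases h2 : i = Fin.last _
  · simp [op, h2, h0.symm, pp]
  simp only [op, h1, h2, if_true, if_false, Bool.false_eq_true, Bool.bne_false, bne_self_eq_false,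
    Bool.bne_true, Bool.not_false]
  split_ifs with e
  · subst e
    exact car_same _ (by simp [ltM])
  · have ne : ((j, i, u) : Md N τ) ≠ (j, i, v) := by simp [e]
    rw [fo_swap _ ne]
    rcases lt_or_gt_of_ne ((Fintype.equivFin (Md N τ)).injective.ne ne) with x | x <;>
      simp [ltM, x, x.asymm]

theorem op_comm (s : Bool) {j j' : Fin N} (h : j ≠ j') (i i' : Fin (2 * τ + 1))
    (u v x : Fin τ → Bool) : Commute (op false s j i u * op true s j i v) (op true s j' i' x) := by
  have k : ∀ σ y, Commute (fo (ltM N τ) σ (j, i, y)) (op true s j' i' x) := by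
    intro σ y
    unfold op
    by_cases h1 : i' = (if s then 0 else Fin.last _)
    · simp only [if_pos h1, Commute.zero_right]
    by_cases h2 : i' = (if s then Fin.last _ else 0)
    · simp only [if_neg h1, if_pos h2, if_true]
      exact fo_pop ..
    · simp only [if_neg h1, if_neg h2]
      refine (fo_swap _ (by simp [h]) _ _).trans ?_
      simp [ltM, h, h.symm]
  generalize op true s j' i' x = Z at k
  unfold op
  by_cases h1 : i = (if s then 0 else Fin.last _)
  · simp only [if_pos h1, mul_zero, Commute.zero_left]
  by_cases h2 : i = (if s then Fin.last _ else 0)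
  · simp only [if_neg h1, if_pos h2, if_true, Bool.false_eq_true, if_false, pp]
    split_ifs
    exacts [Commute.one_left _, Commute.zero_left _]
  · simp only [if_neg h1, if_neg h2]
    exact (k _ _).mul_left (k _ _)

end line

end Pool.Agent.Lib.MP_5afa16_lc.Gap
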