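import Pool.Agent.Lib.MP_5afa16_lc.GapFinal

/-! One Dirac sea for every binary digit of a name. The opening and the closing side choose
their energy levels independently; only the total energy is recorded on the stack. -/

namespace Pool.Agent.Lib.MP_5afa16_lc.Gap

section ring

variable {R : Type} [Ring R]

theorem prod_single : ∀ (n : ℕ) (a : Fin n → ℤ) (r : Fin n → R),
    (List.ofFn fun j => (AddMonoidAlgebra.single (a j) (r j) : AddMonoidAlgebra R ℤ)).prod =
      AddMonoidAlgebra.single (∑ j, a j) (List.ofFn r).prod
  | 0, _, _ => by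
    simp only [List.ofFn_zero, List.prod_nil, Finset.univ_eq_empty, Finset.sum_empty]
    rfl
  | n + 1, a, r => by
    simp only [List.ofFn_succ, List.prod_cons, Fin.sum_univ_succ]
    rw [prod_single n (fun j => a j.succ) fun j => r j.succ, AddMonoidAlgebra.single_mul_single]

theorem merge {ι ι' : Type} [Fintype ι] [Fintype ι'] (n : ℕ) (a : Fin n → ι → ι' → ℤ)
    (r : Fin n → ι → ι' → R) :
    ∑ l : Fin n → ι, ∑ l' : Fin n → ι', (if ∑ j, a j (l j) (l' j) = 0 then
      (List.ofFn fun j => r j (l j) (l' j)).prod else 0) =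
    ((List.ofFn fun j => ∑ x, ∑ y,
      (AddMonoidAlgebra.single (a j x y) (r j x y) : AddMonoidAlgebra R ℤ)).prod).coeff 0 := by
  have e := expand n fun j (x : ι × ι') =>
    (AddMonoidAlgebra.single (a j x.1 x.2) (r j x.1 x.2) : AddMonoidAlgebra R ℤ)
  simp only [Fintype.sum_prod_type] at e
  rw [← e, AddMonoidAlgebra.coeff_sum, Finsupp.finsetSum_apply, ← Fintype.sum_prod_type',
    ← (Equiv.arrowProdEquivProdArrow (Fin n) (fun _ => ι) fun _ => ι').sum_comp]
  refine Finset.sum_congr rfl fun l _ => ?_
  rw [prod_single n (fun j => a j (l j).1 (l j).2) fun j => r j (l j).1 (l j).2,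
    AddMonoidAlgebra.coeff_single, Finsupp.single_apply]
  rfl

end ring

section weight

variable {M : Type} [Fintype M] [DecidableEq M] (lt : M → M → Bool) (wt : M → ℤ) (w : ℕ)

/-- The weight of a stack word. -/
def W (l : List Bool) : ℕ := (l.map fun b => if b then w else 1).sum

theorem W_append (l l' : List Bool) : W w (l ++ l') = W w l + W w l' := by simp [W]

/-- The energy of the modes above the ground state. -/
def en (p : M → Bool) : ℤ := ∑ a, if p a then max (wt a) 0 else max (-wt a) 0

/-- The potential of a register. -/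
def pt (y : (M → Bool) × List Bool) : ℤ := en wt y.1 + W w y.2

theorem sm_fo2 (σ : Bool) (a : M) : SM (pt wt w) (fo lt σ a) (if σ then wt a else -wt a) 1 := by
  refine SM.of fun y => ⟨?_, fun h => ?_⟩
  · dsimp only
    split_ifs
    exacts [by simp, sg_abs ..]
  · have h' : y.1 a ≠ σ := fun e => h (by simp [e])
    clear h
    have e : ∑ c ∈ Finset.univ.erase a,
        (if Function.update y.1 a σ c then max (wt c) 0 else max (-wt c) 0) =
        ∑ c ∈ Finset.univ.erase a, (if y.1 c then max (wt c) 0 else max (-wt c) 0) :=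
      Finset.sum_congr rfl fun c hc => by
        simp only [Function.update_of_ne (Finset.ne_of_mem_erase hc)]
    simp only [pt, en]
    rw [← Finset.add_sum_erase _ _ (Finset.mem_univ a), e,
      ← Finset.add_sum_erase Finset.univ _ (Finset.mem_univ a)]
    generalize ∑ c ∈ Finset.univ.erase a, (if y.1 c then max (wt c) 0 else max (-wt c) 0) = z
    cases σ <;> simp_all <;> omega

omit [DecidableEq M] in
theorem sm_push2 (l : List Bool) : SM (pt wt w) (push l) (W w l) 1 :=
  SM.of fun y => ⟨by simp, fun _ => by simp [pt, W_append]; omega⟩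

omit [DecidableEq M] in
theorem sm_pop2 (l : List Bool) : SM (pt wt w) (pop l) (-W w l) 1 := by
  refine SM.of fun y => ⟨by dsimp only; split_ifs <;> simp, fun h => ?_⟩
  have h' : y.2.take l.length = l := by by_contra e; exact h (by simp [e])
  have := congrArg (W w) (List.take_append_drop l.length y.2)
  rw [W_append, h'] at this
  simp only [pt]
  omega

/-- A number in unary, with an end mark. -/
def un : ℕ → List Bool
  | 0 => [true]
  | a + 1 => false :: un a

theorem W_un : ∀ a, W w (un a) = a + w
  | 0 => by simp [W, un]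
  | a + 1 => by have := W_un a; simp only [W, un, List.map_cons, List.sum_cons] at this ⊢; simp; omega

theorem un_take : ∀ (a b : ℕ) (l : List Bool), (un a ++ l).take (un b).length = un b ↔ a = b
  | 0, 0, l => by simp [un]
  | 0, b + 1, l => by simp [un]
  | a + 1, 0, l => by simp [un]
  | a + 1, b + 1, l => by simp [un, un_take a b l]

omit [Fintype M] [DecidableEq M] in
theorem push_pop_un (a b : ℕ) :
    (push (un a) * pop (un b) : Module.End ℤ ((M → Bool) × List Bool → ℤ)) =
      if a = b then 1 else 0 := by
  ext f y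
  split_ifs with e
  · simp [push, pop, e]
  · simp [push, pop, un_take, e]

end weight

section line

variable (N τ : ℕ)

/-- Modes: digit, energy level, value of the digit. -/
abbrev Mb := Fin N × Fin (2 * τ + 1) × Bool

/-- The order used for the signs; it only compares modes of the same digit. -/
noncomputable def ltB (c a : Mb N τ) : Bool :=
  decide (c.1 = a.1 ∧ Fintype.equivFin _ c < Fintype.equivFin _ a)

/-- The energy of a mode. -/
def wtB (a : Mb N τ) : ℤ := (a.2.1 : ℕ) - τ

variable {N τ}

/-- Opening (`c = false`) and closing (`c = true`) operators in orientation `s`. -/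
noncomputable def oq (c s : Bool) (j : Fin N) (i : Fin (2 * τ + 1)) (x : Bool) :
    Module.End ℤ ((Mb N τ → Bool) × List Bool → ℤ) :=
  if i = (if s then 0 else Fin.last _) then 0
  else if i = (if s then Fin.last _ else 0) then (if c then pop [!x, x] else push [!x, x])
  else if c then pop [false, false] * fo (ltB N τ) (!s) (j, i, x)
  else fo (ltB N τ) s (j, i, x) * push [false, false]

theorem sm_oq (c s : Bool) (j : Fin N) (i : Fin (2 * τ + 1)) (x : Bool) :
    SM (pt (wtB N τ) (τ + 1)) (oq c s j i x) (if c then -(dg s i + 2) else dg s i + 2) 1 := by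
  unfold oq
  by_cases h1 : i = (if s then 0 else Fin.last _)
  · rw [if_pos h1]; exact SM.zero
  rw [if_neg h1]
  by_cases h2 : i = (if s then Fin.last _ else 0)
  · rw [if_pos h2]
    cases c
    · refine (sm_push2 _ _ _).le ?_ le_rfl
      cases s <;> cases x <;> simp [h2, dg, W] <;> omega
    · refine (sm_pop2 _ _ _).le ?_ le_rfl
      cases s <;> cases x <;> simp [h2, dg, W] <;> omega
  · rw [if_neg h2]
    cases c
    · refine ((sm_fo2 _ _ _ _ _).mul (sm_push2 _ _ _)).le ?_ le_rfl
      cases s <;> simp [dg, wtB, W]
    · refine ((sm_pop2 _ _ _).mul (sm_fo2 _ _ _ _ _)).le ?_ le_rfl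
      cases s <;> simp [dg, wtB, W]

theorem oq_mul (hτ : 0 < τ) (s : Bool) (j : Fin N) (i i' : Fin (2 * τ + 1)) (x y : Bool) :
    oq false s j i x * oq true s j i' y =
      if (i ≠ 0 ∧ i ≠ Fin.last _) ∧ (i' ≠ 0 ∧ i' ≠ Fin.last _) then
        fo (ltB N τ) s (j, i, x) * fo (ltB N τ) (!s) (j, i', y)
      else if i = (if s then Fin.last _ else 0) ∧ i' = i ∧ x = y then 1 else 0 := by
  have h0 : (0 : Fin (2 * τ + 1)) ≠ Fin.last _ := fun h => by
    have := congrArg Fin.val h
    simp at this; omega
  have p1 : ∀ (x : Bool) (A : Module.End ℤ ((Mb N τ → Bool) × List Bool → ℤ)),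
      push [!x, x] * (pop [false, false] * A) = 0 := fun x A => by
    rw [← mul_assoc, push_pop (by simp)]; cases x <;> simp
  have p2 : ∀ (x : Bool) (A : Module.End ℤ ((Mb N τ → Bool) × List Bool → ℤ)),
      A * push [false, false] * pop [!x, x] = 0 := fun x A => by
    rw [mul_assoc, push_pop (by simp)]; cases x <;> simp
  have p3 : ∀ (A B : Module.End ℤ ((Mb N τ → Bool) × List Bool → ℤ)),
      A * push [false, false] * (pop [false, false] * B) = A * B := fun A B => by
    rw [mul_assoc, ← mul_assoc (push _), push_pop rfl]; simp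
  have p4 : (push [!x, x] * pop [!y, y] : Module.End ℤ ((Mb N τ → Bool) × List Bool → ℤ)) =
      if x = y then 1 else 0 := by
    rw [push_pop (by simp)]; cases x <;> cases y <;> simp
  have h1 := h0.symm
  unfold oq
  by_cases a : i = 0
  · subst a
    by_cases a' : i' = 0
    · subst a'
      cases s <;> simp [h0, h1, p4]
    · by_cases b' : i' = Fin.last _
      · subst b'
        cases s <;> simp [h0, h1]
      · cases s <;> simp [h0, h1, a', b', p1]
  · by_cases b : i = Fin.last _
    · subst b
      by_cases a' : i' = 0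
      · subst a'
        cases s <;> simp [h0, h1]
      · by_cases b' : i' = Fin.last _
        · subst b'
          cases s <;> simp [h0, h1, p4]
        · cases s <;> simp [h0, h1, a', b', p1]
    · by_cases a' : i' = 0
      · subst a'
        cases s <;> simp [h0, h1, a, b, p2]
      · by_cases b' : i' = Fin.last _
        · subst b'
          cases s <;> simp [h0, h1, a, b, p2]
        · cases s <;> simp [a, b, a', b', p3]

theorem oq_car (hτ : 0 < τ) (j : Fin N) (i i' : Fin (2 * τ + 1)) (u v : Bool) :
    oq false true j i u * oq true true j i' v + oq false false j i' v * oq true false j i u =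
      if i = i' ∧ u = v then 1 else 0 := by
  have h0 : (0 : Fin (2 * τ + 1)) ≠ Fin.last _ := fun h => by
    have := congrArg Fin.val h
    simp at this; omega
  rw [oq_mul hτ, oq_mul hτ]
  by_cases h : (i ≠ 0 ∧ i ≠ Fin.last _) ∧ (i' ≠ 0 ∧ i' ≠ Fin.last _)
  · rw [if_pos h, if_pos h.symm]
    simp only [Bool.not_true, Bool.not_false]
    split_ifs with e
    · obtain ⟨rfl, rfl⟩ := e
      exact car_same _ (by simp [ltB])
    · have ne : ((j, i, u) : Mb N τ) ≠ (j, i', v) := by simpa using e
      rw [fo_swap _ ne]
      rcases lt_or_gt_of_ne ((Fintype.equivFin (Mb N τ)).injective.ne ne) with x | x <;>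
        simp [ltB, x, x.asymm]
  · have h' : ¬((i' ≠ 0 ∧ i' ≠ Fin.last _) ∧ (i ≠ 0 ∧ i ≠ Fin.last _)) := fun h' => h h'.symm
    rw [if_neg h, if_neg h']
    by_cases e : i = i'
    · subst e
      by_cases a : i = 0
      · subst a
        simp [h0, eq_comm (a := v)]
      · have b : i = Fin.last _ := by tauto
        subst b
        simp [a]
    · simp [e, Ne.symm e]

theorem oq_comm (hτ : 0 < τ) (s : Bool) {j j' : Fin N} (h : j ≠ j')
    (i i' i'' : Fin (2 * τ + 1)) (u v x : Bool) :
    Commute (oq false s j i u * oq true s j i' v) (oq true s j' i'' x) := by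
  have k : ∀ σ i y, Commute (fo (ltB N τ) σ (j, i, y)) (oq true s j' i'' x) := by
    intro σ i y
    unfold oq
    by_cases h1 : i'' = (if s then 0 else Fin.last _)
    · simp only [if_pos h1, Commute.zero_right]
    by_cases h2 : i'' = (if s then Fin.last _ else 0)
    · simp only [if_neg h1, if_pos h2, if_true]
      exact fo_pop ..
    · simp only [if_neg h1, if_neg h2, if_true]
      refine (fo_pop ..).mul_right ((fo_swap _ (by simp [h]) _ _).trans ?_)
      simp [ltB, h, h.symm]
  rw [oq_mul hτ]
  split_ifs
  exacts [(k ..).mul_left (k ..), Commute.one_left _, Commute.zero_left _,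
    Commute.one_left _, Commute.zero_left _]

end line

end Pool.Agent.Lib.MP_5afa16_lc.Gap
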