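import Pool.Agent.Lib.MP_5afa16_lc.GapSeaLine

/-! Counting of states at temperature `r`, assembly and choice of the parameters. -/

namespace Pool.Agent.Lib.MP_5afa16_lc.Gap

theorem kraft {β : ℝ} {w : ℕ} (hβ : 1 ≤ β) (h : β ^ w + 1 ≤ β ^ (w + 1)) (D : ℕ) :
    ∃ S : Finset (List Bool), (∀ l, W (w + 1) l ≤ D → l ∈ S) ∧ (S.card : ℝ) ≤ (D + 1) * β ^ D := by
  classical
  induction D using Nat.strong_induction_on with
  | _ D ih =>
    cases D with
    | zero =>
      refine ⟨{[]}, fun l hl => ?_, by simp⟩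
      cases l with
      | nil => simp
      | cons b l => cases b <;> simp [W] at hl
    | succ D =>
      obtain ⟨S, a, b⟩ := ih D (by omega)
      obtain ⟨S', a', b'⟩ := ih (D - w) (by omega)
      have p0 : (1 : ℝ) ≤ β ^ (D + 1) := one_le_pow₀ hβ
      have p1 : (0 : ℝ) ≤ β ^ D := by positivity
      by_cases hw : w ≤ D
      · refine ⟨insert [] (S.image (false :: ·) ∪ S'.image (true :: ·)), fun l hl => ?_, ?_⟩
        · cases l with
          | nil => simp
          | cons c l =>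
            cases c
            · have : W (w + 1) l ≤ D := by simp [W] at hl ⊢; omega
              simp [a l this]
            · have : W (w + 1) l ≤ D - w := by simp [W] at hl ⊢; omega
              simp [a' l this]
        · have c : (insert [] (S.image (false :: ·) ∪ S'.image (true :: ·))).card ≤
              S.card + S'.card + 1 := (Finset.card_insert_le _ _).trans (Nat.succ_le_succ
            ((Finset.card_union_le _ _).trans
              (Nat.add_le_add Finset.card_image_le Finset.card_image_le)))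
          have c' : (((D - w : ℕ) : ℝ) + 1) * β ^ (D - w) ≤ (D + 1) * β ^ (D - w) := by
            gcongr
            exact Nat.sub_le _ _
          have e1 : β ^ D = β ^ (D - w) * β ^ w := by rw [← pow_add]; congr 1; omega
          have e2 : β ^ (D + 1) = β ^ (D - w) * β ^ (w + 1) := by rw [← pow_add]; congr 1; omega
          have e3 : β ^ D + β ^ (D - w) ≤ β ^ (D + 1) := by
            rw [e1, e2, ← mul_add_one]
            gcongr
          have c2 : ((insert [] (S.image (false :: ·) ∪ S'.image (true :: ·))).card : ℝ) ≤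
              S.card + S'.card + 1 := by exact_mod_cast c
          have e4 : ((D : ℝ) + 1) * (β ^ D + β ^ (D - w)) ≤ (D + 1) * β ^ (D + 1) := by gcongr
          push_cast
          nlinarith
      · refine ⟨insert [] (S.image (false :: ·)), fun l hl => ?_, ?_⟩
        · cases l with
          | nil => simp
          | cons c l =>
            cases c
            · have : W (w + 1) l ≤ D := by simp [W] at hl ⊢; omega
              simp [a l this]
            · simp [W] at hl; omega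
        · have c : (insert [] (S.image (false :: ·))).card ≤ S.card + 1 :=
            (Finset.card_insert_le _ _).trans (Nat.succ_le_succ Finset.card_image_le)
          have c2 : ((insert [] (S.image (false :: ·))).card : ℝ) ≤ S.card + 1 := by exact_mod_cast c
          have e4 : ((D : ℝ) + 1) * β ^ D ≤ (D + 1) * β ^ (D + 1) := by
            gcongr
            omega
          push_cast
          nlinarith

theorem count_le {M : Type} [Fintype M] [DecidableEq M] (g : M → Bool → ℕ) {β : ℝ} (hβ : 1 ≤ β)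
    (D : ℕ) : ((Finset.univ.filter fun p : M → Bool => ∑ a, g a (p a) ≤ D).card : ℝ) ≤
      β ^ D * ∏ a, (β⁻¹ ^ g a true + β⁻¹ ^ g a false) := by
  have h0 : 0 < β := by linarith
  have e : ∏ a, (β⁻¹ ^ g a true + β⁻¹ ^ g a false) = ∑ p : M → Bool, β⁻¹ ^ ∑ a, g a (p a) := by
    have := Finset.prod_univ_sum (fun _ : M => (Finset.univ : Finset Bool))
      fun a b => β⁻¹ ^ g a b
    simp only [Fintype.sum_bool, Fintype.piFinset_univ, Finset.prod_pow_eq_pow_sum] at this
    exact this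
  rw [e, Finset.mul_sum, Finset.card_filter]
  push_cast
  refine Finset.sum_le_sum fun p _ => ?_
  split_ifs with h
  · rw [inv_pow, ← div_eq_mul_inv, one_le_div (by positivity)]
    exact pow_le_pow_right₀ hβ h
  · positivity

theorem sum_abs (q : ℝ) : ∀ τ : ℕ, ∑ i ∈ Finset.range (2 * τ + 1), q ^ ((i : ℤ) - τ).natAbs + 1 =
    2 * ∑ i ∈ Finset.range (τ + 1), q ^ i
  | 0 => by simp; norm_num
  | τ + 1 => by
    have ih := sum_abs q τ
    rw [show 2 * (τ + 1) + 1 = 2 * τ + 1 + 1 + 1 by ring, Finset.sum_range_succ,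
      Finset.sum_range_succ', Finset.sum_range_succ _ (τ + 1), mul_add, ← ih]
    have e1 : ∀ i : ℕ, (((i + 1 : ℕ) : ℤ) - (τ + 1 : ℕ)).natAbs = ((i : ℤ) - τ).natAbs := by
      intro i; omega
    have e2 : (((0 : ℕ) : ℤ) - (τ + 1 : ℕ)).natAbs = τ + 1 := by omega
    have e3 : (((2 * τ + 1 + 1 : ℕ) : ℤ) - (τ + 1 : ℕ)).natAbs = τ + 1 := by omega
    rw [e2, e3, Finset.sum_congr rfl fun i _ => congrArg (q ^ ·) (e1 i)]
    ring

theorem states2 (N : ℕ) {r t : ℕ} (hr : 0 < r) (ht : r ≤ 2 ^ t) {D e : ℕ} (hD : D ≤ r * e) :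
    ∃ P : Finset (Fin 3 → (Mb N (r * t) → Bool) × List Bool),
      (∀ p, tot (pt (wtB N (r * t)) (r * t + 1)) p ≤ D → p ∈ P) ∧
      P.card ≤ 2 ^ (3 * (5 * e + 8 * (N * (r + 1)) + r)) := by
  classical
  have r0 : (0 : ℝ) < r := by exact_mod_cast hr
  set β : ℝ := 1 + 1 / r with hβ
  have b1 : 1 ≤ β := by rw [hβ]; exact le_add_of_nonneg_right (by positivity)
  have b2 : 2 ≤ β ^ r := by
    have := one_add_mul_le_pow (a := 1 / (r : ℝ)) (by linarith [one_div_pos.2 r0]) r
    rw [mul_one_div_cancel r0.ne'] at this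
    linarith
  have e4 : Real.exp 1 ≤ 4 := by linarith [Real.exp_one_lt_d9]
  have b3 : β ^ r ≤ 4 := by
    have h1 : β ≤ Real.exp (1 / r) := by rw [hβ, add_comm]; exact Real.add_one_le_exp _
    calc β ^ r ≤ Real.exp (1 / r) ^ r := by gcongr
      _ = Real.exp 1 := by rw [← Real.exp_nat_mul, mul_one_div_cancel r0.ne']
      _ ≤ 4 := e4
  have b4 : β ^ D ≤ 4 ^ e := by
    calc β ^ D ≤ β ^ (r * e) := pow_le_pow_right₀ b1 hD
      _ ≤ 4 ^ e := by rw [pow_mul]; gcongr
  have b5 : β ^ (r * t) + 1 ≤ β ^ (r * t + 1) := by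
    have h1 : (r : ℝ) ≤ β ^ (r * t) := by
      calc (r : ℝ) ≤ 2 ^ t := by exact_mod_cast ht
        _ ≤ (β ^ r) ^ t := by gcongr
        _ = _ := by rw [pow_mul]
    have h2 : 1 ≤ β ^ (r * t) * (1 / r) := by rw [mul_one_div, one_le_div r0]; exact h1
    rw [pow_succ]
    nth_rewrite 3 [hβ]
    rw [mul_add, mul_one]
    linarith
  obtain ⟨S, hS, cS⟩ := kraft b1 b5 D
  let g : Mb N (r * t) → Bool → ℕ := fun a b =>
    (if b then max (wtB N (r * t) a) 0 else max (-wtB N (r * t) a) 0).toNat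
  have c1 := count_le g b1 D
  have q1 : β⁻¹ * (r + 1) = r := by rw [hβ]; field_simp
  have q0 : 0 ≤ β⁻¹ := by positivity
  have c2 : ∑ i ∈ Finset.range (r * t + 1), β⁻¹ ^ i ≤ r + 1 := by
    have h1 := mul_neg_geom_sum β⁻¹ (r * t + 1)
    have h2 : 0 ≤ β⁻¹ ^ (r * t + 1) := by positivity
    generalize ∑ i ∈ Finset.range (r * t + 1), β⁻¹ ^ i = x at *
    have h3 : x = (r + 1) * ((1 - β⁻¹) * x) := by linear_combination x * q1
    rw [h3, h1]
    nlinarith
  have c3 : ∏ a, (β⁻¹ ^ g a true + β⁻¹ ^ g a false) ≤ 4 ^ (4 * (N * (r + 1))) := by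
    have h1 : ∀ a, β⁻¹ ^ g a true + β⁻¹ ^ g a false ≤
        Real.exp (β⁻¹ ^ (wtB N (r * t) a).natAbs) := by
      intro a
      refine le_trans (le_of_eq ?_) (Real.add_one_le_exp _)
      simp only [g, if_true, Bool.false_eq_true, if_false]
      generalize wtB N (r * t) a = z
      rcases le_total 0 z with h | h
      · rw [show (max z 0).toNat = z.natAbs by omega, show (max (-z) 0).toNat = 0 by omega, pow_zero]
      · rw [show (max z 0).toNat = 0 by omega, show (max (-z) 0).toNat = z.natAbs by omega, pow_zero,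
          add_comm]
    have h2 : ∑ a : Mb N (r * t), β⁻¹ ^ (wtB N (r * t) a).natAbs ≤ (4 * (N * (r + 1)) : ℕ) := by
      have := sum_abs β⁻¹ (r * t)
      rw [Finset.sum_range] at this
      simp only [Fintype.sum_prod_type, wtB, Finset.sum_const, Finset.card_univ, Fintype.card_bool,
        Fintype.card_fin, nsmul_eq_mul, ← Finset.mul_sum]
      have h3 : ∑ i : Fin (2 * (r * t) + 1), β⁻¹ ^ (((i : ℕ) : ℤ) - (r * t : ℕ)).natAbs ≤
          2 * (r + 1) := by linarith
      calc _ ≤ (N : ℝ) * (((2 : ℕ) : ℝ) * (2 * (r + 1))) := by gcongr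
        _ = _ := by push_cast; ring
    calc _ ≤ ∏ a, Real.exp (β⁻¹ ^ (wtB N (r * t) a).natAbs) :=
          Finset.prod_le_prod (fun a _ => by positivity) fun a _ => h1 a
      _ = Real.exp (∑ a, β⁻¹ ^ (wtB N (r * t) a).natAbs) := (Real.exp_sum _ _).symm
      _ ≤ Real.exp ((4 * (N * (r + 1)) : ℕ) * 1) := by rw [mul_one]; gcongr
      _ ≤ _ := by rw [Real.exp_nat_mul]; gcongr
  set S1 := Finset.univ.filter fun p : Mb N (r * t) → Bool => ∑ a, g a (p a) ≤ D with hS1
  have ge : ∀ p : Mb N (r * t) → Bool, en (wtB N (r * t)) p = (∑ a, g a (p a) : ℕ) := by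
    intro p
    simp only [en, g, Nat.cast_sum]
    exact Finset.sum_congr rfl fun a _ => by split_ifs <;> omega
  refine ⟨Fintype.piFinset fun _ => S1 ×ˢ S, fun p hp => ?_, ?_⟩
  · simp only [tot, pt, ge, Fin.sum_univ_three] at hp
    simp only [Fintype.mem_piFinset, Finset.mem_product, hS1, Finset.mem_filter, Finset.mem_univ,
      true_and]
    intro κ
    refine ⟨?_, hS _ ?_⟩ <;> fin_cases κ <;> simp only [Fin.zero_eta, Fin.mk_one, Fin.reduceFinMk] <;>
      omega
  · rw [Fintype.card_piFinset, Finset.prod_const, Finset.card_product, Finset.card_univ,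
      Fintype.card_fin, mul_comm 3, pow_mul]
    refine Nat.pow_le_pow_left ?_ 3
    have d1 : D + 1 ≤ 2 ^ r * 2 ^ e := by
      have := Nat.lt_two_pow_self (n := r)
      have := Nat.lt_two_pow_self (n := e)
      calc D + 1 ≤ (r + 1) * (e + 1) := by nlinarith
        _ ≤ _ := Nat.mul_le_mul (by omega) (by omega)
    have d2 : (D : ℝ) + 1 ≤ 2 ^ r * 2 ^ e := by exact_mod_cast d1
    have : ((S1.card * S.card : ℕ) : ℝ) ≤ ((2 ^ (5 * e + 8 * (N * (r + 1)) + r) : ℕ) : ℝ) := by
      push_cast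
      have f1 : (S1.card : ℝ) ≤ 4 ^ e * 4 ^ (4 * (N * (r + 1))) :=
        c1.trans (mul_le_mul b4 c3 (Finset.prod_nonneg fun a _ => by positivity) (by positivity))
      have f2 : (S.card : ℝ) ≤ (2 ^ r * 2 ^ e) * 4 ^ e :=
        cS.trans (mul_le_mul d2 b4 (by positivity) (by positivity))
      calc (S1.card : ℝ) * S.card ≤ (4 ^ e * 4 ^ (4 * (N * (r + 1)))) * ((2 ^ r * 2 ^ e) * 4 ^ e) :=
            mul_le_mul f1 f2 (Nat.cast_nonneg _) (by positivity)
        _ = _ := by
            rw [show (4 : ℝ) = 2 ^ 2 by norm_num]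
            simp only [← pow_mul, ← pow_add]
            congr 1
            ring
    exact_mod_cast this

variable {T : Type}

theorem assemble2 {L : Language T} {F : Finset (Language T)} (hL : L ∈ F) (hF : Bin F)
    {n N r t μ g e : ℕ} (hn : 0 < n) (hr : 0 < r) (ht0 : 0 < t) (ht : r ≤ 2 ^ t)
    (hN : (F.card + 1) ^ 2 * (n + 1) ^ 4 ≤ 2 ^ N) (hμ : 4 * (r * t) ≤ 2 ^ μ) (hg : n ≤ 2 ^ g)
    (he : 3 * (3 * N + r * t + 1) * (4 * g) ≤ r * e) :
    ∃ s ≤ 2 ^ (3 * (5 * e + 8 * (N * (r + 1)) + r) + (12 * g + 3 * N + 3 * (μ * N) + 7)),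
      Dec L n s := by
  classical
  have : NeZero n := ⟨hn.ne'⟩
  have hτ : 0 < r * t := Nat.mul_pos hr ht0
  have hI : Fintype.card (It F n) ≤ 2 ^ N := by
    rw [Fintype.card_coe]; exact it_card.trans hN
  obtain ⟨em⟩ : Nonempty (It F n ↪ (Fin N → Bool)) :=
    Function.Embedding.nonempty_of_card_le (by simpa using hI)
  obtain ⟨E, G, hE, hG, hid⟩ := line2 (N := N) hτ
  have hm : (4 * (r * t)) ^ N ≤ 2 ^ (μ * N) := by
    rw [pow_mul]; exact Nat.pow_le_pow_left hμ _
  obtain ⟨P, hP, cP⟩ := states2 N hr ht he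
  have h0 : (L, 1, 0, 0, 0, n) ∈ It F n :=
    mem_it (.inr hL) (.inl rfl) (by omega) (by omega) (by omega) le_rfl
  have gd := gadget (lf := Lf F n) lf_lit rl_abs (K := 3 * N + r * t + 1) (m := 2 ^ (μ * N))
    (by positivity) (E := fun s x => E s (em x)) (F := fun s x => G s (em x))
    (fun s x => (hE s _).le le_rfl hm) (fun s x => (hG s _).le le_rfl hm)
    (fun y y' => by simp [hid]) P hP (4 * g) 0 (fun x => if x = ⟨_, h0⟩ then 1 else 0) 0 0
    (by positivity) (fun x => by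
      split_ifs
      exacts [SM.one.le le_rfl Nat.one_le_two_pow, SM.zero]) (by simp)
  have e1 : ∀ w : Fin n → T, ∑ x, cnt (Lf F n) (Rl F n) (4 * g) x w •
      lift (Y := (Mb N (r * t) → Bool) × List Bool) 0 (if x = ⟨_, h0⟩ then 1 else 0) =
      cnt (Lf F n) (Rl F n) (4 * g) ⟨_, h0⟩ w • 1 := fun w => by
    rw [Finset.sum_eq_single ⟨_, h0⟩ (fun b _ h => by simp [h]) (by simp)]
    simp
  simp only [e1] at gd
  obtain ⟨s, hs, k, ψ, a, b⟩ := gd.det (fun _ => (fun a => decide (wtB N (r * t) a < 0), []))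
    (by
      have : en (wtB N (r * t)) (fun a => decide (wtB N (r * t) a < 0)) = 0 :=
        Finset.sum_eq_zero fun a _ => by
          by_cases h : wtB N (r * t) a < 0
          · simp [h, h.le]
          · simp [h, not_lt.1 h]
      simp [tot, pt, this, W])
  refine ⟨s, hs.trans ?_, k, ψ, a, fun w => ?_⟩
  · set c := 4 * (Fintype.card (It F n) + 1) ^ 3 * (2 ^ (μ * N)) ^ 3 with hc
    have c1 : c ≤ 2 ^ (3 * N + 3 * (μ * N) + 5) := by
      have : Fintype.card (It F n) + 1 ≤ 2 * 2 ^ N := by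
        have := Nat.one_le_two_pow (n := N); omega
      calc c ≤ 4 * (2 * 2 ^ N) ^ 3 * (2 ^ (μ * N)) ^ 3 := by rw [hc]; gcongr
        _ = _ := by ring
    have c2 : sz c (4 * g) + 1 ≤ 2 ^ (12 * g + 3 * N + 3 * (μ * N) + 7) := by
      have := Nat.one_le_two_pow (n := 3 * N + 3 * (μ * N) + 5)
      calc sz c (4 * g) + 1 ≤ 8 ^ (4 * g) * (2 * c + 1) := by have := sz_le c (4 * g); omega
        _ ≤ (2 ^ 3) ^ (4 * g) * (4 * 2 ^ (3 * N + 3 * (μ * N) + 5)) := by
          gcongr <;> omega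
        _ = _ := by rw [← pow_mul]; ring
    rw [pow_add, mul_comm (2 ^ _)]
    refine le_trans ?_ (Nat.mul_le_mul_right _ c2)
    rw [add_mul, one_mul]
    exact Nat.add_le_add (Nat.mul_le_mul_left _ cP) Nat.one_le_two_pow
  · rw [b]
    exact ⟨cnt_nonneg w _ _, cnt_iff hF hL hg h0⟩

theorem nat_bound2 {L : Language T} (h : L.IsContextFree) : ∃ n0, ∀ n ≥ n0,
    ∃ s ≤ 2 ^ (23000 * (Nat.log 2 n * Nat.sqrt (Nat.log 2 n))), Dec L n s := by
  obtain ⟨F, hL, hF⟩ := family h
  refine ⟨2 ^ (2 * F.card + 4), fun n hn => ?_⟩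
  have h1 : 2 * F.card + 4 ≤ Nat.log 2 n := Nat.le_log_of_pow_le (by omega) hn
  have h2 : n < 2 ^ (Nat.log 2 n + 1) := Nat.lt_pow_succ_log_self (by omega) n
  have hn0 : 0 < n := lt_of_lt_of_le (by positivity) hn
  generalize Nat.log 2 n = l at h1 h2
  have z1 : Nat.sqrt l * Nat.sqrt l ≤ l := Nat.sqrt_le l
  have z2 : l < (Nat.sqrt l + 1) * (Nat.sqrt l + 1) := Nat.lt_succ_sqrt l
  have z0 : 0 < Nat.sqrt l := Nat.sqrt_pos.2 (by omega)
  generalize Nat.sqrt l = z at z0 z1 z2
  have z3 : l ≤ 4 * (z * z) := by nlinarith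
  have z4 : z < 2 ^ z := Nat.lt_two_pow_self
  obtain ⟨s, hs, hd⟩ := assemble2 hL hF (N := 5 * l) (r := z) (t := z) (μ := 2 * z + 2)
    (g := l + 1) (e := 12 * (l + 1) * (62 * z)) hn0 z0 z0 z4.le (by
      calc (F.card + 1) ^ 2 * (n + 1) ^ 4 ≤ (2 ^ F.card) ^ 2 * (2 ^ (l + 1)) ^ 4 := by
            gcongr
            exacts [Nat.lt_two_pow_self, h2]
        _ ≤ _ := by
            rw [← pow_mul, ← pow_mul, ← pow_add]
            exact Nat.pow_le_pow_right (by omega) (by omega))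
    (by
      rw [show 2 ^ (2 * z + 2) = 4 * (2 ^ z * 2 ^ z) by ring]
      exact Nat.mul_le_mul_left _ (Nat.mul_le_mul z4.le z4.le)) h2.le
    (by
      have : 3 * (5 * l) + z * z + 1 ≤ 62 * (z * z) := by nlinarith
      calc 3 * (3 * (5 * l) + z * z + 1) * (4 * (l + 1)) ≤ 3 * (62 * (z * z)) * (4 * (l + 1)) := by
            gcongr
        _ = _ := by ring)
  refine ⟨s, hs.trans (Nat.pow_le_pow_right (by omega) ?_), hd⟩
  have a1 : l ≤ l * z := Nat.le_mul_of_pos_right _ z0
  have a2 : z ≤ l * z := Nat.le_mul_of_pos_left _ (by omega)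
  nlinarith

theorem real_bound2 {L : Language T} (h : L.IsContextFree) : ∃ n0 : ℕ, ∀ n ≥ n0, ∃ s : ℕ,
    Real.log s ≤ 92000 * Real.log n ^ (3 / 2 : ℝ) ∧ Dec L n s := by
  obtain ⟨n0, h⟩ := nat_bound2 h
  refine ⟨max n0 1, fun n hn => ?_⟩
  obtain ⟨s, hs, hd⟩ := h n (le_of_max_le_left hn)
  have hn0 : n ≠ 0 := by have := le_of_max_le_right hn; omega
  refine ⟨s, ?_, hd⟩
  have l2 := Real.log_two_gt_d9
  have l2' := Real.log_two_lt_d9
  have a1 : (Nat.log 2 n : ℝ) * Real.log 2 ≤ Real.log n := by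
    rw [← Real.log_pow]
    exact Real.log_le_log (by positivity) (by exact_mod_cast Nat.pow_log_le_self 2 hn0)
  have x0 : 0 ≤ Real.log n := Real.log_natCast_nonneg n
  generalize Real.log n = x at *
  generalize Nat.log 2 n = l at *
  have a3 : (l : ℝ) ≤ 2 * x := by nlinarith [Nat.cast_nonneg (α := ℝ) l]
  have z1 : ((Nat.sqrt l : ℕ) : ℝ) * (Nat.sqrt l : ℕ) ≤ l := by exact_mod_cast Nat.sqrt_le l
  generalize Nat.sqrt l = z at *
  have z2 : (z : ℝ) ≤ 2 * √x := by
    have := Real.mul_self_sqrt x0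
    by_contra c
    have c := not_le.1 c
    nlinarith [Real.sqrt_nonneg x]
  have d1 : Real.log s ≤ (23000 * (l * z) : ℕ) := by
    rcases Nat.eq_zero_or_pos s with rfl | h0
    · simp; positivity
    · have := Real.log_le_log (x := s) (y := 2 ^ (23000 * (l * z))) (by exact_mod_cast h0)
        (by exact_mod_cast hs)
      rw [Real.log_pow] at this
      nlinarith [Nat.cast_nonneg (α := ℝ) (23000 * (l * z))]
  have e : x ^ (3 / 2 : ℝ) = x * √x := by
    rw [Real.sqrt_eq_rpow, show (3 / 2 : ℝ) = 1 + 1 / 2 by norm_num,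
      Real.rpow_add' x0 (by norm_num), Real.rpow_one]
  rw [e]
  push_cast at d1
  calc Real.log s ≤ 23000 * (l * z) := d1
    _ ≤ 23000 * (2 * x * (2 * √x)) := by gcongr
    _ = _ := by ring

end Pool.Agent.Lib.MP_5afa16_lc.Gap
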