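import Pool.Agent.Lib.MP_5afa16_lc.GapSea

/-! The identity test on names of `N` bits, as a sum of two orientations of cost `O(N)` energy
units; counting of states at temperature `r`. -/

namespace Pool.Agent.Lib.MP_5afa16_lc.Gap

variable {N τ : ℕ}

/-- The energy of an assignment of levels. -/
def cst (s : Bool) (σ : Fin N → Fin (2 * τ + 1)) : ℤ := ∑ j, dg s (σ j)

/-- The levels of a label. -/
def lv (l : Lb N τ) (j : Fin N) : Fin (2 * τ + 1) := idx (l.1 j) (l.2 j)

theorem cst_lv (l : Lb N τ) : cst (ori l.1) (lv l) ≤ N := cost_le l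

/-- The padding word. -/
def pd (s : Bool) (σ : Fin N → Fin (2 * τ + 1)) : List Bool := un (N - cst s σ).toNat

/-- The sign of an end of a cell. -/
def sn (s b : Bool) : ℤ := if b = s then 1 else -1

theorem cst_eq (s : Bool) (σ σ' : Fin N → Fin (2 * τ + 1)) :
    cst s σ = cst s σ' ↔ ∑ j, (((σ j : ℕ) : ℤ) - (σ' j : ℕ)) = 0 := by
  cases s <;> simp only [cst, dg, Finset.sum_sub_distrib, if_true, if_false,
    Bool.false_eq_true] <;> omega

/-- Opening, creation side. -/
noncomputable def E1 (x : Fin N → Bool) : Module.End ℤ ((Mb N τ → Bool) × List Bool → ℤ) :=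
  ∑ l : Lb N τ, (if ori l.1 = true then (List.ofFn fun j =>
    sn true (l.2 j) • oq false true j (lv l j) (x j)).prod else 0) * push (pd true (lv l))

/-- Closing, annihilation side. -/
noncomputable def F1 (x : Fin N → Bool) : Module.End ℤ ((Mb N τ → Bool) × List Bool → ℤ) :=
  ∑ σ : Fin N → Fin (2 * τ + 1), pop (pd true σ) * (if cst true σ ≤ N then (List.ofFn fun j =>
    oq true true j (σ j) (x j)).reverse.prod else 0)

/-- Opening, annihilation side. -/
noncomputable def E2 (x : Fin N → Bool) : Module.End ℤ ((Mb N τ → Bool) × List Bool → ℤ) :=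
  ∑ σ : Fin N → Fin (2 * τ + 1), (if cst false σ ≤ N then (List.ofFn fun j =>
    oq false false j (σ j) (x j)).prod else 0) * push (pd false σ)

/-- Closing, creation side. -/
noncomputable def F2 (x : Fin N → Bool) : Module.End ℤ ((Mb N τ → Bool) × List Bool → ℤ) :=
  ∑ l : Lb N τ, pop (pd false (lv l)) * (if ori l.1 = false then (List.ofFn fun j =>
    sn false (l.2 j) • oq true false j (lv l j) (x j)).reverse.prod else 0)

theorem pd_mul (s : Bool) {σ σ' : Fin N → Fin (2 * τ + 1)} (h : cst s σ ≤ N) (h' : cst s σ' ≤ N)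
    (A B : Module.End ℤ ((Mb N τ → Bool) × List Bool → ℤ)) :
    A * push (pd s σ) * (pop (pd s σ') * B) =
      if ∑ j, (((σ j : ℕ) : ℤ) - (σ' j : ℕ)) = 0 then A * B else 0 := by
  rw [mul_assoc, ← mul_assoc (push _), pd, pd, push_pop_un]
  by_cases e : cst s σ = cst s σ'
  · simp [e, (cst_eq s σ σ').1 e]
  · rw [if_neg (by omega), if_neg fun x => e ((cst_eq s σ σ').2 x)]
    simp

/-- The generating function of one level. -/
noncomputable def H1 (j : Fin N) (u v : Bool) (i : Fin (2 * τ + 1)) :
    AddMonoidAlgebra (Module.End ℤ ((Mb N τ → Bool) × List Bool → ℤ)) ℤ :=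
  ∑ i' : Fin (2 * τ + 1), AddMonoidAlgebra.single (((i : ℕ) : ℤ) - (i' : ℕ))
    (oq false true j i u * oq true true j i' v)

theorem EF1 (hτ : 0 < τ) (u v : Fin N → Bool) : E1 (τ := τ) u * F1 v =
    ∑ m : Fin N → Fin (2 * τ), if ori m = true then ((List.ofFn fun j =>
      H1 j (u j) (v j) (m j).succ - H1 j (u j) (v j) (m j).castSucc).prod).coeff 0 else 0 := by
  rw [E1, F1, Finset.sum_mul_sum, Fintype.sum_prod_type]
  refine Finset.sum_congr rfl fun m _ => ?_
  by_cases h : ori m = true
  · simp only [if_pos h]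
    have e := merge N (fun j (b : Bool) (i' : Fin (2 * τ + 1)) => ((idx (m j) b : ℕ) : ℤ) - (i' : ℕ))
      fun j b i' => sn true b • (oq false true j (idx (m j) b) (u j) * oq true true j i' (v j))
    refine Eq.trans (Finset.sum_congr rfl fun b _ => Finset.sum_congr rfl fun σ _ => ?_)
      (e.trans ?_)
    · have c := cst_lv (m, b)
      rw [h] at c
      by_cases g : cst true σ ≤ N
      · rw [if_pos g, pd_mul true c g, nest]
        · simp only [smul_mul_assoc, lv]
        · intro i j hij
          rw [smul_mul_assoc]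
          exact (oq_comm hτ true hij ..).smul_left _
      · refine Eq.trans ?_ (if_neg fun x => g (((cst_eq true (lv (m, b)) σ).2 x) ▸ c)).symm
        simp [g]
    · congr 4
      funext j
      simp only [Fintype.sum_bool, sn, idx, H1, if_true, Bool.false_eq_true, if_false, one_smul,
        neg_smul, AddMonoidAlgebra.single_neg, Finset.sum_neg_distrib, sub_eq_add_neg]
  · simp [h]

theorem H_car (hτ : 0 < τ) (j : Fin N) (u v : Bool) (i : Fin (2 * τ + 1)) :
    ∑ i' : Fin (2 * τ + 1), (AddMonoidAlgebra.single (((i : ℕ) : ℤ) - (i' : ℕ))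
      (oq false false j i' v * oq true false j i u) :
      AddMonoidAlgebra (Module.End ℤ ((Mb N τ → Bool) × List Bool → ℤ)) ℤ) =
    (if u = v then 1 else 0) - H1 j u v i := by
  rw [eq_sub_iff_add_eq', H1, ← Finset.sum_add_distrib]
  simp only [← AddMonoidAlgebra.single_add, oq_car hτ]
  rw [Finset.sum_eq_single i (fun b _ hb => by
    rw [if_neg fun x => hb x.1.symm, AddMonoidAlgebra.single_zero]) (by simp), sub_self]
  by_cases e : u = v
  · rw [if_pos ⟨rfl, e⟩, if_pos e]; rfl
  · rw [if_neg fun x => e x.2, if_neg e, AddMonoidAlgebra.single_zero]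

theorem EF2 (hτ : 0 < τ) (u v : Fin N → Bool) : E2 (τ := τ) v * F2 u =
    ∑ m : Fin N → Fin (2 * τ), if ori m = false then ((List.ofFn fun j =>
      H1 j (u j) (v j) (m j).succ - H1 j (u j) (v j) (m j).castSucc).prod).coeff 0 else 0 := by
  rw [E2, F2, Finset.sum_mul_sum, Finset.sum_comm, Fintype.sum_prod_type]
  refine Finset.sum_congr rfl fun m _ => ?_
  by_cases h : ori m = false
  · simp only [if_pos h]
    have e := merge N (fun j (b : Bool) (i' : Fin (2 * τ + 1)) => ((idx (m j) b : ℕ) : ℤ) - (i' : ℕ))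
      fun j b i' => sn false b • (oq false false j i' (v j) * oq true false j (idx (m j) b) (u j))
    refine Eq.trans (Finset.sum_congr rfl fun b _ => Finset.sum_congr rfl fun σ _ => ?_)
      (e.trans ?_)
    · have c := cst_lv (m, b)
      rw [h] at c
      have q : ∑ j, (((σ j : ℕ) : ℤ) - (lv (m, b) j : ℕ)) = 0 ↔
          ∑ j, (((lv (m, b) j : ℕ) : ℤ) - (σ j : ℕ)) = 0 := by
        rw [← cst_eq false, ← cst_eq false, eq_comm]
      by_cases g : cst false σ ≤ N
      · rw [if_pos g, pd_mul false g c, nest]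
        · simp only [mul_smul_comm, q]
          rfl
        · intro i j hij
          rw [mul_smul_comm]
          exact ((oq_comm hτ false hij ..).smul_left _).smul_right _
      · refine Eq.trans ?_ (if_neg fun x => g (((cst_eq false (lv (m, b)) σ).2 x) ▸ c)).symm
        simp [g]
    · congr 4
      funext j
      simp only [Fintype.sum_bool, sn, idx, if_true, Bool.false_eq_true, Bool.true_eq_false,
        if_false, one_smul, neg_smul, AddMonoidAlgebra.single_neg, Finset.sum_neg_distrib,
        H_car hτ]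
      abel
  · simp [h]

theorem EF_sum (hτ : 0 < τ) (u v : Fin N → Bool) :
    E1 (τ := τ) u * F1 v + E2 v * F2 u = if u = v then 1 else 0 := by
  have h0 : (0 : Fin (2 * τ + 1)) ≠ Fin.last _ := fun h => by
    have := congrArg Fin.val h
    simp at this; omega
  have h2 : ∀ j, ∑ m : Fin (2 * τ), (H1 j (u j) (v j) m.succ - H1 j (u j) (v j) m.castSucc) =
      if u j = v j then 1 else 0 := by
    intro j
    have a := Fin.sum_univ_succ (H1 (τ := τ) j (u j) (v j))
    have b := Fin.sum_univ_castSucc (H1 (τ := τ) j (u j) (v j))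
    have c := H_car hτ j (u j) (v j) (Fin.last _)
    have c0 : H1 (τ := τ) j (u j) (v j) 0 = 0 := by
      simp only [H1, oq, if_true, zero_mul, AddMonoidAlgebra.single_zero, Finset.sum_const_zero]
    have c1 : oq (N := N) (τ := τ) true false j (Fin.last _) (u j) = 0 := by simp [oq]
    simp only [c1, mul_zero, AddMonoidAlgebra.single_zero, Finset.sum_const_zero] at c
    rw [c0, zero_add] at a
    rw [Finset.sum_sub_distrib, ← a, b, add_sub_cancel_left]
    exact (sub_eq_zero.1 c.symm).symm
  rw [EF1 hτ, EF2 hτ, ← Finset.sum_add_distrib]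
  have h3 : ∀ (b : Bool) (A : Module.End ℤ ((Mb N τ → Bool) × List Bool → ℤ)),
      ((if b = true then A else 0) + if b = false then A else 0) = A := fun b A => by
    cases b <;> simp
  simp only [h3]
  rw [← Finsupp.finsetSum_apply, ← AddMonoidAlgebra.coeff_sum,
    expand N fun j (m : Fin (2 * τ)) => H1 j (u j) (v j) m.succ - H1 j (u j) (v j) m.castSucc]
  simp only [h2]
  rw [prod_delta N u v]
  split_ifs
  · rw [AddMonoidAlgebra.one_def, AddMonoidAlgebra.coeff_single, Finsupp.single_eq_same]
  · rfl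

theorem sum_dg (s : Bool) (σ : Fin N → Fin (2 * τ + 1)) :
    ∑ j, (dg s (σ j) + 2) = cst s σ + 2 * N := by
  simp [cst, Finset.sum_add_distrib, mul_comm]

theorem line2 (hτ : 0 < τ) :
    ∃ E F : Bool → (Fin N → Bool) → Module.End ℤ ((Mb N τ → Bool) × List Bool → ℤ),
      (∀ s x, SM (pt (wtB N τ) (τ + 1)) (E s x) (3 * N + τ + 1 : ℕ) ((4 * τ) ^ N)) ∧
      (∀ s x, SM (pt (wtB N τ) (τ + 1)) (F s x) (-(3 * N + τ + 1 : ℕ)) ((4 * τ) ^ N)) ∧
      ∀ u v, E true u * F true v + E false v * F false u = if u = v then 1 else 0 := by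
  have c1 : (Finset.univ : Finset (Lb N τ)).card * 1 ≤ (4 * τ) ^ N := by
    simp only [Finset.card_univ, Fintype.card_prod, Fintype.card_fun, Fintype.card_fin,
      Fintype.card_bool, mul_one]
    rw [← mul_pow]
    exact Nat.pow_le_pow_left (by omega) _
  have c2 : (Finset.univ : Finset (Fin N → Fin (2 * τ + 1))).card * 1 ≤ (4 * τ) ^ N := by
    simp only [Finset.card_univ, Fintype.card_fun, Fintype.card_fin, mul_one]
    exact Nat.pow_le_pow_left (by omega) _
  have ab : ∀ s b, |sn s b| ≤ 1 := fun s b => by unfold sn; split_ifs <;> simp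
  have op : ∀ s (σ : Fin N → Fin (2 * τ + 1)) A, cst s σ ≤ N →
      SM (pt (wtB N τ) (τ + 1)) A (∑ j, (dg s (σ j) + 2)) 1 →
      SM (pt (wtB N τ) (τ + 1)) (A * push (pd s σ)) (3 * N + τ + 1 : ℕ) 1 := by
    intro s σ A h hA
    refine (hA.mul (sm_push2 _ _ _)).le ?_ le_rfl
    rw [sum_dg, pd, W_un]
    omega
  have cl : ∀ s (σ : Fin N → Fin (2 * τ + 1)) A,
      SM (pt (wtB N τ) (τ + 1)) A (∑ j, -(dg s (σ j) + 2)) 1 →
      SM (pt (wtB N τ) (τ + 1)) (pop (pd s σ) * A) (-(3 * N + τ + 1 : ℕ)) 1 := by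
    intro s σ A hA
    refine ((sm_pop2 _ _ _).mul hA).le ?_ le_rfl
    rw [Finset.sum_neg_distrib, sum_dg, pd, W_un]
    omega
  refine ⟨fun s => if s then E1 else E2, fun s => if s then F1 else F2, fun s x => ?_,
    fun s x => ?_, fun u v => EF_sum hτ u v⟩
  · cases s
    · refine (SM.sum (m := 1) _ fun σ _ => ?_).le le_rfl c2
      by_cases h : cst false σ ≤ N
      · rw [if_pos h]
        exact op _ _ _ h (SM.prod N _ _ fun j => sm_oq false false j _ _).1
      · rw [if_neg h, zero_mul]
        exact SM.zero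
    · refine (SM.sum (m := 1) _ fun l _ => ?_).le le_rfl c1
      by_cases h : ori l.1 = true
      · rw [if_pos h]
        exact op _ _ _ (h ▸ cst_lv l) (SM.prod N _ _ fun j => (sm_oq false true j _ _).smul (ab ..)).1
      · rw [if_neg h, zero_mul]
        exact SM.zero
  · cases s
    · refine (SM.sum (m := 1) _ fun l _ => cl _ _ _ ?_).le le_rfl c1
      split_ifs
      exacts [(SM.prod N _ _ fun j => (sm_oq true false j _ _).smul (ab ..)).2, SM.zero]
    · refine (SM.sum (m := 1) _ fun σ _ => cl _ _ _ ?_).le le_rfl c2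
      split_ifs
      exacts [(SM.prod N _ _ fun j => sm_oq true true j _ _).2, SM.zero]

end Pool.Agent.Lib.MP_5afa16_lc.Gap
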