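import Mathlib

/-! A monotone context-free language over `Bool`: blocks of six bits list the instructions that a
two-state pushdown machine may execute. -/

namespace Pool.Agent.Lib.MP_5afa16_lc

/-- Instructions: start skipping, start reading, open or close one of two brackets. -/
inductive Ins : Type
  | skip | go | op (b : Bool) | cl (b : Bool)
  deriving DecidableEq, Fintype

/-- The six entries of a block. -/
def blk {β : Type*} (f : Ins → β) : List β :=
  [f .skip, f .go, f (.op false), f (.op true), f (.cl false), f (.cl true)]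

@[simp] lemma blk_length {β : Type*} (f : Ins → β) : (blk f).length = 6 := rfl

lemma blk_map {β γ : Type*} (f : Ins → β) (g : β → γ) : (blk f).map g = blk (g ∘ f) := rfl

lemma blk_inj {β : Type*} {f g : Ins → β} (h : blk f = blk g) : f = g := by
  simp only [blk, List.cons.injEq, and_true] at h
  obtain ⟨h1, h2, h3, h4, h5, h6⟩ := h
  funext j
  rcases j with _ | _ | (_ | _) | (_ | _) <;> assumption

/-- One step of the machine; the state `true` reads brackets, the state `false` skips them. -/
inductive Step : Bool × List Bool → Ins → Bool × List Bool → Prop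
  | skip (p st) : Step (p, st) .skip (false, st)
  | go (p st) : Step (p, st) .go (true, st)
  | idleOp (b st) : Step (false, st) (.op b) (false, st)
  | idleCl (b st) : Step (false, st) (.cl b) (false, st)
  | push (b st) : Step (true, st) (.op b) (true, b :: st)
  | pop (b st) : Step (true, b :: st) (.cl b) (true, st)

/-- A run over a list of blocks, choosing one available instruction in each block. -/
inductive IRun : Bool × List Bool → List (Ins → Bool) → Bool × List Bool → Prop
  | nil (c) : IRun c [] c
  | cons {c c₁ c₂ f bs} (j) : f j = true → Step c j c₁ → IRun c₁ bs c₂ → IRun c (f :: bs) c₂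

lemma IRun.append {c c₁ c₂ bs bs'} (h : IRun c bs c₁) (h' : IRun c₁ bs' c₂) :
    IRun c (bs ++ bs') c₂ := by
  induction h with
  | nil => exact h'
  | cons j hf hs _ ih => exact .cons j hf hs (ih h')

lemma IRun.split {c c₂} {bs bs' : List (Ins → Bool)} (h : IRun c (bs ++ bs') c₂) :
    ∃ c₁, IRun c bs c₁ ∧ IRun c₁ bs' c₂ := by
  induction bs generalizing c with
  | nil => exact ⟨c, .nil c, h⟩
  | cons f bs ih =>
    cases h with
    | cons j hf hs hr =>
      obtain ⟨c₁, h1, h2⟩ := ih hr
      exact ⟨c₁, .cons j hf hs h1, h2⟩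

/-- Nonterminals. -/
inductive NT : Type
  | start | bal (p : Bool) | ins (j : Ins) | any
  deriving DecidableEq

/-- Names of the rules. -/
inductive Rule : Type
  | start (r : Fin 6) | stop | skip (p : Bool) | go (p : Bool) | idleOp (b : Bool)
  | idleCl (b : Bool) | mtch (b : Bool) | ins (j : Ins) | bit (b : Bool)
  deriving DecidableEq, Fintype

open Symbol in
/-- The rules. -/
def ruleOf : Rule → ContextFreeRule Bool NT
  | .start r => ⟨.start, nonterminal (.bal true) :: List.replicate r (nonterminal .any)⟩
  | .stop => ⟨.bal true, []⟩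
  | .skip p => ⟨.bal p, [nonterminal (.ins .skip), nonterminal (.bal false)]⟩
  | .go p => ⟨.bal p, [nonterminal (.ins .go), nonterminal (.bal true)]⟩
  | .idleOp b => ⟨.bal false, [nonterminal (.ins (.op b)), nonterminal (.bal false)]⟩
  | .idleCl b => ⟨.bal false, [nonterminal (.ins (.cl b)), nonterminal (.bal false)]⟩
  | .mtch b => ⟨.bal true, [nonterminal (.ins (.op b)), nonterminal (.bal true),
      nonterminal (.ins (.cl b)), nonterminal (.bal true)]⟩
  | .ins j => ⟨.ins j, blk fun j' => if j' = j then terminal true else nonterminal .any⟩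
  | .bit b => ⟨.any, [terminal b]⟩

/-- The grammar. -/
abbrev gram : ContextFreeGrammar Bool := ⟨NT, .start, Finset.univ.image ruleOf⟩

lemma produces_rule (ρ : Rule) :
    gram.Produces [.nonterminal (ruleOf ρ).input] (ruleOf ρ).output :=
  ⟨ruleOf ρ, Finset.mem_image_of_mem _ (Finset.mem_univ _), .input_output⟩

lemma derives_append {u u' v v' : List (Symbol Bool gram.NT)} (h : gram.Derives u u')
    (h' : gram.Derives v v') : gram.Derives (u ++ v) (u' ++ v') :=
  (h.append_right v).trans (h'.append_left u')

lemma derives_cons {a : Symbol Bool gram.NT} {u' v v' : List (Symbol Bool gram.NT)}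
    (h : gram.Derives [a] u') (h' : gram.Derives v v') : gram.Derives (a :: v) (u' ++ v') :=
  derives_append h h'

/-! ### Soundness -/

/-- Meaning of a symbol. -/
def sem : Symbol Bool NT → List Bool → Prop
  | .terminal b, w => w = [b]
  | .nonterminal .start, w => ∃ bs junk, w = List.flatMap blk bs ++ junk ∧ junk.length < 6 ∧
      IRun (true, []) bs (true, [])
  | .nonterminal (.bal p), w => ∃ bs, w = List.flatMap blk bs ∧ ∀ st, IRun (p, st) bs (true, st)
  | .nonterminal (.ins j), w => ∃ f : Ins → Bool, w = blk f ∧ f j = true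
  | .nonterminal .any, w => ∃ b, w = [b]

/-- Meaning of a list of symbols. -/
def semL : List (Symbol Bool NT) → List Bool → Prop
  | [], w => w = []
  | a :: α, w => ∃ u v, w = u ++ v ∧ sem a u ∧ semL α v

lemma semL_append {α β : List (Symbol Bool NT)} {w : List Bool} (h : semL (α ++ β) w) :
    ∃ u v, w = u ++ v ∧ semL α u ∧ semL β v := by
  induction α generalizing w with
  | nil => exact ⟨[], w, rfl, rfl, h⟩
  | cons a α ih =>
    obtain ⟨u, v, rfl, hu, hv⟩ := h
    obtain ⟨u', v', rfl, hu', hv'⟩ := ih hv
    exact ⟨u ++ u', v', by simp, ⟨u, u', rfl, hu, hu'⟩, hv'⟩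

lemma semL_terminal (w : List Bool) : semL (w.map .terminal) w := by
  induction w with
  | nil => rfl
  | cons b w ih => exact ⟨[b], w, rfl, rfl, ih⟩

lemma semL_any (r : ℕ) {w : List Bool} (h : semL (List.replicate r (.nonterminal .any)) w) :
    w.length = r := by
  induction r generalizing w with
  | zero => rw [show w = [] from h]; rfl
  | succ r ih =>
    obtain ⟨u, v, rfl, ⟨b, rfl⟩, hv⟩ := h
    simp [ih hv]

lemma rule_sound (ρ : Rule) {w : List Bool} (h : semL (ruleOf ρ).output w) :
    sem (.nonterminal (ruleOf ρ).input) w := by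
  cases ρ with
  | start r =>
    obtain ⟨u, v, rfl, ⟨bs, rfl, hb⟩, hv⟩ := h
    exact ⟨bs, v, rfl, by rw [semL_any r hv]; exact r.2, hb []⟩
  | stop => exact ⟨[], h, fun st => .nil _⟩
  | skip p =>
    obtain ⟨_, _, rfl, ⟨f, rfl, hf⟩, _, _, rfl, ⟨bs, rfl, hb⟩, rfl⟩ := h
    exact ⟨f :: bs, by simp, fun st => .cons _ hf (.skip _ _) (hb st)⟩
  | go p =>
    obtain ⟨_, _, rfl, ⟨f, rfl, hf⟩, _, _, rfl, ⟨bs, rfl, hb⟩, rfl⟩ := h
    exact ⟨f :: bs, by simp, fun st => .cons _ hf (.go _ _) (hb st)⟩
  | idleOp b =>
    obtain ⟨_, _, rfl, ⟨f, rfl, hf⟩, _, _, rfl, ⟨bs, rfl, hb⟩, rfl⟩ := h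
    exact ⟨f :: bs, by simp, fun st => .cons _ hf (.idleOp _ _) (hb st)⟩
  | idleCl b =>
    obtain ⟨_, _, rfl, ⟨f, rfl, hf⟩, _, _, rfl, ⟨bs, rfl, hb⟩, rfl⟩ := h
    exact ⟨f :: bs, by simp, fun st => .cons _ hf (.idleCl _ _) (hb st)⟩
  | mtch b =>
    obtain ⟨_, _, rfl, ⟨f, rfl, hf⟩, _, _, rfl, ⟨bs, rfl, hb⟩, _, _, rfl, ⟨f', rfl, hf'⟩,
      _, _, rfl, ⟨bs', rfl, hb'⟩, rfl⟩ := h
    exact ⟨f :: (bs ++ f' :: bs'), by simp, fun st => .cons _ hf (.push _ _)
      ((hb _).append (.cons _ hf' (.pop _ _) (hb' st)))⟩
  | ins j =>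
    have key : ∀ j' u, sem (if j' = j then .terminal true else .nonterminal .any) u →
        ∃ b, u = [b] ∧ (j' = j → b = true) := by
      intro j' u hu
      split_ifs at hu with hj
      · exact ⟨true, hu, fun _ => rfl⟩
      · obtain ⟨b, hb⟩ := hu
        exact ⟨b, hb, fun h => absurd h hj⟩
    obtain ⟨_, _, rfl, h1, _, _, rfl, h2, _, _, rfl, h3, _, _, rfl, h4, _, _, rfl, h5,
      _, _, rfl, h6, rfl⟩ := h
    obtain ⟨b1, rfl, g1⟩ := key _ _ h1
    obtain ⟨b2, rfl, g2⟩ := key _ _ h2
    obtain ⟨b3, rfl, g3⟩ := key _ _ h3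
    obtain ⟨b4, rfl, g4⟩ := key _ _ h4
    obtain ⟨b5, rfl, g5⟩ := key _ _ h5
    obtain ⟨b6, rfl, g6⟩ := key _ _ h6
    refine ⟨fun j' => match j' with
      | .skip => b1 | .go => b2 | .op false => b3 | .op true => b4
      | .cl false => b5 | .cl true => b6, rfl, ?_⟩
    rcases j with _ | _ | (_ | _) | (_ | _)
    exacts [g1 rfl, g2 rfl, g3 rfl, g4 rfl, g5 rfl, g6 rfl]
  | bit b =>
    obtain ⟨_, _, rfl, rfl, rfl⟩ := h
    exact ⟨b, rfl⟩

lemma rewrites_sound (ρ : Rule) {α β : List (Symbol Bool NT)} (h : (ruleOf ρ).Rewrites α β)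
    {w : List Bool} (hw : semL β w) : semL α w := by
  induction h generalizing w with
  | head s =>
    obtain ⟨u, v, rfl, hu, hv⟩ := semL_append hw
    exact ⟨u, v, rfl, rule_sound ρ hu, hv⟩
  | cons x _ ih =>
    obtain ⟨u, v, rfl, hu, hv⟩ := hw
    exact ⟨u, v, rfl, hu, ih hv⟩

theorem gram_sound {w : List Bool} (hw : w ∈ gram.language) :
    ∃ bs junk, w = List.flatMap blk bs ++ junk ∧ junk.length < 6 ∧
      IRun (true, []) bs (true, []) := by
  have key : ∀ β, gram.Derives [.nonterminal NT.start] β → ∀ w, semL β w →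
      semL [.nonterminal NT.start] w := by
    intro β h
    induction h with
    | refl => exact fun w hw => hw
    | tail _ hp ih =>
      intro w hw
      obtain ⟨r, hr, hrw⟩ := hp
      obtain ⟨ρ, -, rfl⟩ := Finset.mem_image.mp hr
      exact ih w (rewrites_sound ρ hrw hw)
  obtain ⟨u, v, rfl, hu, rfl⟩ := key _ hw w (semL_terminal w)
  rw [List.append_nil]
  exact hu

/-! ### Completeness -/

lemma derives_ins {f : Ins → Bool} {j : Ins} (hf : f j = true) :
    gram.Derives [.nonterminal (.ins j)] ((blk f).map .terminal) := by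
  have key : ∀ j', gram.Derives [if j' = j then .terminal true else .nonterminal .any]
      [.terminal (f j')] := by
    intro j'
    split_ifs with h
    · rw [h, hf]
    · exact (produces_rule (.bit (f j'))).single
  refine (produces_rule (.ins j)).trans_derives ?_
  exact derives_cons (key _) (derives_cons (key _) (derives_cons (key _) (derives_cons (key _)
    (derives_cons (key _) (key _)))))

/-- The nonterminal `bal p` derives the encoding of `bs`. -/
def Der (p : Bool) (bs : List (Ins → Bool)) : Prop :=
  gram.Derives [.nonterminal (.bal p)] ((List.flatMap blk bs).map .terminal)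

lemma Der.cons {p p' : Bool} {f : Ins → Bool} {j : Ins} {bs}
    (hr : gram.Produces [.nonterminal (.bal p)] [.nonterminal (.ins j), .nonterminal (.bal p')])
    (hf : f j = true) (h : Der p' bs) : Der p (f :: bs) := by
  unfold Der
  rw [List.flatMap_cons, List.map_append]
  exact hr.trans_derives (derives_cons (derives_ins hf) h)

lemma Der.mtch {b : Bool} {f f' : Ins → Bool} {bs bs'} (hf : f (.op b) = true)
    (hf' : f' (.cl b) = true) (h : Der true bs) (h' : Der true bs') :
    Der true (f :: (bs ++ f' :: bs')) := by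
  unfold Der
  rw [List.flatMap_cons, List.flatMap_append, List.flatMap_cons, List.map_append,
    List.map_append, List.map_append]
  exact (produces_rule (.mtch b)).trans_derives (derives_cons (derives_ins hf)
    (derives_cons h (derives_cons (derives_ins hf') h')))

/-- The blocks `bs` close the stack entries one after the other. -/
def Close : Bool → List Bool → List (Ins → Bool) → Prop
  | p, [], bs => Der p bs
  | p, b :: st, bs => ∃ bs₁ f bs₂, bs = bs₁ ++ f :: bs₂ ∧ Der p bs₁ ∧ f (.cl b) = true ∧
      Close true st bs₂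

lemma Close.cons {p p' : Bool} {f : Ins → Bool} {j : Ins} {bs st}
    (hr : gram.Produces [.nonterminal (.bal p)] [.nonterminal (.ins j), .nonterminal (.bal p')])
    (hf : f j = true) (h : Close p' st bs) : Close p st (f :: bs) := by
  cases st with
  | nil => exact Der.cons hr hf h
  | cons b st =>
    obtain ⟨bs₁, g, bs₂, rfl, h1, h2, h3⟩ := h
    exact ⟨f :: bs₁, g, bs₂, rfl, h1.cons hr hf, h2, h3⟩

lemma close_of_run {c c' bs} (h : IRun c bs c') (hc : c' = (true, [])) : Close c.1 c.2 bs := by
  induction h with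
  | nil c => subst hc; exact (produces_rule .stop).single
  | cons j hf hs _ ih =>
    have ih := ih hc
    cases hs with
    | skip p st => exact ih.cons (produces_rule (.skip p)) hf
    | go p st => exact ih.cons (produces_rule (.go p)) hf
    | idleOp b st => exact ih.cons (produces_rule (.idleOp b)) hf
    | idleCl b st => exact ih.cons (produces_rule (.idleCl b)) hf
    | push b st =>
      obtain ⟨bs₁, g, bs₂, rfl, h1, h2, h3⟩ := ih
      cases st with
      | nil => exact Der.mtch hf h2 h1 h3
      | cons b' st =>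
        obtain ⟨bs₃, g', bs₄, rfl, h4, h5, h6⟩ := h3
        exact ⟨_, g', bs₄, by simp, Der.mtch hf h2 h1 h4, h5, h6⟩
    | pop b st => exact ⟨[], _, _, rfl, (produces_rule .stop).single, hf, ih⟩

theorem gram_complete {bs : List (Ins → Bool)} {junk : List Bool} (hj : junk.length < 6)
    (h : IRun (true, []) bs (true, [])) : List.flatMap blk bs ++ junk ∈ gram.language := by
  have h1 : Der true bs := close_of_run h rfl
  have h2 : ∀ w : List Bool, gram.Derives (List.replicate w.length (.nonterminal NT.any))
      (w.map .terminal) := by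
    intro w
    induction w with
    | nil => exact .refl _
    | cons b w ih => exact derives_cons (produces_rule (.bit b)).single ih
  rw [ContextFreeGrammar.mem_language_iff, List.map_append]
  exact (produces_rule (.start ⟨junk.length, hj⟩)).trans_derives (derives_cons h1 (h2 junk))

/-! ### Monotonicity -/

/-- Raising terminals. -/
def SymLe (a b : Symbol Bool NT) : Prop := a = b ∨ (a = .terminal false ∧ b = .terminal true)

lemma forall₂_split {α β : Type*} {R : α → β → Prop} {u v : List α} {w : List β}
    (h : List.Forall₂ R (u ++ v) w) :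
    ∃ u' v', List.Forall₂ R u u' ∧ List.Forall₂ R v v' ∧ w = u' ++ v' := by
  induction u generalizing w with
  | nil => exact ⟨[], w, .nil, h, rfl⟩
  | cons a u ih =>
    cases h with
    | cons hab h' =>
      obtain ⟨u', v', h1, h2, rfl⟩ := ih h'
      exact ⟨_ :: u', v', .cons hab h1, h2, rfl⟩

lemma eq_of_symLe {α β : List (Symbol Bool NT)} (h : List.Forall₂ SymLe α β)
    (hα : Symbol.terminal false ∉ α) : β = α := by
  induction h with
  | nil => rfl
  | cons hab _ ih =>
    rw [List.mem_cons, not_or] at hα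
    rcases hab with rfl | ⟨rfl, -⟩
    · rw [ih hα.2]
    · exact absurd rfl hα.1

lemma rule_mono (ρ : Rule) {out : List (Symbol Bool NT)}
    (h : List.Forall₂ SymLe (ruleOf ρ).output out) :
    ∃ ρ', (ruleOf ρ').input = (ruleOf ρ).input ∧ (ruleOf ρ').output = out := by
  by_cases hρ : ρ = .bit false
  · subst hρ
    cases h with
    | cons hab h' =>
      cases h'
      rcases hab with rfl | ⟨-, rfl⟩
      · exact ⟨.bit false, rfl, rfl⟩
      · exact ⟨.bit true, rfl, rfl⟩
  · refine ⟨ρ, rfl, (eq_of_symLe h ?_).symm⟩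
    clear h
    revert ρ
    decide

theorem gram_mono {w w' : List Bool} (h : List.Forall₂ (· ≤ ·) w w') (hw : w ∈ gram.language) :
    w' ∈ gram.language := by
  have key : ∀ β, gram.Derives [.nonterminal NT.start] β → ∀ β', List.Forall₂ SymLe β β' →
      gram.Derives [.nonterminal NT.start] β' := by
    intro β h
    induction h with
    | refl =>
      intro β' h
      rw [eq_of_symLe h (by simp)]
    | tail _ hp ih =>
      intro β' h
      obtain ⟨r, hr, hrw⟩ := hp
      obtain ⟨ρ, -, rfl⟩ := Finset.mem_image.mp hr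
      obtain ⟨u, v, rfl, rfl⟩ := hrw.exists_parts
      obtain ⟨x, v', hx, hv, rfl⟩ := forall₂_split h
      obtain ⟨u', out, hu, hout, rfl⟩ := forall₂_split hx
      obtain ⟨ρ', h1, h2⟩ := rule_mono ρ hout
      have h3 := ih (u' ++ [.nonterminal (ruleOf ρ).input] ++ v')
        (List.rel_append (List.rel_append hu (.cons (Or.inl rfl) .nil)) hv)
      refine h3.trans_produces ⟨ruleOf ρ', Finset.mem_image_of_mem _ (Finset.mem_univ _), ?_⟩
      rw [← h1, ← h2]
      exact ContextFreeRule.rewrites_of_exists_parts _ _ _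
  refine key _ hw _ ?_
  rw [List.forall₂_map_left_iff, List.forall₂_map_right_iff]
  refine h.imp fun a b hab => ?_
  cases a <;> cases b
  · exact Or.inl rfl
  · exact Or.inr ⟨rfl, rfl⟩
  · exact absurd hab (by decide)
  · exact Or.inl rfl

end Pool.Agent.Lib.MP_5afa16_lc
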