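import Mathlib

/-! A lifting lemma: a small monotone nondeterministic branching program for a lifted constraint
system yields a semantic refutation all of whose lines are juntas. -/

open Finset

namespace Pool.Agent.Lib.MP_5afa16_lc

section Count
variable {Ω : Type*} [Fintype Ω] [DecidableEq Ω]

lemma card_le_cyl (A : Finset (Ω → Bool)) (S : Finset Ω) (ζ : Ω → Bool)
    (hA : ∀ χ ∈ A, ∀ χ' : Ω → Bool, (∀ ω, ω ∉ S → χ' ω = χ ω) → χ' ∈ A) :
    A.card ≤ (A.filter fun χ => ∀ ω ∈ S, χ ω = ζ ω).card * 2 ^ S.card := by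
  rw [← card_powerset, ← card_product]
  refine card_le_card_of_injOn (fun χ => (S.piecewise ζ χ, S.filter fun ω => χ ω = true)) ?_ ?_
  · intro χ hχ
    simp only [coe_product, Set.mem_prod, mem_coe, mem_filter, mem_powerset]
    refine ⟨⟨hA χ hχ _ fun ω hω => by simp [piecewise, hω], fun ω hω => by simp [piecewise, hω]⟩,
      filter_subset _ _⟩
  · intro χ _ χ' _ h
    simp only [Prod.mk.injEq] at h
    funext ω
    by_cases hω : ω ∈ S
    · have := Finset.ext_iff.mp h.2 ω
      simp only [mem_filter, hω, true_and] at this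
      exact Bool.eq_iff_iff.mpr this
    · have := congrFun h.1 ω
      simpa [piecewise, hω] using this

lemma card_small_subsets (k : ℕ) :
    (univ.filter fun π : Finset Ω => π.card ≤ k).card ≤ (Fintype.card Ω + 1) ^ k := by
  have : (Fintype.card Ω + 1) ^ k = (univ : Finset (Fin k → Option Ω)).card := by simp
  rw [this]
  refine card_le_card_of_surjOn
    (fun f : Fin k → Option Ω => univ.filter fun ω => ∃ i, f i = some ω) ?_
  intro π hπ
  simp only [coe_filter, mem_univ, true_and, Set.mem_ofPred_eq] at hπ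
  refine ⟨fun i => π.toList[i.1]?, by simp, ?_⟩
  ext ω
  simp only [mem_filter, mem_univ, true_and]
  constructor
  · rintro ⟨i, hi⟩
    exact mem_toList.mp (List.mem_of_getElem? hi)
  · intro hω
    obtain ⟨i, hi, rfl⟩ := List.getElem_of_mem (mem_toList.mpr hω)
    have : i < k := by rw [length_toList] at hi; omega
    exact ⟨⟨i, this⟩, by simp⟩

/-- Greedy choice of variable-disjoint terms: a set avoiding a well spread family of short terms
is small. -/
lemma avoid_small {ι : Type*} (Y : Finset (Ω → Bool)) (S : ι → Finset Ω) (ζ : ι → Ω → Bool)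
    (w m : ℕ) (hS : ∀ i, (S i).card ≤ w)
    (hY : ∀ i, ∀ χ ∈ Y, ¬ ∀ ω ∈ S i, χ ω = ζ i ω)
    (hspread : ∀ D : Finset Ω, D.card ≤ m * w → ∃ i, Disjoint (S i) D) :
    (Y.card : ℝ) ≤ (1 - 1 / 2 ^ w) ^ m * Fintype.card (Ω → Bool) := by
  have key : ∀ m' ≤ m, ∃ (D : Finset Ω) (A : Finset (Ω → Bool)), D.card ≤ m' * w ∧ Y ⊆ A ∧
      (∀ χ ∈ A, ∀ χ' : Ω → Bool, (∀ ω ∈ D, χ' ω = χ ω) → χ' ∈ A) ∧
      (A.card : ℝ) ≤ (1 - 1 / 2 ^ w) ^ m' * Fintype.card (Ω → Bool) := by
    intro m'
    induction m' with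
    | zero => intro _; exact ⟨∅, univ, by simp, by simp, by simp, by simp⟩
    | succ m' ih =>
      intro hm'
      obtain ⟨D, A, hD, hYA, hA, hcard⟩ := ih (by omega)
      obtain ⟨i, hi⟩ := hspread D (hD.trans (Nat.mul_le_mul_right _ (by omega)))
      refine ⟨D ∪ S i, A.filter fun χ => ¬ ∀ ω ∈ S i, χ ω = ζ i ω, ?_, ?_, ?_, ?_⟩
      · have := card_union_le D (S i)
        have := hS i
        rw [add_mul]; omega
      · intro χ hχ
        exact mem_filter.mpr ⟨hYA hχ, hY i χ hχ⟩
      · intro χ hχ χ' h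
        rw [mem_filter] at hχ ⊢
        refine ⟨hA χ hχ.1 χ' fun ω hω => h ω (mem_union_left _ hω), fun h' => hχ.2 fun ω hω => ?_⟩
        rw [← h ω (mem_union_right _ hω)]
        exact h' ω hω
      · have h1 := card_le_cyl A (S i) (ζ i) (fun χ hχ χ' h =>
          hA χ hχ χ' fun ω hω => h ω fun hω' => disjoint_left.mp hi hω' hω)
        have h2 := card_filter_add_card_filter_not (s := A) (fun χ => ∀ ω ∈ S i, χ ω = ζ i ω)
        have h3 : 2 ^ (S i).card ≤ 2 ^ w := Nat.pow_le_pow_right (by norm_num) (hS i)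
        have h4 := h1.trans (Nat.mul_le_mul_left _ h3)
        set a := (A.filter fun χ => ∀ ω ∈ S i, χ ω = ζ i ω).card
        set b := (A.filter fun χ => ¬ ∀ ω ∈ S i, χ ω = ζ i ω).card
        have h2' : (a : ℝ) + b = A.card := by exact_mod_cast h2
        have h4' : (A.card : ℝ) ≤ a * 2 ^ w := by exact_mod_cast h4
        have hp : (0 : ℝ) < 2 ^ w := by positivity
        have h5 : (b : ℝ) ≤ (1 - 1 / 2 ^ w) * A.card := by
          have : (A.card : ℝ) / 2 ^ w ≤ a := by rw [div_le_iff₀ hp]; exact h4'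
          have e : (1 - 1 / 2 ^ w) * (A.card : ℝ) = A.card - A.card / 2 ^ w := by ring
          linarith
        have h6 : (0 : ℝ) ≤ 1 - 1 / 2 ^ w := by
          rw [sub_nonneg, div_le_one hp]; exact one_le_pow₀ (by norm_num)
        calc (b : ℝ) ≤ (1 - 1 / 2 ^ w) * A.card := h5
          _ ≤ (1 - 1 / 2 ^ w) * ((1 - 1 / 2 ^ w) ^ m' * Fintype.card (Ω → Bool)) := by gcongr
          _ = _ := by ring
  obtain ⟨D, A, -, hYA, -, hcard⟩ := key m le_rfl
  exact le_trans (by exact_mod_cast card_le_card hYA) hcard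

lemma pow_decay (w j : ℕ) : (1 - 1 / 2 ^ w : ℝ) ^ (j * 2 ^ w) * 2 ^ j ≤ 1 := by
  have hp : (0 : ℝ) < 2 ^ w := by positivity
  have h6 : (0 : ℝ) ≤ 1 - 1 / 2 ^ w := by
    rw [sub_nonneg, div_le_one hp]; exact one_le_pow₀ (by norm_num)
  have h1 : (1 - 1 / 2 ^ w : ℝ) ≤ Real.exp (-(1 / 2 ^ w)) := by
    have := Real.add_one_le_exp (-(1 / 2 ^ w)); linarith
  have h2 : (1 - 1 / 2 ^ w : ℝ) ^ (2 ^ w) ≤ Real.exp (-1) := by
    refine (pow_le_pow_left₀ h6 h1 _).trans (le_of_eq ?_)
    rw [← Real.exp_nat_mul]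
    congr 1
    push_cast
    field_simp
  have h3 : Real.exp (-1) * 2 ≤ 1 := by
    have := Real.add_one_le_exp 1
    rw [Real.exp_neg, inv_mul_le_iff₀ (Real.exp_pos 1)]
    linarith
  rw [mul_comm j, pow_mul, ← mul_pow]
  exact pow_le_one₀ (by positivity) (le_trans (by gcongr) h3)

end Count

variable {V A : Type*} [Fintype V] [DecidableEq V] [Fintype A] [DecidableEq A]

lemma card_cylRow (I : Finset V) (a : V → A) :
    (univ.filter fun φ : V → A => ∀ v ∈ I, φ v = a v).card * Fintype.card A ^ I.card =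
      Fintype.card A ^ Fintype.card V := by
  have h1 : (univ.filter fun φ : V → A => ∀ v ∈ I, φ v = a v) =
      Fintype.piFinset fun v => if v ∈ I then {a v} else univ := by
    ext φ
    simp only [mem_filter, mem_univ, true_and, Fintype.mem_piFinset]
    refine forall_congr' fun v => ?_
    split_ifs with h <;> simp [h]
  rw [h1, Fintype.card_piFinset]
  have h2 : ∀ v, (if v ∈ I then ({a v} : Finset A) else univ).card =
      if v ∈ I then 1 else Fintype.card A := by
    intro v; split_ifs <;> simp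
  simp only [h2]
  rw [prod_ite, prod_const_one, one_mul, prod_const, ← pow_add]
  congr 1
  have := card_filter_add_card_filter_not (s := (univ : Finset V)) (fun v => v ∈ I)
  simp only [filter_mem_eq_inter, univ_inter, card_univ] at this
  omega

/-- A nonempty set of rows that is constant on `I` and spread elsewhere. -/
def Part (r k : ℕ) (X : Finset (V → A)) (I : Finset V) : Prop :=
  X.Nonempty ∧ I.card ≤ k ∧ (∀ φ ∈ X, ∀ ψ ∈ X, ∀ v ∈ I, φ v = ψ v) ∧
    ∀ v, v ∉ I → ∀ b, (X.filter fun φ => φ v = b).card * r ≤ X.card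

lemma exists_part (r k : ℕ) (hr : r ≤ Fintype.card A) (E : Finset (V → A))
    (hE : r ^ (k + 1) * Fintype.card A ^ Fintype.card V < E.card * Fintype.card A ^ (k + 1)) :
    ∃ X ⊆ E, ∃ I, Part r k X I := by
  have hEne : E.Nonempty := by
    rw [← card_pos]
    rcases Nat.eq_zero_or_pos E.card with h | h
    · rw [h] at hE; omega
    · exact h
  obtain ⟨a₀, -⟩ := hEne
  let good : Finset (Finset V × (V → A)) := univ.filter fun q =>
    E.card ≤ (E.filter fun φ => ∀ v ∈ q.1, φ v = q.2 v).card * r ^ q.1.card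
  have hne : good.Nonempty := ⟨(∅, a₀), by simp [good]⟩
  obtain ⟨⟨I, a⟩, hq, hmax⟩ := exists_max_image good (fun q => q.1.card) hne
  simp only [good, mem_filter, mem_univ, true_and] at hq
  set X := E.filter fun φ => ∀ v ∈ I, φ v = a v with hX
  have hEpos : 0 < E.card := by
    rcases Nat.eq_zero_or_pos E.card with h | h
    · rw [h] at hE; omega
    · exact h
  have hXpos : 0 < X.card := by
    rcases Nat.eq_zero_or_pos X.card with h | h
    · rw [h] at hq; omega
    · exact h
  refine ⟨X, filter_subset _ _, I, card_pos.mp hXpos, ?_, ?_, ?_⟩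
  · by_contra hI
    push Not at hI
    obtain ⟨d, hd⟩ := Nat.exists_eq_add_of_le (show k + 1 ≤ I.card from hI)
    have h1 := card_cylRow I a
    have h2 : X.card ≤ (univ.filter fun φ : V → A => ∀ v ∈ I, φ v = a v).card :=
      card_le_card (filter_subset_filter _ (subset_univ _))
    have h3 : r ^ d ≤ Fintype.card A ^ d := Nat.pow_le_pow_left hr d
    set n := Fintype.card A
    set c := (univ.filter fun φ : V → A => ∀ v ∈ I, φ v = a v).card
    have h4 : E.card * n ^ (k + 1) ≤ r ^ (k + 1) * n ^ Fintype.card V := by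
      calc E.card * n ^ (k + 1) ≤ (c * r ^ I.card) * n ^ (k + 1) := by
            gcongr; exact hq.trans (Nat.mul_le_mul_right _ h2)
        _ = r ^ (k + 1) * (c * (n ^ (k + 1) * r ^ d)) := by rw [hd]; ring
        _ ≤ r ^ (k + 1) * (c * (n ^ (k + 1) * n ^ d)) := by gcongr
        _ = r ^ (k + 1) * n ^ Fintype.card V := by rw [← h1, hd]; ring
    omega
  · intro φ hφ ψ hψ v hv
    rw [(mem_filter.mp hφ).2 v hv, (mem_filter.mp hψ).2 v hv]
  · intro v hv b
    by_contra hlt
    push Not at hlt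
    have hmem : (insert v I, Function.update a v b) ∈ good := by
      simp only [good, mem_filter, mem_univ, true_and]
      have e : (E.filter fun φ => ∀ u ∈ insert v I, φ u = Function.update a v b u) =
          X.filter fun φ => φ v = b := by
        ext φ
        simp only [hX, mem_filter, mem_insert, forall_eq_or_imp, Function.update_self]
        have : (∀ u ∈ I, φ u = Function.update a v b u) ↔ ∀ u ∈ I, φ u = a u :=
          forall₂_congr fun u hu => by
            rw [Function.update_of_ne (by rintro rfl; exact hv hu)]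
        rw [this]; tauto
      rw [e, card_insert_of_notMem hv, pow_succ]
      calc E.card ≤ X.card * r ^ I.card := hq
        _ ≤ ((X.filter fun φ => φ v = b).card * r) * r ^ I.card := by gcongr
        _ = _ := by ring
    have := hmax _ hmem
    simp only [card_insert_of_notMem hv] at this
    omega

/-- One row of a part realises all patterns on its own few relevant coordinates. -/
lemma full_range {r k w j : ℕ} {X : Finset (V → A)} {I : Finset V} (hX : Part r k X I)
    (J : (V → A) → Finset V) (hJ : ∀ φ ∈ X, (J φ).card ≤ w)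
    (Y : (V → Bool) → Finset (V × A → Bool))
    (hYI : ∀ z z' : V → Bool, (∀ v ∈ I, z v = z' v) → Y z = Y z')
    (hYa : ∀ z, ∀ χ ∈ Y z, ∀ φ ∈ X, ∀ v ∈ I, χ (v, φ v) = z v)
    (hnum : j * 2 ^ w * w * 2 ^ k < r) :
    ∃ φ ∈ X, ∀ z, Fintype.card (V × A → Bool) < (Y z).card * 2 ^ j →
      ∃ χ ∈ Y z, ∀ v ∈ J φ, χ (v, φ v) = z v := by
  obtain ⟨hne, hI, -, hspread⟩ := hX
  by_contra hcon
  push Not at hcon
  choose! z hz1 hz2 using hcon
  have hfib : ∃ t ∈ I.powerset, X.card ≤
      (X.filter fun φ => (I.filter fun v => z φ v = true) = t).card * 2 ^ k := by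
    by_contra h
    push Not at h
    have h1 := card_eq_sum_card_fiberwise (s := X) (t := I.powerset)
      (f := fun φ => I.filter fun v => z φ v = true)
      (fun φ _ => mem_coe.mpr (mem_powerset.mpr (filter_subset _ _)))
    have h2 : ∑ t ∈ I.powerset,
        (X.filter fun φ => (I.filter fun v => z φ v = true) = t).card * 2 ^ k <
        ∑ _t ∈ I.powerset, X.card := sum_lt_sum_of_nonempty ⟨∅, by simp⟩ h
    rw [← sum_mul, ← h1, sum_const, card_powerset, smul_eq_mul] at h2
    have h3 : 2 ^ I.card ≤ 2 ^ k := Nat.pow_le_pow_right (by norm_num) hI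
    have h4 := Nat.mul_le_mul_right X.card h3
    rw [mul_comm] at h2
    omega
  obtain ⟨t, -, ht⟩ := hfib
  set X' := X.filter fun φ => (I.filter fun v => z φ v = true) = t with hX'
  have hXpos := card_pos.mpr hne
  have hX'pos : 0 < X'.card := by
    rcases Nat.eq_zero_or_pos X'.card with h | h
    · rw [h] at ht; omega
    · exact h
  obtain ⟨φ₀, hφ₀⟩ := card_pos.mp hX'pos
  have hsame : ∀ φ ∈ X', Y (z φ) = Y (z φ₀) := by
    intro φ hφ
    apply hYI
    intro v hv
    have := Finset.ext_iff.mp ((mem_filter.mp hφ).2.trans (mem_filter.mp hφ₀).2.symm) v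
    simp only [mem_filter, hv, true_and] at this
    exact Bool.eq_iff_iff.mpr this
  have hsmall := avoid_small (ι := X') (Y (z φ₀))
    (fun φ => ((J φ.1) \ I).image fun v => (v, φ.1 v)) (fun φ ω => z φ.1 ω.1) w (j * 2 ^ w)
    (fun φ => card_image_le.trans ((card_le_card sdiff_subset).trans
      (hJ _ (mem_filter.mp φ.2).1)))
    (fun φ χ hχ hall => by
      have hφX := (mem_filter.mp φ.2).1
      rw [← hsame φ.1 φ.2] at hχ
      obtain ⟨v, hv, hne⟩ := hz2 φ.1 hφX χ hχ
      by_cases hvI : v ∈ I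
      · exact hne (hYa _ χ hχ φ.1 hφX v hvI)
      · exact hne (hall (v, φ.1 v) (mem_image_of_mem _ (mem_sdiff.mpr ⟨hv, hvI⟩))))
    (fun D hD => by
      by_contra hno
      push Not at hno
      have hcover : X' ⊆ (D.filter fun ω => ω.1 ∉ I).biUnion
          fun ω => X.filter fun φ => φ ω.1 = ω.2 := by
        intro φ hφ
        obtain ⟨ω, hω1, hω2⟩ := not_disjoint_iff.mp (hno ⟨φ, hφ⟩)
        obtain ⟨v, hv, rfl⟩ := mem_image.mp hω1
        exact mem_biUnion.mpr ⟨(v, φ v), mem_filter.mpr ⟨hω2, (mem_sdiff.mp hv).2⟩,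
          mem_filter.mpr ⟨(mem_filter.mp hφ).1, rfl⟩⟩
      have h1 := (card_le_card hcover).trans card_biUnion_le
      have h2 : (∑ ω ∈ D.filter fun ω => ω.1 ∉ I, (X.filter fun φ => φ ω.1 = ω.2).card) * r ≤
          D.card * X.card := by
        rw [sum_mul]
        calc _ ≤ ∑ _ω ∈ D.filter fun ω => ω.1 ∉ I, X.card :=
              sum_le_sum fun ω hω => hspread ω.1 (mem_filter.mp hω).2 ω.2
          _ ≤ D.card * X.card := by
              rw [sum_const, smul_eq_mul]
              exact Nat.mul_le_mul_right _ (card_filter_le _ _)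
      have h3 : X'.card * r ≤ (j * 2 ^ w * w) * (X'.card * 2 ^ k) :=
        (Nat.mul_le_mul_right _ h1).trans (h2.trans (Nat.mul_le_mul hD ht))
      have h4 : X'.card * (j * 2 ^ w * w * 2 ^ k) < X'.card * r :=
        Nat.mul_lt_mul_of_pos_left hnum hX'pos
      have h5 : (j * 2 ^ w * w) * (X'.card * 2 ^ k) = X'.card * (j * 2 ^ w * w * 2 ^ k) := by ring
      omega)
  have hbig : (Fintype.card (V × A → Bool) : ℝ) < (Y (z φ₀)).card * 2 ^ j := by
    exact_mod_cast hz1 φ₀ (mem_filter.mp hφ₀).1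
  have hd := pow_decay w j
  have : ((Y (z φ₀)).card : ℝ) * 2 ^ j ≤ Fintype.card (V × A → Bool) := by
    calc _ ≤ ((1 - 1 / 2 ^ w) ^ (j * 2 ^ w) * Fintype.card (V × A → Bool)) * (2 : ℝ) ^ j := by
          gcongr
      _ = ((1 - 1 / 2 ^ w) ^ (j * 2 ^ w) * 2 ^ j) * Fintype.card (V × A → Bool) := by ring
      _ ≤ 1 * Fintype.card (V × A → Bool) := by gcongr
      _ = _ := one_mul _
  linarith

/-- `L` depends only on the coordinates in `I`. -/
def JuntaOn (I : Finset V) (L : Set (V → Bool)) : Prop :=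
  ∀ z z' : V → Bool, (∀ v ∈ I, z v = z' v) → z ∈ L → z' ∈ L

/-- Semantic linear refutations whose lines are `k`-juntas. -/
inductive Refut {K : Type*} (sat : K → (V → Bool) → Prop) (k : ℕ) : Set (V → Bool) → Prop
  | empty : Refut sat k ∅
  | step (L L' : Set (V → Bool)) (I : Finset V) (c : K) : I.card ≤ k → JuntaOn I L →
      (∀ z ∈ L, sat c z → z ∈ L') → Refut sat k L' → Refut sat k L

theorem lifting {K U : Type*} [Fintype U] [Nonempty A] (sat : K → (V → Bool) → Prop)
    (scope : K → Finset V) (w₀ : ℕ) (hscope : ∀ c, (scope c).card ≤ w₀)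
    (hsat : ∀ c, JuntaOn (scope c) {z | sat c z})
    (R : U → (V × A → Bool) → Prop) (p : (V → A) → ℕ → U) (c : (V → A) → ℕ → K) (T : ℕ)
    (h0 : ∀ φ χ, R (p φ 0) χ) (hT : ∀ φ χ, ¬ R (p φ T) χ)
    (hstep : ∀ φ t χ, t < T → R (p φ t) χ → sat (c φ t) (fun v => χ (v, φ v)) →
      R (p φ (t + 1)) χ)
    (r k j : ℕ) (hr : r ≤ Fintype.card A)
    (H1 : T * Fintype.card U * r ^ (k + 1) < Fintype.card A ^ (k + 1))
    (H2 : T * Fintype.card U * (Fintype.card (V × A × Bool) + 1) ^ k * 2 ^ k < 2 ^ j)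
    (H3 : j * 2 ^ (k + w₀) * (k + w₀) * 2 ^ k < r) :
    Refut sat k Set.univ := by
  classical
  set n := Fintype.card A with hn
  set N := Fintype.card V with hN
  set Pn := (Fintype.card (V × A × Bool) + 1) ^ k with hPn
  set C := Fintype.card (V × A → Bool) with hC
  have inv : ∀ i ≤ T, ∃ (Bad : Finset (V → A)) (Bc : Finset (V × A → Bool)),
      Bad.card * n ^ (k + 1) ≤ i * Fintype.card U * (r ^ (k + 1) * n ^ N) ∧
      Bc.card * 2 ^ j ≤ i * Fintype.card U * Pn * C ∧
      ∀ φ, φ ∉ Bad → ∃ (L : Set (V → Bool)) (I : Finset V), I.card ≤ k ∧ JuntaOn I L ∧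
        Refut sat k L ∧ ∀ χ, χ ∉ Bc → R (p φ (T - i)) χ → (fun v => χ (v, φ v)) ∈ L := by
    intro i
    induction i with
    | zero =>
      intro _
      exact ⟨∅, ∅, by simp, by simp, fun φ _ =>
        ⟨∅, ∅, by simp, fun _ _ _ h => h, Refut.empty, fun χ _ h => absurd h (hT φ χ)⟩⟩
    | succ i ih =>
      intro hi
      obtain ⟨Bad, Bc, hBad, hBc, hgood⟩ := ih (by omega)
      choose! L' I' hI' hJ' hR' hcov using hgood
      set t := T - (i + 1) with ht
      have ht1 : T - i = t + 1 := by omega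
      rw [ht1] at hcov
      let X : U → Finset (V → A) := fun u => univ.filter fun φ => φ ∉ Bad ∧ p φ t = u
      let E : U → Finset (V → A) := fun u =>
        (X u).filter fun φ => ¬ ∃ X' ⊆ X u, ∃ I, Part r k X' I ∧ φ ∈ X'
      have hE : ∀ u, (E u).card * n ^ (k + 1) ≤ r ^ (k + 1) * n ^ N := by
        intro u
        by_contra h
        push Not at h
        obtain ⟨X', hX', I, hP⟩ := exists_part r k hr (E u) h
        obtain ⟨φ, hφ⟩ := hP.1
        exact (mem_filter.mp (hX' hφ)).2 ⟨X', hX'.trans (filter_subset _ _), I, hP, hφ⟩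
      let Y : U → Finset (V × A × Bool) → Finset (V × A → Bool) := fun u π =>
        univ.filter fun χ => χ ∉ Bc ∧ R u χ ∧ ∀ q ∈ π, χ (q.1, q.2.1) = q.2.2
      let Sm : Finset (U × Finset (V × A × Bool)) :=
        (univ ×ˢ univ.filter fun π => π.card ≤ k).filter fun q => (Y q.1 q.2).card * 2 ^ j ≤ C
      refine ⟨Bad ∪ univ.biUnion E, Bc ∪ Sm.biUnion fun q => Y q.1 q.2, ?_, ?_, ?_⟩
      · have h1 : (univ.biUnion E).card * n ^ (k + 1) ≤
            Fintype.card U * (r ^ (k + 1) * n ^ N) := by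
          calc _ ≤ (∑ u, (E u).card) * n ^ (k + 1) := by gcongr; exact card_biUnion_le
            _ = ∑ u, (E u).card * n ^ (k + 1) := sum_mul _ _ _
            _ ≤ ∑ _u : U, r ^ (k + 1) * n ^ N := sum_le_sum fun u _ => hE u
            _ = _ := by simp
        calc _ ≤ (Bad.card + (univ.biUnion E).card) * n ^ (k + 1) := by
              gcongr; exact card_union_le _ _
          _ = Bad.card * n ^ (k + 1) + (univ.biUnion E).card * n ^ (k + 1) := by ring
          _ ≤ _ := add_le_add hBad h1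
          _ = _ := by ring
      · have h0 : Sm.card ≤ Fintype.card U * Pn := by
          refine (card_filter_le _ _).trans ?_
          rw [card_product, card_univ]
          exact Nat.mul_le_mul_left _ (card_small_subsets k)
        have h1 : (Sm.biUnion fun q => Y q.1 q.2).card * 2 ^ j ≤ Fintype.card U * Pn * C := by
          calc _ ≤ (∑ q ∈ Sm, (Y q.1 q.2).card) * 2 ^ j := by gcongr; exact card_biUnion_le
            _ = ∑ q ∈ Sm, (Y q.1 q.2).card * 2 ^ j := sum_mul _ _ _
            _ ≤ ∑ _q ∈ Sm, C := sum_le_sum fun q hq => (mem_filter.mp hq).2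
            _ = Sm.card * C := by simp
            _ ≤ _ := by gcongr
        calc _ ≤ (Bc.card + (Sm.biUnion fun q => Y q.1 q.2).card) * 2 ^ j := by
              gcongr; exact card_union_le _ _
          _ = Bc.card * 2 ^ j + (Sm.biUnion fun q => Y q.1 q.2).card * 2 ^ j := by ring
          _ ≤ _ := add_le_add hBc h1
          _ = _ := by ring
      · intro φ hφ
        rw [mem_union, not_or] at hφ
        set u := p φ t with hu
        have hφX : φ ∈ X u := by simp [X, hφ.1, hu]
        have hφE : φ ∉ E u := fun h => hφ.2 (mem_biUnion.mpr ⟨u, mem_univ _, h⟩)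
        have : ∃ X' ⊆ X u, ∃ I, Part r k X' I ∧ φ ∈ X' := by
          by_contra h
          exact hφE (mem_filter.mpr ⟨hφX, h⟩)
        obtain ⟨X', hX', I, hP, hφX'⟩ := this
        let π : (V → Bool) → Finset (V × A × Bool) := fun z => I.image fun v => (v, φ v, z v)
        have hπ : ∀ z z' : V → Bool, (∀ v ∈ I, z v = z' v) → π z = π z' := fun z z' h =>
          image_congr fun v hv => by simp only [h v hv]
        have hXmem : ∀ ψ ∈ X', ψ ∉ Bad ∧ p ψ t = u := fun ψ hψ => (mem_filter.mp (hX' hψ)).2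
        obtain ⟨ψ, hψ, hfull⟩ := full_range (w := k + w₀) (j := j) hP
          (fun ψ => I' ψ ∪ scope (c ψ t))
          (fun ψ hψ => (card_union_le _ _).trans (add_le_add (hI' ψ (hXmem ψ hψ).1) (hscope _)))
          (fun z => Y u (π z)) (fun z z' h => by simp only [hπ z z' h])
          (fun z χ hχ ψ hψ v hv => by
            rw [hP.2.2.1 ψ hψ φ hφX' v hv]
            exact (mem_filter.mp hχ).2.2.2 (v, φ v, z v) (mem_image_of_mem _ hv)) H3
        obtain ⟨hψB, hψu⟩ := hXmem ψ hψ
        have hJ : JuntaOn I {z | C < (Y u (π z)).card * 2 ^ j} := by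
          intro z z' h hz
          simp only [Set.mem_ofPred_eq] at hz ⊢
          rwa [← hπ z z' h]
        refine ⟨{z | C < (Y u (π z)).card * 2 ^ j}, I, hP.2.1, hJ, ?_, ?_⟩
        · refine Refut.step _ (L' ψ) I (c ψ t) hP.2.1 hJ ?_ (hR' ψ hψB)
          intro z hz hsz
          obtain ⟨χ, hχ, hagree⟩ := hfull z hz
          obtain ⟨hχB, hχR, -⟩ := (mem_filter.mp hχ).2
          have h1 : sat (c ψ t) (fun v => χ (v, ψ v)) :=
            hsat (c ψ t) z _ (fun v hv => (hagree v (mem_union_right _ hv)).symm) hsz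
          have h2 := hstep ψ t χ (by omega) (hψu ▸ hχR) h1
          exact hJ' ψ hψB _ z (fun v hv => hagree v (mem_union_left _ hv)) (hcov ψ hψB χ hχB h2)
        · intro χ hχ hR
          rw [mem_union, not_or] at hχ
          by_contra hsm
          simp only [Set.mem_ofPred_eq, not_lt] at hsm
          refine hχ.2 (mem_biUnion.mpr ⟨(u, π fun v => χ (v, φ v)), ?_, ?_⟩)
          · refine mem_filter.mpr ⟨mem_product.mpr ⟨mem_univ _, mem_filter.mpr
              ⟨mem_univ _, card_image_le.trans hP.2.1⟩⟩, hsm⟩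
          · refine mem_filter.mpr ⟨mem_univ _, hχ.1, hR, fun q hq => ?_⟩
            obtain ⟨v, -, rfl⟩ := mem_image.mp hq
            rfl
  obtain ⟨Bad, Bc, hBad, hBc, hgood⟩ := inv T le_rfl
  have hnpos : 0 < n := Fintype.card_pos
  have hCpos : 0 < C := Fintype.card_pos
  have hBad' : Bad.card < Fintype.card (V → A) := by
    rw [Fintype.card_fun, ← hn, ← hN]
    have h1 : T * Fintype.card U * r ^ (k + 1) * n ^ N < n ^ (k + 1) * n ^ N :=
      Nat.mul_lt_mul_of_pos_right H1 (by positivity)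
    have h2 : Bad.card * n ^ (k + 1) < n ^ N * n ^ (k + 1) := by
      calc _ ≤ _ := hBad
        _ = T * Fintype.card U * r ^ (k + 1) * n ^ N := by ring
        _ < _ := h1
        _ = _ := by ring
    exact lt_of_mul_lt_mul_right h2 (Nat.zero_le _)
  obtain ⟨φ, -, hφ⟩ := exists_mem_notMem_of_card_lt_card (s := Bad) (t := univ) hBad'
  obtain ⟨L, I, hI, hJ, hR, hcov⟩ := hgood φ hφ
  have hBc' : Bc.card * 2 ^ k < C := by
    have h1 : T * Fintype.card U * Pn * 2 ^ k * C < 2 ^ j * C :=
      Nat.mul_lt_mul_of_pos_right H2 hCpos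
    have h2 : Bc.card * 2 ^ k * 2 ^ j < C * 2 ^ j := by
      calc _ = Bc.card * 2 ^ j * 2 ^ k := by ring
        _ ≤ T * Fintype.card U * Pn * C * 2 ^ k := by gcongr
        _ = T * Fintype.card U * Pn * 2 ^ k * C := by ring
        _ < _ := h1
        _ = _ := by ring
    exact lt_of_mul_lt_mul_right h2 (Nat.zero_le _)
  have hL : L = Set.univ := by
    rw [Set.eq_univ_iff_forall]
    intro z
    have h1 := card_le_cyl (univ : Finset (V × A → Bool)) (I.image fun v => (v, φ v))
      (fun ω => z ω.1) (fun _ _ _ _ => mem_univ _)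
    have h2 : 2 ^ (I.image fun v => (v, φ v)).card ≤ 2 ^ k :=
      Nat.pow_le_pow_right (by norm_num) (card_image_le.trans hI)
    have h3 := h1.trans (Nat.mul_le_mul_left _ h2)
    rw [card_univ, ← hC] at h3
    have h4 := lt_of_mul_lt_mul_right (hBc'.trans_le h3) (Nat.zero_le _)
    obtain ⟨χ, hχ1, hχ2⟩ := exists_mem_notMem_of_card_lt_card h4
    refine hJ _ z (fun v hv => ?_) (hcov χ hχ2 (by rw [Nat.sub_self]; exact h0 φ χ))
    exact (mem_filter.mp hχ1).2 (v, φ v) (mem_image_of_mem _ hv)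
  rwa [hL] at hR

end Pool.Agent.Lib.MP_5afa16_lc
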