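import Pool.Agent.Lib.MP_5afa16_lc.Grammar

/-! Encoding stack-rewriting alternatives, and the coloured tree instances, as binary words. -/

namespace Pool.Agent.Lib.MP_5afa16_lc

/-- A block allowing exactly the instruction `j`. -/
def hot {β : Type*} (c : Bool → β) (j : Ins) : Ins → β := fun j' => c (decide (j' = j))

/-- A block allowing `skip`, and `go` if `x` holds. -/
def bitB {β : Type*} (c : Bool → β) (x : β) : Ins → β
  | .skip => c true
  | .go => x
  | _ => c false

/-- Open the identifier `i`. -/
def openI (i : ℕ) : List Ins := .op true :: List.replicate i (.op false)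

/-- Close the identifier `i`. -/
def closeI (i : ℕ) : List Ins := List.replicate i (.cl false) ++ [.cl true]

/-- Open a list of identifiers, the first one ending on top. -/
def openL : List ℕ → List Ins
  | [] => []
  | j :: js => openL js ++ openI j

/-- The blocks of an alternative: a presence bit, an identifier to pop, identifiers to push. -/
def altB {β : Type*} (c : Bool → β) (a : β × ℕ × List ℕ) : List (Ins → β) :=
  bitB c a.1 :: (closeI a.2.1 ++ openL a.2.2).map (hot c)

/-- A stack of identifiers as a stack of brackets. -/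
def encS : List ℕ → List Bool
  | [] => []
  | i :: s => List.replicate i false ++ true :: encS s

lemma encS_append (s s' : List ℕ) : encS (s ++ s') = encS s ++ encS s' := by
  induction s with
  | nil => rfl
  | cons i s ih => simp [encS, ih]

lemma irun_hot {c c' j bs} :
    IRun c (hot id j :: bs) c' ↔ ∃ c₁, Step c j c₁ ∧ IRun c₁ bs c' := by
  constructor
  · intro h
    cases h with
    | cons j' hf hs hr =>
      have : j' = j := by simpa [hot] using hf
      subst this
      exact ⟨_, hs, hr⟩
  · rintro ⟨c₁, hs, hr⟩
    exact .cons j (by simp [hot]) hs hr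

lemma irun_nil {c c'} : IRun c [] c' ↔ c' = c :=
  ⟨fun h => by cases h; rfl, fun h => h ▸ .nil _⟩

lemma irun_append {c c₂} {bs bs' : List (Ins → Bool)} :
    IRun c (bs ++ bs') c₂ ↔ ∃ c₁, IRun c bs c₁ ∧ IRun c₁ bs' c₂ :=
  ⟨IRun.split, fun ⟨_, h, h'⟩ => h.append h'⟩

lemma irun_idle {st c'} {js : List Ins} (hjs : ∀ j ∈ js, ∃ b, j = .op b ∨ j = .cl b) :
    IRun (false, st) (js.map (hot id)) c' ↔ c' = (false, st) := by
  induction js with
  | nil => exact irun_nil
  | cons j js ih =>
    have ih := ih fun j' hj' => hjs j' (List.mem_cons_of_mem _ hj')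
    rw [List.map_cons, irun_hot]
    obtain ⟨b, rfl | rfl⟩ := hjs j List.mem_cons_self
    · exact ⟨fun ⟨c₁, hs, hr⟩ => by cases hs; exact ih.mp hr,
        fun h => ⟨_, .idleOp _ _, ih.mpr h⟩⟩
    · exact ⟨fun ⟨c₁, hs, hr⟩ => by cases hs; exact ih.mp hr,
        fun h => ⟨_, .idleCl _ _, ih.mpr h⟩⟩

lemma irun_ops {i st c'} :
    IRun (true, st) ((List.replicate i (Ins.op false)).map (hot id)) c' ↔
      c' = (true, List.replicate i false ++ st) := by
  induction i generalizing st with
  | zero => exact irun_nil
  | succ i ih =>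
    rw [List.replicate_succ, List.map_cons, irun_hot, List.replicate_succ', List.append_assoc]
    exact ⟨fun ⟨c₁, hs, hr⟩ => by cases hs; exact ih.mp hr, fun h => ⟨_, .push _ _, ih.mpr h⟩⟩

lemma irun_openI {i st c'} :
    IRun (true, st) ((openI i).map (hot id)) c' ↔
      c' = (true, List.replicate i false ++ true :: st) := by
  rw [openI, List.map_cons, irun_hot]
  exact ⟨fun ⟨c₁, hs, hr⟩ => by cases hs; exact irun_ops.mp hr,
    fun h => ⟨_, .push _ _, irun_ops.mpr h⟩⟩

lemma irun_openL {js st c'} :
    IRun (true, st) ((openL js).map (hot id)) c' ↔ c' = (true, encS js ++ st) := by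
  induction js generalizing c' with
  | nil => exact irun_nil
  | cons j js ih =>
    rw [openL, List.map_append, irun_append]
    simp [ih, irun_openI, encS]

lemma irun_closeI {i st c'} :
    IRun (true, st) ((closeI i).map (hot id)) c' ↔
      ∃ st', st = List.replicate i false ++ true :: st' ∧ c' = (true, st') := by
  induction i generalizing st with
  | zero =>
    simp only [closeI, List.replicate_zero, List.nil_append, List.map_cons, List.map_nil,
      irun_hot, irun_nil]
    exact ⟨fun ⟨c₁, hs, hr⟩ => by cases hs; exact ⟨_, rfl, hr⟩,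
      fun ⟨st', h1, h2⟩ => ⟨_, h1 ▸ .pop _ _, h2⟩⟩
  | succ i ih =>
    have e : closeI (i + 1) = .cl false :: closeI i := rfl
    rw [e, List.map_cons, irun_hot]
    constructor
    · rintro ⟨c₁, hs, hr⟩
      cases hs
      obtain ⟨st', rfl, h⟩ := ih.mp hr
      exact ⟨st', rfl, h⟩
    · rintro ⟨st', rfl, h⟩
      exact ⟨_, .pop _ _, ih.mpr ⟨st', rfl, h⟩⟩

lemma irun_bitB {p st x bs c'} :
    IRun (p, st) (bitB id x :: bs) c' ↔
      IRun (false, st) bs c' ∨ (x = true ∧ IRun (true, st) bs c') := by
  constructor
  · intro h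
    cases h with
    | cons j hf hs hr =>
      cases hs with
      | skip => exact Or.inl hr
      | go => exact Or.inr ⟨hf, hr⟩
      | _ => simp [bitB] at hf
  · rintro (h | ⟨hx, h⟩)
    · exact .cons .skip rfl (.skip _ _) h
    · exact .cons .go hx (.go _ _) h

lemma brackets_alt (i : ℕ) (js : List ℕ) :
    ∀ j ∈ closeI i ++ openL js, ∃ b, j = .op b ∨ j = .cl b := by
  intro j hj
  rcases List.mem_append.mp hj with h | h
  · simp only [closeI, List.mem_append, List.mem_replicate, List.mem_singleton] at h
    rcases h with ⟨-, rfl⟩ | rfl <;> exact ⟨_, Or.inr rfl⟩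
  · induction js with
    | nil => simp [openL] at h
    | cons a js ih =>
      simp only [openL, openI, List.mem_append, List.mem_cons, List.mem_replicate] at h
      rcases h with h | rfl | ⟨-, rfl⟩
      · exact ih (List.mem_append_right _ h) h
      · exact ⟨_, Or.inl rfl⟩
      · exact ⟨_, Or.inl rfl⟩

lemma rep_inj {a b : ℕ} {x y : List Bool}
    (h : List.replicate a false ++ true :: x = List.replicate b false ++ true :: y) :
    a = b ∧ x = y := by
  induction a generalizing b with
  | zero => cases b <;> simp_all [List.replicate_succ]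
  | succ a ih =>
    cases b with
    | zero => simp [List.replicate_succ] at h
    | succ b =>
      simp only [List.replicate_succ, List.cons_append, List.cons.injEq, true_and] at h
      obtain ⟨h1, h2⟩ := ih h
      exact ⟨by rw [h1], h2⟩

lemma irun_altB {p s c'} {a : Bool × ℕ × List ℕ} :
    IRun (p, encS s) (altB id a) c' ↔ c' = (false, encS s) ∨
      (a.1 = true ∧ ∃ s', s = a.2.1 :: s' ∧ c' = (true, encS (a.2.2 ++ s'))) := by
  rw [altB, irun_bitB, irun_idle (brackets_alt _ _), List.map_append, irun_append]
  refine or_congr_right (and_congr_right fun _ => ?_)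
  constructor
  · rintro ⟨c₁, h1, h2⟩
    obtain ⟨st', h3, rfl⟩ := irun_closeI.mp h1
    cases s with
    | nil => simp [encS] at h3
    | cons i s =>
      obtain ⟨rfl, rfl⟩ := rep_inj h3
      exact ⟨s, rfl, by rw [irun_openL.mp h2, encS_append]⟩
  · rintro ⟨s', rfl, rfl⟩
    exact ⟨_, irun_closeI.mpr ⟨_, rfl, rfl⟩, irun_openL.mpr (by rw [encS_append])⟩

/-- Runs at the level of identifiers: each alternative is skipped or, if present, applied. -/
inductive HRun : List ℕ → List (Bool × ℕ × List ℕ) → List ℕ → Prop
  | nil (s) : HRun s [] s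
  | skip {s s' a l} : HRun s l s' → HRun s (a :: l) s'
  | use {s s' i js l} : HRun (js ++ s) l s' → HRun (i :: s) ((true, i, js) :: l) s'

lemma HRun.refl (s l) : HRun s l s := by
  induction l with
  | nil => exact .nil s
  | cons a l ih => exact .skip ih

lemma HRun.append {s s₁ s₂ l l'} (h : HRun s l s₁) (h' : HRun s₁ l' s₂) : HRun s (l ++ l') s₂ := by
  induction h with
  | nil => exact h'
  | skip _ ih => exact .skip (ih h')
  | use _ ih => exact .use (ih h')

lemma HRun.of_mem {s i js l} (h : (true, i, js) ∈ l) : HRun (i :: s) l (js ++ s) := by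
  obtain ⟨l₁, l₂, rfl⟩ := List.append_of_mem h
  exact (HRun.refl _ _).append (.use (HRun.refl _ _))

lemma HRun.irun {s s' l} (h : HRun s l s') (p : Bool) :
    ∃ p', IRun (p, encS s) (l.flatMap (altB id)) (p', encS s') := by
  induction h generalizing p with
  | nil s => exact ⟨p, .nil _⟩
  | skip _ ih =>
    obtain ⟨p', h⟩ := ih false
    exact ⟨p', (irun_altB.mpr (Or.inl rfl)).append h⟩
  | @use s s' i js l _ ih =>
    obtain ⟨p', h⟩ := ih true
    exact ⟨p', ((irun_altB (a := (true, i, js))).mpr (Or.inr ⟨rfl, _, rfl, rfl⟩)).append h⟩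

lemma hrun_of_irun {l : List (Bool × ℕ × List ℕ)} {p s c'}
    (h : IRun (p, encS s) (l.flatMap (altB id)) c') : ∃ s', HRun s l s' ∧ c'.2 = encS s' := by
  induction l generalizing p s with
  | nil => exact ⟨s, .nil s, by rw [irun_nil.mp h]⟩
  | cons a l ih =>
    obtain ⟨c₁, h1, h2⟩ := IRun.split (bs := altB id a) h
    rcases irun_altB.mp h1 with rfl | ⟨ha, s₀, rfl, rfl⟩
    · obtain ⟨s', h3, h4⟩ := ih h2
      exact ⟨s', .skip h3, h4⟩
    · obtain ⟨s', h3, h4⟩ := ih h2
      obtain ⟨x, i, js⟩ := a
      cases ha
      exact ⟨s', .use h3, h4⟩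

lemma HRun.keep {s s' l} (h : HRun s l s') (P : ℕ → Prop)
    (hl : ∀ i js, (true, i, js) ∈ l → P i → ∃ j ∈ js, P j) (hs : ∃ i ∈ s, P i) :
    ∃ i ∈ s', P i := by
  induction h with
  | nil => exact hs
  | skip _ ih => exact ih (fun i js h => hl i js (List.mem_cons_of_mem _ h)) hs
  | use _ ih =>
    refine ih (fun i js h => hl i js (List.mem_cons_of_mem _ h)) ?_
    obtain ⟨i', hi', hP⟩ := hs
    rcases List.mem_cons.mp hi' with rfl | h
    · obtain ⟨j, hj, hPj⟩ := hl _ _ List.mem_cons_self hP
      exact ⟨j, List.mem_append_left _ hj, hPj⟩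
    · exact ⟨i', List.mem_append_right _ h, hP⟩

/-- All blocks of a word: open `0`, the alternatives, padding, and a final switch to reading. -/
def blocks {β : Type*} (c : Bool → β) (l : List (β × ℕ × List ℕ)) (pad : ℕ) : List (Ins → β) :=
  hot c (.op true) :: (l.flatMap (altB c) ++ (List.replicate pad (bitB c (c false)) ++
    [bitB c (c true)]))

/-- The word. -/
def word {β : Type*} (c : Bool → β) (l : List (β × ℕ × List ℕ)) (pad r : ℕ) : List β :=
  (blocks c l pad).flatMap blk ++ List.replicate r (c false)

lemma irun_pad {pad p st c'} (h : IRun (p, st) (List.replicate pad (bitB id false) ++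
    [bitB id true]) c') : c'.2 = st := by
  induction pad generalizing p with
  | zero =>
    rcases irun_bitB.mp h with h | ⟨-, h⟩ <;> rw [irun_nil.mp h]
  | succ pad ih =>
    rcases irun_bitB.mp h with h | ⟨h, -⟩
    · exact ih h
    · cases h

lemma irun_pad' (pad p st) : IRun (p, st) (List.replicate pad (bitB id false) ++
    [bitB id true]) (true, st) := by
  induction pad generalizing p with
  | zero => exact irun_bitB.mpr (Or.inr ⟨rfl, .nil _⟩)
  | succ pad ih => exact irun_bitB.mpr (Or.inl (ih false))

lemma flatMap_blk_inj {bs bs' : List (Ins → Bool)} {u u' : List Bool} (hu : u.length < 6)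
    (hu' : u'.length < 6) (h : bs.flatMap blk ++ u = bs'.flatMap blk ++ u') : bs = bs' := by
  induction bs generalizing bs' with
  | nil =>
    cases bs' with
    | nil => rfl
    | cons f bs' =>
      have := congrArg List.length h
      simp at this
      omega
  | cons f bs ih =>
    cases bs' with
    | nil =>
      have := congrArg List.length h
      simp at this
      omega
    | cons f' bs' =>
      rw [List.flatMap_cons, List.flatMap_cons, List.append_assoc, List.append_assoc] at h
      obtain ⟨h1, h2⟩ := List.append_inj h rfl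
      rw [blk_inj h1, ih h2]

theorem word_mem_iff {l : List (Bool × ℕ × List ℕ)} {pad r : ℕ} (hr : r < 6) :
    word id l pad r ∈ gram.language ↔ HRun [0] l [] := by
  constructor
  · intro h
    obtain ⟨bs, junk, h1, h2, h3⟩ := gram_sound h
    rw [← flatMap_blk_inj (by simpa using hr) h2 h1, blocks, irun_hot] at h3
    obtain ⟨c₁, hs, h4⟩ := h3
    cases hs
    obtain ⟨⟨p, st⟩, h5, h6⟩ := h4.split
    obtain ⟨s', h7, h8⟩ := hrun_of_irun (s := [0]) h5
    have h9 : [] = st := irun_pad h6
    cases s' with
    | nil => exact h7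
    | cons i s' => simp [← h9, encS] at h8
  · intro h
    refine gram_complete (by simpa using hr) ?_
    obtain ⟨p', h1⟩ := h.irun true
    exact irun_hot.mpr ⟨_, .push _ _, h1.append (irun_pad' _ _ _)⟩

lemma word_map {β γ : Type*} (c : Bool → β) (g : β → γ) (l : List (β × ℕ × List ℕ)) (pad r : ℕ) :
    (word c l pad r).map g = word (g ∘ c) (l.map fun a => (g a.1, a.2)) pad r := by
  have h1 : ∀ j, g ∘ hot c j = hot (g ∘ c) j := fun j => rfl
  have h2 : ∀ x, g ∘ bitB c x = bitB (g ∘ c) (g x) := fun x => by
    funext j; rcases j with _ | _ | _ | _ <;> rfl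
  have h3 : ∀ bs : List (Ins → β), (bs.flatMap blk).map g = (bs.map (g ∘ ·)).flatMap blk := by
    intro bs
    rw [List.map_flatMap, List.flatMap_map]
    rfl
  have h4 : ∀ a, (altB c a).map (g ∘ ·) = altB (g ∘ c) (g a.1, a.2) := by
    intro a
    simp only [altB, List.map_cons, h2, List.map_map]
    rfl
  simp only [word, List.map_append, h3, blocks, List.map_cons, List.map_replicate, h1, h2,
    List.map_nil, List.map_flatMap, h4, List.flatMap_map, Function.comp_apply]

lemma length_flatMap_blk {β : Type*} (bs : List (Ins → β)) :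
    (bs.flatMap blk).length = 6 * bs.length := by
  induction bs with
  | nil => rfl
  | cons f bs ih => rw [List.flatMap_cons, List.length_append, ih]; simp; omega

lemma word_length {β : Type*} (c : Bool → β) (l : List (β × ℕ × List ℕ)) (pad r : ℕ) :
    (word c l pad r).length = 6 * ((l.flatMap (altB c)).length + pad + 2) + r := by
  simp only [word, List.length_append, length_flatMap_blk, blocks, List.length_cons,
    List.length_replicate, List.length_nil]
  omega

lemma openL_length (js : List ℕ) (B : ℕ) (h : ∀ j ∈ js, j ≤ B) :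
    (openL js).length ≤ js.length * (B + 1) := by
  induction js with
  | nil => simp [openL]
  | cons j js ih =>
    have h1 := ih fun j' hj' => h j' (List.mem_cons_of_mem _ hj')
    have h2 := h j List.mem_cons_self
    simp only [openL, openI, List.length_append, List.length_cons, List.length_replicate, add_mul]
    omega

lemma alts_length {β : Type*} (c : Bool → β) (l : List (β × ℕ × List ℕ)) (B : ℕ)
    (h : ∀ a ∈ l, a.2.1 ≤ B ∧ a.2.2.length ≤ 2 ∧ ∀ j ∈ a.2.2, j ≤ B) :
    (l.flatMap (altB c)).length ≤ l.length * (3 * B + 4) := by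
  induction l with
  | nil => simp
  | cons a l ih =>
    have h1 := ih fun a' ha' => h a' (List.mem_cons_of_mem _ ha')
    obtain ⟨h2, h3, h4⟩ := h a List.mem_cons_self
    have h5 := (openL_length _ B h4).trans (Nat.mul_le_mul_right _ h3)
    simp only [List.flatMap_cons, List.length_append, altB, List.length_cons, List.length_map,
      closeI, List.length_replicate, List.length_nil, add_mul] at h1 ⊢
    omega

end Pool.Agent.Lib.MP_5afa16_lc
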