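import Pool.Agent.Lib.MP_5afa16_lc.Tree
import Pool.Agent.Lib.MP_5afa16_lc.Word

/-! The lower bound for monotone nondeterministic branching programs. -/

open Finset

namespace Pool.Agent.Lib.MP_5afa16_lc

/-- Reachability in a finite digraph is witnessed by a lazy walk whose length is the number of
nodes. -/
lemma exists_lazy_walk {s : ℕ} (E : Fin s → Fin s → Prop) {a b : Fin s}
    (h : Relation.ReflTransGen E a b) :
    ∃ p : ℕ → Fin s, p 0 = a ∧ p s = b ∧ ∀ t, t < s → p (t + 1) = p t ∨ E (p t) (p (t + 1)) := by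
  classical
  let Re : ℕ → Finset (Fin s) := fun t => univ.filter fun u =>
    ∃ p : ℕ → Fin s, p 0 = a ∧ p t = u ∧ ∀ i, i < t → p (i + 1) = p i ∨ E (p i) (p (i + 1))
  have hext : ∀ t u v, u ∈ Re t → (v = u ∨ E u v) → v ∈ Re (t + 1) := by
    intro t u v hu hv
    obtain ⟨p, h0, h1, h2⟩ := (mem_filter.mp hu).2
    refine mem_filter.mpr ⟨mem_univ _, fun i => if i ≤ t then p i else v, by simp [h0], by simp,
      fun i hi => ?_⟩
    rcases (Nat.lt_succ_iff.mp hi).eq_or_lt with rfl | hi'
    · simpa [h1] using hv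
    · simpa [hi'.le, Nat.succ_le_of_lt hi'] using h2 i hi'
  have hpre : ∀ t v, v ∈ Re (t + 1) → ∃ u ∈ Re t, v = u ∨ E u v := by
    intro t v hv
    obtain ⟨p, h0, h1, h2⟩ := (mem_filter.mp hv).2
    exact ⟨p t, mem_filter.mpr ⟨mem_univ _, p, h0, rfl, fun i hi => h2 i (by omega)⟩,
      h1 ▸ h2 t (by omega)⟩
  have hmono : ∀ t, Re t ⊆ Re (t + 1) := fun t u hu => hext t u u hu (Or.inl rfl)
  have hgrow : ∀ t, Re (t + 1) ⊆ Re t ∨ t < (Re (t + 1)).card := by
    intro t
    induction t with
    | zero =>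
      right
      exact card_pos.mpr ⟨a, hmono 0 (mem_filter.mpr ⟨mem_univ _, fun _ => a, rfl, rfl, by simp⟩)⟩
    | succ t ih =>
      rcases ih with ih | ih
      · left
        intro v hv
        obtain ⟨u, hu, huv⟩ := hpre _ v hv
        exact hext t u v (ih hu) huv
      · by_cases hsub : Re (t + 1 + 1) ⊆ Re (t + 1)
        · exact Or.inl hsub
        · right
          have := card_lt_card (show Re (t + 1) ⊂ Re (t + 1 + 1) from ⟨hmono _, hsub⟩)
          omega
  have hstable : Re (s + 1) ⊆ Re s := by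
    rcases hgrow s with h | h
    · exact h
    · have := card_le_univ (Re (s + 1))
      rw [Fintype.card_fin] at this
      omega
  have hb : b ∈ Re s := by
    induction h with
    | refl => exact mem_filter.mpr ⟨mem_univ _, fun _ => a, rfl, rfl, by simp⟩
    | tail _ hE ih => exact hstable (hext s _ _ ih (Or.inr hE))
  exact (mem_filter.mp hb).2

section Instance
variable (N n : ℕ)

/-- Variables of the instance: a node with colours for it and its two children. -/
abbrev Var (n : ℕ) := ℕ × Fin n × Fin n × Fin n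

/-- Identifier of a coloured node. -/
def idn (c : ℕ) (e : Fin n) : ℕ := if c < N ∧ c ≠ 0 then c * n + e else 0

/-- Identifiers pushed when a node is expanded. -/
def pushes (v : Var n) : List ℕ :=
  (if v.1 ≠ 0 ∧ 2 * v.1 < N then [idn N n (2 * v.1) v.2.2.1] else []) ++
  (if 2 * v.1 + 1 < N then [idn N n (2 * v.1 + 1) v.2.2.2] else [])

/-- The alternative of a variable. -/
def altOf {β : Type*} (x : Var n → β) (v : Var n) : β × ℕ × List ℕ :=
  (x v, idn N n v.1 v.2.1, pushes N n v)

/-- All variables of a node. -/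
noncomputable def group (c : ℕ) : List (Var n) :=
  (univ : Finset (Fin n × Fin n × Fin n)).toList.map fun t => (c, t)

/-- Variables of a subtree in preorder. -/
noncomputable def vars : ℕ → ℕ → List (Var n)
  | 0, c => group n c
  | d + 1, c => group n c ++ (vars d (2 * c) ++ vars d (2 * c + 1))

/-- All variables. -/
noncomputable def allVars (h : ℕ) : List (Var n) := group n 0 ++ vars n h 1

lemma group_length (c : ℕ) : (group n c).length = n ^ 3 := by
  simp [group]; ring

lemma vars_length (d c : ℕ) : (vars n d c).length + n ^ 3 = 2 ^ (d + 1) * n ^ 3 := by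
  induction d generalizing c with
  | zero => simp [vars, group_length]; ring
  | succ d ih =>
    have h1 := ih (2 * c)
    have h2 := ih (2 * c + 1)
    simp only [vars, List.length_append, group_length]
    have e : 2 ^ (d + 1 + 1) * n ^ 3 = 2 * (2 ^ (d + 1) * n ^ 3) := by ring
    omega

lemma allVars_length (h : ℕ) : (allVars n h).length = 2 ^ (h + 1) * n ^ 3 := by
  rw [allVars, List.length_append, group_length, add_comm, vars_length]

lemma idn_le (c : ℕ) (e : Fin n) : idn N n c e ≤ N * n := by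
  unfold idn
  split_ifs with h
  · have h1 : (c + 1) * n ≤ N * n := Nat.mul_le_mul_right _ h.1
    have := e.2
    rw [add_mul] at h1
    omega
  · exact Nat.zero_le _

lemma blocks_length {β : Type*} (c : Bool → β) (x : Var n → β) (h : ℕ) :
    (((allVars n h).map (altOf N n x)).flatMap (altB c)).length ≤
      2 ^ (h + 1) * n ^ 3 * (3 * (N * n) + 4) := by
  have := alts_length c ((allVars n h).map (altOf N n x)) (N * n) (by
    intro a ha
    obtain ⟨v, -, rfl⟩ := List.mem_map.mp ha
    refine ⟨idn_le _ _ _ _, ?_, ?_⟩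
    · simp only [altOf, pushes]; split_ifs <;> simp
    · intro j hj
      simp only [altOf, pushes, List.mem_append] at hj
      rcases hj with hj | hj <;> split_ifs at hj <;> simp at hj <;> subst hj <;>
        exact idn_le _ _ _ _)
  rwa [List.length_map, allVars_length] at this

variable {N n} [NeZero n]

/-- Extension of a colouring. -/
def ef (φ : Fin N → Fin n) (v : ℕ) : Fin n := if h : v < N then φ ⟨v, h⟩ else 0

/-- Extension of a marking of coloured nodes. -/
def ec (χ : Fin N × Fin n → Bool) (v : ℕ) (a : Fin n) : Bool :=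
  if h : v < N then χ (⟨v, h⟩, a) else false

lemma ez_comp (φ : Fin N → Fin n) (χ : Fin N × Fin n → Bool) (v : ℕ) :
    ez (fun v => χ (v, φ v)) v = ec χ v (ef φ v) := by
  unfold ez ec ef
  split_ifs <;> rfl

/-- The positive input of a colouring. -/
def xpos (φ : Fin N → Fin n) (v : Var n) : Bool :=
  decide (v.1 < N ∧ v.2 = (ef φ v.1, ef φ (2 * v.1), ef φ (2 * v.1 + 1)))

/-- The negative input of a marking. -/
def yneg (χ : Fin N × Fin n → Bool) (v : Var n) : Bool :=
  decide (v.1 < N ∧ ((v.1 = 0 ∨ ec χ v.1 v.2.1 = true) →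
    ((v.1 ≠ 0 ∧ ec χ (2 * v.1) v.2.2.1 = true) ∨ ec χ (2 * v.1 + 1) v.2.2.2 = true)))

lemma yneg_of_xpos {φ : Fin N → Fin n} {χ : Fin N × Fin n → Bool} {v : Var n}
    (hx : xpos φ v = true) (hs : tsat N (some v.1) fun v => χ (v, φ v)) : yneg χ v = true := by
  obtain ⟨c, t⟩ := v
  simp only [xpos, decide_eq_true_eq] at hx
  obtain ⟨h1, rfl⟩ := hx
  simp only [tsat, ez_comp] at hs
  simp only [yneg, decide_eq_true_eq]
  exact ⟨h1, hs⟩

lemma hrun_group (φ : Fin N → Fin n) {c : ℕ} (hc : c < N) (st : List ℕ) :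
    HRun (idn N n c (ef φ c) :: st) ((group n c).map (altOf N n (xpos φ)))
      (pushes N n (c, ef φ c, ef φ (2 * c), ef φ (2 * c + 1)) ++ st) := by
  apply HRun.of_mem
  refine List.mem_map.mpr ⟨(c, ef φ c, ef φ (2 * c), ef φ (2 * c + 1)), ?_, ?_⟩
  · exact List.mem_map.mpr ⟨_, mem_toList.mpr (mem_univ _), rfl⟩
  · simp [altOf, xpos, hc]

lemma hrun_vars {h : ℕ} (φ : Fin (2 ^ (h + 1)) → Fin n) (d c : ℕ) (h1 : 2 ^ h ≤ c * 2 ^ d)
    (h2 : (c + 1) * 2 ^ d ≤ 2 ^ (h + 1)) (st : List ℕ) :
    HRun (idn (2 ^ (h + 1)) n c (ef φ c) :: st)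
      ((vars n d c).map (altOf (2 ^ (h + 1)) n (xpos φ))) st := by
  induction d generalizing c st with
  | zero =>
    have := hrun_group φ (c := c) (by omega) st
    rw [pushes, if_neg (by simp only [pow_succ] at *; omega),
      if_neg (by simp only [pow_succ] at *; omega)] at this
    exact this
  | succ d ih =>
    have hd : 0 < 2 ^ d := by positivity
    have h3 : (c + 1) * 2 ≤ 2 ^ (h + 1) := by
      refine le_trans ?_ h2
      rw [pow_succ]
      exact Nat.mul_le_mul_left _ (by omega)
    have hc0 : c ≠ 0 := by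
      rintro rfl
      have : 0 < 2 ^ h := by positivity
      omega
    have := hrun_group φ (c := c) (by omega) st
    rw [pushes, if_pos ⟨hc0, by simp only; omega⟩, if_pos (by simp only; omega)] at this
    rw [vars, List.map_append, List.map_append]
    have e1 : 2 * c * 2 ^ d = c * 2 ^ (d + 1) := by ring
    have e2 : (2 * c + 1) * 2 ^ d = c * 2 ^ (d + 1) + 2 ^ d := by ring
    have e3 : (2 * c + 1 + 1) * 2 ^ d = (c + 1) * 2 ^ (d + 1) := by ring
    have e4 : (c + 1) * 2 ^ (d + 1) = c * 2 ^ (d + 1) + 2 * 2 ^ d := by ring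
    exact this.append ((ih (2 * c) (by omega) (by omega) _).append
      (ih (2 * c + 1) (by omega) (by omega) _))

lemma hrun_pos {h : ℕ} (φ : Fin (2 ^ (h + 1)) → Fin n) :
    HRun [0] ((allVars n h).map (altOf (2 ^ (h + 1)) n (xpos φ))) [] := by
  have h0 : 0 < 2 ^ h := by positivity
  have := hrun_group φ (c := 0) (by positivity) []
  rw [pushes, if_neg (by simp), if_pos (by simp only [pow_succ]; omega)] at this
  rw [allVars, List.map_append]
  exact HRun.append (by simpa [idn] using this)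
    (hrun_vars φ h 1 (by omega) (by rw [pow_succ]; omega) [])

lemma not_hrun_neg (χ : Fin N × Fin n → Bool) (l : List (Var n)) :
    ¬ HRun [0] (l.map (altOf N n (yneg χ))) [] := by
  intro h
  have hn : 0 < n := Nat.pos_of_ne_zero (NeZero.ne n)
  have hlt : ∀ c e, ec χ c e = true → c < N := by
    intro c e h
    by_contra hc
    simp [ec, hc] at h
  have := h.keep (fun i => i = 0 ∨ ∃ c e, c ≠ 0 ∧ ec χ c e = true ∧ i = c * n + e) (by
    intro i js hm hP
    obtain ⟨⟨c, e, a, b⟩, -, hv⟩ := List.mem_map.mp hm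
    simp only [altOf, Prod.mk.injEq, yneg, decide_eq_true_eq] at hv
    obtain ⟨⟨hc, himp⟩, rfl, rfl⟩ := hv
    have h1 : c = 0 ∨ ec χ c e = true := by
      by_cases hc0 : c = 0
      · exact Or.inl hc0
      · right
        rw [idn, if_pos ⟨hc, hc0⟩] at hP
        rcases hP with hP | ⟨c', e', -, h2, h3⟩
        · have := Nat.mul_pos (Nat.pos_of_ne_zero hc0) hn
          omega
        · have h4 : c = c' := by
            have h5 := congrArg (· / n) h3
            simp only [mul_comm _ n, Nat.mul_add_div hn, Nat.div_eq_of_lt e.2,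
              Nat.div_eq_of_lt e'.2] at h5
            omega
          subst h4
          have : e = e' := Fin.ext (by omega)
          rwa [this]
    rcases himp h1 with ⟨hc0, h2⟩ | h2
    · have h3 := hlt _ _ h2
      refine ⟨idn N n (2 * c) a, by simp [pushes, hc0, h3], Or.inr ⟨2 * c, a, by omega, h2, ?_⟩⟩
      rw [idn, if_pos ⟨h3, by omega⟩]
    · have h3 := hlt _ _ h2
      refine ⟨idn N n (2 * c + 1) b, by simp [pushes, h3],
        Or.inr ⟨2 * c + 1, b, by omega, h2, ?_⟩⟩
      rw [idn, if_pos ⟨h3, by omega⟩]) ⟨0, by simp, Or.inl rfl⟩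
  simp at this

end Instance

/-- Acceptance by a monotone switching-and-rectifier network. -/
def Acc {M s : ℕ} (E : Set (Fin s × Fin s × Option (Fin M))) (x : Fin M → Bool) :
    Fin s → Fin s → Prop :=
  Relation.ReflTransGen fun u v => ∃ l, (u, v, l) ∈ E ∧ ∀ i ∈ l, x i = true

theorem lower_explicit (k M s : ℕ) (hM : 2 ^ (36 * k + 61) ≤ M)
    (E : Set (Fin s × Fin s × Option (Fin M))) (a b : Fin s)
    (hE : ∀ x : Fin M → Bool, List.ofFn x ∈ gram.language ↔ Acc E x a b) : 2 ^ (k ^ 2) ≤ s := by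
  classical
  by_contra hs
  push Not at hs
  set h := 2 * k + 3 with hh
  set N := 2 ^ (h + 1) with hN
  set n := 2 ^ (4 * h) with hn
  have : NeZero n := ⟨by positivity⟩
  let tl : List ((Bool ⊕ Var n) × ℕ × List ℕ) := (allVars n h).map (altOf N n Sum.inr)
  set B := (tl.flatMap (altB Sum.inl)).length with hB
  have hBle : 6 * (B + 2) ≤ M := by
    have h1 : B ≤ 2 ^ (h + 1) * n ^ 3 * (3 * (N * n) + 4) := blocks_length N n Sum.inl Sum.inr h
    have h2 : 4 ≤ N * n := by
      rw [hN, hn, ← pow_add]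
      exact le_trans (by norm_num) (Nat.pow_le_pow_right (by norm_num) (show 2 ≤ _ by omega))
    have h3 : 2 ^ (h + 1) * n ^ 3 * (4 * (N * n)) = 2 ^ (36 * k + 58) := by
      rw [hN, hn, hh]; ring
    have h4 : B ≤ 2 ^ (36 * k + 58) := by
      rw [← h3]
      exact h1.trans (Nat.mul_le_mul_left _ (by omega))
    have h5 : 2 ^ (36 * k + 61) = 8 * 2 ^ (36 * k + 58) := by ring
    have h6 : 2 ^ 3 ≤ 2 ^ (36 * k + 58) := Nat.pow_le_pow_right (by norm_num) (by omega)
    omega
  let τ : List (Bool ⊕ Var n) := word Sum.inl tl (M / 6 - (B + 2)) (M % 6)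
  have hτ : τ.length = M := by
    rw [word_length, ← hB]; omega
  let σ : Fin M → Bool ⊕ Var n := fun i => τ[i.1]'(by rw [hτ]; exact i.2)
  let inp : (Var n → Bool) → Fin M → Bool := fun x i => Sum.elim id x (σ i)
  have hinp : ∀ x, List.ofFn (inp x) =
      word id ((allVars n h).map (altOf N n x)) (M / 6 - (B + 2)) (M % 6) := by
    intro x
    have h1 : List.ofFn (inp x) = τ.map (Sum.elim id x) := by
      apply List.ext_getElem
      · simp [hτ]
      · intro i h1 h2
        simp [inp, σ]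
    rw [h1, word_map]
    simp only [tl, List.map_map]
    rfl
  have hacc : ∀ x, Acc E (inp x) a b ↔ HRun [0] ((allVars n h).map (altOf N n x)) [] := by
    intro x
    rw [← hE, hinp, word_mem_iff (Nat.mod_lt _ (by norm_num))]
  have hwalk : ∀ φ : Fin N → Fin n, ∃ (p : ℕ → Fin s) (c : ℕ → Option ℕ), p 0 = a ∧ p s = b ∧
      ∀ t χ, t < s → Acc E (inp (yneg χ)) a (p t) → tsat N (c t) (fun v => χ (v, φ v)) →
        Acc E (inp (yneg χ)) a (p (t + 1)) := by
    intro φ
    obtain ⟨p, h0, h1, h2⟩ := exists_lazy_walk _ ((hacc (xpos φ)).mpr (hrun_pos φ))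
    have : ∀ t, ∃ c : Option ℕ, ∀ χ, t < s → Acc E (inp (yneg χ)) a (p t) →
        tsat N c (fun v => χ (v, φ v)) → Acc E (inp (yneg χ)) a (p (t + 1)) := by
      intro t
      by_cases ht : t < s
      · rcases h2 t ht with h3 | ⟨l, hl, hx⟩
        · exact ⟨none, fun χ _ h _ => h3 ▸ h⟩
        · cases l with
          | none => exact ⟨none, fun χ _ h _ => h.tail ⟨none, hl, by simp⟩⟩
          | some i =>
            have hxi := hx i rfl
            simp only [inp] at hxi
            rcases hτi : σ i with c | v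
            · refine ⟨none, fun χ _ h _ => h.tail ⟨some i, hl, ?_⟩⟩
              intro i' hi'
              cases hi'
              simp only [inp, hτi] at hxi ⊢
              exact hxi
            · refine ⟨some v.1, fun χ _ h hs => h.tail ⟨some i, hl, ?_⟩⟩
              intro i' hi'
              cases hi'
              simp only [inp, hτi] at hxi ⊢
              exact yneg_of_xpos hxi hs
      · exact ⟨none, fun _ h => absurd h ht⟩
    choose c hc using this
    exact ⟨p, c, h0, h1, fun t χ => hc t χ⟩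
  choose p c h0 h1 h2 using hwalk
  have hss : s * s < 2 ^ (2 * k ^ 2) := by
    rw [two_mul, pow_add]
    exact Nat.mul_lt_mul'' hs hs
  refine not_refut h k (by omega) (lifting (A := Fin n) (U := Fin s) (tsat N) (tscope N) 3
    (tscope_card N) (tsat_junta N) (fun u χ => Acc E (inp (yneg χ)) a u) p c s
    (fun φ χ => by rw [h0]; exact .refl) (fun φ χ => by
      rw [h1, hacc]; exact not_hrun_neg χ _) h2 (2 ^ (3 * h)) k
    (2 * k ^ 2 + (5 * h + 3) * k + k) ?_ ?_ ?_ ?_)
  · rw [Fintype.card_fin]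
    exact Nat.pow_le_pow_right (by norm_num) (by omega)
  · rw [Fintype.card_fin, Fintype.card_fin]
    have e : n ^ (k + 1) = 2 ^ (h * (k + 1)) * (2 ^ (3 * h)) ^ (k + 1) := by rw [hn]; ring
    rw [e]
    refine Nat.mul_lt_mul_of_pos_right (hss.trans_le ?_) (by positivity)
    exact Nat.pow_le_pow_right (by norm_num) (by rw [hh]; nlinarith)
  · have e : Fintype.card (Fin N × Fin n × Bool) + 1 ≤ 2 ^ (5 * h + 3) := by
      simp only [Fintype.card_prod, Fintype.card_fin, Fintype.card_bool]
      have e1 : N * (n * 2) = 2 ^ (5 * h + 2) := by rw [hN, hn]; ring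
      have : 0 < 2 ^ (5 * h + 2) := by positivity
      rw [e1, pow_succ 2 (5 * h + 2)]
      omega
    rw [Fintype.card_fin, pow_add, pow_add, pow_mul 2 (5 * h + 3)]
    refine Nat.mul_lt_mul_of_pos_right ?_ (by positivity)
    exact Nat.mul_lt_mul_of_lt_of_le hss (Nat.pow_le_pow_left e k) (by positivity)
  · have e : (2 * k ^ 2 + (5 * h + 3) * k + k) * 2 ^ (k + 3) * (k + 3) * 2 ^ k =
        ((2 * k ^ 2 + (5 * h + 3) * k + k) * (k + 3)) * 2 ^ h := by rw [hh]; ring
    have e2 : 2 ^ (3 * h) = (64 * (2 ^ k) ^ 4) * 2 ^ h := by rw [hh]; ring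
    rw [e, e2]
    refine Nat.mul_lt_mul_of_pos_right ?_ (by positivity)
    have h3 : (k + 1) ^ 4 ≤ (2 ^ k) ^ 4 := Nat.pow_le_pow_left Nat.lt_two_pow_self 4
    have h4 : (2 * k ^ 2 + (5 * h + 3) * k + k) * (k + 3) < 64 * (k + 1) ^ 4 := by
      rw [hh]; ring_nf; omega
    omega

theorem lower_asymptotic (M s : ℕ) (hM : 2 ^ 200 ≤ M)
    (E : Set (Fin s × Fin s × Option (Fin M))) (a b : Fin s)
    (hE : ∀ x : Fin M → Bool, List.ofFn x ∈ gram.language ↔ Acc E x a b) :
    (M : ℝ) ^ (1 / 10000 * Real.log M) ≤ s := by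
  have hM0 : M ≠ 0 := by
    have : 0 < 2 ^ 200 := by positivity
    omega
  set l := Nat.log 2 M with hl
  have hl1 : 200 ≤ l := Nat.le_log_of_pow_le (by norm_num) hM
  have hl2 : 2 ^ l ≤ M := Nat.pow_log_le_self 2 hM0
  have hl3 : M < 2 ^ (l + 1) := Nat.lt_pow_succ_log_self (by norm_num) M
  set k := (l - 61) / 36 with hk
  have h1 := lower_explicit k M s
    ((Nat.pow_le_pow_right (by norm_num) (by omega)).trans hl2) E a b hE
  have hMpos : (0 : ℝ) < M := by exact_mod_cast Nat.pos_of_ne_zero hM0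
  have hlog2 : (0.6931471803 : ℝ) < Real.log 2 := Real.log_two_gt_d9
  have hlog2' : Real.log 2 < 0.6931471808 := Real.log_two_lt_d9
  have h2 : Real.log M ≤ 72 * k := by
    have h3 : Real.log M ≤ Real.log (2 ^ (l + 1)) :=
      Real.log_le_log hMpos (by exact_mod_cast hl3.le)
    rw [Real.log_pow] at h3
    have h4 : ((l + 1 : ℕ) : ℝ) ≤ 72 * k := by exact_mod_cast (show l + 1 ≤ 72 * k by omega)
    have h5 : (0 : ℝ) ≤ ((l + 1 : ℕ) : ℝ) := by positivity
    nlinarith
  have h0 : 0 ≤ Real.log M := Real.log_natCast_nonneg M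
  have h6 : ((2 ^ (k ^ 2) : ℕ) : ℝ) ≤ s := by exact_mod_cast h1
  refine le_trans ?_ h6
  rw [Real.rpow_def_of_pos hMpos]
  push_cast
  rw [← Real.exp_log (show (0 : ℝ) < 2 ^ (k ^ 2) by positivity), Real.log_pow]
  apply Real.exp_le_exp.mpr
  push_cast
  have h7 : Real.log M * Real.log M ≤ (72 * k) * (72 * k) :=
    mul_le_mul h2 h2 h0 (by positivity)
  have h8 : (0 : ℝ) ≤ (k : ℝ) ^ 2 := by positivity
  nlinarith

end Pool.Agent.Lib.MP_5afa16_lc
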