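import Pool.Agent.Lib.MP_5afa16_lc.SpNS

/-! Bounded arithmetic is decided in linear space. -/

namespace Pool.Agent.Lib.MP_5afa16_lc.Sp

open Relation

set_option maxHeartbeats 400000
set_option synthInstance.maxSize 4096

section

variable {A : Type} {Γ Γ' : Type} [hΓ : Cx A Γ] [hΓ' : Cx A Γ']

/-- Functions whose values have linear length. -/
def Bnd (f : Γ → ℕ) : Prop := ∃ c, ∀ x b, Sb x b → f x < 2 ^ (c * b)

/-- Computable functions. -/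
class NF (f : Γ → ℕ) : Prop where
  g : NS fun y : Γ × ℕ => y.2 = f y.1
  b : Bnd f

/-- Decidable relations. -/
class ND (φ : Γ → Prop) : Prop where
  p : NS φ
  n : NS fun x => ¬φ x

/-- Substitutions. -/
class Mor (π : Γ' → Γ) : Prop where
  w : ∀ x, hΓ.w (π x) = hΓ'.w x
  v : ∀ i < hΓ.n, NF fun x => hΓ.v (π x) i

theorem Bnd.mono {f g : Γ → ℕ} (h : Bnd g) (l : ∀ x, f x ≤ g x) : Bnd f :=
  h.imp fun _ h x b s => (l x).trans_lt (h x b s)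

theorem Bnd.mul {f g : Γ → ℕ} (h : Bnd f) (h' : Bnd g) : Bnd fun x => f x * g x := by
  obtain ⟨c, h⟩ := h
  obtain ⟨c', h'⟩ := h'
  exact ⟨c + c', fun x b s => by
    rw [add_mul, pow_add]; exact Nat.mul_lt_mul'' (h x b s) (h' x b s)⟩

theorem Bnd.add {f g : Γ → ℕ} (h : Bnd f) (h' : Bnd g) : Bnd fun x => f x + g x := by
  obtain ⟨c, h⟩ := h
  obtain ⟨c', h'⟩ := h'
  refine ⟨c + c' + 1, fun x b s => ?_⟩
  have a1 := h x b s
  have a2 := h' x b s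
  have a3 : 2 ^ (c * b) ≤ 2 ^ ((c + c') * b) := Nat.pow_le_pow_right (by omega) (by nlinarith)
  have a4 : 2 ^ (c' * b) ≤ 2 ^ ((c + c') * b) := Nat.pow_le_pow_right (by omega) (by nlinarith)
  have a5 : 2 ^ ((c + c') * b + 1) ≤ 2 ^ ((c + c' + 1) * b) :=
    Nat.pow_le_pow_right (by omega) (by have := s.1; nlinarith)
  rw [pow_succ] at a5
  dsimp only
  omega

theorem Bnd.const (k : ℕ) : Bnd fun _ : Γ => k :=
  ⟨k, fun _ b s => Nat.lt_two_pow_self.trans_le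
    (Nat.pow_le_pow_right (by omega) (Nat.le_mul_of_pos_right _ s.1))⟩

theorem IsV.pr (f : Γ → ℕ) (π : Γ' → Γ) [a : IsV f] [p : Pr π] : IsV fun x => f (π x) := by
  obtain ⟨j, hj, a⟩ := a.ex
  obtain ⟨k, hk, p⟩ := p.v j hj
  exact ⟨k, hk, fun x => (a _).trans (p x)⟩

theorem NF.congr {f g : Γ → ℕ} (h : NF f) (e : ∀ x, g x = f x) : NF g := by
  rwa [show g = f from funext e]

theorem ND.congr {φ ψ : Γ → Prop} (h : ND φ) (e : ∀ x, ψ x ↔ φ x) : ND ψ := by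
  rwa [show ψ = φ from funext fun x => propext (e x)]

theorem NF.ofV (f : Γ → ℕ) [a : IsV f] : NF f := by
  have a1 : IsV fun y : (Γ × ℕ) × ℕ => f y.1.1 := IsV.pr f _
  refine ⟨(((NS.add (Γ := (Γ × ℕ) × ℕ) (·.2) (·.2) (·.2) false).and
    (NS.add (fun y => f y.1.1) (·.2) (·.1.2) false)).exb
    ⟨0, fun x b _ ⟨y, h⟩ => ⟨y, by have := h.1; simp at this ⊢; omega, h⟩⟩).congr fun x => ?_, 1, fun x b s => ?_⟩
  · exact ⟨fun h => ⟨0, by simp [h]⟩, fun ⟨y, h⟩ => by simp at h; omega⟩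
  · obtain ⟨j, hj, a⟩ := a.ex
    simpa [a] using s.2.2 j hj

theorem NF.ren {f : Γ → ℕ} (h : NF f) (π : Γ' → Γ) [p : Pr π] : NF fun x => f (π x) := by
  have := Pr.comp π (fun y : Γ' × ℕ => y.1)
  exact ⟨h.g.ren fun y : Γ' × ℕ => (π y.1, y.2), h.b.imp fun _ h x b s => h _ b (s.pr π)⟩

theorem Mor.sb (π : Γ' → Γ) [p : Mor π] : ∃ c, ∀ x b, Sb x b → Sb (π x) (c * b) := by
  choose! c hc using fun i hi => (p.v i hi).b
  obtain ⟨C, hC⟩ : ∃ C, ∀ i < hΓ.n, c i ≤ C :=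
    ⟨(Finset.range hΓ.n).sup c, fun i hi => Finset.le_sup (f := c) (Finset.mem_range.2 hi)⟩
  refine ⟨C + 1, fun x b s => ⟨by have := s.1; positivity, ?_, fun i hi => ?_⟩⟩
  · rw [p.w]
    exact (s.mono (by nlinarith)).2.1
  · exact (hc i hi x b s).trans_le
      (Nat.pow_le_pow_right (by omega) (Nat.mul_le_mul_right _ (by have := hC i hi; omega)))

theorem NS.mor {φ : Γ → Prop} (h : NS φ) (π : Γ' → Γ) [p : Mor π] : NS fun x => φ (π x) := by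
  obtain ⟨c, k, h⟩ := h
  obtain ⟨c0, h0⟩ := Mor.sb π
  have pre : ∀ m ≤ hΓ.n, ∃ c k, ∀ r (ρ : ℕ → ℕ) base, (∀ i < hΓ'.n, ρ i < base) →
      base + m + k ≤ r → ∃ P : Prog A (Fin r → Bool), Flat P ∧ ∀ x σ,
      (∀ i < hΓ'.n, val σ.1 (ρ i) = hΓ'.v x i) →
      (∀ τ, sem (hΓ'.w x) P σ τ → (∀ i < m, val τ.1 (base + i) = hΓ.v (π x) i) ∧
        ∀ c < base, val τ.1 c = val σ.1 c) ∧
      (∀ b, Sb x b → c * b ≤ σ.1.length → ∃ τ, sem (hΓ'.w x) P σ τ) := by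
    intro m hm
    induction m with
    | zero =>
      refine ⟨0, 0, fun r ρ base _ _ => ⟨ad r r r false false, rfl, fun x σ _ =>
        ⟨fun τ t => ⟨by simp, by simp [(ad_iff.1 t).1]⟩, fun _ _ _ => ⟨σ, ad_iff.2 ?_⟩⟩⟩⟩
      simp [val_top]
    | succ m ih =>
      obtain ⟨c1, k1, ih⟩ := ih (by omega)
      obtain ⟨c2, k2, g⟩ := (p.v m hm).g
      refine ⟨c1 + c0 + c2 * (c0 + 1), k1 + k2, fun r ρ base h1 h2 => ?_⟩
      obtain ⟨P, f, hP⟩ := ih r ρ base h1 (by omega)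
      obtain ⟨P', f', hP'⟩ := g r _ (base + m + 1)
        (ext_lt fun i hi => (h1 i hi).trans_le (Nat.le_add_right _ m)) (by omega)
      refine ⟨.seq P (.seq (gs (base + m)) P'), ⟨f, rfl, f'⟩, fun x σ hx => ?_⟩
      have a : ∀ κ κ', sem (hΓ'.w x) P σ κ → sem (hΓ'.w x) (gs (base + m)) κ κ' → _ :=
        fun κ κ' s t => hP' (x, val κ'.1 (base + m)) κ' (ext_v (fun i hi => by
          rw [(gs_s t).2 _ (by have := h1 i hi; omega), ((hP x σ hx).1 κ s).2 _ (h1 i hi),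
            hx i hi]) rfl)
      refine ⟨fun τ ⟨κ, s, κ', t, u⟩ => ?_, fun b sb l => ?_⟩
      · have a1 := (hP x σ hx).1 κ s
        have a2 := (gs_s t).2
        have a3 := (a κ κ' s t).1 τ u
        refine ⟨fun i hi => ?_, fun c hc => by
          rw [a3.2 c (by omega), a2 c (by omega), a1.2 c hc]⟩
        rw [a3.2 _ (by omega)]
        rcases Nat.lt_succ_iff_lt_or_eq.1 hi with hi | rfl
        · rw [a2 _ (by omega), a1.1 i hi]
        · exact a3.1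
      · simp only [add_mul] at l
        obtain ⟨κ, s⟩ := (hP x σ hx).2 b sb (by omega)
        have hy := (h0 x b sb).2.2 m hm
        obtain ⟨κ', t, e⟩ := gs_c (hΓ'.w x) (show base + m < r by omega) κ
          (hy.trans_le (Nat.pow_le_pow_right (by omega) (by rw [f.len s]; omega)))
        obtain ⟨τ, u⟩ := (a κ κ' s t).2 e _ (sb.ext' (e ▸ hy))
          (by rw [Flat.len (p := gs _) rfl t, f.len s, ← mul_assoc]; omega)
        exact ⟨τ, κ, s, κ', t, u⟩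
  obtain ⟨c1, k1, pre⟩ := pre _ le_rfl
  refine ⟨c1 + c * c0, hΓ.n + k1 + k, fun r ρ base h1 h2 => ?_⟩
  obtain ⟨P, f, hP⟩ := pre r ρ base h1 (by omega)
  obtain ⟨P', f', hP'⟩ := h r (base + ·) (base + hΓ.n) (fun i hi => by simpa) (by omega)
  refine ⟨.seq P P', ⟨f, f'⟩, fun x σ hx => ⟨fun τ ⟨κ, s, t⟩ => ?_, fun u b sb l => ?_⟩⟩
  · have a1 := (hP x σ hx).1 κ s
    have a2 := (hP' (π x) κ a1.1).1 τ (by rwa [p.w])
    exact ⟨a2.1, fun c hc => (a2.2 c (by omega)).trans (a1.2 c hc)⟩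
  · rw [add_mul] at l
    obtain ⟨κ, s⟩ := (hP x σ hx).2 b sb (by omega)
    obtain ⟨τ, t⟩ := (hP' (π x) κ ((hP x σ hx).1 κ s).1).2 u _ (h0 x b sb)
      (by rw [f.len s, ← mul_assoc]; omega)
    exact ⟨τ, κ, s, by rwa [p.w] at t⟩

/-- Projections. -/
class Pj (π : Γ' → Γ) : Prop where
  m : Mor π

instance pjId : Pj fun x : Γ => x :=
  ⟨fun _ => rfl, fun i hi => @NF.ofV _ _ _ _ ⟨i, hi, fun _ => rfl⟩⟩

instance pjFst {π : Γ' → Γ × ℕ} [h : Pj π] : Pj fun x => (π x).1 :=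
  ⟨h.m.w, fun i hi => (h.m.v i (Nat.lt_succ_of_lt hi)).congr fun x => by simp [Cx.v, hi.ne]⟩

instance morPair {π : Γ' → Γ} {f : Γ' → ℕ} [h : Mor π] [g : NF f] : Mor fun x => (π x, f x) :=
  ⟨h.w, fun i hi => by
    by_cases e : i = hΓ.n
    · exact g.congr fun x => by simp [Cx.v, e]
    · exact (h.v i (by simp only [Cx.n] at hi; omega)).congr fun x => by simp [Cx.v, e]⟩

instance morPj {π : Γ' → Γ} [h : Pj π] : Mor π := h.m

theorem Mor.wk (π : Γ' → Γ) [h : Mor π] : Mor fun y : Γ' × ℕ => π y.1 :=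
  ⟨fun x => h.w x.1, fun i hi => (h.v i hi).ren fun y : Γ' × ℕ => y.1⟩

instance nfSnd {π : Γ' → Γ × ℕ} [h : Pj π] : NF fun x => (π x).2 :=
  (h.m.v hΓ.n (Nat.lt_succ_self _)).congr fun x => by simp [Cx.v]

theorem Bnd.mor {f : Γ → ℕ} (h : Bnd f) (π : Γ' → Γ) [p : Mor π] : Bnd fun x => f (π x) := by
  obtain ⟨c, hc⟩ := h
  obtain ⟨c0, h0⟩ := Mor.sb π
  exact ⟨c * c0, fun x b s => by rw [mul_assoc]; exact hc _ _ (h0 x b s)⟩

theorem NF.mor {f : Γ → ℕ} (h : NF f) (π : Γ' → Γ) [p : Mor π] : NF fun x => f (π x) := by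
  have := Mor.wk π
  exact ⟨h.g.mor fun y : Γ' × ℕ => (π y.1, y.2), h.b.mor π⟩

theorem ND.mor {φ : Γ → Prop} (h : ND φ) (π : Γ' → Γ) [Mor π] : ND fun x => φ (π x) :=
  ⟨h.p.mor π, h.n.mor π⟩

end

variable {A : Type} {Γ : Type} [hΓ : Cx A Γ]

theorem NF.wk {f : Γ → ℕ} (h : NF f) : NF fun y : Γ × ℕ => f y.1 := h.mor _

theorem NS.addf (f g h : Γ → ℕ) [NF f] [NF g] [NF h] (k : Bool) :
    NS fun x => f x + g x + k.toNat = h x :=
  (NS.add (Γ := ((Γ × ℕ) × ℕ) × ℕ) (·.1.1.2) (·.1.2) (·.2) k).mor fun x => (((x, f x), g x), h x)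

theorem NS.ex {ψ : Γ × ℕ → Prop} (h : NS ψ) {t : Γ → ℕ} (ht : Bnd t) (hb : ∀ x y, ψ (x, y) → y ≤ t x) :
    NS fun x => ∃ y, ψ (x, y) :=
  h.exb (ht.imp fun _ ht x b s ⟨y, h⟩ => ⟨y, (hb x y h).trans_lt (ht x b s), h⟩)

instance nfAdd {f g : Γ → ℕ} [a : NF f] [b : NF g] : NF fun x => f x + g x := by
  have := a.wk
  have := b.wk
  exact ⟨(NS.addf (fun y : Γ × ℕ => f y.1) (fun y => g y.1) (·.2) false).congr fun x => by
    simp [eq_comm], a.b.add b.b⟩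

instance nfConst (k : ℕ) : NF fun _ : Γ => k := by
  induction k with
  | zero => exact ⟨(NS.addf (Γ := Γ × ℕ) (·.2) (·.2) (·.2) false).congr fun x => by simp, .const _⟩
  | succ k ih =>
    have := ih.wk
    have : NF fun _ : Γ × ℕ => 0 :=
      ⟨(NS.addf (Γ := (Γ × ℕ) × ℕ) (·.2) (·.2) (·.2) false).congr fun x => by simp, .const _⟩
    exact ⟨(NS.addf (Γ := Γ × ℕ) (fun _ => k) (fun _ => 0) (·.2) true).congr fun x => by
      simp [eq_comm], .const _⟩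

theorem NS.eq (f g : Γ → ℕ) [NF f] [NF g] : NS fun x => f x = g x :=
  (NS.addf f (fun _ => 0) g false).congr fun x => by simp

theorem NS.le (f g : Γ → ℕ) [a : NF f] [b : NF g] : NS fun x => f x ≤ g x := by
  have := a.wk
  have := b.wk
  exact ((NS.eq (fun y : Γ × ℕ => f y.1 + y.2) fun y => g y.1).ex b.b
    fun x y h => by dsimp only at h; omega).congr fun x => by
      simpa using ⟨fun h => ⟨g x - f x, by omega⟩, fun ⟨y, h⟩ => by omega⟩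

instance ndLe {f g : Γ → ℕ} [NF f] [NF g] : ND fun x => f x ≤ g x := by
  have : NF fun x => g x + 1 := inferInstance
  exact ⟨NS.le f g, (NS.le (fun x => g x + 1) f).congr fun x => by omega⟩

instance ndNot {φ : Γ → Prop} [a : ND φ] : ND fun x => ¬φ x :=
  ⟨a.n, a.p.congr fun x => by simp⟩

instance ndAnd {φ ψ : Γ → Prop} [a : ND φ] [b : ND ψ] : ND fun x => φ x ∧ ψ x :=
  ⟨a.p.and b.p, (a.n.or b.n).congr fun x => by tauto⟩

instance ndOr {φ ψ : Γ → Prop} [a : ND φ] [b : ND ψ] : ND fun x => φ x ∨ ψ x :=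
  ⟨a.p.or b.p, (a.n.and b.n).congr fun x => by tauto⟩

instance ndImp {φ ψ : Γ → Prop} [a : ND φ] [b : ND ψ] : ND fun x => φ x → ψ x :=
  ⟨(a.n.or b.p).congr fun x => by tauto, (a.p.and b.n).congr fun x => by tauto⟩

instance ndLt {f g : Γ → ℕ} [NF f] [NF g] : ND fun x => f x < g x :=
  (inferInstance : ND fun x => f x + 1 ≤ g x)

instance ndEq {f g : Γ → ℕ} [NF f] [NF g] : ND fun x => f x = g x :=
  (inferInstance : ND fun x => f x ≤ g x ∧ g x ≤ f x).congr fun _ => le_antisymm_iff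

instance ndNe {f g : Γ → ℕ} [NF f] [NF g] : ND fun x => f x ≠ g x := ndNot

theorem NF.of {f : Γ → ℕ} (ψ : Γ × ℕ → Prop) [a : ND ψ] (e : ∀ x y, y = f x ↔ ψ (x, y))
    (t : Γ → ℕ) [b : NF t] (l : ∀ x, f x ≤ t x) : NF f :=
  ⟨a.p.congr fun y => e y.1 y.2, b.b.mono l⟩

instance nfIte {φ : Γ → Prop} {d : ∀ x, Decidable (φ x)} {f g : Γ → ℕ} [a : ND φ] [b : NF f]
    [c : NF g] : NF fun x => @ite _ (φ x) (d x) (f x) (g x) := by
  have := a.mor fun y : Γ × ℕ => y.1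
  have := b.wk
  have := c.wk
  exact NF.of (fun y => (φ y.1 ∧ y.2 = f y.1) ∨ (¬φ y.1 ∧ y.2 = g y.1))
    (fun x y => by by_cases h : φ x <;> simp [h]) (fun x => f x + g x)
    fun x => by split_ifs <;> omega

theorem rtg_mono {α : Type} {r p : α → α → Prop} {a b : α} (h : ReflTransGen r a b)
    (e : ∀ a b, r a b → p a b) : ReflTransGen p a b := ReflTransGen.mono e a b h

/-- Four more variables. -/
abbrev X4 (Γ : Type) := (((Γ × ℕ) × ℕ) × ℕ) × ℕ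

theorem NF.iter (it : Γ → ℕ → ℕ) (s : (Γ × ℕ) × ℕ → ℕ) (n t : Γ → ℕ) [a : NF fun x => it x 0]
    [b : NF s] [c : NF n] (ht : Bnd t) (e : ∀ x i, it x (i + 1) = s ((x, i), it x i))
    (l : ∀ x, ∀ i ≤ n x, it x i ≤ t x) : NF fun x => it x (n x) := by
  let R : Γ → ℕ × ℕ → ℕ × ℕ → Prop := fun x u v => v.1 = u.1 + 1 ∧ v.2 = s ((x, u.1), u.2)
  have h1 : ∀ x v, ReflTransGen (R x) (0, it x 0) v → v.2 = it x v.1 := by
    intro x v h
    induction h with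
    | refl => rfl
    | tail _ h ih => rw [h.1, h.2, e, ih]
  have h2 : ∀ x i (Q : ℕ × ℕ → Prop), (∀ j ≤ i, Q (j, it x j)) →
      ReflTransGen (fun u v => R x u v ∧ Q v) (0, it x 0) (i, it x i) := by
    intro x i Q hQ
    induction i with
    | zero => exact .refl
    | succ i ih => exact (ih fun j hj => hQ j (by omega)).tail ⟨⟨rfl, e x i⟩, hQ _ le_rfl⟩
  have b1 := b.mor fun y : X4 (X4 Γ) => ((y.1.1.1.1.1.1.1.1, y.1.1.1.2), y.1.1.2)
  have a1 := a.mor fun y : X4 Γ => y.1.1.1.1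
  have c1 := c.mor fun y : X4 Γ => y.1.1.1.1
  have k := NS.tc (Γ := X4 Γ) (R := fun y u v => (y.1.1.2 = 0 ∧ y.1.2 = it y.1.1.1.1 0 ∧
      y.2 = n y.1.1.1.1) ∧ R y.1.1.1.1 u v) (by
      have a2 := a1.mor fun y : X4 (X4 Γ) => y.1.1.1.1
      have c2 := c1.mor fun y : X4 (X4 Γ) => y.1.1.1.1
      dsimp only [R]
      exact ND.p) (·.1.1.2) (·.1.2) (·.2) (·.1.1.1.2) (by
    obtain ⟨c1, h3⟩ := (ht.add c.b).mor fun y : X4 Γ => y.1.1.1.1
    refine ⟨c1, fun x b sb h => ?_⟩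
    rcases h.cases_head with h | ⟨_, ⟨⟨e1, e2, e3⟩, -⟩, -⟩
    · rw [h]
    obtain ⟨⟨⟨⟨x, y⟩, z1⟩, z2⟩, z3⟩ := x
    dsimp only at e1 e2 e3 h ⊢
    subst e1 e2 e3
    have h4 := h3 _ b sb
    have h5 := h1 x _ (rtg_mono h fun _ _ a => a.2)
    dsimp only at h4 h5
    subst h5
    refine rtg_mono (h2 _ _ (fun v => v.1 < 2 ^ (c1 * b) ∧ v.2 < 2 ^ (c1 * b)) fun j hj => ?_)
      fun u v a => ⟨⟨⟨rfl, rfl, rfl⟩, a.1⟩, a.2⟩
    have := l _ j hj
    exact ⟨by omega, by dsimp only; omega⟩)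
  have a3 := a.wk
  have c3 := c.wk
  refine ⟨(k.mor fun y : Γ × ℕ => (((y, 0), it y.1 0), n y.1)).congr fun y => ⟨fun h => ?_,
    fun h => h1 y.1 _ (rtg_mono h fun _ _ a => a.2)⟩, ht.mono fun x => l x _ le_rfl⟩
  dsimp only
  rw [h]
  exact rtg_mono (h2 _ _ (fun _ => True) fun _ _ => trivial) fun u v a => ⟨⟨rfl, rfl, rfl⟩, a.1⟩

end Pool.Agent.Lib.MP_5afa16_lc.Sp
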