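import Pool.Agent.Lib.MP_5afa16_lc.SpAr

/-! More computable functions. -/

namespace Pool.Agent.Lib.MP_5afa16_lc.Sp

open Finset

set_option maxHeartbeats 400000
set_option synthInstance.maxSize 4096

variable {A : Type} {Γ : Type} [hΓ : Cx A Γ]

theorem NF.wk2 {f : Γ → ℕ} (h : NF f) : NF fun y : (Γ × ℕ) × ℕ => f y.1.1 := h.mor _

instance nfMul {f g : Γ → ℕ} [a : NF f] [b : NF g] : NF fun x => f x * g x := by
  have := a.wk2
  exact NF.iter (fun x i => f x * i) (fun y => y.2 + f y.1.1) g _ (a := nfConst 0) (a.b.mul b.b)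
    (fun _ _ => rfl) fun _ _ h => Nat.mul_le_mul_left _ h

instance nfPow {f : Γ → ℕ} [a : NF f] (k : ℕ) : NF fun x => f x ^ k := by
  induction k with
  | zero => exact nfConst 1
  | succ k ih => exact nfMul

instance nfSum {t : Γ → ℕ} {f : Γ → ℕ → ℕ} [a : NF t] [b : NF fun y : Γ × ℕ => f y.1 y.2] :
    NF fun x => ∑ i ∈ range (t x), f x i := by
  have := b.mor fun y : (Γ × ℕ) × ℕ => y.1
  refine NF.iter (fun x i => ∑ j ∈ range i, f x j) (fun y => y.2 + f y.1.1 y.1.2) t
    (fun x => ∑ i ∈ range (t x), f x i) (a := nfConst 0) ?_ (fun _ _ => sum_range_succ _ _)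
    fun _ _ h => sum_le_sum_of_subset (range_mono h)
  obtain ⟨c, h⟩ := a.b
  obtain ⟨c', h'⟩ := b.b
  refine ⟨c + c' * (c + 1), fun x n s => ?_⟩
  refine (sum_le_card_nsmul _ _ (2 ^ (c' * ((c + 1) * n))) fun i hi =>
    (h' (x, i) _ (s.ext' ((mem_range.1 hi).trans (h x n s)))).le).trans_lt ?_
  rw [card_range, smul_eq_mul, add_mul c (c' * _), pow_add, mul_assoc]
  exact Nat.mul_lt_mul_of_pos_right (h x n s) (by positivity)

instance ndBall {t : Γ → ℕ} {φ : Γ → ℕ → Prop} [NF t] [ND fun y : Γ × ℕ => φ y.1 y.2] :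
    ND fun x => ∀ i < t x, φ x i := by
  classical
  exact (inferInstance : ND fun x => ∑ i ∈ range (t x), (if φ x i then 0 else 1) = 0).congr
    fun x => by simp

instance ndBall' {t : Γ → ℕ} {φ : Γ → ℕ → Prop} [NF t] [ND fun y : Γ × ℕ => φ y.1 y.2] :
    ND fun x => ∀ i ≤ t x, φ x i :=
  (inferInstance : ND fun x => ∀ i < t x + 1, φ x i).congr fun x => by simp

instance ndBex {t : Γ → ℕ} {φ : Γ → ℕ → Prop} [NF t] [a : ND fun y : Γ × ℕ => φ y.1 y.2] :
    ND fun x => ∃ i < t x, φ x i := by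
  have : ND fun y : Γ × ℕ => (fun x i => ¬φ x i) y.1 y.2 := ndNot (a := a)
  exact (ndNot (a := ndBall (t := t) (φ := fun x i => ¬φ x i))).congr fun x => by simp

instance nfSub {f g : Γ → ℕ} [a : NF f] [b : NF g] : NF fun x => f x - g x := by
  have := a.wk
  have := b.wk
  exact NF.of (fun y => y.2 + g y.1 = f y.1 ∨ (y.2 = 0 ∧ f y.1 ≤ g y.1))
    (fun x y => by dsimp only; omega) f fun x => by omega

instance nfDiv {f g : Γ → ℕ} [a : NF f] [b : NF g] : NF fun x => f x / g x := by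
  have := a.wk
  have := b.wk
  refine NF.of (fun y => (g y.1 = 0 ∧ y.2 = 0) ∨ (y.2 * g y.1 ≤ f y.1 ∧ f y.1 < y.2 * g y.1 + g y.1))
    (fun x y => ?_) f fun x => Nat.div_le_self _ _
  dsimp only
  rcases Nat.eq_zero_or_pos (g x) with h | h
  · simp [h]
  · rw [eq_comm, Nat.div_eq_iff h]
    omega

instance nfMod {f g : Γ → ℕ} [NF f] [NF g] : NF fun x => f x % g x :=
  (inferInstance : NF fun x => f x - g x * (f x / g x)).congr fun _ => Nat.mod_def _ _

instance nfMin {f g : Γ → ℕ} [NF f] [NF g] : NF fun x => min (f x) (g x) :=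
  (inferInstance : NF fun x => if f x ≤ g x then f x else g x).congr fun _ => min_def _ _

instance nfDv {f g h : Γ → ℕ} [a : NF f] [b : NF g] [NF h] : NF fun x => f x / g x ^ h x := by
  have := b.wk2
  exact NF.iter (fun x i => f x / g x ^ i) (fun y => y.2 / g y.1.1) h f
    (a := a.congr fun x => by simp) a.b
    (fun _ _ => by rw [pow_succ, Nat.div_div_eq_div_mul]) fun _ _ _ => Nat.div_le_self _ _

instance nfPair {f g : Γ → ℕ} [NF f] [NF g] : NF fun x => Nat.pair (f x) (g x) :=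
  (inferInstance : NF fun x => if f x < g x then g x * g x + f x else f x * f x + f x + g x)

instance nfUnpair1 {f : Γ → ℕ} [a : NF f] : NF fun x => (f x).unpair.1 := by
  have := a.wk
  have := a.wk2
  refine NF.of (fun y => ∃ z < f y.1 + 1, Nat.pair y.2 z = f y.1) (fun x y => ⟨?_, ?_⟩) f
    fun x => Nat.unpair_left_le _
  · rintro rfl
    exact ⟨_, Nat.lt_succ_of_le (Nat.unpair_right_le _), Nat.pair_unpair _⟩
  · rintro ⟨z, _, h⟩
    simp [← show _ = f x from h]

instance nfUnpair2 {f : Γ → ℕ} [a : NF f] : NF fun x => (f x).unpair.2 := by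
  have := a.wk
  have := a.wk2
  refine NF.of (fun y => ∃ z < f y.1 + 1, Nat.pair z y.2 = f y.1) (fun x y => ⟨?_, ?_⟩) f
    fun x => Nat.unpair_right_le _
  · rintro rfl
    exact ⟨_, Nat.lt_succ_of_le (Nat.unpair_left_le _), Nat.pair_unpair _⟩
  · rintro ⟨z, _, h⟩
    simp [← show _ = f x from h]

theorem NF.fin {f : Γ → ℕ} (N : ℕ) (T : ℕ → ℕ) (g : Γ → ℕ) (h : ∀ i, ND fun x => g x = i)
    (e : ∀ x, f x = if g x < N then T (g x) else 0) : NF f := by
  refine NF.congr ?_ e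
  clear e
  induction N with
  | zero => exact (nfConst 0).congr fun x => by simp
  | succ N ih =>
    have := h N
    refine (inferInstance : NF fun x => if g x = N then T N else
      if g x < N then T (g x) else 0).congr fun x => ?_
    split_ifs <;> first | omega | simp_all

theorem NF.table {N : ℕ} {T : ℕ → ℕ} (h : ∀ x, N ≤ x → T x = 0) (f : Γ → ℕ) [NF f] :
    NF fun x => T (f x) :=
  NF.fin N T f (fun _ => inferInstance) fun x => by split_ifs; exacts [rfl, h _ (by omega)]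

theorem ND.cell (s : A ⊕ Bool → Prop) (π : Γ → List A) [p : Mor π] (f : Γ → ℕ) [NF f] :
    ND fun x => s (cell (π x) (f x)) :=
  ND.congr ⟨(NS.cell (Γ := Γ × ℕ) s (·.2)).mor fun x => (x, f x),
    (NS.cell (Γ := Γ × ℕ) (fun z => ¬s z) (·.2)).mor fun x => (x, f x)⟩ fun x => by
      rw [show π x = hΓ.w x from p.w x]; rfl

theorem NF.cell [Finite A] (c : A ⊕ Bool → ℕ) (π : Γ → List A) [Mor π] (f : Γ → ℕ) [NF f] :
    NF fun x => c (cell (π x) (f x)) := by
  obtain ⟨N, hN⟩ : ∃ N, ∀ z, c z ≤ N := (Finite.bddAbove_range _).imp fun _ h x => h ⟨x, rfl⟩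
  exact NF.fin (N + 1) id _ (fun i => ND.cell (c · = i) π f) fun x =>
    (if_pos (Nat.lt_succ_of_le (hN _))).symm

instance nfLen {π : Γ → List A} [p : Mor π] : NF fun x => (π x).length := by
  have := Mor.wk π
  have a := ND.cell (· = .inr true) (fun y : Γ × ℕ => π y.1) (·.2)
  have : NF fun y : Γ × ℕ => y.2 + 1 := inferInstance
  have b := ND.cell (· = .inr true) (fun y : Γ × ℕ => π y.1) fun y => y.2 + 1
  have e : ∀ (w : List A) i, cell w (i + 1) = .inr true ↔ w.length ≤ i := fun w i => by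
    rw [← List.getElem?_eq_none_iff, cell]
    cases w[i]? <;> simp
  refine ⟨(a.n.and b.p).congr fun ⟨x, y⟩ => ?_, 1, fun x b s => ?_⟩
  · rcases y with _ | y
    · rw [e]
      simp [cell, eq_comm]
    · simp only [e]; omega
  · dsimp only
    rw [show π x = hΓ.w x from p.w x, one_mul]
    exact s.2.1

/-- Computable integer functions. -/
class ZF (f : Γ → ℤ) : Prop where
  ex : ∃ a b : Γ → ℕ, NF a ∧ NF b ∧ ∀ x, f x = a x - b x

instance zfCast {f : Γ → ℕ} [a : NF f] : ZF fun x => (f x : ℤ) :=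
  ⟨f, fun _ => 0, a, inferInstance, by simp⟩

instance zfZero : ZF fun _ : Γ => 0 := zfCast (f := fun _ => 0)

instance zfAdd {f g : Γ → ℤ} [a : ZF f] [b : ZF g] : ZF fun x => f x + g x := by
  obtain ⟨a, a', _, _, e⟩ := a.ex
  obtain ⟨b, b', _, _, e'⟩ := b.ex
  exact ⟨fun x => a x + b x, fun x => a' x + b' x, inferInstance, inferInstance,
    fun x => by simp only [e, e']; push_cast; ring⟩

instance zfNeg {f : Γ → ℤ} [a : ZF f] : ZF fun x => -f x := by
  obtain ⟨a, a', h, h', e⟩ := a.ex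
  exact ⟨a', a, h', h, by simp [e]⟩

instance zfSub {f g : Γ → ℤ} [ZF f] [ZF g] : ZF fun x => f x - g x := by
  simp only [sub_eq_add_neg]
  infer_instance

instance zfMul {f g : Γ → ℤ} [a : ZF f] [b : ZF g] : ZF fun x => f x * g x := by
  obtain ⟨a, a', _, _, e⟩ := a.ex
  obtain ⟨b, b', _, _, e'⟩ := b.ex
  exact ⟨fun x => a x * b x + a' x * b' x, fun x => a x * b' x + a' x * b x, inferInstance,
    inferInstance, fun x => by simp only [e, e']; push_cast; ring⟩

instance zfIte {φ : Γ → Prop} {d : ∀ x, Decidable (φ x)} {f g : Γ → ℤ} [ND φ] [a : ZF f]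
    [b : ZF g] : ZF fun x => @ite _ (φ x) (d x) (f x) (g x) := by
  obtain ⟨a, a', _, _, e⟩ := a.ex
  obtain ⟨b, b', _, _, e'⟩ := b.ex
  exact ⟨fun x => if φ x then a x else b x, fun x => if φ x then a' x else b' x, inferInstance,
    inferInstance, fun x => by by_cases h : φ x <;> simp [e, e', h]⟩

instance ndZeq {f g : Γ → ℤ} [a : ZF f] [b : ZF g] : ND fun x => f x = g x := by
  obtain ⟨a, a', _, _, e⟩ := a.ex
  obtain ⟨b, b', _, _, e'⟩ := b.ex
  exact (inferInstance : ND fun x => a x + b' x = b x + a' x).congr fun x => by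
    simp only [e, e']; omega

/-- Computable vectors. -/
class VF (D : Γ → ℕ) (V : ∀ x, Fin (D x) → ℤ) : Prop where
  ex : ∃ f : Γ × ℕ → ℤ, ZF f ∧ ∀ x t, V x t = f (x, t)

variable {D : Γ → ℕ} {V W : ∀ x, Fin (D x) → ℤ}

instance vfZero : VF D fun _ => 0 := ⟨fun _ => 0, inferInstance, fun _ _ => rfl⟩

instance vfAdd [a : VF D V] [b : VF D W] : VF D fun x => V x + W x := by
  obtain ⟨a, _, e⟩ := a.ex
  obtain ⟨b, _, e'⟩ := b.ex
  exact ⟨fun y => a y + b y, inferInstance, by simp [e, e']⟩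

instance vfSub [a : VF D V] [b : VF D W] : VF D fun x => V x - W x := by
  obtain ⟨a, _, e⟩ := a.ex
  obtain ⟨b, _, e'⟩ := b.ex
  exact ⟨fun y => a y - b y, inferInstance, by simp [e, e']⟩

instance vfNeg [a : VF D V] : VF D fun x => -V x := by
  obtain ⟨a, _, e⟩ := a.ex
  exact ⟨fun y => -a y, inferInstance, by simp [e]⟩

instance vfSmul {n : Γ → ℕ} [c : NF n] [a : VF D V] : VF D fun x => n x • V x := by
  obtain ⟨a, _, e⟩ := a.ex
  have := c.wk
  exact ⟨fun y => n y.1 * a y, inferInstance, by simp [e]⟩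

instance vfIte {φ : Γ → Prop} {d : ∀ x, Decidable (φ x)} [c : ND φ] [a : VF D V] [b : VF D W] :
    VF D fun x => @ite _ (φ x) (d x) (V x) (W x) := by
  obtain ⟨a, _, e⟩ := a.ex
  obtain ⟨b, _, e'⟩ := b.ex
  have := c.mor fun y : Γ × ℕ => y.1
  exact ⟨fun y => if φ y.1 then a y else b y, inferInstance,
    fun x t => by by_cases h : φ x <;> simp [e, e', h]⟩

instance ndVeq [NF D] [a : VF D V] [b : VF D W] : ND fun x => V x = W x := by
  obtain ⟨a, _, e⟩ := a.ex
  obtain ⟨b, _, e'⟩ := b.ex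
  exact (ndBall (t := D) (φ := fun x t => a (x, t) = b (x, t))).congr fun x => by
    simp [funext_iff, e, e', Fin.forall_iff]

theorem ZF.sq [NF D] [a : VF D V] : ZF fun x => ∑ t, V x t ^ 2 := by
  obtain ⟨f, _, e⟩ := a.ex
  obtain ⟨a, b, _, _, h⟩ := (inferInstance : ZF fun y => f y * f y).ex
  refine ⟨fun x => ∑ i ∈ range (D x), a (x, i), fun x => ∑ i ∈ range (D x), b (x, i),
    nfSum (f := fun x i => a (x, i)), nfSum (f := fun x i => b (x, i)), fun x => ?_⟩
  simp only [e, pow_two, h]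
  push_cast
  rw [← sum_sub_distrib, Fin.sum_univ_eq_sum_range fun i => (a (x, i) : ℤ) - b (x, i)]

end Pool.Agent.Lib.MP_5afa16_lc.Sp
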