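import Pool.Agent.Lib.MP_5afa16_lc.SpProg

/-! Relations on numbers that programs decide in space linear in the length of the numbers. -/

namespace Pool.Agent.Lib.MP_5afa16_lc.Sp

open Relation

set_option maxHeartbeats 400000

variable {A : Type} {r : ℕ}

/-- A bit of a column. -/
def bit (x : Fin r → Bool) (c : ℕ) : ℕ := if h : c < r then (x ⟨c, h⟩).toNat else 0

/-- The number on a track. -/
def val : List (Fin r → Bool) → ℕ → ℕ
  | [], _ => 0
  | x :: L, c => bit x c + 2 * val L c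

theorem bit_le (x : Fin r → Bool) (c : ℕ) : bit x c ≤ 1 := by
  unfold bit
  split_ifs
  · exact Bool.toNat_le _
  · omega

theorem val_lt (L : List (Fin r → Bool)) (c : ℕ) : val L c < 2 ^ L.length := by
  induction L with
  | nil => simp [val]
  | cons x L ih => have := bit_le x c; simp only [val, List.length_cons, pow_succ]; omega

theorem val_top (L : List (Fin r → Bool)) : val L r = 0 := by
  induction L with
  | nil => rfl
  | cons x L ih => simp [val, bit, ih]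

theorem val_ext (L : List (Fin r → Bool)) (c : ℕ) : val (L ++ [fun _ => false]) c = val L c := by
  induction L with
  | nil => simp [val, bit]
  | cons x L ih => simp [val, ih]

/-- No extension of the tape. -/
def Flat {X : Type} : Prog A X → Prop
  | .sw _ _ _ e => e = none
  | .io _ _ => True
  | .seq p q => Flat p ∧ Flat q
  | .alt p q => Flat p ∧ Flat q
  | .star p => Flat p

theorem Flat.len {X : Type} {w : List A} {p : Prog A X} (h : Flat p) :
    ∀ {σ τ}, sem w p σ τ → τ.1.length = σ.1.length := by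
  induction p with
  | sw => rintro σ _ ⟨L, a, rfl⟩; cases h; simpa using a.len
  | io => rintro σ _ ⟨_, rfl⟩; rfl
  | seq p q ihp ihq => exact fun ⟨_, a, b⟩ => (ihq h.2 b).trans (ihp h.1 a)
  | alt p q ihp ihq => exact fun a => a.elim (ihp h.1) (ihq h.2)
  | star p ih =>
    intro σ τ a
    induction a with
    | refl => rfl
    | tail _ b c => exact (ih h b).trans c

theorem Flat.safe {X : Type} {w : List A} {B : ℕ} {p : Prog A X} (h : Flat p) :
    ∀ {σ}, σ.1.length ≤ B → Safe w B p σ := by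
  induction p with
  | sw => exact fun a τ b => (h.len b).trans_le a
  | io => exact fun a τ b => (h.len b).trans_le a
  | seq p q ihp ihq => exact fun a => ⟨ihp h.1 a, fun τ b => ihq h.2 ((h.1.len b).trans_le a)⟩
  | alt p q ihp ihq => exact fun a => ⟨ihp h.1 a, ihq h.2 a⟩
  | star p ih => exact fun a τ b => ih h ((Flat.len (p := .star p) h b).trans_le a)

/-- Guess a number. -/
def gs (c : ℕ) : Prog A (Fin r → Bool) :=
  .sw (fun _ x _ x' => ∀ c' ≠ c, bit x' c' = bit x c') false false none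

/-- Test a sum. -/
def ad (a b c : ℕ) (ci co : Bool) : Prog A (Fin r → Bool) :=
  .sw (fun k x k' x' => x' = x ∧ bit x a + bit x b + k.toNat = bit x c + 2 * k'.toNat) ci co none

theorem gs_s {w : List A} {c : ℕ} {σ τ : List (Fin r → Bool) × ℕ} (h : sem w (gs c) σ τ) :
    τ.2 = σ.2 ∧ ∀ c' ≠ c, val τ.1 c' = val σ.1 c' := by
  obtain ⟨L, a, rfl⟩ := h
  refine ⟨rfl, fun c' hc => ?_⟩
  simp only [Option.toList_none, List.append_nil]
  generalize σ.1 = M at a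
  generalize false = k at a
  have : ∀ k M k' L, Sw (fun _ (x : Fin r → Bool) _ x' => ∀ c' ≠ c, bit x' c' = bit x c') k M k' L →
      val L c' = val M c' := by
    intro k M k' L a
    induction a with
    | nil => rfl
    | cons a _ ih => simp [val, a c' hc, ih]
  exact this _ _ _ _ a

theorem gs_c (w : List A) {c y : ℕ} (hc : c < r) (σ : List (Fin r → Bool) × ℕ)
    (hy : y < 2 ^ σ.1.length) : ∃ τ, sem w (gs c) σ τ ∧ val τ.1 c = y := by
  obtain ⟨L, i⟩ := σ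
  suffices ∃ L', Sw (fun _ (x : Fin r → Bool) _ x' => ∀ c' ≠ c, bit x' c' = bit x c') false L false
      L' ∧ val L' c = y by
    obtain ⟨L', a, b⟩ := this
    exact ⟨_, ⟨L', a, rfl⟩, by simpa using b⟩
  induction L generalizing y with
  | nil => exact ⟨[], .nil _, by simp at hy; simp [val, hy]⟩
  | cons x L ih =>
    obtain ⟨L', a, b⟩ := ih (y := y / 2) (by simp [pow_succ] at hy ⊢; omega)
    refine ⟨Function.update x ⟨c, hc⟩ (y % 2 = 1) :: L', .cons (fun c' h => ?_) a, ?_⟩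
    · unfold bit
      split_ifs
      · rw [Function.update_of_ne (by simpa using h)]
      · rfl
    · simp only [val, bit, hc, dite_true, Function.update_self, b]
      rcases Nat.mod_two_eq_zero_or_one y with e | e <;> simp [e] <;> omega

theorem ad_iff {w : List A} {a b c : ℕ} {ci co : Bool} {σ τ : List (Fin r → Bool) × ℕ} :
    sem w (ad a b c ci co) σ τ ↔ τ = σ ∧
      val σ.1 a + val σ.1 b + ci.toNat = val σ.1 c + 2 ^ σ.1.length * co.toNat := by
  obtain ⟨L, i⟩ := σ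
  have : ∀ L', Sw (fun k (x : Fin r → Bool) k' x' => x' = x ∧
      bit x a + bit x b + k.toNat = bit x c + 2 * k'.toNat) ci L co L' ↔
      L' = L ∧ val L a + val L b + ci.toNat = val L c + 2 ^ L.length * co.toNat := by
    induction L generalizing ci with
    | nil =>
      refine fun L' => ⟨fun h => by cases h; simp [val], ?_⟩
      rintro ⟨rfl, h⟩
      obtain rfl : ci = co := by cases ci <;> cases co <;> simp [val] at h ⊢
      exact .nil _
    | cons x L ih =>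
      intro L'
      simp only [val, List.length_cons, pow_succ, mul_right_comm _ 2]
      refine ⟨fun h => ?_, ?_⟩
      · cases h with
        | cons h1 h2 =>
          obtain ⟨rfl, h3⟩ := (ih _).1 h2
          exact ⟨by rw [h1.1], by omega⟩
      · rintro ⟨rfl, h⟩
        have := bit_le x a
        have := bit_le x b
        have := bit_le x c
        have := Bool.toNat_le ci
        by_cases e : 2 ≤ bit x a + bit x b + ci.toNat
        · exact .cons (c1 := true) ⟨rfl, by simp; omega⟩ ((ih _).2 ⟨rfl, by simp; omega⟩)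
        · exact .cons (c1 := false) ⟨rfl, by simp; omega⟩ ((ih _).2 ⟨rfl, by simp; omega⟩)
  simp only [ad, sem, this, Option.toList_none, List.append_nil]
  exact ⟨fun ⟨_, ⟨e, h⟩, f⟩ => ⟨by rw [f, e], h⟩, fun ⟨e, h⟩ => ⟨L, ⟨rfl, h⟩, e⟩⟩

/-- Assignment of a number or its successor. -/
def cp (a s : ℕ) (k : Bool) : Prog A (Fin r → Bool) := .seq (gs a) (ad s r a k false)

theorem cp_s {w : List A} {a s : ℕ} {k : Bool} {σ τ : List (Fin r → Bool) × ℕ} (hs : s ≠ a)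
    (h : sem w (cp a s k) σ τ) : τ.2 = σ.2 ∧ val τ.1 a = val σ.1 s + k.toNat ∧
      ∀ c' ≠ a, val τ.1 c' = val σ.1 c' := by
  obtain ⟨κ, h1, h2⟩ := h
  obtain ⟨rfl, h3⟩ := ad_iff.1 h2
  have := gs_s h1
  exact ⟨this.1, by rw [← this.2 s hs]; simpa [val_top] using h3.symm, this.2⟩

theorem cp_c (w : List A) {a s : ℕ} (k : Bool) (σ : List (Fin r → Bool) × ℕ) (hs : s ≠ a)
    (ha : a < r) (h : val σ.1 s + k.toNat < 2 ^ σ.1.length) : ∃ τ, sem w (cp a s k) σ τ := by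
  obtain ⟨τ, h1, h2⟩ := gs_c w ha σ h
  exact ⟨τ, τ, h1, ad_iff.2 ⟨rfl, by simp [val_top, h2, (gs_s h1).2 s hs]⟩⟩

theorem cp_flat (a s : ℕ) (k : Bool) : Flat (cp a s k : Prog A (Fin r → Bool)) := ⟨rfl, rfl⟩

/-- Contexts: an input word and finitely many numbers. -/
class Cx (A : outParam Type) (Γ : Type) where
  w : Γ → List A
  n : ℕ
  v : Γ → ℕ → ℕ

instance cxBase : Cx A (List A) := ⟨id, 0, fun _ _ => 0⟩

instance cxExt {Γ : Type} [h : Cx A Γ] : Cx A (Γ × ℕ) :=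
  ⟨fun x => h.w x.1, h.n + 1, fun x i => if i = h.n then x.2 else h.v x.1 i⟩

variable {Γ Γ' : Type} [hΓ : Cx A Γ] [hΓ' : Cx A Γ']

/-- All numbers have at most `b` bits. -/
def Sb (x : Γ) (b : ℕ) : Prop := 0 < b ∧ (hΓ.w x).length < 2 ^ b ∧ ∀ i < hΓ.n, hΓ.v x i < 2 ^ b

theorem Sb.mono {x : Γ} {b b' : ℕ} (h : Sb x b) (l : b ≤ b') : Sb x b' :=
  ⟨h.1.trans_le l, h.2.1.trans_le (Nat.pow_le_pow_right (by omega) l),
    fun i hi => (h.2.2 i hi).trans_le (Nat.pow_le_pow_right (by omega) l)⟩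

theorem Sb.ext {x : Γ} {b y : ℕ} (h : Sb x b) (l : y < 2 ^ b) : Sb (x, y) b :=
  ⟨h.1, h.2.1, fun i hi => by
    by_cases e : i = hΓ.n
    · simpa [Cx.v, e] using l
    · simpa [Cx.v, e] using h.2.2 i (by simp only [Cx.n] at hi; omega)⟩

theorem Sb.ext' {x : Γ} {b c y : ℕ} (h : Sb x b) (l : y < 2 ^ (c * b)) : Sb (x, y) ((c + 1) * b) :=
  (h.mono (by nlinarith)).ext (l.trans_le (Nat.pow_le_pow_right (by omega) (by nlinarith)))

/-- The program decides the relation. -/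
def Impl (φ : Γ → Prop) (c : ℕ) (ρ : ℕ → ℕ) (base : ℕ) (P : Prog A (Fin r → Bool)) : Prop :=
  Flat P ∧ ∀ x σ, (∀ i < hΓ.n, val σ.1 (ρ i) = hΓ.v x i) →
    (∀ τ, sem (hΓ.w x) P σ τ → φ x ∧ ∀ c < base, val τ.1 c = val σ.1 c) ∧
    (φ x → ∀ b, Sb x b → c * b ≤ σ.1.length → ∃ τ, sem (hΓ.w x) P σ τ)

/-- Relations accepted in linear space. -/
def NS (φ : Γ → Prop) : Prop := ∃ c k, ∀ r (ρ : ℕ → ℕ) base, (∀ i < hΓ.n, ρ i < base) →
  base + k ≤ r → ∃ P : Prog A (Fin r → Bool), Impl φ c ρ base P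

/-- Renamings of contexts. -/
class Pr (π : Γ' → Γ) : Prop where
  w : ∀ x, hΓ.w (π x) = hΓ'.w x
  v : ∀ i < hΓ.n, ∃ j < hΓ'.n, ∀ x, hΓ.v (π x) i = hΓ'.v x j

/-- Variables. -/
class IsV (f : Γ → ℕ) : Prop where
  ex : ∃ j < hΓ.n, ∀ x, f x = hΓ.v x j

instance prId : Pr (fun x : Γ => x) := ⟨fun _ => rfl, fun i h => ⟨i, h, fun _ => rfl⟩⟩

instance prFst {π : Γ' → Γ × ℕ} [h : Pr π] : Pr fun x => (π x).1 :=
  ⟨h.w, fun i hi => by
    obtain ⟨j, a, b⟩ := h.v i (Nat.lt_succ_of_lt hi)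
    exact ⟨j, a, fun x => by simpa [Cx.v, hi.ne] using b x⟩⟩

instance isvSnd {π : Γ' → Γ × ℕ} [h : Pr π] : IsV fun x => (π x).2 := ⟨by
  obtain ⟨j, a, b⟩ := h.v hΓ.n (Nat.lt_succ_self _)
  exact ⟨j, a, fun x => by simpa [Cx.v] using b x⟩⟩

instance prPair {π : Γ' → Γ} {f : Γ' → ℕ} [h : Pr π] [g : IsV f] : Pr fun x => (π x, f x) :=
  ⟨h.w, fun i hi => by
    by_cases e : i = hΓ.n
    · obtain ⟨j, a, b⟩ := g.ex
      exact ⟨j, a, fun x => by simpa [Cx.v, e] using b x⟩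
    · obtain ⟨j, a, b⟩ := h.v i (by simp only [Cx.n] at hi; omega)
      exact ⟨j, a, fun x => by simpa [Cx.v, e] using b x⟩⟩

theorem Pr.comp {Γ'' : Type} [Cx A Γ''] (π : Γ' → Γ) (π' : Γ'' → Γ') [h : Pr π] [h' : Pr π'] :
    Pr fun x => π (π' x) :=
  ⟨fun x => (h.w _).trans (h'.w x), fun i hi => by
    obtain ⟨j, a, b⟩ := h.v i hi
    obtain ⟨k, c, d⟩ := h'.v j a
    exact ⟨k, c, fun x => (b _).trans (d x)⟩⟩

theorem Sb.pr {x : Γ'} {b : ℕ} (h : Sb x b) (π : Γ' → Γ) [p : Pr π] : Sb (π x) b :=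
  ⟨h.1, by rw [p.w]; exact h.2.1, fun i hi => by
    obtain ⟨j, a, e⟩ := p.v i hi
    rw [e]
    exact h.2.2 j a⟩

theorem NS.congr {φ ψ : Γ → Prop} (h : NS φ) (e : ∀ x, ψ x ↔ φ x) : NS ψ := by
  rwa [show ψ = φ from funext fun x => propext (e x)]

theorem NS.ren {φ : Γ → Prop} (h : NS φ) (π : Γ' → Γ) [p : Pr π] : NS fun x => φ (π x) := by
  obtain ⟨c, k, h⟩ := h
  choose! s s1 s2 using p.v
  refine ⟨c, k, fun r ρ base h1 h2 => ?_⟩
  obtain ⟨P, f, hP⟩ := h r (fun i => ρ (s i)) base (fun i hi => h1 _ (s1 i hi)) h2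
  refine ⟨P, f, fun x σ hx => ?_⟩
  have := hP (π x) σ fun i hi => by rw [hx _ (s1 i hi), s2 i hi]
  rw [p.w] at this
  exact ⟨this.1, fun a b hb => this.2 a b (hb.pr π)⟩

theorem NS.and {φ ψ : Γ → Prop} (h : NS φ) (h' : NS ψ) : NS fun x => φ x ∧ ψ x := by
  obtain ⟨c, k, h⟩ := h
  obtain ⟨c', k', h'⟩ := h'
  refine ⟨c + c', k + k', fun r ρ base h1 h2 => ?_⟩
  obtain ⟨P, f, hP⟩ := h r ρ base h1 (by omega)
  obtain ⟨P', f', hP'⟩ := h' r ρ base h1 (by omega)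
  refine ⟨.seq P P', ⟨f, f'⟩, fun x σ hx => ?_⟩
  have a : ∀ κ, sem (hΓ.w x) P σ κ → ∀ i < hΓ.n, val κ.1 (ρ i) = hΓ.v x i := fun κ s i hi => by
    rw [((hP x σ hx).1 κ s).2 _ (h1 i hi), hx i hi]
  refine ⟨fun τ ⟨κ, s, t⟩ => ?_, fun ⟨u, v⟩ b hb l => ?_⟩
  · have b1 := (hP x σ hx).1 κ s
    have b2 := (hP' x κ (a κ s)).1 τ t
    exact ⟨⟨b1.1, b2.1⟩, fun c hc => (b2.2 c hc).trans (b1.2 c hc)⟩
  · rw [add_mul] at l
    obtain ⟨κ, s⟩ := (hP x σ hx).2 u b hb (by omega)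
    obtain ⟨τ, t⟩ := (hP' x κ (a κ s)).2 v b hb (by rw [f.len s]; omega)
    exact ⟨τ, κ, s, t⟩

theorem NS.or {φ ψ : Γ → Prop} (h : NS φ) (h' : NS ψ) : NS fun x => φ x ∨ ψ x := by
  obtain ⟨c, k, h⟩ := h
  obtain ⟨c', k', h'⟩ := h'
  refine ⟨c + c', k + k', fun r ρ base h1 h2 => ?_⟩
  obtain ⟨P, f, hP⟩ := h r ρ base h1 (by omega)
  obtain ⟨P', f', hP'⟩ := h' r ρ base h1 (by omega)
  refine ⟨.alt P P', ⟨f, f'⟩, fun x σ hx => ⟨fun τ s => ?_, fun u b hb l => ?_⟩⟩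
  · rcases s with s | s
    · exact ((hP x σ hx).1 τ s).imp_left Or.inl
    · exact ((hP' x σ hx).1 τ s).imp_left Or.inr
  · rw [add_mul] at l
    rcases u with u | u
    · exact ((hP x σ hx).2 u b hb (by omega)).imp fun _ => Or.inl
    · exact ((hP' x σ hx).2 u b hb (by omega)).imp fun _ => Or.inr

theorem ext_v {ρ : ℕ → ℕ} {base y : ℕ} {x : Γ} {L : List (Fin r → Bool)}
    (hx : ∀ i < hΓ.n, val L (ρ i) = hΓ.v x i) (hy : val L base = y) :
    ∀ i < hΓ.n + 1, val L (if i = hΓ.n then base else ρ i) = cxExt.v (x, y) i := by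
  intro i hi
  by_cases e : i = hΓ.n
  · simpa [Cx.v, e] using hy
  · simpa [Cx.v, e] using hx i (by omega)

theorem ext_lt {ρ : ℕ → ℕ} {base n : ℕ} (h : ∀ i < n, ρ i < base) :
    ∀ i < n + 1, (if i = n then base else ρ i) < base + 1 := by
  intro i hi
  split_ifs
  · omega
  · exact (h i (by omega)).trans (by omega)

theorem NS.exb {ψ : Γ × ℕ → Prop} (h : NS ψ)
    (hb : ∃ c, ∀ x b, Sb x b → (∃ y, ψ (x, y)) → ∃ y < 2 ^ (c * b), ψ (x, y)) :
    NS fun x => ∃ y, ψ (x, y) := by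
  obtain ⟨c, k, h⟩ := h
  obtain ⟨c', hb⟩ := hb
  refine ⟨c * (c' + 1) + c', k + 1, fun r ρ base h1 h2 => ?_⟩
  obtain ⟨P, f, hP⟩ := h r _ (base + 1) (ext_lt h1) (by omega)
  refine ⟨.seq (gs base) P, ⟨rfl, f⟩, fun x σ hx => ?_⟩
  have a : ∀ κ, sem (hΓ.w x) (gs base) σ κ → _ := fun κ s =>
    hP (x, val κ.1 base) κ (ext_v (fun i hi => by rw [(gs_s s).2 _ (h1 i hi).ne, hx i hi]) rfl)
  refine ⟨fun τ ⟨κ, s, t⟩ => ?_, fun u b sb l => ?_⟩
  · have := (a κ s).1 τ t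
    exact ⟨⟨_, this.1⟩, fun c hc => (this.2 c (by omega)).trans ((gs_s s).2 c hc.ne)⟩
  · obtain ⟨y, hy, u⟩ := hb x b sb u
    rw [add_mul] at l
    obtain ⟨κ, s, rfl⟩ := gs_c (hΓ.w x) (show base < r by omega) σ
      (hy.trans_le (Nat.pow_le_pow_right (by omega) (by omega)))
    obtain ⟨τ, t⟩ := (a κ s).2 u _ (sb.ext' hy)
      (by rw [Flat.len (p := gs base) rfl s, ← mul_assoc]; omega)
    exact ⟨τ, κ, s, t⟩

theorem NS.add (f g h : Γ → ℕ) [a : IsV f] [b : IsV g] [c : IsV h] (k : Bool) :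
    NS fun x => f x + g x + k.toNat = h x := by
  obtain ⟨i, hi, a⟩ := a.ex
  obtain ⟨j, hj, b⟩ := b.ex
  obtain ⟨l, hl, c⟩ := c.ex
  refine ⟨0, 0, fun r ρ base _ _ => ⟨ad (ρ i) (ρ j) (ρ l) k false, rfl, fun x σ hx => ?_⟩⟩
  simp only [ad_iff, hx i hi, hx j hj, hx l hl, a, b, c]
  exact ⟨fun τ ⟨e, u⟩ => ⟨by simpa using u, by simp [e]⟩,
    fun u _ _ _ => ⟨σ, rfl, by simpa using u⟩⟩

theorem NS.tc {R : Γ → ℕ × ℕ → ℕ × ℕ → Prop}
    (h : NS fun y : (((Γ × ℕ) × ℕ) × ℕ) × ℕ => R y.1.1.1.1 (y.1.1.1.2, y.1.1.2) (y.1.2, y.2))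
    (s1 s2 e1 e2 : Γ → ℕ) [a1 : IsV s1] [a2 : IsV s2] [a3 : IsV e1] [a4 : IsV e2]
    (hb : ∃ c, ∀ x b, Sb x b → ReflTransGen (R x) (s1 x, s2 x) (e1 x, e2 x) → ReflTransGen
      (fun u v => R x u v ∧ v.1 < 2 ^ (c * b) ∧ v.2 < 2 ^ (c * b)) (s1 x, s2 x) (e1 x, e2 x)) :
    NS fun x => ReflTransGen (R x) (s1 x, s2 x) (e1 x, e2 x) := by
  obtain ⟨c, k, h⟩ := h
  obtain ⟨c', hb⟩ := hb
  obtain ⟨i1, l1, a1⟩ := a1.ex
  obtain ⟨i2, l2, a2⟩ := a2.ex
  obtain ⟨i3, l3, a3⟩ := a3.ex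
  obtain ⟨i4, l4, a4⟩ := a4.ex
  refine ⟨(c + 1) * (c' + 1), k + 4, fun r ρ base h1 h2 => ?_⟩
  obtain ⟨P, f, hP⟩ := h r _ (base + 1 + 1 + 1 + 1) (ext_lt (ext_lt (ext_lt (ext_lt h1))))
    (by omega)
  let B : Prog A (Fin r → Bool) := .seq (gs (base + 1 + 1)) (.seq (gs (base + 1 + 1 + 1))
    (.seq P (.seq (cp base (base + 1 + 1) false) (cp (base + 1) (base + 1 + 1 + 1) false))))
  have fB : Flat B := ⟨rfl, rfl, f, cp_flat .., cp_flat ..⟩
  refine ⟨.seq (cp base (ρ i1) false) (.seq (cp (base + 1) (ρ i2) false) (.seq (.star B)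
    (.seq (ad base r (ρ i3) false false) (ad (base + 1) r (ρ i4) false false)))),
    ⟨cp_flat .., cp_flat .., fB, rfl, rfl⟩, fun x σ hx => ?_⟩
  have n1 := h1 _ l1
  have n2 := h1 _ l2
  have key : ∀ κ : List (Fin r → Bool) × ℕ, (∀ c < base, val κ.1 c = val σ.1 c) → _ := fun κ hκ =>
    hP ((((x, val κ.1 base), val κ.1 (base + 1)), val κ.1 (base + 1 + 1)),
      val κ.1 (base + 1 + 1 + 1)) κ (ext_v (ext_v (ext_v (ext_v
        (fun i hi => by rw [hκ _ (h1 i hi), hx i hi]) rfl) rfl) rfl) rfl)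
  have bs : ∀ κ τ, (∀ c < base, val κ.1 c = val σ.1 c) → sem (hΓ.w x) B κ τ →
      (∀ c < base, val τ.1 c = val σ.1 c) ∧ ∃ κ', sem (hΓ.w x) (.seq (gs (base + 1 + 1))
        (gs (base + 1 + 1 + 1))) κ κ' ∧ R x (val κ.1 base, val κ.1 (base + 1))
        (val τ.1 base, val τ.1 (base + 1)) := by
    rintro κ τ hκ ⟨κ1, t1, κ2, t2, κ3, t3, κ4, t4, t5⟩
    have u1 := (gs_s t1).2
    have u2 := (gs_s t2).2
    have u3 := (key κ2 fun c hc => by rw [u2 c (by omega), u1 c (by omega), hκ c hc]).1 κ3 t3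
    have u4 := (cp_s (by omega) t4).2
    have u5 := (cp_s (by omega) t5).2
    refine ⟨fun c hc => by rw [u5.2 c (by omega), u4.2 c (by omega), u3.2 c (by omega),
      u2 c (by omega), u1 c (by omega), hκ c hc], κ2, ⟨κ1, t1, t2⟩, ?_⟩
    rw [u5.1, u5.2 _ (by omega), u4.1, u4.2 _ (by omega), u3.2 _ (by omega), u3.2 _ (by omega),
      ← u1 base (by omega), ← u1 (base + 1) (by omega), ← u2 base (by omega),
      ← u2 (base + 1) (by omega)]
    exact u3.1
  have ini : ∀ κ1 κ2, sem (hΓ.w x) (cp base (ρ i1) false) σ κ1 →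
      sem (hΓ.w x) (cp (base + 1) (ρ i2) false) κ1 κ2 → (∀ c < base, val κ2.1 c = val σ.1 c) ∧
      (val κ2.1 base, val κ2.1 (base + 1)) = (s1 x, s2 x) := by
    intro κ1 κ2 t1 t2
    have u1 := (cp_s (by omega) t1).2
    have u2 := (cp_s (by omega) t2).2
    exact ⟨fun c hc => by rw [u2.2 c (by omega), u1.2 c (by omega)], by
      rw [u2.1, u2.2 _ (by omega), u1.1, u1.2 _ (by omega), hx _ l1, hx _ l2, a1, a2]; rfl⟩
  refine ⟨?_, fun u b sb l => ?_⟩
  · rintro τ ⟨κ1, t1, κ2, t2, κ3, t3, κ4, t4, t5⟩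
    obtain ⟨u1, u2⟩ := ini _ _ t1 t2
    have u3 : (∀ c < base, val κ3.1 c = val σ.1 c) ∧
        ReflTransGen (R x) (s1 x, s2 x) (val κ3.1 base, val κ3.1 (base + 1)) := by
      clear t4
      induction t3 with
      | refl => exact ⟨u1, u2 ▸ .refl⟩
      | tail _ t ih =>
        obtain ⟨v1, _, _, v2⟩ := bs _ _ ih.1 t
        exact ⟨v1, ih.2.tail v2⟩
    obtain ⟨rfl, u4⟩ := ad_iff.1 t4
    obtain ⟨rfl, u5⟩ := ad_iff.1 t5
    simp only [val_top, add_zero, Bool.toNat_false, mul_zero, u3.1 _ (h1 _ l3), u3.1 _ (h1 _ l4),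
      hx _ l3, hx _ l4, ← a3, ← a4] at u4 u5
    exact ⟨by simpa only [u4, u5] using u3.2, u3.1⟩
  · obtain ⟨κ1, t1⟩ := cp_c (hΓ.w x) false σ n1.ne (show base < r by omega) (val_lt ..)
    obtain ⟨κ2, t2⟩ := cp_c (hΓ.w x) (s := ρ i2) false κ1 (by omega) (show base + 1 < r by omega)
      (val_lt ..)
    obtain ⟨u1, u2⟩ := ini _ _ t1 t2
    have m1 : 2 ^ b ≤ 2 ^ ((c' + 1) * b) := Nat.pow_le_pow_right (by omega) (by nlinarith)
    have m2 : 2 ^ (c' * b) ≤ 2 ^ ((c' + 1) * b) := Nat.pow_le_pow_right (by omega) (by nlinarith)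
    have m3 : 2 ^ ((c' + 1) * b) ≤ 2 ^ σ.1.length :=
      Nat.pow_le_pow_right (by omega) (by nlinarith)
    have lp : ∀ e, ReflTransGen (fun u v => R x u v ∧ v.1 < 2 ^ (c' * b) ∧ v.2 < 2 ^ (c' * b))
        (s1 x, s2 x) e → ∃ κ, ReflTransGen (sem (hΓ.w x) B) κ2 κ ∧
        (∀ c < base, val κ.1 c = val σ.1 c) ∧ (val κ.1 base, val κ.1 (base + 1)) = e ∧
        e.1 < 2 ^ ((c' + 1) * b) ∧ e.2 < 2 ^ ((c' + 1) * b) := by
      intro e p
      induction p with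
      | refl => exact ⟨κ2, .refl, u1, u2, by rw [a1]; exact (sb.2.2 _ l1).trans_le m1,
          by rw [a2]; exact (sb.2.2 _ l2).trans_le m1⟩
      | @tail e e' _ p ih =>
        obtain ⟨κ, q1, q2, rfl, q4, q5⟩ := ih
        have z : κ.1.length = σ.1.length := by
          rw [Flat.len (p := .star B) fB q1, (cp_flat ..).len t2, (cp_flat ..).len t1]
        obtain ⟨κ3, t3, v3⟩ := gs_c (hΓ.w x) (y := e'.1) (show base + 1 + 1 < r by omega) κ
          (by rw [z]; omega)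
        have z3 := (Flat.len (p := gs _) rfl t3).trans z
        obtain ⟨κ4, t4, v4⟩ := gs_c (hΓ.w x) (y := e'.2) (show base + 1 + 1 + 1 < r by omega) κ3
          (by rw [z3]; omega)
        have z4 := (Flat.len (p := gs _) rfl t4).trans z3
        have w3 := (gs_s t3).2
        have w4 := (gs_s t4).2
        have k4 := key κ4 fun c hc => by rw [w4 c (by omega), w3 c (by omega), q2 c hc]
        rw [v4, w4 (base + 1 + 1) (by omega), v3, w4 _ (by omega), w4 _ (by omega),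
          w3 _ (by omega), w3 _ (by omega)] at k4
        obtain ⟨κ5, t5⟩ := k4.2 p.1 ((c' + 1) * b) (((((sb.mono (by nlinarith)).ext q4).ext q5).ext
          (by omega)).ext (by omega)) (by rw [z4]; nlinarith)
        obtain ⟨κ6, t6⟩ := cp_c (hΓ.w x) (s := base + 1 + 1) false κ5 (by omega)
          (show base < r by omega) (val_lt ..)
        obtain ⟨κ7, t7⟩ := cp_c (hΓ.w x) (s := base + 1 + 1 + 1) false κ6 (by omega)
          (show base + 1 < r by omega) (val_lt ..)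
        have t : sem (hΓ.w x) B κ κ7 := ⟨κ3, t3, κ4, t4, κ5, t5, κ6, t6, t7⟩
        have w5 := (k4.1 _ t5).2
        have w6 := (cp_s (by omega) t6).2
        have w7 := (cp_s (by omega) t7).2
        refine ⟨κ7, q1.tail t, (bs _ _ q2 t).1, ?_, by omega, by omega⟩
        rw [w7.1, w7.2 _ (by omega), w6.1, w6.2 _ (by omega), w5 _ (by omega), w5 _ (by omega), v4,
          w4 _ (by omega), v3]
        rfl
    obtain ⟨κ, q1, q2, q3, -⟩ := lp _ (hb x b sb u)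
    obtain ⟨q3, q4⟩ := Prod.mk.inj q3
    exact ⟨κ, κ1, t1, κ2, t2, κ, q1, κ,
      ad_iff.2 ⟨rfl, by simp [val_top, q2 _ (h1 _ l3), hx _ l3, q3, a3]⟩,
      ad_iff.2 ⟨rfl, by simp [val_top, q2 _ (h1 _ l4), hx _ l4, q4, a4]⟩⟩

theorem cell_min (w : List A) (i : ℕ) : cell w (min i (w.length + 1)) = cell w i := by
  rcases le_total i (w.length + 1) with h | h
  · rw [min_eq_left h]
  · obtain ⟨j, rfl⟩ : ∃ j, i = j + 1 := ⟨i - 1, by omega⟩
    rw [min_eq_right h, cell, cell, List.getElem?_eq_none le_rfl, List.getElem?_eq_none (by omega)]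

theorem NS.cell (s : A ⊕ Bool → Prop) (f : Γ → ℕ) [a : IsV f] :
    NS fun x => s (cell (hΓ.w x) (f x)) := by
  obtain ⟨i, hi, a⟩ := a.ex
  refine ⟨0, 2, fun r ρ base h1 h2 => ?_⟩
  let B : Prog A (Fin r → Bool) := .seq (.io (fun _ => True) 2)
    (.seq (cp (base + 1) base true) (cp base (base + 1) false))
  have fB : Flat B := ⟨trivial, cp_flat .., cp_flat ..⟩
  refine ⟨.seq (.star (.io (fun _ => True) 0)) (.seq (.io (· = .inr false) 1) (.seq (cp base r false)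
    (.seq (.star B) (.seq (ad base r (ρ i) false false) (.io s 1))))),
    ⟨trivial, trivial, cp_flat .., fB, rfl, trivial⟩, fun x σ hx => ?_⟩
  have bs : ∀ κ τ, sem (hΓ.w x) B κ τ → τ.2 = min (κ.2 + 1) ((hΓ.w x).length + 1) ∧
      val τ.1 base = val κ.1 base + 1 ∧ ∀ c < base, val τ.1 c = val κ.1 c := by
    rintro κ τ ⟨_, ⟨-, rfl⟩, κ2, t2, t3⟩
    have u2 := cp_s (by omega) t2
    have u3 := cp_s (by omega) t3
    exact ⟨by rw [u3.1, u2.1]; rfl, by rw [u3.2.1, u2.2.1]; rfl,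
      fun c hc => by rw [u3.2.2 c (by omega), u2.2.2 c (by omega)]⟩
  have lp : ∀ κ τ, ReflTransGen (sem (hΓ.w x) B) κ τ → κ.2 = 0 → val κ.1 base = 0 →
      τ.2 = min (val τ.1 base) ((hΓ.w x).length + 1) ∧ ∀ c < base, val τ.1 c = val κ.1 c := by
    intro κ τ t e1 e2
    induction t with
    | refl => exact ⟨by simp [e1, e2], fun _ _ => rfl⟩
    | tail _ t ih =>
      have := bs _ _ t
      exact ⟨by omega, fun c hc => (this.2.2 c hc).trans (ih.2 c hc)⟩
  refine ⟨?_, fun u _ _ _ => ?_⟩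
  · rintro τ ⟨κ1, t1, _, ⟨e, rfl⟩, κ3, t3, κ4, t4, κ5, t5, u, rfl⟩
    have u1 : κ1.1 = σ.1 := by
      clear e t3
      induction t1 with
      | refl => rfl
      | tail _ t ih => rw [t.2, ← ih]
    have u2 : κ1.2 = 0 := by
      rcases h : κ1.2 with _ | j
      · rfl
      · rw [h, Pool.Agent.Lib.MP_5afa16_lc.cell] at e
        cases h' : (hΓ.w x)[j]? <;> simp [h'] at e
    have u3 := cp_s (by omega) t3
    have u4 := lp _ _ t4 (by simp [u3.1, u2]) (by simp [u3.2.1, val_top])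
    have u5 : ∀ c < base, val κ4.1 c = val σ.1 c := fun c hc => by
      rw [u4.2 c hc, u3.2.2 c (by omega), u1]
    obtain ⟨rfl, u6⟩ := ad_iff.1 t5
    simp only [val_top, add_zero, Bool.toNat_false, mul_zero, u5 _ (h1 _ hi), hx _ hi, ← a] at u6
    exact ⟨by rwa [u4.1, cell_min, u6] at u, u5⟩
  · have v1 : ∀ j, ReflTransGen (sem (hΓ.w x) (.io (fun _ => True) 0)) (σ.1, j) (σ.1, 0) := by
      intro j
      induction j using Nat.strong_induction_on with
      | _ j ih =>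
        rcases j with _ | j
        · exact .refl
        · exact .head ⟨trivial, rfl⟩ (ih _ (by simp))
    obtain ⟨κ3, t3⟩ := cp_c (hΓ.w x) (s := r) false (σ.1, 0) (by omega) (show base < r by omega)
      (val_lt ..)
    have u3 := cp_s (by omega) t3
    have v2 : ∀ y ≤ f x, ∃ κ, ReflTransGen (sem (hΓ.w x) B) κ3 κ ∧ val κ.1 base = y := by
      intro y hy
      induction y with
      | zero => exact ⟨κ3, .refl, by simp [u3.2.1, val_top]⟩
      | succ y ih =>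
        obtain ⟨κ, q1, q2⟩ := ih (by omega)
        have z : κ.1.length = σ.1.length := by
          rw [Flat.len (p := .star B) fB q1, (cp_flat ..).len t3]
        obtain ⟨κ6, t6⟩ := cp_c (hΓ.w x) (s := base) true
          (κ.1, min (κ.2 + (2 : Fin 3) - 1) ((hΓ.w x).length + 1)) (by omega)
          (show base + 1 < r by omega) (by
            have := val_lt σ.1 (ρ i)
            rw [hx i hi, ← a] at this
            simp only [q2, z, Bool.toNat_true]
            omega)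
        obtain ⟨κ7, t7⟩ := cp_c (hΓ.w x) (s := base + 1) false κ6 (by omega)
          (show base < r by omega) (val_lt ..)
        have t : sem (hΓ.w x) B κ κ7 := ⟨_, ⟨trivial, rfl⟩, κ6, t6, t7⟩
        exact ⟨κ7, q1.tail t, by rw [(bs _ _ t).2.1, q2]⟩
    obtain ⟨κ, q1, q2⟩ := v2 _ le_rfl
    have u4 := lp _ _ q1 u3.1 (by simp [u3.2.1, val_top])
    exact ⟨_, _, v1 σ.2, (σ.1, 0), ⟨rfl, by simp⟩, κ3, t3, κ, q1, κ, ad_iff.2 ⟨rfl, by
      simp [val_top, q2, u4.2 _ (h1 _ hi), u3.2.2 _ (h1 _ hi).ne, hx _ hi, a]⟩,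
      by rwa [u4.1, cell_min, q2], rfl⟩

end Pool.Agent.Lib.MP_5afa16_lc.Sp
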