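import Pool.Agent.Lib.MP_5afa16_lc.Machines

/-! Regular programs of sweeps over the work tape, compiled to Turing machines. -/

namespace Pool.Agent.Lib.MP_5afa16_lc.Sp

open Relation

set_option maxHeartbeats 400000

/-- Programs. -/
inductive Prog (A X : Type) : Type
  | sw (f : Bool → X → Bool → X → Prop) (ci co : Bool) (e : Option X)
  | io (s : A ⊕ Bool → Prop) (d : Fin 3)
  | seq (p q : Prog A X)
  | alt (p q : Prog A X)
  | star (p : Prog A X)

/-- A sweep with a carry. -/
inductive Sw {X : Type} (f : Bool → X → Bool → X → Prop) : Bool → List X → Bool → List X → Prop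
  | nil (c : Bool) : Sw f c [] c []
  | cons {c c1 c2 : Bool} {x x' : X} {L L' : List X} :
      f c x c1 x' → Sw f c1 L c2 L' → Sw f c (x :: L) c2 (x' :: L')

variable {A X : Type}

theorem Sw.len {f : Bool → X → Bool → X → Prop} {c c' : Bool} {L L' : List X}
    (h : Sw f c L c' L') : L'.length = L.length := by
  induction h with
  | nil => rfl
  | cons _ _ ih => simp [ih]

/-- The meaning of a program. -/
def sem (w : List A) : Prog A X → List X × ℕ → List X × ℕ → Prop
  | .sw f ci co e => fun σ σ' => ∃ L', Sw f ci σ.1 co L' ∧ σ' = (L' ++ e.toList, σ.2)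
  | .io s d => fun σ σ' => s (cell w σ.2) ∧ σ' = (σ.1, min (σ.2 + d - 1) (w.length + 1))
  | .seq p q => fun σ σ' => ∃ τ, sem w p σ τ ∧ sem w q τ σ'
  | .alt p q => fun σ σ' => sem w p σ σ' ∨ sem w q σ σ'
  | .star p => ReflTransGen (sem w p)

/-- The space stays below `B` at all times. -/
def Safe (w : List A) (B : ℕ) : Prog A X → List X × ℕ → Prop
  | .seq p q => fun σ => Safe w B p σ ∧ ∀ τ, sem w p σ τ → Safe w B q τ
  | .alt p q => fun σ => Safe w B p σ ∧ Safe w B q σ
  | .star p => fun σ => ∀ τ, ReflTransGen (sem w p) σ τ → Safe w B p τ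
  | p => fun σ => ∀ τ, sem w p σ τ → τ.1.length ≤ B

/-- Moves of the control alone. -/
inductive Ep : List (Prog A X) → List (Prog A X) → Prop
  | seq (p q K) : Ep (.seq p q :: K) (p :: q :: K)
  | l (p q K) : Ep (.alt p q :: K) (p :: K)
  | r (p q K) : Ep (.alt p q :: K) (q :: K)
  | stop (p K) : Ep (.star p :: K) K
  | loop (p K) : Ep (.star p :: K) (p :: .star p :: K)

/-- Small steps. -/
inductive Sm (w : List A) : List (Prog A X) × List X × ℕ → List (Prog A X) × List X × ℕ → Prop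
  | ep {K K' σ} : Ep K K' → Sm w (K, σ) (K', σ)
  | sw {f ci co e K σ τ} : sem w (.sw f ci co e) σ τ → Sm w (.sw f ci co e :: K, σ) (K, τ)
  | io {s d K σ τ} : sem w (.io s d) σ τ → Sm w (.io s d :: K, σ) (K, τ)

theorem sm_of_sem (w : List A) (p : Prog A X) : ∀ K σ τ, sem w p σ τ →
    ReflTransGen (Sm w) (p :: K, σ) (K, τ) := by
  induction p with
  | sw => exact fun K σ τ h => .single (.sw h)
  | io => exact fun K σ τ h => .single (.io h)
  | seq p q ihp ihq =>
    exact fun K σ τ ⟨κ, a, b⟩ => .head (.ep (.seq ..)) ((ihp _ _ _ a).trans (ihq _ _ _ b))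
  | alt p q ihp ihq =>
    rintro K σ τ (a | a)
    · exact .head (.ep (.l ..)) (ihp _ _ _ a)
    · exact .head (.ep (.r ..)) (ihq _ _ _ a)
  | star p ih =>
    intro K σ τ h
    induction h using ReflTransGen.head_induction_on with
    | refl => exact .single (.ep (.stop ..))
    | head a _ b => exact .head (.ep (.loop ..)) ((ih _ _ _ a).trans b)

/-- The meaning of a continuation. -/
def den (w : List A) : List (Prog A X) → List X × ℕ → Prop
  | [], _ => True
  | p :: K, σ => ∃ τ, sem w p σ τ ∧ den w K τ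

theorem den_step {w : List A} {x y : List (Prog A X) × List X × ℕ} (h : Sm w x y)
    (d : den w y.1 y.2) : den w x.1 x.2 := by
  cases h with
  | sw h => exact ⟨_, h, d⟩
  | io h => exact ⟨_, h, d⟩
  | ep h =>
    cases h with
    | seq => obtain ⟨τ, a, κ, b, c⟩ := d; exact ⟨κ, ⟨τ, a, b⟩, c⟩
    | l => obtain ⟨τ, a, b⟩ := d; exact ⟨τ, Or.inl a, b⟩
    | r => obtain ⟨τ, a, b⟩ := d; exact ⟨τ, Or.inr a, b⟩
    | stop => exact ⟨_, .refl, d⟩
    | loop => obtain ⟨τ, a, κ, b, c⟩ := d; exact ⟨κ, .head a b, c⟩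

/-- Safety of a continuation. -/
def SafeK (w : List A) (B : ℕ) : List (Prog A X) → List X × ℕ → Prop
  | [], _ => True
  | p :: K, σ => Safe w B p σ ∧ ∀ τ, sem w p σ τ → SafeK w B K τ

theorem safe_step {w : List A} {B : ℕ} {x y : List (Prog A X) × List X × ℕ} (h : Sm w x y)
    (d : SafeK w B x.1 x.2 ∧ x.2.1.length ≤ B) : SafeK w B y.1 y.2 ∧ y.2.1.length ≤ B := by
  cases h with
  | sw h => exact ⟨d.1.2 _ h, d.1.1 _ h⟩
  | io h => exact ⟨d.1.2 _ h, d.1.1 _ h⟩
  | ep h =>
    refine ⟨?_, d.2⟩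
    cases h with
    | seq => exact ⟨d.1.1.1, fun τ a => ⟨d.1.1.2 τ a, fun κ b => d.1.2 κ ⟨τ, a, b⟩⟩⟩
    | l => exact ⟨d.1.1.1, fun τ a => d.1.2 τ (Or.inl a)⟩
    | r => exact ⟨d.1.1.2, fun τ a => d.1.2 τ (Or.inr a)⟩
    | stop => exact d.1.2 _ .refl
    | loop => exact ⟨d.1.1 _ .refl, fun τ a =>
        ⟨fun κ b => d.1.1 κ (.head a b), fun κ b => d.1.2 κ (.head a b)⟩⟩

/-- Moves of the continuation. -/
def Nk (K K' : List (Prog A X)) : Prop :=
  Ep K K' ∨ (∃ f ci co e, K = .sw f ci co e :: K') ∨ ∃ s d, K = .io s d :: K'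

theorem fin_ctl (p : Prog A X) : ∀ K, ∃ S : Set (List (Prog A X)), S.Finite ∧ p :: K ∈ S ∧ K ∈ S ∧
    ∀ K1 ∈ S, K1 = K ∨ ∀ K2, Nk K1 K2 → K2 ∈ S := by
  induction p with
  | sw f ci co e =>
    refine fun K => ⟨{.sw f ci co e :: K, K}, by simp, by simp, by simp, ?_⟩
    rintro _ (rfl | rfl)
    · right
      rintro K2 (h | ⟨_, _, _, _, h⟩ | ⟨_, _, h⟩) <;> cases h
      simp
    · exact Or.inl rfl
  | io s d =>
    refine fun K => ⟨{.io s d :: K, K}, by simp, by simp, by simp, ?_⟩
    rintro _ (rfl | rfl)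
    · right
      rintro K2 (h | ⟨_, _, _, _, h⟩ | ⟨_, _, h⟩) <;> cases h
      simp
    · exact Or.inl rfl
  | seq p q ihp ihq =>
    intro K
    obtain ⟨S, a1, a2, a3, a4⟩ := ihp (q :: K)
    obtain ⟨T, b1, b2, b3, b4⟩ := ihq K
    refine ⟨insert (.seq p q :: K) (S ∪ T), (a1.union b1).insert _, by simp, by simp [b3], ?_⟩
    have hT : ∀ K1 ∈ T, K1 = K ∨ ∀ K2, Nk K1 K2 → K2 ∈ insert (.seq p q :: K) (S ∪ T) :=
      fun K1 h => (b4 K1 h).imp id fun a K2 b => Or.inr (Or.inr (a K2 b))
    rintro K1 (rfl | h | h)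
    · right
      rintro K2 (h | ⟨_, _, _, _, h⟩ | ⟨_, _, h⟩) <;> cases h
      simp [a2]
    · rcases a4 K1 h with rfl | a
      · exact hT _ b2
      · exact Or.inr fun K2 b => Or.inr (Or.inl (a K2 b))
    · exact hT _ h
  | alt p q ihp ihq =>
    intro K
    obtain ⟨S, a1, a2, a3, a4⟩ := ihp K
    obtain ⟨T, b1, b2, b3, b4⟩ := ihq K
    refine ⟨insert (.alt p q :: K) (S ∪ T), (a1.union b1).insert _, by simp, by simp [b3], ?_⟩
    rintro K1 (rfl | h | h)
    · right
      rintro K2 (h | ⟨_, _, _, _, h⟩ | ⟨_, _, h⟩) <;> cases h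
      · simp [a2]
      · simp [b2]
    · exact (a4 K1 h).imp id fun a K2 b => Or.inr (Or.inl (a K2 b))
    · exact (b4 K1 h).imp id fun a K2 b => Or.inr (Or.inr (a K2 b))
  | star p ih =>
    intro K
    obtain ⟨S, a1, a2, a3, a4⟩ := ih (.star p :: K)
    refine ⟨insert K S, a1.insert _, by simp [a3], by simp, ?_⟩
    rintro K1 (rfl | h)
    · exact Or.inl rfl
    · right
      rcases a4 K1 h with rfl | a
      · rintro K2 (h | ⟨_, _, _, _, h⟩ | ⟨_, _, h⟩) <;> cases h
        · simp
        · simp [a2]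
      · exact fun K2 b => Or.inr (a K2 b)

/-- The transitions of the machine. -/
inductive Dd : List (Prog A X) × Option (Option Bool) → A ⊕ Bool → Option X →
    (List (Prog A X) × Option (Option Bool)) × Option X × Fin 3 × Fin 3 → Prop
  | go (f ci co e K s x) :
      Dd (.sw f ci co e :: K, none) s x ((.sw f ci co e :: K, some (some ci)), x, 1, 2)
  | io {t : A ⊕ Bool → Prop} {s} (d K x) : t s → Dd (.io t d :: K, none) s x ((K, none), x, d, 1)
  | ep {K K'} (s x) : Ep K K' → Dd (K, none) s x ((K', none), x, 1, 1)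
  | rt {f : Bool → X → Bool → X → Prop} {c y c' y'} (ci co e K s) : f c y c' y' →
      Dd (.sw f ci co e :: K, some (some c)) s (some y)
        ((.sw f ci co e :: K, some (some c')), some y', 1, 2)
  | en (f ci co e K s) : Dd (.sw f ci co e :: K, some (some co)) s none ((K, some none), e, 1, 0)
  | lf (K s y) : Dd (K, some none) s (some y) ((K, some none), some y, 1, 0)
  | bk (K s) : Dd (K, some none) s none ((K, none), none, 1, 1)

/-- The machine, with an infinite set of states. -/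
def mach (P : Prog A X) : NTM A (List (Prog A X) × Option (Option Bool)) (Option X) where
  start := ([P], none)
  blank := none
  final := {([], none)}
  δ q s x := {t | Dd q s x t}

/-- The work tape. -/
def tape (L : List X) : ℕ → Option X
  | 0 => none
  | i + 1 => L[i]?

theorem tape_upd (L1 L2 : List X) (y y' : X) :
    Function.update (tape (L1 ++ y :: L2)) (L1.length + 1) (some y') = tape (L1 ++ y' :: L2) := by
  funext i
  rcases i with _ | i
  · rfl
  by_cases h : i = L1.length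
  · simp [h, tape]
  · rw [Function.update_of_ne (by omega)]
    simp only [tape, List.getElem?_append]
    split_ifs
    · rfl
    · obtain ⟨k, hk⟩ : ∃ k, i - L1.length = k + 1 := ⟨i - L1.length - 1, by omega⟩
      simp [hk]

theorem tape_end (L : List X) (e : Option X) :
    Function.update (tape L) (L.length + 1) e = tape (L ++ e.toList) := by
  funext i
  rcases i with _ | i
  · rfl
  by_cases h : i = L.length
  · cases e <;> simp [h, tape]
  · rw [Function.update_of_ne (by omega)]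
    simp only [tape, List.getElem?_append]
    split_ifs with a
    · rfl
    · rw [List.getElem?_eq_none (by omega), List.getElem?_eq_none (by cases e <;> simp; omega)]

theorem mstep {P : Prog A X} {w : List A} {q q' x} {T T' : ℕ → Option X} {i h i' h' : ℕ}
    {d e : Fin 3} (D : Dd q (cell w i) (T h) (q', x, d, e)) (e1 : i' = min (i + d - 1) (w.length + 1)) (e2 : T' = Function.update T h x)
    (e3 : h' = h + e - 1) : (mach P).Step w ⟨q, i, T, h⟩ ⟨q', i', T', h'⟩ :=
  ⟨_, D, by rw [e1, e2, e3]⟩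

theorem sim_step (P : Prog A X) {w : List A} {x y : List (Prog A X) × List X × ℕ} (h : Sm w x y)
    (hx : x.2.2 ≤ w.length + 1) : y.2.2 ≤ w.length + 1 ∧ ReflTransGen ((mach P).Step w)
      ⟨(x.1, none), x.2.2, tape x.2.1, 0⟩ ⟨(y.1, none), y.2.2, tape y.2.1, 0⟩ := by
  cases h with
  | ep h => exact ⟨hx, .single (mstep (.ep _ _ h) (by simpa using hx) (by simp) rfl)⟩
  | io h =>
    obtain ⟨a, rfl⟩ := h
    exact ⟨min_le_right _ _, .single (mstep (.io _ _ _ a) rfl (by simp) rfl)⟩
  | @sw f ci co e K σ τ h =>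
    obtain ⟨L, i⟩ := σ
    obtain ⟨L', a, rfl⟩ := h
    dsimp only at a hx ⊢
    have r : ∀ c L2 c' L2', Sw f c L2 c' L2' → ∀ L1, ReflTransGen ((mach P).Step w)
        ⟨(.sw f ci co e :: K, some (some c)), i, tape (L1 ++ L2), L1.length + 1⟩
        ⟨(.sw f ci co e :: K, some (some c')), i, tape (L1 ++ L2'), (L1 ++ L2').length + 1⟩ := by
      intro c L2 c' L2' s
      induction s with
      | nil => intro L1; simpa using .refl
      | @cons c c1 c2 x x' M M' s _ ih =>
        intro L1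
        have := ih (L1 ++ [x'])
        simp only [List.append_assoc, List.singleton_append] at this
        refine .head (mstep (x := some x') (d := 1) (e := 2) ?_ (by simpa using hx)
          (tape_upd ..).symm (by simp)) this
        simpa [tape] using Dd.rt ci co e K _ s
    have l : ∀ M : List X, ∀ n ≤ M.length, ReflTransGen ((mach P).Step w)
        ⟨(K, some none), i, tape M, n⟩ ⟨(K, none), i, tape M, 0⟩ := by
      intro M n hn
      induction n with
      | zero => exact .single (mstep (.bk ..) (by simpa using hx) (by simp [← show tape M 0 = none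
          from rfl]) rfl)
      | succ n ih =>
        have e : tape M (n + 1) = some M[n] := by simp [tape]
        exact .head (mstep (x := some M[n]) (d := 1) (e := 0) (by rw [e]; exact .lf ..) (by simpa using hx)
          (by simp [← e]) (by simp)) (ih (by omega))
    refine ⟨hx, .head (mstep (.go ..) (by simpa using hx) (by simp) rfl)
      ((r _ _ _ _ a []).trans (.head (mstep (x := e) (d := 1) (e := 0) ?_ (by simpa using hx)
        (tape_end ..).symm rfl) (l _ _ (by simp))))⟩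
    simpa [tape] using Dd.en f ci co e K _

theorem mach_inv (P : Prog A X) (w : List A) (c) (h : (mach P).Reach w c) :
    ∃ x : List (Prog A X) × List X × ℕ, ReflTransGen (Sm w) ([P], [], 0) x ∧
      x.2.2 ≤ w.length + 1 ∧ (c = ⟨(x.1, none), x.2.2, tape x.2.1, 0⟩ ∨
      (∃ n ≤ x.2.1.length, c = ⟨(x.1, some none), x.2.2, tape x.2.1, n⟩) ∨
      ∃ f ci co e K L1 L2 c0, x.1 = .sw f ci co e :: K ∧ (L1 ++ L2).length = x.2.1.length ∧
        c = ⟨(x.1, some (some c0)), x.2.2, tape (L1 ++ L2), L1.length + 1⟩ ∧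
        ∀ c' L2', Sw f c0 L2 c' L2' → Sw f ci x.2.1 c' (L1 ++ L2')) := by
  induction h with
  | refl => exact ⟨_, .refl, by simp, Or.inl (by
      simp only [mach, Cfg.mk.injEq, true_and, and_true]
      funext i; cases i <;> rfl)⟩
  | tail _ st ih =>
    obtain ⟨⟨K, L, i⟩, r, hi, ih⟩ := ih
    obtain ⟨t, D, rfl⟩ := st
    dsimp only at hi ih
    have hm : min (i + ((1 : Fin 3) : ℕ) - 1) (w.length + 1) = i := by simpa using hi
    rcases ih with rfl | ⟨n, hn, rfl⟩ | ⟨f, ci, co, e, K, L1, L2, c0, rfl, hl, rfl, hs⟩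
    · simp only [mach, Set.mem_ofPred_eq] at D
      cases D with
      | go f ci co e K =>
        exact ⟨_, r, hi, Or.inr (Or.inr ⟨f, ci, co, e, K, [], L, ci, rfl, rfl, by simp [hi],
          fun _ _ a => a⟩)⟩
      | io d K' _ a =>
        exact ⟨_, r.tail (.io ⟨a, rfl⟩), min_le_right _ _, Or.inl (by simp)⟩
      | ep _ _ a => exact ⟨_, r.tail (.ep a), hi, Or.inl (by simp [hi])⟩
    · simp only [mach, Set.mem_ofPred_eq] at D
      generalize e : tape L n = y at D
      cases D with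
      | lf => exact ⟨_, r, hi, Or.inr (Or.inl ⟨n - 1, by dsimp only; omega, by simp [hi, ← e]⟩)⟩
      | bk =>
        obtain rfl : n = 0 := by
          rcases n with _ | n
          · rfl
          · simp [tape] at e
            omega
        exact ⟨_, r, hi, Or.inl (by simp [hi, ← e])⟩
    · simp only [mach, Set.mem_ofPred_eq] at D
      generalize e : tape (L1 ++ L2) (L1.length + 1) = y at D
      cases D with
      | @rt _ _ y c' y' _ _ _ _ _ a =>
        obtain ⟨L3, rfl⟩ : ∃ L3, L2 = y :: L3 := by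
          rcases L2 with _ | ⟨z, L3⟩ <;> simp [tape] at e
          exact ⟨L3, by rw [e]⟩
        refine ⟨_, r, hi, Or.inr (Or.inr ⟨f, ci, co, _, K, L1 ++ [y'], L3, c', rfl,
          by simpa using hl, by simp [hi, tape_upd], fun c2 L2' b => ?_⟩)⟩
        simpa using hs _ _ (.cons a b)
      | en =>
        obtain rfl : L2 = [] := by
          rcases L2 with _ | ⟨z, L3⟩
          · rfl
          · simp [tape] at e
        have := hs _ _ (.nil _)
        simp only [List.append_nil] at this ⊢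
        exact ⟨_, r.tail (.sw ⟨_, this, rfl⟩), hi, Or.inr (Or.inl ⟨L1.length, by simp,
          by simp [hi, tape_end]⟩)⟩

theorem restrict {Q W : Type} (N : NTM A Q W) (S : Set Q) (h0 : N.start ∈ S)
    (hS : ∀ q ∈ S, ∀ s x, ∀ t ∈ N.δ q s x, t.1 ∈ S) : ∃ N' : NTM A S W, ∀ w,
      (N'.Accepts w ↔ N.Accepts w) ∧ ∀ c', N'.Reach w c' → ∃ c, N.Reach w c ∧ c.head = c'.head := by
  let N' : NTM A S W := ⟨⟨_, h0⟩, N.blank, {q | q.1 ∈ N.final},
    fun q s x => {t | (t.1.1, t.2) ∈ N.δ q.1 s x}⟩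
  have a : ∀ w c', N'.Reach w c' → N.Reach w ⟨c'.state.1, c'.inp, c'.tape, c'.head⟩ := by
    intro w c' h
    induction h with
    | refl => exact .refl
    | tail _ st ih =>
      obtain ⟨t, D, rfl⟩ := st
      exact ih.tail ⟨_, D, rfl⟩
  have b : ∀ w c, N.Reach w c → ∃ h, N'.Reach w ⟨⟨c.state, h⟩, c.inp, c.tape, c.head⟩ := by
    intro w c h
    induction h with
    | refl => exact ⟨h0, .refl⟩
    | tail _ st ih =>
      obtain ⟨t, D, rfl⟩ := st
      obtain ⟨h, ih⟩ := ih
      exact ⟨hS _ h _ _ _ D, ih.tail ⟨(⟨t.1, hS _ h _ _ _ D⟩, t.2), D, rfl⟩⟩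
  exact ⟨N', fun w => ⟨⟨fun ⟨c, r, f⟩ => ⟨_, a w c r, f⟩,
    fun ⟨c, r, f⟩ => ⟨_, (b w c r).2, f⟩⟩, fun c r => ⟨_, a w c r, rfl⟩⟩⟩

theorem compile (P : Prog A X) : ∃ Q : Type, Finite Q ∧ ∃ N : NTM A Q (Option X), ∀ w,
    (N.Accepts w ↔ ∃ σ, sem w P ([], 0) σ) ∧
      ∀ B, Safe w B P ([], 0) → ∀ c, N.Reach w c → c.head ≤ B + 1 := by
  obtain ⟨S, s1, s2, _, s4⟩ := fin_ctl P []
  have s5 : ∀ K1 ∈ S, ∀ K2, Nk K1 K2 → K2 ∈ S := fun K1 h => (s4 K1 h).elim (by
    rintro rfl K2 (h | ⟨_, _, _, _, h⟩ | ⟨_, _, h⟩) <;> cases h) id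
  obtain ⟨N, hN⟩ := restrict (mach P) (S ×ˢ Set.univ) ⟨s2, trivial⟩ (by
    rintro q ⟨hq, -⟩ s x t D
    refine ⟨?_, trivial⟩
    cases D with
    | io => exact s5 _ hq _ (Or.inr (Or.inr ⟨_, _, rfl⟩))
    | ep _ _ a => exact s5 _ hq _ (Or.inl a)
    | en => exact s5 _ hq _ (Or.inr (Or.inl ⟨_, _, _, _, rfl⟩))
    | _ => exact hq)
  refine ⟨_, (s1.prod Set.finite_univ).to_subtype, N, fun w => ⟨(hN w).1.trans ⟨?_, ?_⟩, ?_⟩⟩
  · rintro ⟨c, r, f⟩
    obtain ⟨x, r, -, h⟩ := mach_inv P w c r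
    have e : x.1 = [] := by
      rcases h with rfl | ⟨_, _, rfl⟩ | ⟨_, _, _, _, _, _, _, _, _, _, rfl, _⟩ <;>
        simp [mach] at f
      exact f
    have : ∀ y, ReflTransGen (Sm w) y x → den w y.1 y.2 := by
      intro y r
      induction r using ReflTransGen.head_induction_on with
      | refl => rw [e]; trivial
      | head a _ b => exact den_step a b
    exact (this _ r).imp fun _ a => a.1
  · rintro ⟨σ, h⟩
    have : ∀ y, ReflTransGen (Sm w) ([P], [], 0) y → y.2.2 ≤ w.length + 1 ∧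
        (mach P).Reach w ⟨(y.1, none), y.2.2, tape y.2.1, 0⟩ := by
      intro y r
      induction r with
      | refl =>
        refine ⟨by simp, ?_⟩
        rw [show tape ([] : List X) = fun _ => none by funext i; cases i <;> rfl]
        exact .refl
      | tail _ a b => exact ⟨(sim_step P a b.1).1, b.2.trans (sim_step P a b.1).2⟩
    exact ⟨_, (this _ (sm_of_sem w P [] _ _ h)).2, rfl⟩
  · intro B hB c' r
    obtain ⟨c, r, e⟩ := (hN w).2 c' r
    obtain ⟨x, r, -, h⟩ := mach_inv P w c r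
    have : SafeK w B x.1 x.2 ∧ x.2.1.length ≤ B := by
      clear h
      induction r with
      | refl => exact ⟨⟨hB, fun _ _ => trivial⟩, by simp⟩
      | tail _ a b => exact safe_step a b
    rw [← e]
    rcases h with rfl | ⟨_, _, rfl⟩ | ⟨_, _, _, _, _, _, _, _, _, h, rfl, _⟩
    · simp
    · dsimp only; omega
    · simp only [List.length_append] at h ⊢; omega

end Pool.Agent.Lib.MP_5afa16_lc.Sp
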