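import Pool.Agent.Lib.MP_5afa16_lc.ThriftyRun

/-! The branching program of a straight line nondeterministic program. -/

namespace Pool.Agent.Lib.MP_5afa16_lc.Thrifty

open Relation

variable {k d : ℕ} (vec : Fin k → Fin d → ℤ) (ans : ℕ → ℕ → Fin k → Fin k → Fin k)
  (L : List Ins) {F R : Type} (dec : F → Mem d) (g : Fin k → R)

/-- States: position, memory and guesses. -/
abbrev St (L : List Ins) (F : Type) (k : ℕ) : Type := Fin L.length × F × Fin k × Fin k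

/-- Edges. -/
def Edge (q : St L F k) (c : Fin k) (u : St L F k ⊕ R) : Prop :=
  ∃ ν, Step vec L[q.1] q.2.2.1 q.2.2.2 c (dec q.2.1) ν ∧
    ((∃ q', u = Sum.inl q' ∧ q'.1.val = q.1.val + 1 ∧ dec q'.2.1 = ν) ∨
    (∃ c0, u = Sum.inr (g c0) ∧ q.1.val + 1 = L.length ∧ ν.1 0 = vec c0))

/-- Activated edges. -/
def Act (u u' : St L F k ⊕ R) : Prop :=
  ∃ q, u = Sum.inl q ∧ Edge vec L dec g q (ans L[q.1].j L[q.1].i q.2.2.1 q.2.2.2) u'

theorem fwd (q0 : St L F k) (h0 : q0.1.val = 0) (u : St L F k ⊕ R)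
    (h : ReflTransGen (Act vec ans L dec g) (Sum.inl q0) u) : ∀ q, u = Sum.inl q →
    ∃ tr, tr.map Prod.fst = L.take q.1 ∧
      Run vec ans (fun _ => True) tr (dec q0.2.1) (dec q.2.1) := by
  induction h with
  | refl =>
    intro q hq
    obtain rfl : q0 = q := by simpa using hq
    exact ⟨[], by simp [h0], rfl⟩
  | tail _ h ih =>
    rintro q rfl
    obtain ⟨p, rfl, ν, hs, ⟨q', hq', h1, h2⟩ | ⟨c0, hq', _⟩⟩ := h
    · obtain rfl : q = q' := by simpa using hq'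
      obtain ⟨tr, e1, e2⟩ := ih p rfl
      refine ⟨tr ++ [(L[p.1], p.2.2)], ?_, (run_append _ _ _ _ _ _ _).2
        ⟨_, e2, trivial, ν, hs, h2⟩⟩
      rw [List.map_append, e1, h1, List.take_add_one]
      simp
    · cases hq'

theorem bwd (r : R) (u : St L F k ⊕ R)
    (h : ReflTransGen (Act vec ans L dec g) u (Sum.inr r)) : ∀ q, u = Sum.inl q →
    ∃ tr μ c0, ((L[q.1], q.2.2) :: tr).map Prod.fst = L.drop q.1 ∧
      Run vec ans (fun _ => True) ((L[q.1], q.2.2) :: tr) (dec q.2.1) μ ∧ μ.1 0 = vec c0 ∧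
      r = g c0 := by
  induction h using ReflTransGen.head_induction_on with
  | refl => intro q hq; cases hq
  | head h h' ih =>
    rintro q rfl
    obtain ⟨p, hp, ν, hs, ⟨q', rfl, h1, h2⟩ | ⟨c0, rfl, h1, h2⟩⟩ := h
    · obtain rfl : q = p := by simpa using hp
      obtain ⟨tr, μ, c0, e1, e2, e3⟩ := ih q' rfl
      refine ⟨_ :: tr, μ, c0, ?_, ⟨trivial, ν, hs, h2 ▸ e2⟩, e3⟩
      rw [List.map_cons, e1, h1, List.drop_eq_getElem_cons q.1.2]
      rfl
    · obtain rfl : q = p := by simpa using hp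
      refine ⟨[], ν, c0, ?_, ⟨trivial, ν, hs, rfl⟩, h2, ?_⟩
      · rw [List.drop_eq_getElem_cons q.1.2, h1, List.drop_length]
        rfl
      · rcases h'.cases_head with h3 | ⟨_, ⟨_, h3, _⟩, _⟩
        · exact (Sum.inr.inj h3).symm
        · cases h3

theorem reach (P : Mem d → Prop) (hP : ∀ μ, P μ → ∃ φ, dec φ = μ) (μ : Mem d) (c0 : Fin k)
    (hc : μ.1 0 = vec c0) (tr : List (Ins × Fin k × Fin k)) :
    ∀ (q : St L F k) (I : Ins), ((I, q.2.2) :: tr).map Prod.fst = L.drop q.1 →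
      Run vec ans P ((I, q.2.2) :: tr) (dec q.2.1) μ →
      ReflTransGen (Act vec ans L dec g) (Sum.inl q) (Sum.inr (g c0)) := by
  induction tr with
  | nil =>
    intro q I e hr
    rw [List.drop_eq_getElem_cons q.1.2] at e
    obtain ⟨rfl, e2⟩ := List.cons.inj e
    obtain ⟨_, ν, hs, rfl⟩ := hr
    refine ReflTransGen.single ⟨q, rfl, _, hs, Or.inr ⟨c0, rfl, ?_, hc⟩⟩
    have := List.drop_eq_nil_iff.1 e2.symm
    have := q.1.2
    omega
  | cons e' tr ih =>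
    intro q I e hr
    rw [List.drop_eq_getElem_cons q.1.2] at e
    obtain ⟨rfl, e2⟩ := List.cons.inj e
    obtain ⟨_, ν, hs, hr⟩ := hr
    obtain ⟨φ, rfl⟩ := hP ν hr.1
    have hlt : q.1.val + 1 < L.length := by
      by_contra hcon
      rw [List.drop_eq_nil_iff.2 (not_lt.1 hcon)] at e2
      cases e2
    exact ReflTransGen.head ⟨q, rfl, _, hs, Or.inl ⟨(⟨_, hlt⟩, φ, e'.2), rfl, rfl, rfl⟩⟩
      (ih (⟨_, hlt⟩, φ, e'.2) e'.1 e2 hr)

/-- Codes of bounded memories. -/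
abbrev Code (d h B γ : ℕ) : Type :=
  (Fin 3 → Fin d → Fin (2 * B + 1)) × (Fin h × Bool → Fin (γ + 1))

/-- Decoding. -/
def decode (h B γ : ℕ) (φ : Code d h B γ) : Mem d :=
  (fun κ t => (φ.1 κ t : ℕ) - B, fun sl => if hs : sl.1 < h then (φ.2 (⟨sl.1, hs⟩, sl.2) : ℕ) else 0)

theorem exists_code (h B : ℕ) (μ : Mem d) (hμ : Box h B μ) :
    ∃ φ, decode h B (d * B ^ 2) φ = μ := by
  obtain ⟨h1, h2⟩ := hμ
  refine ⟨(fun κ t => ⟨(μ.1 κ t + B).toNat, ?_⟩, fun sl => ⟨(μ.2 (sl.1, sl.2)).toNat, ?_⟩), ?_⟩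
  · have := abs_le.1 (h1 κ t)
    omega
  · obtain ⟨a, b, _⟩ := h2 (sl.1, sl.2)
    have : ((d * B ^ 2 : ℕ) : ℤ) = d * (B : ℤ) ^ 2 := by push_cast; rfl
    omega
  · refine Prod.ext (funext fun κ => funext fun t => ?_) (funext fun sl => ?_)
    · have := abs_le.1 (h1 κ t)
      simp only [decode]
      omega
    · obtain ⟨a, b, c⟩ := h2 sl
      simp only [decode]
      split_ifs with hs
      · simp only [Prod.mk.eta]
        omega
      · exact (c (not_lt.1 hs)).symm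

theorem main_graph (hvec : Function.Injective vec) (m : ℕ) (hm : ∀ c t, |vec c t| ≤ m) (j : ℕ)
    (a0 : Fin k) : ∃ q0 : St (prog j 1 0 none) (Code d (j + 1) ((j + 1) * m)
      (d * ((j + 1) * m) ^ 2)) k, ∀ (ans : ℕ → ℕ → Fin k → Fin k → Fin k) (v : ℕ → Fin k),
      Val ans v j 1 →
      (∀ r, ReflTransGen (Act vec ans _ (decode _ _ _) g) (Sum.inl q0) (Sum.inr r) ↔
        r = g (v 1)) ∧
      ∀ q r, ReflTransGen (Act vec ans _ (decode _ _ _) g) (Sum.inl q0) (Sum.inl q) →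
        ReflTransGen (Act vec ans _ (decode _ _ _) g) (Sum.inl q) (Sum.inr r) →
        (prog j 1 0 none)[q.1].j ≠ 0 → q.2.2.1 = v (2 * (prog j 1 0 none)[q.1].i) ∧
          q.2.2.2 = v (2 * (prog j 1 0 none)[q.1].i + 1) := by
  have hb0 : Box2 (j + 1) (d * (((j + 1) * m : ℕ) : ℤ) ^ 2) 0 :=
    fun sl => ⟨le_rfl, by simp only [Pi.zero_apply]; positivity, fun _ => rfl⟩
  obtain ⟨φ0, hφ⟩ := exists_code (d := d) (j + 1) ((j + 1) * m) 0
    ⟨fun κ t => by simp only [Prod.fst_zero, Pi.zero_apply, abs_zero]; positivity, hb0⟩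
  have hlen : 0 < (prog j 1 0 none).length := by
    have := length_prog j 1 0 none
    have h4 : 4 ^ 1 ≤ 4 ^ (j + 1) := Nat.pow_le_pow_right (by norm_num) (by omega)
    omega
  refine ⟨(⟨0, hlen⟩, φ0, a0, a0), fun ans v hv => ?_⟩
  have key : ∀ q r,
      ReflTransGen (Act vec ans _ (decode _ _ _) g) (Sum.inl (⟨0, hlen⟩, φ0, a0, a0)) (Sum.inl q) →
      ReflTransGen (Act vec ans _ (decode _ _ _) g) (Sum.inl q) (Sum.inr r) → r = g (v 1) ∧
      ((prog j 1 0 none)[q.1].j ≠ 0 → q.2.2.1 = v (2 * (prog j 1 0 none)[q.1].i) ∧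
          q.2.2.2 = v (2 * (prog j 1 0 none)[q.1].i + 1)) := by
    intro q r h1 h2
    obtain ⟨t1, e1, r1⟩ := fwd vec ans _ _ g _ rfl _ h1 q rfl
    obtain ⟨t2, μ, c0, e2, r2, e3, rfl⟩ := bwd vec ans _ _ g r _ h2 q rfl
    obtain ⟨g1, g2⟩ := sound vec ans v hvec _ j 1 0 none _ _ _ hv
      (by rw [List.map_append, e1, e2, List.take_append_drop])
      ((run_append _ _ _ _ _ _ _).2 ⟨_, r1, r2⟩)
    refine ⟨?_, g1 _ (List.mem_append_right _ List.mem_cons_self)⟩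
    have := g2.r0
    simp only [hφ, Prod.fst_zero, Pi.zero_apply, zero_add] at this
    rw [hvec (e3.symm.trans this)]
  refine ⟨fun r => ⟨fun h => (key _ r ReflTransGen.refl h).1, ?_⟩, fun q r h1 h2 => (key q r h1 h2).2⟩
  rintro rfl
  obtain ⟨I, tr, ν, e1, e2, _⟩ := complete vec ans v hvec m hm (by positivity) (j + 1)
    (((j + 1) * m : ℕ) : ℤ) a0 j 1 0 none 0 m hv (by omega) (by push_cast; linarith)
    (by simp) (by simpa using hm _) hb0 (by simp)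
  obtain ⟨_, g2⟩ := sound vec ans v hvec _ j 1 0 none _ _ _ hv e1 e2
  refine reach vec ans _ _ g _ (exists_code (j + 1) ((j + 1) * m)) ν (v 1)
    (by simpa using g2.r0) tr _ I (by simpa using e1) (by simpa only [hφ] using e2)

theorem val_of (h : ℕ) (v : ℕ → Fin k)
    (h1 : ∀ i a b, 2 ^ h ≤ i → i < 2 ^ (h + 1) → ans 0 i a b = v i)
    (h2 : ∀ j i, 1 ≤ i → i < 2 ^ h → ans (j + 1) i (v (2 * i)) (v (2 * i + 1)) = v i) (j : ℕ) :
    ∀ t i, t + j = h → 2 ^ t ≤ i → i < 2 ^ (t + 1) → Val ans v j i := by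
  induction j with
  | zero =>
    rintro t i rfl a b
    exact fun _ _ => h1 i _ _ a b
  | succ j ih =>
    intro t i ht a b
    have e1 : 2 ^ (t + 1) ≤ 2 ^ h := Nat.pow_le_pow_right (by norm_num) (by omega)
    have e2 : 0 < 2 ^ t := by positivity
    have e3 := pow_succ 2 t
    have e4 := pow_succ 2 (t + 1)
    exact ⟨h2 j i (by omega) (by omega), ih (t + 1) _ (by omega) (by omega) (by omega),
      ih (t + 1) _ (by omega) (by omega) (by omega)⟩

theorem size_bound (h d k m T : ℕ) (hh : 1 ≤ h) (hd : 1 ≤ d) (hk : 1 ≤ k)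
    (hm : (m : ℝ) ≤ 2 * (k : ℝ) ^ (1 / d : ℝ)) (hT : T ≤ 4 ^ h) :
    ((T * (((2 * (h * m) + 1) ^ d) ^ 3 * (d * (h * m) ^ 2 + 1) ^ (h * 2) * (k * k)) : ℕ) : ℝ) ≤
      (k : ℝ) ^ (5 + 4 * h / d : ℝ) * (5 * d * h) ^ (3 * d + 4 * h) := by
  have hh' : (1 : ℝ) ≤ h := by exact_mod_cast hh
  have hd' : (1 : ℝ) ≤ d := by exact_mod_cast hd
  have hk' : (1 : ℝ) ≤ k := by exact_mod_cast hk
  have hT' : (T : ℝ) ≤ 4 ^ h := by exact_mod_cast hT
  set K := (k : ℝ) ^ (1 / d : ℝ) with hK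
  have hK1 : 1 ≤ K := Real.one_le_rpow hk' (by positivity)
  have hKd : K ^ d = k := by
    rw [hK, ← Real.rpow_natCast, ← Real.rpow_mul (by positivity), one_div_mul_cancel (by positivity),
      Real.rpow_one]
  have hK4 : (k : ℝ) ^ (5 + 4 * h / d : ℝ) = k ^ 5 * K ^ (4 * h) := by
    rw [Real.rpow_add (by positivity), hK, ← Real.rpow_natCast _ (4 * h),
      ← Real.rpow_mul (by positivity)]
    congr 1
    · exact_mod_cast Real.rpow_natCast (k : ℝ) 5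
    · congr 1
      push_cast
      ring
  have hhK : 1 ≤ h * K := one_le_mul_of_one_le_of_one_le hh' hK1
  have hhm : (h * m : ℝ) ≤ 2 * (h * K) := by nlinarith
  have e1 : (2 * (h * m) + 1 : ℝ) ≤ 5 * d * h * K := by nlinarith
  have e2 : (d * (h * m) ^ 2 + 1 : ℝ) ≤ 5 * d * (h * K) ^ 2 := by
    have a1 : (h * m : ℝ) ^ 2 ≤ (2 * (h * K)) ^ 2 := by gcongr
    have a2 : (1 : ℝ) ≤ (h * K) ^ 2 := one_le_pow₀ hhK
    nlinarith
  have e3 : (4 * (5 * d * (h * K) ^ 2) ^ 2 : ℝ) ≤ (5 * d * h) ^ 4 * K ^ 4 := by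
    have a1 : (1 : ℝ) ≤ d ^ 2 := one_le_pow₀ hd'
    have a2 : (0 : ℝ) ≤ d ^ 2 * (h * K) ^ 4 := by positivity
    nlinarith
  push_cast
  calc _ ≤ (4 : ℝ) ^ h * (((5 * d * h * K) ^ d) ^ 3 * (5 * d * (h * K) ^ 2) ^ (h * 2) * (k * k)) := by
        gcongr
    _ = (4 * (5 * d * (h * K) ^ 2) ^ 2) ^ h * ((5 * d * h) ^ (3 * d) * k ^ 5) := by
        rw [mul_pow (5 * d * h : ℝ) K d, hKd, mul_pow 4, ← pow_mul _ 2 h, mul_comm 2 h]
        ring
    _ ≤ ((5 * d * h) ^ 4 * K ^ 4) ^ h * ((5 * d * h) ^ (3 * d) * k ^ 5) := by gcongr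
    _ = _ := by
        rw [hK4, mul_pow, ← pow_mul, ← pow_mul]
        ring

theorem exists_vec (d k : ℕ) (hd : 1 ≤ d) (hk : 1 ≤ k) : ∃ (m : ℕ) (vec : Fin k → Fin d → ℤ),
    (m : ℝ) ≤ 2 * (k : ℝ) ^ (1 / d : ℝ) ∧ Function.Injective vec ∧ ∀ c t, |vec c t| ≤ m := by
  have hd' : (1 : ℝ) ≤ d := by exact_mod_cast hd
  have hk' : (1 : ℝ) ≤ k := by exact_mod_cast hk
  set K := (k : ℝ) ^ (1 / d : ℝ) with hK
  have hK1 : 1 ≤ K := Real.one_le_rpow hk' (by positivity)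
  have hKd : K ^ d = k := by
    rw [hK, ← Real.rpow_natCast, ← Real.rpow_mul (by positivity), one_div_mul_cancel (by positivity),
      Real.rpow_one]
  have h1 : k ≤ ⌈K⌉₊ ^ d := by
    have : (k : ℝ) ≤ (⌈K⌉₊ : ℝ) ^ d := by
      rw [← hKd]
      gcongr
      exact Nat.le_ceil K
    exact_mod_cast this
  obtain ⟨e⟩ := Function.Embedding.nonempty_of_card_le (α := Fin k) (β := Fin d → Fin ⌈K⌉₊)
    (by simpa using h1)
  refine ⟨⌈K⌉₊, fun c t => (e c t : ℕ), ?_, fun c c' hc => e.injective (funext fun t => ?_),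
    fun c t => ?_⟩
  · have := Nat.ceil_lt_add_one (show 0 ≤ K by linarith)
    linarith
  · have := congrFun hc t
    simp only at this
    exact Fin.ext (by exact_mod_cast this)
  · have := (e c t).2
    simp only
    rw [abs_of_nonneg (by positivity)]
    exact_mod_cast this.le

end Pool.Agent.Lib.MP_5afa16_lc.Thrifty
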