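import Pool.Agent.Lib.MP_5afa16_lc.Lift

/-! The pebbling constraints on the complete binary tree (in heap order, `0` above the root `1`)
have no refutation by small juntas. -/

open Finset

namespace Pool.Agent.Lib.MP_5afa16_lc

/-- Number of alternations among the low binary digits. -/
def alt : ℕ → ℤ → ℕ
  | 0, _ => 0
  | H + 1, x => (if x % 4 = 1 ∨ x % 4 = 2 then 1 else 0) + alt H (x / 2)

lemma alt_succ (H : ℕ) : ∀ x : ℤ, alt H (x + 1) ≤ alt H x + 1 := by
  induction H with
  | zero => intro x; simp [alt]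
  | succ H ih =>
    intro x
    simp only [alt]
    rcases Int.emod_two_eq_zero_or_one x with h | h
    · rw [show (x + 1) / 2 = x / 2 by omega]
      split_ifs <;> omega
    · rw [show (x + 1) / 2 = x / 2 + 1 by omega]
      have := ih (x / 2)
      split_ifs <;> omega

lemma alt_pred (H : ℕ) : ∀ x : ℤ, alt H (x - 1) ≤ alt H x + 1 := by
  induction H with
  | zero => intro x; simp [alt]
  | succ H ih =>
    intro x
    simp only [alt]
    rcases Int.emod_two_eq_zero_or_one x with h | h
    · rw [show (x - 1) / 2 = x / 2 - 1 by omega]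
      have := ih (x / 2)
      split_ifs <;> omega
    · rw [show (x - 1) / 2 = x / 2 by omega]
      split_ifs <;> omega

lemma alt_zero (H : ℕ) : alt H 0 = 0 := by
  induction H with
  | zero => rfl
  | succ H ih => simp [alt, ih]

/-- Invariant of sums of at most `k` signed powers of two. -/
def Few (x : ℤ) (k : ℕ) : Prop := ∀ H, (if x % 2 = 1 then 1 else 0) + alt H x ≤ 2 * k

lemma few_zero : Few 0 0 := fun H => by simp [alt_zero]

lemma Few.mono {x : ℤ} {k k' : ℕ} (h : Few x k) (hk : k ≤ k') : Few x k' :=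
  fun H => (h H).trans (by omega)

lemma Few.double {x : ℤ} {k : ℕ} (h : Few x k) : Few (2 * x) k := by
  intro H
  cases H with
  | zero => simp [alt]
  | succ H =>
    have := h H
    simp only [alt]
    rw [show 2 * x / 2 = x by omega]
    split_ifs at this ⊢ <;> omega

lemma Few.add_unit {x e : ℤ} {k : ℕ} (h : Few x k) (he : e = 0 ∨ e = 1 ∨ e = -1) :
    Few (x + e) (k + 1) := by
  intro H
  have h1 := h H
  have h2 := alt_succ H x
  have h3 := alt_pred H x
  rcases he with rfl | rfl | rfl
  · rw [add_zero]; omega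
  · split_ifs at h1 ⊢ <;> omega
  · rw [← sub_eq_add_neg]
    split_ifs at h1 ⊢ <;> omega

lemma Few.add_sum {x : ℤ} {k : ℕ} (h : Few x k) (I : Finset ℕ) (e : ℕ → ℤ)
    (he : ∀ v, e v = 0 ∨ e v = 1 ∨ e v = -1) (s : Finset ℕ) (hI : ∀ v ∈ s, v ∉ I → e v = 0) :
    Few (x + ∑ v ∈ s, e v) (k + (s.filter (· ∈ I)).card) := by
  induction s using Finset.induction_on with
  | empty => simpa using h
  | insert a s ha ih =>
    have ih' := ih fun v hv => hI v (mem_insert_of_mem hv)
    rw [sum_insert ha, filter_insert]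
    split_ifs with haI
    · rw [card_insert_of_notMem (fun h => ha (mem_filter.mp h).1), add_comm (e a), ← add_assoc,
        ← add_assoc]
      exact ih'.add_unit (he a)
    · rw [hI a (mem_insert_self _ _) haI, zero_add]
      exact ih'

/-- The alternating bit pattern of length `H`. -/
def pat : ℕ → ℕ
  | 0 => 0
  | H + 1 => 2 * pat H + (1 - pat H % 2)

lemma pat_lt (H : ℕ) : pat H < 2 ^ H := by
  induction H with
  | zero => simp [pat]
  | succ H ih => simp only [pat, pow_succ]; omega

lemma pat_pos (H : ℕ) : 0 < pat (H + 1) := by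
  simp only [pat]; omega

lemma alt_pat (H : ℕ) : alt H (pat H) = H := by
  induction H with
  | zero => rfl
  | succ H ih =>
    simp only [alt, pat]
    have h1 : ((2 * pat H + (1 - pat H % 2) : ℕ) : ℤ) / 2 = pat H := by omega
    rw [h1, ih, if_pos (by omega)]
    omega

lemma sum_half (f : ℕ → ℤ) (m : ℕ) :
    ∑ v ∈ range (2 * m), f (v / 2) = 2 * ∑ u ∈ range m, f u := by
  induction m with
  | zero => simp
  | succ m ih =>
    rw [show 2 * (m + 1) = 2 * m + 1 + 1 by ring, sum_range_succ, sum_range_succ, ih,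
      sum_range_succ, show 2 * m / 2 = m by omega, show (2 * m + 1) / 2 = m by omega]
    ring

lemma sum_level (f : ℕ → ℤ) (l : ℕ) :
    ∑ v ∈ Ico (2 ^ (l + 1)) (2 ^ (l + 2)), f (v / 2) = 2 * ∑ u ∈ Ico (2 ^ l) (2 ^ (l + 1)), f u := by
  rw [sum_Ico_eq_sub _ (Nat.pow_le_pow_right (by norm_num) (by omega)),
    sum_Ico_eq_sub _ (Nat.pow_le_pow_right (by norm_num) (by omega)),
    show 2 ^ (l + 2) = 2 * 2 ^ (l + 1) by ring, sum_half]
  conv_lhs => rw [show 2 ^ (l + 1) = 2 * 2 ^ l by ring, sum_half]
  rw [show 2 * 2 ^ l = 2 ^ (l + 1) by ring]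
  ring

/-- A set of nodes that agrees with the parent outside `I` has few signed binary digits in the
size of each level. -/
lemma few_level (P : ℕ → Prop) [DecidablePred P] (I : Finset ℕ) (h : ℕ)
    (hP : ∀ v, 0 < v → v < 2 ^ (h + 1) → v ∉ I → (P v ↔ P (v / 2))) :
    ∀ l ≤ h, Few (∑ u ∈ Ico (2 ^ l) (2 ^ (l + 1)), if P u then 1 else 0)
      (1 + (I.filter (· < 2 ^ (l + 1))).card) := by
  intro l
  induction l with
  | zero =>
    intro _
    have := few_zero.add_unit (e := if P 1 then 1 else 0) (by split_ifs <;> simp)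
    rw [show Ico (2 ^ 0) (2 ^ (0 + 1)) = ({1} : Finset ℕ) by decide, sum_singleton]
    rw [zero_add] at this
    exact this.mono (by omega)
  | succ l ih =>
    intro hl
    have h1 := (ih (by omega)).double
    let f : ℕ → ℤ := fun u => if P u then 1 else 0
    have h2 := h1.add_sum I (fun v => f v - f (v / 2))
      (fun v => by simp only [f]; split_ifs <;> simp) (Ico (2 ^ (l + 1)) (2 ^ (l + 2)))
      (fun v hv hvI => by
        rw [mem_Ico] at hv
        have hv0 : 0 < v := lt_of_lt_of_le (by positivity) hv.1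
        have hv1 : v < 2 ^ (h + 1) :=
          hv.2.trans_le (Nat.pow_le_pow_right (by norm_num) (by omega))
        simp only [f, hP v hv0 hv1 hvI, sub_self])
    rw [sum_sub_distrib, sum_level f l] at h2
    have e : 2 * (∑ u ∈ Ico (2 ^ l) (2 ^ (l + 1)), if P u then (1 : ℤ) else 0) +
        (∑ v ∈ Ico (2 ^ (l + 1)) (2 ^ (l + 2)), f v - 2 * ∑ u ∈ Ico (2 ^ l) (2 ^ (l + 1)), f u) =
        ∑ u ∈ Ico (2 ^ (l + 1)) (2 ^ (l + 1 + 1)), if P u then 1 else 0 := by
      simp only [f]; ring
    rw [e] at h2
    refine h2.mono ?_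
    have hd : Disjoint (I.filter (· < 2 ^ (l + 1)))
        ((Ico (2 ^ (l + 1)) (2 ^ (l + 2))).filter (· ∈ I)) := by
      rw [disjoint_left]
      intro v hv hv'
      have := (mem_filter.mp hv).2
      have := (mem_Ico.mp (mem_filter.mp hv').1).1
      omega
    rw [add_assoc, ← card_union_of_disjoint hd]
    refine Nat.add_le_add_left (card_le_card ?_) 1
    intro v hv
    have hlt : 2 ^ (l + 1) < 2 ^ (l + 1 + 1) := Nat.pow_lt_pow_right (by norm_num) (by omega)
    rcases mem_union.mp hv with h' | h'
    · exact mem_filter.mpr ⟨(mem_filter.mp h').1, (mem_filter.mp h').2.trans hlt⟩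
    · exact mem_filter.mpr ⟨(mem_filter.mp h').2, (mem_Ico.mp (mem_filter.mp h').1).2⟩

/-- Extension of an assignment by `false`. -/
def ez {N : ℕ} (z : Fin N → Bool) (v : ℕ) : Bool := if h : v < N then z ⟨v, h⟩ else false

/-- The constraint at node `c`: if `c` is the top or is marked, then a child of `c` is marked. -/
def tsat (N : ℕ) : Option ℕ → (Fin N → Bool) → Prop
  | none, _ => True
  | some c, z => (c = 0 ∨ ez z c = true) → ((c ≠ 0 ∧ ez z (2 * c) = true) ∨ ez z (2 * c + 1) = true)

/-- The variables of a constraint. -/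
def tscope (N : ℕ) : Option ℕ → Finset (Fin N)
  | none => ∅
  | some c => univ.filter fun v => v.1 ∈ ({c, 2 * c, 2 * c + 1} : Finset ℕ)

lemma tscope_card (N : ℕ) (c : Option ℕ) : (tscope N c).card ≤ 3 := by
  cases c with
  | none => simp [tscope]
  | some c =>
    refine le_trans (card_le_card_of_injOn (t := {c, 2 * c, 2 * c + 1}) Fin.val ?_
      Fin.val_injective.injOn) card_le_three
    intro v hv
    exact (mem_filter.mp hv).2

lemma tsat_junta (N : ℕ) (c : Option ℕ) : JuntaOn (tscope N c) {z | tsat N c z} := by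
  cases c with
  | none => intro _ _ _ _; trivial
  | some c =>
    intro z z' h hz
    have : ∀ v ∈ ({c, 2 * c, 2 * c + 1} : Finset ℕ), ez z' v = ez z v := by
      intro v hv
      unfold ez
      split_ifs with hvN
      · exact (h ⟨v, hvN⟩ (mem_filter.mpr ⟨mem_univ _, hv⟩)).symm
      · rfl
    simp only [Set.mem_ofPred_eq, tsat] at hz ⊢
    rw [this c (by simp), this (2 * c) (by simp), this (2 * c + 1) (by simp)]
    exact hz

open Classical in
/-- The assignment marking the path from the root to `u`. -/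
noncomputable def crit (N u : ℕ) : Fin N → Bool := fun v => decide (v.1 ≠ 0 ∧ ∃ i, u / 2 ^ i = v.1)

lemma ez_crit {N u : ℕ} (hu : u < N) (v : ℕ) :
    ez (crit N u) v = true ↔ v ≠ 0 ∧ ∃ i, u / 2 ^ i = v := by
  unfold ez
  split_ifs with h
  · simp [crit]
  · simp only [false_iff, not_and, not_exists]
    intro _ i hi
    have := Nat.div_le_self u (2 ^ i)
    omega

lemma crit_sat {N u : ℕ} (hu : u < N) (c : Option ℕ) (hc : c ≠ some u) : tsat N c (crit N u) := by
  cases c with
  | none => trivial
  | some c =>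
    have hcu : u ≠ c := fun h => hc (by rw [h])
    intro h
    simp only [ez_crit hu] at h ⊢
    have hex : ∃ i, u / 2 ^ i = c := by
      rcases h with rfl | h
      · exact ⟨u, Nat.div_eq_of_lt Nat.lt_two_pow_self⟩
      · exact h.2
    have h1 := Nat.find_spec hex
    have h0 : Nat.find hex ≠ 0 := by
      intro h0
      rw [h0] at h1
      exact hcu (by simpa using h1)
    obtain ⟨i, hi⟩ := Nat.exists_eq_succ_of_ne_zero h0
    have h2 : u / 2 ^ i ≠ c := Nat.find_min hex (by omega)
    rw [hi, pow_succ, ← Nat.div_div_eq_div_mul] at h1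
    rcases Nat.mod_two_eq_zero_or_one (u / 2 ^ i) with h3 | h3
    · left
      exact ⟨by omega, by omega, i, by omega⟩
    · right
      exact ⟨by omega, i, by omega⟩

lemma crit_parent (N u : ℕ) (v : Fin N) (hv : v.1 ≠ u) : crit N u v = crit N (u / 2) v := by
  unfold crit
  refine decide_eq_decide.mpr (and_congr_right fun _ => ⟨?_, ?_⟩)
  · rintro ⟨i, hi⟩
    cases i with
    | zero => exact absurd (by simpa using hi.symm) hv
    | succ i => exact ⟨i, by rw [Nat.div_div_eq_div_mul, ← pow_succ', hi]⟩
  · rintro ⟨i, hi⟩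
    exact ⟨i + 1, by rw [pow_succ', ← Nat.div_div_eq_div_mul, hi]⟩

theorem not_refut (h k : ℕ) (hk : 2 * (k + 1) < h) :
    ¬ Refut (tsat (2 ^ (h + 1))) k Set.univ := by
  classical
  set N := 2 ^ (h + 1) with hN
  let wt : Set (Fin N → Bool) → ℕ := fun L =>
    ((Ico (2 ^ h) (2 ^ (h + 1))).filter fun u => crit N u ∈ L).card
  have key : ∀ L, Refut (tsat N) k L → wt L < pat h := by
    intro L hL
    induction hL with
    | empty =>
      obtain ⟨h', rfl⟩ : ∃ h', h = h' + 1 := ⟨h - 1, by omega⟩
      simpa [wt] using pat_pos h'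
    | step L L' I c hI hJ hs _ ih =>
      have h1 : wt L ≤ wt L' + 1 := by
        refine le_trans (card_le_card (t := insert (c.getD 0)
          ((Ico (2 ^ h) (2 ^ (h + 1))).filter fun u => crit N u ∈ L')) ?_) (card_insert_le _ _)
        intro u hu
        rw [mem_filter] at hu
        by_cases hc : c = some u
        · simp [hc]
        · exact mem_insert_of_mem (mem_filter.mpr
            ⟨hu.1, hs _ hu.2 (crit_sat (mem_Ico.mp hu.1).2 c hc)⟩)
      have h2 : wt L ≠ pat h := by
        intro heq
        have h3 := few_level (fun u => crit N u ∈ L) (I.image Fin.val) h (fun v _ _ hvI => by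
          have : ∀ u ∈ I, crit N v u = crit N (v / 2) u := fun u hu =>
            crit_parent N v u fun h => hvI (mem_image.mpr ⟨u, hu, h⟩)
          exact ⟨hJ _ _ this, hJ _ _ fun u hu => (this u hu).symm⟩) h le_rfl h
        have h4 : (∑ u ∈ Ico (2 ^ h) (2 ^ (h + 1)), if crit N u ∈ L then (1 : ℤ) else 0) =
            (pat h : ℕ) := by
          rw [← heq]; simp [wt]
        rw [h4, alt_pat] at h3
        have h5 : ((I.image Fin.val).filter (· < 2 ^ (h + 1))).card ≤ k :=
          (card_filter_le _ _).trans (card_image_le.trans hI)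
        omega
      omega
  intro hR
  have h1 := key _ hR
  have h2 := pat_lt h
  have h3 : wt Set.univ = 2 ^ h := by
    simp only [wt, Set.mem_univ, filter_true, Nat.card_Ico, pow_succ]; omega
  omega

end Pool.Agent.Lib.MP_5afa16_lc
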